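import Pool.Agent.Helper78.SchubOps

/-! Existence and uniqueness of the family of Schubert polynomials. -/

namespace Pool.Agent.Helper78.Schub

open Equiv MvPolynomial

variable {n : ℕ}

/-! ### inversions -/

theorem adj_lt (i : ℕ) (h : i + 1 < n) (p q : Fin n) (hpq : p < q)
    (hne : ¬ ((p : ℕ) = i ∧ (q : ℕ) = i + 1)) : adj i h p < adj i h q := by
  by_cases hp1 : (p : ℕ) = i
  · have ep : p = ⟨i, Nat.lt_of_succ_lt h⟩ := Fin.ext hp1
    have hq : (q : ℕ) ≠ i + 1 := fun e => hne ⟨hp1, e⟩
    have hpq' : (p : ℕ) < q := hpq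
    rw [ep, adj_left, adj_ne i h q (by omega) hq]
    show i + 1 < (q : ℕ)
    omega
  by_cases hp2 : (p : ℕ) = i + 1
  · have ep : p = ⟨i + 1, h⟩ := Fin.ext hp2
    have hpq' : (p : ℕ) < q := hpq
    rw [ep, adj_right, adj_ne i h q (by omega) (by omega)]
    show i < (q : ℕ)
    omega
  rw [adj_ne i h p hp1 hp2]
  have hpq' : (p : ℕ) < q := hpq
  by_cases hq1 : (q : ℕ) = i
  · have eq : q = ⟨i, Nat.lt_of_succ_lt h⟩ := Fin.ext hq1
    rw [eq, adj_left]
    show (p : ℕ) < i + 1
    omega
  by_cases hq2 : (q : ℕ) = i + 1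
  · have eq : q = ⟨i + 1, h⟩ := Fin.ext hq2
    rw [eq, adj_right]
    show (p : ℕ) < i
    omega
  rw [adj_ne i h q hq1 hq2]
  exact hpq

theorem adj_adj (i : ℕ) (h : i + 1 < n) (p : Fin n) : adj i h (adj i h p) = p := by
  have := adj_mul_self (n := n) i h
  rw [← Perm.mul_apply, this, Perm.one_apply]

theorem inv_mul_adj (w : Perm (Fin n)) (i : ℕ) (h : i + 1 < n)
    (hw : w ⟨i, Nat.lt_of_succ_lt h⟩ < w ⟨i + 1, h⟩) : inv (w * adj i h) = inv w + 1 := by
  classical
  unfold inv
  set s := adj i h with hs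
  set A := Finset.univ.filter fun p : Fin n × Fin n => p.1 < p.2 ∧ w p.2 < w p.1 with hA
  have hset : (Finset.univ.filter fun p : Fin n × Fin n => p.1 < p.2 ∧ (w * s) p.2 < (w * s) p.1)
      = insert (⟨i, Nat.lt_of_succ_lt h⟩, ⟨i + 1, h⟩) (A.image fun p => (s p.1, s p.2)) := by
    ext ⟨p, q⟩
    simp only [Finset.mem_filter, Finset.mem_univ, true_and, Finset.mem_insert, Finset.mem_image,
      Prod.mk.injEq, Prod.exists, hA, Perm.mul_apply]
    constructor
    · rintro ⟨hpq, hws⟩
      by_cases hne : (p : ℕ) = i ∧ (q : ℕ) = i + 1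
      · left; exact ⟨Fin.ext hne.1, Fin.ext hne.2⟩
      · right
        exact ⟨s p, s q, ⟨adj_lt i h p q hpq hne, hws⟩, adj_adj i h p, adj_adj i h q⟩
    · rintro (⟨rfl, rfl⟩ | ⟨a, b, ⟨hab, hwab⟩, rfl, rfl⟩)
      · refine ⟨by show i < i + 1; omega, ?_⟩
        rw [hs, adj_left, adj_right]
        exact hw
      · rw [hs, adj_adj, adj_adj]
        refine ⟨adj_lt i h a b hab ?_, hwab⟩
        rintro ⟨ha, hb⟩
        have ea : a = ⟨i, Nat.lt_of_succ_lt h⟩ := Fin.ext ha
        have eb : b = ⟨i + 1, h⟩ := Fin.ext hb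
        rw [ea, eb] at hwab
        exact absurd hwab (not_lt.2 hw.le)
  rw [hset, Finset.card_insert_of_notMem, Finset.card_image_of_injective]
  · rintro ⟨a, b⟩ ⟨c, d⟩ hh
    simp only [Prod.mk.injEq] at hh
    rw [s.injective hh.1, s.injective hh.2]
  · simp only [Finset.mem_image, Prod.mk.injEq, Prod.exists, not_exists, not_and, hA,
      Finset.mem_filter, Finset.mem_univ, true_and]
    rintro a b ⟨hab, -⟩ ha hb
    have ea : a = ⟨i + 1, h⟩ := by
      rw [← adj_adj i h a, ← hs, ha, hs, adj_left]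
    have eb : b = ⟨i, Nat.lt_of_succ_lt h⟩ := by
      rw [← adj_adj i h b, ← hs, hb, hs, adj_right]
    rw [ea, eb] at hab
    have : i + 1 < i := hab
    omega

theorem inv_mul_adj_desc (w : Perm (Fin n)) (i : ℕ) (h : i + 1 < n) (hw : Desc w i) :
    inv (w * adj i h) + 1 = inv w := by
  rw [desc_of w i h] at hw
  have h2 : (w * adj i h) ⟨i, Nat.lt_of_succ_lt h⟩ < (w * adj i h) ⟨i + 1, h⟩ := by
    rw [Perm.mul_apply, Perm.mul_apply, adj_left, adj_right]
    exact hw
  have := inv_mul_adj (w * adj i h) i h h2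
  rw [mul_assoc, adj_mul_self, mul_one] at this
  omega

theorem inv_lt_iff (w : Perm (Fin n)) (i : ℕ) (h : i + 1 < n) :
    inv (w * adj i h) < inv w ↔ Desc w i := by
  constructor
  · intro hlt
    by_contra hd
    rw [not_desc_of w i h] at hd
    have := inv_mul_adj w i h hd
    omega
  · intro hd
    have := inv_mul_adj_desc w i h hd
    omega

theorem inv_le (w : Perm (Fin n)) : inv w ≤ n * n := by
  unfold inv
  calc _ ≤ (Finset.univ : Finset (Fin n × Fin n)).card := Finset.card_filter_le _ _
    _ = n * n := by simp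

theorem inv_one : inv (1 : Perm (Fin n)) = 0 := by
  unfold inv
  rw [Finset.card_eq_zero, Finset.filter_eq_empty_iff]
  rintro ⟨p, q⟩ -
  simp only [Perm.one_apply, not_and, not_lt]
  exact fun h => h.le

theorem inv_rev : inv (Fin.revPerm : Perm (Fin n)) = ∑ j ∈ Finset.range n, (n - 1 - j) := by
  unfold inv
  have : (Finset.univ.filter fun p : Fin n × Fin n =>
      p.1 < p.2 ∧ (Fin.revPerm : Perm (Fin n)) p.2 < (Fin.revPerm : Perm (Fin n)) p.1)
      = Finset.univ.filter fun p : Fin n × Fin n => p.1 < p.2 := by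
    ext ⟨p, q⟩
    simp
  rw [this]
  have h2 : (Finset.univ.filter fun p : Fin n × Fin n => p.1 < p.2).card
      = ∑ p : Fin n, (Finset.univ.filter fun q : Fin n => p < q).card := by
    rw [← Finset.univ_product_univ, Finset.card_filter, Finset.sum_product]
    simp only [Finset.card_filter]
  rw [h2, Finset.sum_range]
  apply Finset.sum_congr rfl
  intro p _
  have : (Finset.univ.filter fun q : Fin n => p < q) = Finset.Ioi p := by
    ext q; simp
  rw [this, Fin.card_Ioi]

/-- A permutation without ascents is the longest element. -/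
theorem eq_rev_of_no_asc (w : Perm (Fin n))
    (hw : ∀ (i : ℕ) (h : i + 1 < n), Desc w i) : w = Fin.revPerm := by
  cases n with
  | zero => exact Subsingleton.elim _ _
  | succ m =>
    have hanti : StrictAnti w := by
      rw [Fin.strictAnti_iff_succ_lt]
      intro i
      have h := hw i (by omega)
      rw [desc_of w i (by omega)] at h
      exact h
    have hmono : StrictMono (fun i => w (Fin.rev i)) := by
      intro a b hab
      exact hanti (Fin.rev_lt_rev.2 hab)
    have hid : (fun i => w (Fin.rev i)) = id := by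
      have hb : Function.Bijective (fun i => w (Fin.rev i)) :=
        w.bijective.comp Fin.rev_bijective
      have hs := hb.surjective
      let e : Fin (m + 1) ≃o Fin (m + 1) := StrictMono.orderIsoOfSurjective _ hmono hs
      have : e = OrderIso.refl _ := Subsingleton.elim _ _
      funext i
      have h2 := congrArg (fun g : Fin (m + 1) ≃o Fin (m + 1) => g i) this
      simpa [e] using h2
    apply Equiv.ext
    intro i
    have := congrFun hid (Fin.rev i)
    simp only [Fin.rev_rev, id] at this
    rw [this]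
    simp

/-! ### uniqueness -/

theorem family_zero (D : Perm (Fin n) → MvPolynomial (Fin n) ℤ)
    (h0 : D Fin.revPerm = 0)
    (hstep : ∀ (w : Perm (Fin n)) (i : ℕ) (h : i + 1 < n), inv (w * adj i h) < inv w →
      (X ⟨i, Nat.lt_of_succ_lt h⟩ - X ⟨i + 1, h⟩) * D (w * adj i h)
      = D w - rename (adj i h) (D w)) : ∀ w, D w = 0 := by
  have key : ∀ (k : ℕ) (w : Perm (Fin n)), n * n - inv w = k → D w = 0 := by
    intro k
    induction k using Nat.strong_induction_on with
    | _ k ih =>
      intro w hk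
      by_cases hw : ∀ (i : ℕ) (h : i + 1 < n), Desc w i
      · rw [eq_rev_of_no_asc w hw, h0]
      · push Not at hw
        obtain ⟨i, h, hd⟩ := hw
        have hd' := hd
        rw [not_desc_of w i h] at hd'
        have h1 := inv_mul_adj w i h hd'
        have h2 := inv_le (w * adj i h)
        have h3 : D (w * adj i h) = 0 := ih (n * n - inv (w * adj i h)) (by omega) _ rfl
        have h4 := hstep (w * adj i h) i h (by
          rw [mul_assoc, adj_mul_self, mul_one]; omega)
        rw [mul_assoc, adj_mul_self, mul_one, h3, map_zero, sub_zero] at h4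
        rcases mul_eq_zero.1 h4 with h5 | h5
        · exfalso
          rw [sub_eq_zero] at h5
          have := X_injective h5
          simp at this
        · exact h5
  intro w
  exact key _ w rfl

theorem family_unique (S T : Perm (Fin n) → MvPolynomial (Fin n) ℤ)
    (hS : IsSchubertFamily n S) (hT : IsSchubertFamily n T) : S = T := by
  have := family_zero (fun w => S w - T w) (by simp [hS.top, hT.top]) (by
    intro w i h hlt
    have h1 := hS.step w i h hlt
    have h2 := hT.step w i h hlt
    simp only [map_sub, mul_sub, h1, h2]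
    ring)
  funext w
  exact sub_eq_zero.1 (this w)

/-! ### naturality of the row operators -/

variable {R S : Type*} [CommRing R] [CommRing S]

theorem hh_apply (i : ℕ) (x : R) (f : Perm (Fin n) → R) (v : Perm (Fin n)) :
    hh (U R n) i x f v = f v + x * (if Desc v i then f (v * sw n i) else 0) := by
  simp [hh, U_apply]

theorem hh_natural (φ : R →+* S) (i : ℕ) (x : R) (f : Perm (Fin n) → R) :
    (fun v => φ (hh (U R n) i x f v)) = hh (U S n) i (φ x) (fun v => φ (f v)) := by
  funext v
  rw [hh_apply, hh_apply, map_add, map_mul]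
  by_cases h : Desc v i <;> simp [h]

theorem row_natural (φ : R →+* S) (x : R) (m : ℕ) : ∀ (j : ℕ) (f : Perm (Fin n) → R),
    (fun v => φ (row (U R n) x j m f v)) = row (U S n) (φ x) j m (fun v => φ (f v)) := by
  induction m with
  | zero => intro j f; rfl
  | succ m ih =>
    intro j f
    have h1 : row (U R n) x j (m + 1) f = hh (U R n) j x (row (U R n) x (j + 1) m f) := rfl
    have h2 : ∀ g, row (U S n) (φ x) j (m + 1) g
        = hh (U S n) j (φ x) (row (U S n) (φ x) (j + 1) m g) := fun g => rfl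
    rw [h1, h2, hh_natural, ih]

/-! ### the Fomin–Stanley product -/

/-- the variables, extended by zero -/
noncomputable def xv (n k : ℕ) : MvPolynomial (Fin n) ℤ := if h : k < n then X ⟨k, h⟩ else 0

/-- initial vector -/
def dl (R : Type*) [CommRing R] (n : ℕ) : Perm (Fin n) → R := fun v => if v = 1 then 1 else 0

/-- rows applied so far, with row parameters `c` -/
noncomputable def FF (R : Type*) [CommRing R] (n : ℕ) (c : ℕ → R) : ℕ → Perm (Fin n) → R
  | 0 => dl R n
  | k + 1 => row (U R n) (c k) k (n - 1 - k) (FF R n c k)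

theorem FF_natural (φ : R →+* S) (c : ℕ → R) (k : ℕ) :
    (fun v => φ (FF R n c k v)) = FF S n (fun j => φ (c j)) k := by
  induction k with
  | zero =>
    funext v
    simp only [FF, dl]
    by_cases h : v = 1 <;> simp [h]
  | succ k ih =>
    simp only [FF]
    rw [row_natural, ih]

theorem FF_congr (c c' : ℕ → R) (k : ℕ) (h : ∀ j < k, c j = c' j) : FF R n c k = FF R n c' k := by
  induction k with
  | zero => rfl
  | succ k ih =>
    simp only [FF]
    rw [ih (fun j hj => h j (by omega)), h k (by omega)]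

/-- the swap of the variables as a ring hom -/
noncomputable def sg (i : ℕ) (h : i + 1 < n) : MvPolynomial (Fin n) ℤ →+* MvPolynomial (Fin n) ℤ :=
  (rename (adj i h) : MvPolynomial (Fin n) ℤ →ₐ[ℤ] MvPolynomial (Fin n) ℤ).toRingHom

theorem sg_apply (i : ℕ) (h : i + 1 < n) (p : MvPolynomial (Fin n) ℤ) :
    sg i h p = rename (adj i h) p := rfl

theorem sg_xv_left (i : ℕ) (h : i + 1 < n) : sg i h (xv n i) = xv n (i + 1) := by
  rw [sg_apply, xv, xv, dif_pos (by omega), dif_pos h, rename_X, adj_left]

theorem sg_xv_right (i : ℕ) (h : i + 1 < n) : sg i h (xv n (i + 1)) = xv n i := by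
  have h' : i < n := by omega
  rw [sg_apply, xv, xv, dif_pos h, dif_pos h', rename_X, adj_right]

theorem sg_xv_ne (i : ℕ) (h : i + 1 < n) (k : ℕ) (h1 : k ≠ i) (h2 : k ≠ i + 1) :
    sg i h (xv n k) = xv n k := by
  rw [sg_apply, xv]
  split_ifs with hk
  · rw [rename_X, adj_ne i h _ h1 h2]
  · simp

theorem FF_sg (i : ℕ) (h : i + 1 < n) (k : ℕ) (hk : k ≤ i) :
    (fun v => sg i h (FF _ n (xv n) k v)) = FF _ n (xv n) k := by
  rw [FF_natural]
  apply FF_congr
  intro j hj
  exact sg_xv_ne i h j (by omega) (by omega)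

theorem row_succ (x : R) (j m : ℕ) (f : Perm (Fin n) → R) :
    row (U R n) x j (m + 1) f = hh (U R n) j x (row (U R n) x (j + 1) m f) := rfl

theorem hh_neg_row (x : R) (j m : ℕ) (f : Perm (Fin n) → R) :
    row (U R n) x (j + 1) m f = hh (U R n) j (-x) (row (U R n) x j (m + 1) f) := by
  rw [row_succ, ← Module.End.mul_apply, hh_mul_neg (nilCox_U R n), Module.End.one_apply]

theorem dd_core (σ : R →+* R) (x y : R) (hx : σ x = y) (hy : σ y = x) (i m : ℕ)
    (f : Perm (Fin n) → R) (hf : (fun v => σ (f v)) = f) :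
    (x - y) • (U R n i) (row (U R n) y (i + 1) m (row (U R n) x i (m + 1) f))
      = row (U R n) y (i + 1) m (row (U R n) x i (m + 1) f)
        - fun v => σ (row (U R n) y (i + 1) m (row (U R n) x i (m + 1) f) v) := by
  have e2 : (fun v => σ (row (U R n) y (i + 1) m (row (U R n) x i (m + 1) f) v))
      = row (U R n) x (i + 1) m (row (U R n) y i (m + 1) f) := by
    rw [row_natural, row_natural, hf, hx, hy]
  rw [e2, hh_neg_row y, hh_neg_row x]
  have hc : row (U R n) y i (m + 1) (row (U R n) x i (m + 1) f)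
      = row (U R n) x i (m + 1) (row (U R n) y i (m + 1) f) := by
    rw [← Module.End.mul_apply, ← Module.End.mul_apply, row_comm (nilCox_U R n)]
  rw [hc]
  generalize row (U R n) x i (m + 1) (row (U R n) y i (m + 1) f) = G
  have hsq : ∀ g, U R n i (U R n i g) = 0 := by
    intro g
    rw [← Module.End.mul_apply, (nilCox_U R n).sq i]; rfl
  have hap : ∀ z : R, hh (U R n) i z G = G + z • U R n i G := by
    intro z
    simp [hh]
  rw [hap, hap, map_add, map_smul, hsq]
  module

theorem dd_base (i : ℕ) (h : i + 1 < n) :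
    (xv n i - xv n (i + 1)) • (U _ n i) (FF _ n (xv n) (i + 2))
      = FF _ n (xv n) (i + 2) - fun v => sg i h (FF _ n (xv n) (i + 2) v) := by
  have hm1 : n - 1 - i = (n - 1 - (i + 1)) + 1 := by omega
  have e1 : FF _ n (xv n) (i + 2) = row (U _ n) (xv n (i + 1)) (i + 1) (n - 1 - (i + 1))
      (row (U _ n) (xv n i) i ((n - 1 - (i + 1)) + 1) (FF _ n (xv n) i)) := by
    rw [← hm1]; rfl
  rw [e1]
  exact dd_core (sg i h) _ _ (sg_xv_left i h) (sg_xv_right i h) i _ _ (FF_sg i h i le_rfl)

theorem dd_all (i : ℕ) (h : i + 1 < n) (k : ℕ) :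
    (xv n i - xv n (i + 1)) • (U _ n i) (FF _ n (xv n) (i + 2 + k))
      = FF _ n (xv n) (i + 2 + k) - fun v => sg i h (FF _ n (xv n) (i + 2 + k) v) := by
  induction k with
  | zero => exact dd_base i h
  | succ k ih =>
    set P := MvPolynomial (Fin n) ℤ
    have e1 : FF P n (xv n) (i + 2 + (k + 1))
      = row (U P n) (xv n (i + 2 + k)) (i + 2 + k) (n - 1 - (i + 2 + k))
        (FF P n (xv n) (i + 2 + k)) := rfl
    have e2 : (fun v => sg i h (FF P n (xv n) (i + 2 + (k + 1)) v))
        = row (U P n) (xv n (i + 2 + k)) (i + 2 + k) (n - 1 - (i + 2 + k))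
          (fun v => sg i h (FF P n (xv n) (i + 2 + k) v)) := by
      rw [e1, row_natural, sg_xv_ne i h _ (by omega) (by omega)]
    rw [e2, e1]
    have e3 : ∀ g, U P n i (row (U P n) (xv n (i + 2 + k)) (i + 2 + k) (n - 1 - (i + 2 + k)) g)
      = row (U P n) (xv n (i + 2 + k)) (i + 2 + k) (n - 1 - (i + 2 + k)) (U P n i g) := by
      intro g
      rw [← Module.End.mul_apply, ← Module.End.mul_apply,
        u_comm_row (nilCox_U P n) i _ _ _ (by omega)]
    rw [e3, ← map_smul, ih, map_sub]

/-! ### support and the top coefficient -/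

/-- `f` vanishes above length `L` and takes only the values `0` and `c` at length `L` -/
def Pk (L : ℕ) (c : R) (f : Perm (Fin n) → R) : Prop :=
  (∀ v, L < inv v → f v = 0) ∧ (∀ v, inv v = L → f v = 0 ∨ f v = c)

theorem Pk_hh (L : ℕ) (c x : R) (f : Perm (Fin n) → R) (i : ℕ) (hf : Pk L c f) :
    Pk (L + 1) (x * c) (hh (U R n) i x f) := by
  constructor
  · intro v hv
    rw [hh_apply, hf.1 v (by omega)]
    split_ifs with hd
    · have hi := desc_lt hd
      have := inv_mul_adj_desc v i hi hd
      rw [sw_of i hi, hf.1 _ (by omega)]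
      simp
    · simp
  · intro v hv
    rw [hh_apply, hf.1 v (by omega)]
    split_ifs with hd
    · have hi := desc_lt hd
      have := inv_mul_adj_desc v i hi hd
      rw [sw_of i hi]
      rcases hf.2 (v * adj i hi) (by omega) with h0 | h0
      · left; rw [h0]; simp
      · right; rw [h0]; simp
    · left; simp

theorem Pk_row (x : R) (m : ℕ) : ∀ (j L : ℕ) (c : R) (f : Perm (Fin n) → R), Pk L c f →
    Pk (L + m) (x ^ m * c) (row (U R n) x j m f) := by
  induction m with
  | zero =>
    intro j L c f hf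
    have e : x ^ 0 * c = c := by simp
    rw [e]
    exact hf
  | succ m ih =>
    intro j L c f hf
    rw [row_succ]
    have := Pk_hh _ _ x _ j (ih (j + 1) L c f hf)
    have e : x ^ (m + 1) * c = x * (x ^ m * c) := by ring
    rw [e]
    exact this

theorem Pk_FF (c : ℕ → R) (k : ℕ) :
    Pk (∑ j ∈ Finset.range k, (n - 1 - j)) (∏ j ∈ Finset.range k, c j ^ (n - 1 - j))
      (FF R n c k) := by
  induction k with
  | zero =>
    constructor
    · intro v hv
      simp only [Finset.range_zero, Finset.sum_empty] at hv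
      simp only [FF, dl]
      rw [if_neg]
      rintro rfl
      rw [inv_one] at hv
      omega
    · intro v _
      simp only [FF, dl, Finset.range_zero, Finset.prod_empty]
      by_cases h : v = 1 <;> simp [h]
  | succ k ih =>
    have := Pk_row (c k) (n - 1 - k) k _ _ _ ih
    rw [Finset.sum_range_succ, Finset.prod_range_succ, mul_comm (∏ j ∈ _, _)]
    exact this

theorem not_desc_one (i : ℕ) : ¬ Desc (1 : Perm (Fin n)) i := by
  rintro ⟨h, hh⟩
  simp at hh

theorem hh_one (i : ℕ) (x : R) (f : Perm (Fin n) → R) : hh (U R n) i x f 1 = f 1 := by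
  rw [hh_apply, if_neg (not_desc_one i)]
  simp

theorem row_one (x : R) (m : ℕ) : ∀ (j : ℕ) (f : Perm (Fin n) → R),
    row (U R n) x j m f 1 = f 1 := by
  induction m with
  | zero => intro j f; rfl
  | succ m ih => intro j f; rw [row_succ, hh_one, ih]

theorem FF_one (c : ℕ → R) (k : ℕ) : FF R n c k 1 = 1 := by
  induction k with
  | zero => simp [FF, dl]
  | succ k ih => simp only [FF]; rw [row_one, ih]

theorem FF_step (w : Perm (Fin n)) (i : ℕ) (h : i + 1 < n) (hlt : inv (w * adj i h) < inv w) :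
    (X ⟨i, Nat.lt_of_succ_lt h⟩ - X ⟨i + 1, h⟩) * FF _ n (xv n) n (w * adj i h)
      = FF _ n (xv n) n w - rename (adj i h) (FF _ n (xv n) n w) := by
  obtain ⟨k, hk⟩ : ∃ k, n = i + 2 + k := ⟨n - (i + 2), by omega⟩
  have h1 := congrFun (dd_all i h k) w
  have hxi : xv n i = X ⟨i, Nat.lt_of_succ_lt h⟩ := by rw [xv, dif_pos (by omega)]
  have hxi1 : xv n (i + 1) = X ⟨i + 1, h⟩ := by rw [xv, dif_pos h]
  rw [← hk] at h1
  simp only [Pi.smul_apply, Pi.sub_apply, U_apply, smul_eq_mul, sg_apply] at h1
  rw [if_pos ((inv_lt_iff w i h).1 hlt), sw_of i h, hxi, hxi1] at h1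
  exact h1

theorem FF_top : FF _ n (xv n) n Fin.revPerm = ∏ i : Fin n, X i ^ (n - 1 - (i : ℕ)) := by
  have h1 := (Pk_FF (n := n) (xv n) n).2 Fin.revPerm inv_rev
  rcases h1 with h1 | h1
  · exfalso
    have := family_zero (FF _ n (xv n) n) h1 FF_step 1
    rw [FF_one] at this
    exact one_ne_zero this
  · rw [h1, Finset.prod_range]
    apply Finset.prod_congr rfl
    intro i _
    rw [xv, dif_pos i.2]

theorem isSchubertFamily_FF (n : ℕ) : IsSchubertFamily n (FF _ n (xv n) n) where
  top := FF_top
  step := FF_step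

theorem existsUnique_family (n : ℕ) : ∃! S, IsSchubertFamily n S :=
  ⟨_, isSchubertFamily_FF n, fun _ hT => family_unique _ _ hT (isSchubertFamily_FF n)⟩

end Pool.Agent.Helper78.Schub
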