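import Pool.Agent.Helper78.LimLimit

/-!
The growth rate of the maximal principal evaluation of Schubert polynomials exists.
-/

namespace Pool.Agent.Helper78.Lim

open Filter Topology MvPolynomial Pool.Agent.Helper78.Schub

theorem maxEval_pos (n : ℕ) (S : Equiv.Perm (Fin n) → MvPolynomial (Fin n) ℤ)
    (hS : IsSchubertFamily n S) : (1 : ℤ) ≤ maxEval n S := by
  have h2 : eval (fun _ => (1 : ℤ)) (S 1) ≤ maxEval n S :=
    Finset.le_sup' (fun w => eval (fun _ => (1 : ℤ)) (S w)) (Finset.mem_univ 1)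
  have h3 := eval_family n S hS 1
  rw [FF_one] at h3
  have : eval (fun _ => (1 : ℤ)) (S 1) = 1 := by exact_mod_cast h3
  omega

theorem log_le_V (n : ℕ) (S : Equiv.Perm (Fin n) → MvPolynomial (Fin n) ℤ)
    (hS : IsSchubertFamily n S) : Real.log (maxEval n S) ≤ V n := by
  obtain ⟨w, -, hw⟩ := Finset.exists_mem_eq_sup' (s := (Finset.univ : Finset (Equiv.Perm (Fin n))))
    Finset.univ_nonempty (fun w => eval (fun _ => (1 : ℤ)) (S w))
  have hw' : maxEval n S = eval (fun _ => (1 : ℤ)) (S w) := hw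
  have h1 := eval_family n S hS w
  have h2 := maxEval_pos n S hS
  have h3 : (0 : ℝ) < maxEval n S := by
    have : (1 : ℝ) ≤ maxEval n S := by exact_mod_cast h2
    linarith
  unfold V
  apply Real.log_le_log h3
  rw [hw', h1, ← sum_FF]
  exact Finset.single_le_sum (f := fun v => FF ℝ n (fun _ => 1) n v)
    (fun v _ => FF_nonneg n v) (Finset.mem_univ w)

theorem V_le_log (n : ℕ) (hn : 0 < n) (S : Equiv.Perm (Fin n) → MvPolynomial (Fin n) ℤ)
    (hS : IsSchubertFamily n S) : V n ≤ 2 * (n * Real.sqrt n) + Real.log (maxEval n S) := by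
  have h2 := maxEval_pos n S hS
  have h3 : (0 : ℝ) < maxEval n S := by
    have : (1 : ℝ) ≤ maxEval n S := by exact_mod_cast h2
    linarith
  have hn0 : (0 : ℝ) < n := by exact_mod_cast hn
  have h4 : ((Red n).card : ℝ) ≤ (n : ℝ) ^ n * maxEval n S := by
    rw [← sum_FF]
    calc ∑ v, FF ℝ n (fun _ => 1) n v
        ≤ ∑ v : Equiv.Perm (Fin n), (maxEval n S : ℝ) := by
          apply Finset.sum_le_sum
          intro v _
          rw [← eval_family n S hS v]
          have : eval (fun _ => (1 : ℤ)) (S v) ≤ maxEval n S :=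
            Finset.le_sup' (fun w => eval (fun _ => (1 : ℤ)) (S w)) (Finset.mem_univ v)
          exact_mod_cast this
      _ = (n.factorial : ℝ) * maxEval n S := by
          rw [Finset.sum_const, Finset.card_univ, Fintype.card_perm, Fintype.card_fin,
            nsmul_eq_mul]
      _ ≤ _ := by
          apply mul_le_mul_of_nonneg_right _ h3.le
          exact_mod_cast Nat.factorial_le_pow n
  have h5 := Real.log_le_log (by exact_mod_cast Red_pos n) h4
  rw [Real.log_mul (by positivity) h3.ne', Real.log_pow] at h5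
  have h6 := log_le_sqrt (n : ℝ) hn0
  unfold V
  nlinarith

theorem V_lower (n : ℕ) : Real.log 2 / 4 * ((n : ℝ) ^ 2 - n) ≤ V n := by
  have h1 := Red_lower n
  have h2 := Real.log_le_log (by positivity) h1
  rw [Real.log_pow, Real.log_pow] at h2
  have h3 : ∑ j ∈ Finset.range n, (n - 1 - j) = ∑ j ∈ Finset.range n, j :=
    Finset.sum_range_reflect (fun j => j) n
  have h4 := Finset.sum_range_id_mul_two n
  have h5 : ((∑ j ∈ Finset.range n, (n - 1 - j) : ℕ) : ℝ) * 2 = (n : ℝ) ^ 2 - n := by
    rw [h3]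
    rcases Nat.eq_zero_or_pos n with rfl | hn
    · simp
    · have h6 : ((∑ j ∈ Finset.range n, j : ℕ) : ℝ) * 2 = (n : ℝ) * ((n - 1 : ℕ) : ℝ) := by
        exact_mod_cast h4
      rw [h6, Nat.cast_sub hn]
      push_cast
      ring
  unfold V
  rw [← h5]
  push_cast at h2 ⊢
  linarith

/-- The growth rate exists. -/
theorem limit_main :
    (∀ n : ℕ, ∃! S : Equiv.Perm (Fin n) → MvPolynomial (Fin n) ℤ, IsSchubertFamily n S) ∧
    ∃ α : ℝ, 1 / 4 ≤ α ∧ α ≤ 0.3555 ∧
      ∀ S : (n : ℕ) → Equiv.Perm (Fin n) → MvPolynomial (Fin n) ℤ,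
        (∀ n, IsSchubertFamily n (S n)) →
        Tendsto (fun n : ℕ => Real.logb 2 (maxEval n (S n)) / (n : ℝ) ^ 2) atTop (𝓝 α) ∧
        (∃ ε : ℕ → ℝ, Tendsto ε atTop (𝓝 0) ∧
          ∀ n : ℕ, (maxEval n (S n) : ℝ) = (2 : ℝ) ^ (α * (n : ℝ) ^ 2 * (1 + ε n))) ∧
        (∀ n : ℕ, Real.logb 2 (maxEval n (S n)) ≤ 0.3555 * (n : ℝ) ^ 2 + 104 * n + 76) := by
  refine ⟨existsUnique_family, ?_⟩
  obtain ⟨L, hL⟩ := V_conv
  have hlog2 : 0 < Real.log 2 := Real.log_pos (by norm_num)
  have htend : ∀ S : (n : ℕ) → Equiv.Perm (Fin n) → MvPolynomial (Fin n) ℤ,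
        (∀ n, IsSchubertFamily n (S n)) →
        Tendsto (fun n : ℕ => Real.logb 2 (maxEval n (S n)) / (n : ℝ) ^ 2) atTop
          (𝓝 (L / Real.log 2)) := by
    intro S hS
    have h1 : Tendsto (fun n : ℕ => Real.log (maxEval n (S n)) / (n : ℝ) ^ 2) atTop (𝓝 L) := by
      have h2 : Tendsto (fun n : ℕ => V n / (n : ℝ) ^ 2 - 2 / Real.sqrt n) atTop (𝓝 (L - 0)) := by
        apply hL.sub
        apply Tendsto.div_atTop tendsto_const_nhds
        exact Real.tendsto_sqrt_atTop.comp tendsto_natCast_atTop_atTop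
      rw [sub_zero] at h2
      apply tendsto_of_tendsto_of_tendsto_of_le_of_le' h2 hL
      · filter_upwards [eventually_gt_atTop 0] with n hn
        have hn0 : (0 : ℝ) < n := by exact_mod_cast hn
        have h3 := V_le_log n hn (S n) (hS n)
        have h4 : 0 < Real.sqrt n := Real.sqrt_pos.2 hn0
        have h5 : (2 : ℝ) / Real.sqrt n = 2 * (n * Real.sqrt n) / (n : ℝ) ^ 2 := by
          have h6 : Real.sqrt n * Real.sqrt n = n := Real.mul_self_sqrt hn0.le
          rw [div_eq_div_iff h4.ne' (by positivity)]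
          calc (2 : ℝ) * (n : ℝ) ^ 2 = 2 * n * n := by ring
            _ = 2 * n * (Real.sqrt n * Real.sqrt n) := by rw [h6]
            _ = _ := by ring
        rw [h5, ← sub_div]
        apply div_le_div_of_nonneg_right _ (by positivity)
        linarith
      · filter_upwards with n
        apply div_le_div_of_nonneg_right _ (by positivity)
        exact log_le_V n (S n) (hS n)
    have h2 := h1.div_const (Real.log 2)
    refine h2.congr ?_
    intro n
    unfold Real.logb
    ring
  have hlow : 1 / 4 ≤ L / Real.log 2 := by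
    rw [le_div_iff₀ hlog2]
    have h1 : Tendsto (fun n : ℕ => Real.log 2 / 4 * (1 - 1 / (n : ℝ))) atTop
        (𝓝 (Real.log 2 / 4 * (1 - 0))) := by
      apply Tendsto.const_mul
      apply Tendsto.sub tendsto_const_nhds
      exact tendsto_one_div_atTop_nhds_zero_nat
    have h2 := le_of_tendsto_of_tendsto h1 hL (by
      filter_upwards [eventually_gt_atTop 0] with n hn
      have hn0 : (0 : ℝ) < n := by exact_mod_cast hn
      rw [le_div_iff₀ (by positivity)]
      have h3 := V_lower n
      calc Real.log 2 / 4 * (1 - 1 / (n : ℝ)) * (n : ℝ) ^ 2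
          = Real.log 2 / 4 * ((n : ℝ) ^ 2 - n) := by
            field_simp
        _ ≤ V n := h3)
    linarith
  refine ⟨L / Real.log 2, hlow, ?_, ?_⟩
  · have hS := fun n => isSchubertFamily_FF n
    have h1 := htend _ hS
    have h2 := (main.2 _ hS).2
    rw [h1.limsup_eq] at h2
    exact h2
  · intro S hS
    have h1 := htend S hS
    refine ⟨h1, ?_, (main.2 S hS).1⟩
    set α := L / Real.log 2 with hα
    have hα0 : 0 < α := by linarith
    refine ⟨fun n => Real.logb 2 (maxEval n (S n)) / (n : ℝ) ^ 2 / α - 1, ?_, ?_⟩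
    · have h2 := (h1.div_const α).sub_const 1
      rwa [div_self hα0.ne', sub_self] at h2
    · intro n
      have h2 : (0 : ℝ) < maxEval n (S n) := by
        have : (1 : ℝ) ≤ maxEval n (S n) := by exact_mod_cast maxEval_pos n (S n) (hS n)
        linarith
      rcases Nat.eq_zero_or_pos n with rfl | hn
      · have h3 : (maxEval 0 (S 0) : ℝ) = 1 := by
          have h4 := log_le_V 0 (S 0) (hS 0)
          have h5 := V_le 0
          have h6 : Real.log (maxEval 0 (S 0)) ≤ 0 := by
            norm_num at h5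
            linarith
          have h7 : (1 : ℝ) ≤ maxEval 0 (S 0) := by
            exact_mod_cast maxEval_pos 0 (S 0) (hS 0)
          have h8 : Real.log (maxEval 0 (S 0)) = 0 := le_antisymm h6 (Real.log_nonneg h7)
          have h9 := Real.exp_log h2
          rw [h8, Real.exp_zero] at h9
          exact h9.symm
        rw [h3]
        simp
      · have hn0 : (0 : ℝ) < n := by exact_mod_cast hn
        have h3 : α * (n : ℝ) ^ 2 * (1 + (Real.logb 2 (maxEval n (S n)) / (n : ℝ) ^ 2 / α - 1))
            = Real.logb 2 (maxEval n (S n)) := by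
          field_simp
          ring
        rw [h3, Real.rpow_logb (by norm_num) (by norm_num) h2]

end Pool.Agent.Helper78.Lim
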