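import Pool.Agent.Helper78.LimMacro

/-!
Global comparison of heights: the large staircase against the blown up small one.
-/

namespace Pool.Agent.Helper78.Lim

variable {D D0 : ℕ → ℕ → Prop} {h g0 : ℕ → ℕ → ℤ}

/-- The box `(α, β)` of the large staircase is filled with copies. -/
def Good (D : ℕ → ℕ → Prop) (g0 : ℕ → ℕ → ℤ) (m b α β : ℕ) (e : ℤ) : Prop :=
  ∃ δ : ℤ, 0 ≤ δ ∧ 6 * m * δ ≤ e ∧
    (∀ y ≤ b, |g0 (α * b + y) (β * b + b) - g0 (α * b) (β * b + b)
      - (g0 (α * b + y) (β * b) - g0 (α * b) (β * b))| ≤ δ) ∧
    (∀ x ≤ b, |g0 (α * b + b) (β * b + x) - g0 (α * b) (β * b + x)
      - (g0 (α * b + b) (β * b) - g0 (α * b) (β * b))| ≤ δ) ∧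
    ∀ s < m, ∀ t < m, ∃ (D' : ℕ → ℕ → Prop) (h' : ℕ → ℕ → ℤ), Fld D' h' ∧
      (∀ y x, y < b → x < b →
        (D (α * (m * b) + s * b + y) (β * (m * b) + t * b + x) ↔ D' (α * b + y) (β * b + x))) ∧
      (∀ x ≤ b, h' (α * b) (β * b + x) = g0 (α * b) (β * b + x)) ∧
      (∀ y ≤ b, h' (α * b + y) (β * b + b) = g0 (α * b + y) (β * b + b)) ∧
      (∀ y ≤ b, h' (α * b + y) (β * b) = g0 (α * b + y) (β * b)) ∧
      (∀ x ≤ b, h' (α * b + b) (β * b + x) = g0 (α * b + b) (β * b + x))

theorem macro_bound (hF : Fld D h) (hF0 : Fld D0 g0) (m b G : ℕ) (hm : 0 < m) (hb : 0 < b)
    (e w : ℤ) (he : 0 ≤ e)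
    (hwall : ∀ r c, r + c = G * (m * b) → (m : ℤ) * w ≤ h r c)
    (hwall0 : ∀ r c, r + c = G * b → g0 r c ≤ w)
    (htop : ∀ β < G, ∀ X ≤ m * b, per m b (fun x => g0 0 (β * b + x)) X ≤ h 0 (β * (m * b) + X))
    (hbox : ∀ α β, α + β + 2 ≤ G →
      (∀ y x, y < m * b → x < m * b → D (α * (m * b) + y) (β * (m * b) + x)) ∨
      Good D g0 m b α β e)
    (htri : ∀ α β, α + β + 1 = G → ∀ y x, y + x + 2 ≤ m * b →
      D (α * (m * b) + y) (β * (m * b) + x)) :
    ∀ α < G, ∀ Y ≤ m * b,
      per m b (fun y => g0 (α * b + y) 0) Y - 2 * G * e ≤ h (α * (m * b) + Y) 0 := by
  have main : ∀ α ≤ G,
      (∀ β, α + β + 1 ≤ G → ∀ X ≤ m * b,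
        per m b (fun x => g0 (α * b) (β * b + x)) X - e * ((G : ℤ) + α - 1 - β)
          ≤ h (α * (m * b)) (β * (m * b) + X)) ∧
      (∀ α' < α, ∀ Y ≤ m * b, per m b (fun y => g0 (α' * b + y) 0) Y - e * ((G : ℤ) + α')
        ≤ h (α' * (m * b) + Y) 0) := by
    intro α
    induction α with
    | zero =>
      intro _
      constructor
      · intro β hβ X hX
        have h1 := htop β (by omega) X hX
        have h2 : 0 ≤ e * ((G : ℤ) + (0 : ℕ) - 1 - β) := by
          apply mul_nonneg he
          have : (β : ℤ) + 1 ≤ G := by exact_mod_cast (by omega : β + 1 ≤ G)
          push_cast; linarith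
        simp only [zero_mul]
        linarith
      · intro α' h; omega
    | succ α ih =>
      intro hα
      obtain ⟨ihA, ihL⟩ := ih (by omega)
      have sweep : ∀ k β, α + β + 1 + k = G →
          (∀ Y ≤ m * b, per m b (fun y => g0 (α * b + y) (β * b)) Y - e * ((G : ℤ) + α - β)
            ≤ h (α * (m * b) + Y) (β * (m * b))) ∧
          (∀ β', β ≤ β' → α + β' + 2 ≤ G → ∀ X ≤ m * b,
            per m b (fun x => g0 ((α + 1) * b) (β' * b + x)) X
              - e * ((G : ℤ) + (α + 1 : ℕ) - 1 - β') ≤ h ((α + 1) * (m * b)) (β' * (m * b) + X)) := by
        intro k
        induction k with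
        | zero =>
          intro β hk
          have hk' : α + β + 1 = G := by omega
          constructor
          · intro Y hY
            have hT : ∀ X < m * b, per m b (fun x => g0 (α * b) (β * b + x)) X
                - e * ((G : ℤ) + α - 1 - β) ≤ per m b (fun x => g0 (α * b) (β * b + x)) (X + 1)
                - e * ((G : ℤ) + α - 1 - β) := by
              intro X hX
              have := per_mono hb (m := m) (fun x => g0 (α * b) (β * b + x))
                (fun x _ => hF0.right_le _ _) X hX
              linarith
            have key := full_tri hF (α * (m * b)) (β * (m * b)) (m * b)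
              (fun X => per m b (fun x => g0 (α * b) (β * b + x)) X - e * ((G : ℤ) + α - 1 - β))
              (m * w) (htri α β hk') hT (ihA β (by omega))
              (by
                intro y x hyx
                apply hwall
                calc α * (m * b) + y + (β * (m * b) + x) = (α + β) * (m * b) + (y + x) := by ring
                  _ = (α + β + 1) * (m * b) := by rw [hyx]; ring
                  _ = G * (m * b) := by rw [hk'])
              Y 0 (by omega)
            rw [add_zero] at key
            refine le_trans (le_min ?_ ?_) key
            · have h1 := per_le hm hb (fun y => g0 (α * b + y) (β * b))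
                (fun y => (y : ℤ) + g0 (α * b) (β * b))
                (fun y _ => by have := hF0.down_lip (α * b) (β * b) y; linarith) Y hY
              rw [per_add_const, per_id hm hb Y hY] at h1
              simp only [per_zero]
              simp only [add_zero]
              linarith
            · have h1 := per_le hm hb (fun y => g0 (α * b + y) (β * b)) (fun _ => w)
                (fun y hy => by
                  have h2 := hF0.right_mono (α * b + y) (β * b) (b - y)
                  refine h2.trans (hwall0 _ _ ?_)
                  have h3 : (α + β + 1) * b = G * b := by rw [hk']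
                  have h4 : (α + β + 1) * b = α * b + β * b + b := by ring
                  omega) Y hY
              rw [per_const] at h1
              have h2 : 0 ≤ e * ((G : ℤ) + α - β) := by
                apply mul_nonneg he
                have : (β : ℤ) + 1 ≤ G := by exact_mod_cast (by omega : β + 1 ≤ G)
                have : (0 : ℤ) ≤ α := Int.natCast_nonneg α
                linarith
              linarith
          · intro β' h1 h2; omega
        | succ k ihk =>
          intro β hk
          obtain ⟨hR1, hB1⟩ := ihk (β + 1) (by omega)
          have eb : (β + 1) * b = β * b + b := by ring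
          have emb : (β + 1) * (m * b) = β * (m * b) + m * b := by ring
          have ea : (α + 1) * b = α * b + b := by ring
          have eam : (α + 1) * (m * b) = α * (m * b) + m * b := by ring
          set err : ℤ := e * ((G : ℤ) + α - 1 - β) with herr
          have herr2 : e * ((G : ℤ) + α - β) = err + e := by simp only [herr]; ring
          have htop' := ihA β (by omega)
          have hright' : ∀ Y ≤ m * b, per m b (fun y => g0 (α * b + y) (β * b + b)) Y - err
              ≤ h (α * (m * b) + Y) (β * (m * b) + m * b) := by
            intro Y hY
            have h1 := hR1 Y hY
            rw [eb, emb] at h1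
            push_cast at h1
            have h2 : (G : ℤ) + α - (β + 1) = (G : ℤ) + α - 1 - β := by ring
            rw [h2] at h1
            exact h1
          have outs : (∀ Y ≤ m * b, per m b (fun y => g0 (α * b + y) (β * b)) Y - (err + e)
              ≤ h (α * (m * b) + Y) (β * (m * b))) ∧
              (∀ X ≤ m * b, per m b (fun x => g0 (α * b + b) (β * b + x)) X - (err + e)
                ≤ h (α * (m * b) + m * b) (β * (m * b) + X)) := by
            rcases hbox α β (by omega) with hfull | ⟨δ, hδ, hδe, hM1, hM2, hcopy⟩
            · have key := full_box hF (α * (m * b)) (β * (m * b)) (m * b)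
                (fun X => per m b (fun x => g0 (α * b) (β * b + x)) X - err)
                (fun Y => per m b (fun y => g0 (α * b + y) (β * b + b)) Y - err)
                hfull
                (fun X hX => by
                  have := per_mono hb (m := m) (fun x => g0 (α * b) (β * b + x))
                    (fun x _ => hF0.right_le _ _) X hX
                  linarith)
                (fun Y hY => by
                  have := per_lip hb (m := m) (fun y => g0 (α * b + y) (β * b + b))
                    (fun x _ => hF0.down_ge _ _) Y hY
                  linarith)
                htop' hright'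
              constructor
              · intro Y hY
                have h1 := key Y hY 0 (Nat.zero_le _)
                rw [add_zero] at h1
                refine le_trans (le_min ?_ ?_) h1
                · have h1 := per_le hm hb (fun y => g0 (α * b + y) (β * b))
                    (fun y => (y : ℤ) + g0 (α * b) (β * b))
                    (fun y _ => by have := hF0.down_lip (α * b) (β * b) y; linarith) Y hY
                  rw [per_add_const, per_id hm hb Y hY] at h1
                  simp only [per_zero, add_zero]
                  linarith
                · have h1 := per_le hm hb (fun y => g0 (α * b + y) (β * b))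
                    (fun y => g0 (α * b + y) (β * b + b))
                    (fun y _ => hF0.right_mono _ _ _) Y hY
                  linarith
              · intro X hX
                have h1 := key (m * b) le_rfl X hX
                refine le_trans (le_min ?_ ?_) h1
                · have h1 := per_le hm hb (fun x => g0 (α * b + b) (β * b + x))
                    (fun x => g0 (α * b) (β * b + x) + (b : ℤ))
                    (fun x _ => hF0.down_lip _ _ _) X hX
                  rw [per_add_const] at h1
                  push_cast
                  linarith
                · have h1 := per_le hm hb (fun x => g0 (α * b + b) (β * b + x))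
                    (fun _ => g0 (α * b + b) (β * b + b))
                    (fun x hx => by
                      have h2 := hF0.right_mono (α * b + b) (β * b + x) (b - x)
                      have h3 : β * b + x + (b - x) = β * b + b := by omega
                      rwa [h3] at h2) X hX
                  rw [per_const] at h1
                  simp only [per_end hb]
                  linarith
            · have key := good_box hF (α * (m * b)) (β * (m * b)) m b hm hb
                (fun y x => g0 (α * b + y) (β * b + x)) δ err hδ
                (by simpa using hM1) (by simpa using hM2)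
                (by
                  intro s hs t ht
                  obtain ⟨D', h', hF', hD', g1, g2, g3, g4⟩ := hcopy s hs t ht
                  exact ⟨D', h', α * b, β * b, hF', hD', by simpa using g1, by simpa using g2,
                    by simpa using g3, by simpa using g4⟩)
                (by simpa using htop') (by simpa using hright')
              obtain ⟨k1, k2⟩ := key
              constructor
              · intro Y hY
                have h1 := k1 Y hY
                simp only [add_zero] at h1
                linarith
              · intro X hX
                have h1 := k2 X hX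
                linarith
          constructor
          · intro Y hY
            rw [herr2]
            exact outs.1 Y hY
          · intro β' hβ' h2 X hX
            rcases hβ'.lt_or_eq with hlt | heq
            · exact hB1 β' hlt h2 X hX
            · subst heq
              rw [ea, eam]
              have h3 : e * ((G : ℤ) + (α + 1 : ℕ) - 1 - β) = err + e := by
                simp only [herr]; push_cast; ring
              rw [h3]
              exact outs.2 X hX
      constructor
      · intro β hβ X hX
        obtain ⟨-, sw2⟩ := sweep (G - (α + 1)) 0 (by omega)
        exact sw2 β (Nat.zero_le _) (by omega) X hX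
      · intro α' hα' Y hY
        rcases Nat.lt_succ_iff_lt_or_eq.1 hα' with hlt | heq
        · exact ihL α' hlt Y hY
        · subst heq
          obtain ⟨sw1, -⟩ := sweep (G - (α' + 1)) 0 (by omega)
          have := sw1 Y hY
          simpa using this
  intro α hα Y hY
  have h1 := (main G le_rfl).2 α hα Y hY
  have h2 : e * ((G : ℤ) + α) ≤ 2 * G * e := by
    have : (α : ℤ) ≤ G := by exact_mod_cast hα.le
    nlinarith
  linarith

end Pool.Agent.Helper78.Lim
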