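import Pool.Agent.Helper78.LimSum
import Pool.Agent.Helper78.LimMacro2

/-!
Assembly of a large set of crossings from patterns of the small ones.
-/

namespace Pool.Agent.Helper78.Lim

open Finset

/-- The height field of a set of crossings. -/
def hf (D : Finset (ℕ × ℕ)) (n i r c : ℕ) : ℤ := (H i (st D n r) (r + c) : ℤ)

theorem fld_hf (D : Finset (ℕ × ℕ)) (n i : ℕ) (hD : ∀ p ∈ D, p.1 + p.2 + 2 ≤ n) :
    Fld (fun r c => (r, c) ∈ D) (hf D n i) := fld D n i hD

/-- The local pattern in the box `(α, β)`. -/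
def loc (b α β : ℕ) (D : Finset (ℕ × ℕ)) : Finset (ℕ × ℕ) :=
  (range b ×ˢ range b).filter (fun p => (α * b + p.1, β * b + p.2) ∈ D)

theorem mem_loc (b α β : ℕ) (D : Finset (ℕ × ℕ)) (y x : ℕ) :
    (y, x) ∈ loc b α β D ↔ (y < b ∧ x < b) ∧ (α * b + y, β * b + x) ∈ D := by
  unfold loc
  rw [mem_filter, mem_product, mem_range, mem_range]

/-- A family of reduced sets with common data. -/
structure Fam (S t τ b G δ : ℕ) (F : Finset (Finset (ℕ × ℕ))) (D0 : Finset (ℕ × ℕ))
    (gd : ℕ → ℕ → Prop) : Prop where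
  hb : 0 < b
  hτ : 0 < τ
  ht : t = τ * b
  hn : G * b = S * t
  mem : D0 ∈ F
  red : ∀ D ∈ F, D ∈ Red (G * b)
  hrow : ∀ D ∈ F, ∀ k < S, ∀ α ≤ G, ∀ c ≤ G * b,
    hf D (G * b) (k * t) (α * b) c = hf D0 (G * b) (k * t) (α * b) c
  hcol : ∀ D ∈ F, ∀ k < S, ∀ r ≤ G * b, ∀ β ≤ G,
    hf D (G * b) (k * t) r (β * b) = hf D0 (G * b) (k * t) r (β * b)
  hcard : ∀ D ∈ F, ∀ α < G, ∀ β < G, (loc b α β D).card = (loc b α β D0).card
  gd_le : ∀ α β, gd α β → α + β + 2 ≤ G
  gd1 : ∀ α β, gd α β → ∀ k < S, ∀ y ≤ b,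
    |hf D0 (G * b) (k * t) (α * b + y) (β * b + b) - hf D0 (G * b) (k * t) (α * b) (β * b + b)
      - (hf D0 (G * b) (k * t) (α * b + y) (β * b) - hf D0 (G * b) (k * t) (α * b) (β * b))| ≤ δ
  gd2 : ∀ α β, gd α β → ∀ k < S, ∀ x ≤ b,
    |hf D0 (G * b) (k * t) (α * b + b) (β * b + x) - hf D0 (G * b) (k * t) (α * b) (β * b + x)
      - (hf D0 (G * b) (k * t) (α * b + b) (β * b) - hf D0 (G * b) (k * t) (α * b) (β * b))| ≤ δ

/-- indices of the copies -/
abbrev Idx (G m : ℕ) := Fin G × Fin G × Fin m × Fin m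

open scoped Classical in
/-- The allowed patterns. -/
noncomputable def KK (b G : ℕ) (F : Finset (Finset (ℕ × ℕ))) (gd : ℕ → ℕ → Prop) (α β : ℕ) :
    Finset (Finset (ℕ × ℕ)) :=
  if gd α β then F.image (loc b α β)
  else if α + β + 1 ≤ G then {range b ×ˢ range b} else {∅}

/-- total version -/
def ext {G m : ℕ} (φ : Idx G m → Finset (ℕ × ℕ)) (α β s t : ℕ) : Finset (ℕ × ℕ) :=
  if h : α < G ∧ β < G ∧ s < m ∧ t < m then
    φ (⟨α, h.1⟩, ⟨β, h.2.1⟩, ⟨s, h.2.2.1⟩, ⟨t, h.2.2.2⟩) else ∅

/-- The large set of crossings. -/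
def big (b : ℕ) {G m : ℕ} (φ : Idx G m → Finset (ℕ × ℕ)) : Finset (ℕ × ℕ) :=
  (rows (G * (m * b)) (G * (m * b))).toFinset.filter (fun p => (p.1 % b, p.2 % b) ∈
    ext φ (p.1 / b / m) (p.2 / b / m) (p.1 / b % m) (p.2 / b % m))

theorem idx_arith (m b α s y : ℕ) (hs : s < m) (hy : y < b) :
    (α * (m * b) + s * b + y) % b = y ∧ (α * (m * b) + s * b + y) / b / m = α ∧
      (α * (m * b) + s * b + y) / b % m = s := by
  have hb : 0 < b := by omega
  have e : α * (m * b) + s * b + y = y + (α * m + s) * b := by ring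
  have e1 : (α * (m * b) + s * b + y) / b = α * m + s := by
    rw [e, Nat.add_mul_div_right _ _ hb, Nat.div_eq_of_lt hy, zero_add]
  refine ⟨?_, ?_, ?_⟩
  · rw [e, Nat.add_mul_mod_self_right, Nat.mod_eq_of_lt hy]
  · rw [e1, add_comm, Nat.add_mul_div_right _ _ (by omega), Nat.div_eq_of_lt hs, zero_add]
  · rw [e1, add_comm, Nat.add_mul_mod_self_right, Nat.mod_eq_of_lt hs]

theorem mem_big {b G m : ℕ} (φ : Idx G m → Finset (ℕ × ℕ)) {α β s t y x : ℕ}
    (hα : α < G) (hβ : β < G) (hs : s < m) (ht : t < m) (hy : y < b) (hx : x < b) :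
    (α * (m * b) + s * b + y, β * (m * b) + t * b + x) ∈ big b φ ↔
      (α * (m * b) + s * b + y) + (β * (m * b) + t * b + x) + 2 ≤ G * (m * b) ∧
      (y, x) ∈ φ (⟨α, hα⟩, ⟨β, hβ⟩, ⟨s, hs⟩, ⟨t, ht⟩) := by
  unfold big
  rw [mem_filter, List.mem_toFinset, mem_rows]
  obtain ⟨a1, a2, a3⟩ := idx_arith m b α s y hs hy
  obtain ⟨b1, b2, b3⟩ := idx_arith m b β t x ht hx
  simp only [a1, a2, a3, b1, b2, b3]
  unfold ext
  rw [dif_pos ⟨hα, hβ, hs, ht⟩]
  apply and_congr_left
  intro _
  omega

theorem exists_idx {b G m : ℕ} (p : ℕ) (hp : p < G * (m * b)) :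
    ∃ α s y, α < G ∧ s < m ∧ y < b ∧ p = α * (m * b) + s * b + y := by
  have hb : 0 < b := by
    rcases Nat.eq_zero_or_pos b with h | h
    · subst h; simp at hp
    · exact h
  have hm : 0 < m := by
    rcases Nat.eq_zero_or_pos m with h | h
    · subst h; simp at hp
    · exact h
  refine ⟨p / b / m, p / b % m, p % b, ?_, Nat.mod_lt _ hm, Nat.mod_lt _ hb, ?_⟩
  · rw [Nat.div_div_eq_div_mul]
    apply Nat.div_lt_of_lt_mul
    calc p < G * (m * b) := hp
      _ = b * m * G := by ring
  · have h1 := Nat.div_add_mod p b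
    have h2 := Nat.div_add_mod (p / b) m
    calc p = b * (p / b) + p % b := h1.symm
      _ = b * (m * (p / b / m) + p / b % m) + p % b := by rw [h2]
      _ = _ := by ring

theorem big_cells {b G m : ℕ} (φ : Idx G m → Finset (ℕ × ℕ)) :
    ∀ p ∈ big b φ, p.1 + p.2 + 2 ≤ G * (m * b) := by
  intro p hp
  unfold big at hp
  rw [mem_filter, List.mem_toFinset, mem_rows] at hp
  exact hp.1.2

section

variable {S t τ b G δ m : ℕ} {F : Finset (Finset (ℕ × ℕ))} {D0 : Finset (ℕ × ℕ)}
  {gd : ℕ → ℕ → Prop}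

theorem Fam.cells (hF : Fam S t τ b G δ F D0 gd) (D : Finset (ℕ × ℕ)) (hD : D ∈ F) :
    ∀ p ∈ D, p.1 + p.2 + 2 ≤ G * b := ((mem_Red _ _).1 (hF.red D hD)).1

theorem box_sum_le (M b G α β y x : ℕ) (h : α + β + 2 ≤ G) (hy : y < M * b) (hx : x < M * b) :
    α * (M * b) + y + (β * (M * b) + x) + 2 ≤ G * (M * b) := by
  have h1 : (α + β + 2) * (M * b) ≤ G * (M * b) := Nat.mul_le_mul_right _ h
  have h2 : (α + β + 2) * (M * b) = α * (M * b) + β * (M * b) + 2 * (M * b) := by ring
  omega

theorem tri_sum_le (M b G α β y x : ℕ) (h : α + β + 1 = G) (hyx : y + x + 2 ≤ M * b) :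
    α * (M * b) + y + (β * (M * b) + x) + 2 ≤ G * (M * b) := by
  have h1 : (α + β + 1) * (M * b) = G * (M * b) := by rw [h]
  have h2 : (α + β + 1) * (M * b) = α * (M * b) + β * (M * b) + M * b := by ring
  omega

theorem Fam.heights (hF : Fam S t τ b G δ F D0 gd) (hm : 0 < m)
    (φ : Idx G m → Finset (ℕ × ℕ)) (hφ : ∀ i, φ i ∈ KK b G F gd i.1 i.2.1) (k : ℕ) (hk : k < S) :
    ∀ α < G, ∀ Y ≤ m * b,
      per m b (fun y => hf D0 (G * b) (k * t) (α * b + y) 0) Y - 2 * G * (6 * m * δ)
        ≤ hf (big b φ) (G * (m * b)) (m * (k * t)) (α * (m * b) + Y) 0 := by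
  classical
  have hb := hF.hb
  have hcell0 := hF.cells D0 hF.mem
  have hkt : k * t ≤ G * b := by
    rw [hF.hn]; exact Nat.mul_le_mul_right _ hk.le
  have hfull : ∀ α β, α + β + 1 ≤ G → ¬ gd α β → ∀ y x, y < m * b → x < m * b →
      α * (m * b) + y + (β * (m * b) + x) + 2 ≤ G * (m * b) →
      (α * (m * b) + y, β * (m * b) + x) ∈ big b φ := by
    intro α β hab hg y x hy hx hsum
    have hα : α < G := by omega
    have hβ : β < G := by omega
    obtain ⟨s, y', hs, hy', rfl⟩ := exists_rep' hb y hy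
    obtain ⟨t', x', ht', hx', rfl⟩ := exists_rep' hb x hx
    rw [← add_assoc, ← add_assoc, mem_big φ hα hβ hs ht' hy' hx']
    refine ⟨by rw [← add_assoc (α * (m * b)), ← add_assoc (β * (m * b))] at hsum; exact hsum, ?_⟩
    have h1 := hφ (⟨α, hα⟩, ⟨β, hβ⟩, ⟨s, hs⟩, ⟨t', ht'⟩)
    simp only [KK] at h1
    rw [if_neg hg, if_pos hab, mem_singleton] at h1
    rw [h1, mem_product, mem_range, mem_range]
    exact ⟨hy', hx'⟩
  apply macro_bound (D := fun r c => (r, c) ∈ big b φ) (D0 := fun r c => (r, c) ∈ D0)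
    (fld_hf _ _ _ (big_cells φ)) (fld_hf D0 (G * b) (k * t) hcell0) m b G hm hb
    (6 * m * δ) ((G * b : ℕ) - (k * t : ℕ)) (by positivity)
  · intro r c hrc
    unfold hf
    rw [hrc, H_wall _ _ _ _ _ le_rfl]
    have e : G * (m * b) = m * (G * b) := by ring
    rw [e, Nat.cast_sub (Nat.mul_le_mul_left _ hkt)]
    push_cast
    apply le_of_eq
    ring
  · intro r c hrc
    unfold hf
    rw [hrc, H_wall _ _ _ _ _ le_rfl, Nat.cast_sub hkt]
  · intro β _ X hX
    unfold hf
    simp only [H_top, zero_add]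
    have hkt' : k * t = (k * τ) * b := by rw [hF.ht]; ring
    have hmkt : m * (k * t) = (k * τ) * (m * b) := by rw [hF.ht]; ring
    rcases le_or_gt (k * τ) β with hle | hlt
    · obtain ⟨γ, hγ⟩ := Nat.exists_eq_add_of_le hle
      have e1 : (fun x : ℕ => ((β * b + x - k * t : ℕ) : ℤ))
          = fun x : ℕ => ((x : ℤ) + ((γ * b : ℕ) : ℤ)) := by
        funext x
        have : β * b + x - k * t = x + γ * b := by
          rw [hkt', hγ]
          have : (k * τ + γ) * b = k * τ * b + γ * b := by ring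
          rw [this]; omega
        rw [this]; push_cast; ring
      have e2 : β * (m * b) + X - m * (k * t) = X + m * (γ * b) := by
        rw [hmkt, hγ]
        have : (k * τ + γ) * (m * b) = k * τ * (m * b) + m * (γ * b) := by ring
        rw [this]; omega
      rw [e1, per_add_const, per_id hm hb X hX, e2]
      push_cast
      exact le_rfl
    · have e1 : per m b (fun x => ((β * b + x - k * t : ℕ) : ℤ)) X ≤ per m b (fun _ => 0) X := by
        apply per_le hm hb _ _ _ X hX
        intro x hx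
        have : β * b + x - k * t = 0 := by
          rw [hkt']
          have h1 : (β + 1) * b ≤ k * τ * b := Nat.mul_le_mul_right b hlt
          have h2 : (β + 1) * b = β * b + b := by ring
          omega
        rw [this]; rfl
      rw [per_const] at e1
      refine e1.trans ?_
      rw [mul_zero]
      exact Int.natCast_nonneg _
  · intro α β hab
    by_cases hg : gd α β
    · right
      have hα : α < G := by omega
      have hβ : β < G := by omega
      have hαb : α * b ≤ G * b := Nat.mul_le_mul_right _ hα.le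
      have hα1 : α * b + b ≤ G * b := by
        have : (α + 1) * b ≤ G * b := Nat.mul_le_mul_right _ hα
        linarith
      have hβ1 : β * b + b ≤ G * b := by
        have : (β + 1) * b ≤ G * b := Nat.mul_le_mul_right _ hβ
        linarith
      refine ⟨δ, by positivity, le_rfl, hF.gd1 α β hg k hk, hF.gd2 α β hg k hk, ?_⟩
      intro s hs t' ht'
      have h1 := hφ (⟨α, hα⟩, ⟨β, hβ⟩, ⟨s, hs⟩, ⟨t', ht'⟩)
      simp only [KK] at h1
      rw [if_pos hg, mem_image] at h1
      obtain ⟨D', hD', hloc⟩ := h1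
      refine ⟨fun r c => (r, c) ∈ D', hf D' (G * b) (k * t),
        fld_hf D' (G * b) (k * t) (hF.cells D' hD'), ?_, ?_, ?_, ?_, ?_⟩
      · intro y x hy hx
        show (_, _) ∈ big b φ ↔ (_, _) ∈ D'
        rw [mem_big φ hα hβ hs ht' hy hx, ← hloc, mem_loc]
        have hlt1 : s * b + y < m * b := by
          calc s * b + y < s * b + b := by omega
            _ = (s + 1) * b := by ring
            _ ≤ m * b := Nat.mul_le_mul_right b hs
        have hlt2 : t' * b + x < m * b := by
          calc t' * b + x < t' * b + b := by omega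
            _ = (t' + 1) * b := by ring
            _ ≤ m * b := Nat.mul_le_mul_right b ht'
        have h2 := box_sum_le m b G α β _ _ hab hlt1 hlt2
        constructor
        · rintro ⟨-, -, h⟩; exact h
        · intro h
          refine ⟨?_, ⟨hy, hx⟩, h⟩
          rw [add_assoc (α * (m * b)), add_assoc (β * (m * b))]
          exact h2
      · intro x hx
        exact hF.hrow D' hD' k hk α hα.le _ (by omega)
      · intro y hy
        have e : β * b + b = (β + 1) * b := by ring
        rw [e]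
        exact hF.hcol D' hD' k hk _ (by omega) (β + 1) hβ
      · intro y hy
        exact hF.hcol D' hD' k hk _ (by omega) β hβ.le
      · intro x hx
        have e : α * b + b = (α + 1) * b := by ring
        rw [e]
        exact hF.hrow D' hD' k hk (α + 1) hα _ (by omega)
    · left
      intro y x hy hx
      exact hfull α β (by omega) hg y x hy hx (box_sum_le m b G α β y x hab hy hx)
  · intro α β hab y x hyx
    have hg : ¬ gd α β := fun h => by have := hF.gd_le α β h; omega
    exact hfull α β (by omega) hg y x (by omega) (by omega) (tri_sum_le m b G α β y x hab hyx)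

theorem sum_div (k t : ℕ) (ht : 0 < t) (x : ℕ → ℕ) (q : ℕ) :
    (∑ p ∈ range q, if k ≤ x p / t then 1 else 0) = H (k * t) x q := by
  unfold H
  apply sum_congr rfl
  intro p _
  simp only [Nat.le_div_iff_mul_le ht]

theorem H_mono (i : ℕ) (x : ℕ → ℕ) (q d : ℕ) : H i x q ≤ H i x (q + d) := by
  unfold H
  apply sum_le_sum_of_subset
  intro p hp
  rw [mem_range] at hp ⊢
  omega

/-- The inversions of the final large word, from below. -/
theorem Fam.robust (hF : Fam S t τ b G δ F D0 gd) (hm : 0 < m)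
    (φ : Idx G m → Finset (ℕ × ℕ)) (hφ : ∀ i, φ i ∈ KK b G F gd i.1 i.2.1) :
    liv (G * (m * b)) (fun p => st D0 (G * b) (G * b) (pos m b p) / t)
      ≤ liv (G * (m * b)) (fun p => st (big b φ) (G * (m * b)) (G * (m * b)) p / (m * t))
        + 2 * (12 * G * m * δ) * (G * (m * b)) + (12 * G * m * δ) ^ 2 := by
  have hb := hF.hb
  have ht : 0 < t := by rw [hF.ht]; exact Nat.mul_pos hF.hτ hb
  have hmt : 0 < m * t := Nat.mul_pos hm ht
  unfold liv
  apply linv_robust
  · simp
  · simp
  · intro k q hq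
    rw [hgt_range k _ _ q hq, hgt_range k _ _ q hq]
    rcases Nat.eq_zero_or_pos G with hG | hG
    · subst hG
      have : q = 0 := by simpa using hq
      subst this
      simp
    obtain ⟨α, Y, hα, hY, rfl⟩ := exists_rep hG (Nat.mul_pos hm hb) q hq
    have h1 := sum_pos_per m b α Y hm hb hY
      (fun p => if k ≤ st D0 (G * b) (G * b) p / t then 1 else 0)
    have h2 : (fun y => ((∑ p ∈ range (α * b + y),
        (if k ≤ st D0 (G * b) (G * b) p / t then 1 else 0) : ℕ) : ℤ))
        = fun y => ((H (k * t) (st D0 (G * b) (G * b)) (α * b + y) : ℕ) : ℤ) := by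
      funext y
      rw [sum_div k t ht]
    rw [h2] at h1
    have hαb : ∀ y ≤ b, α * b + y ≤ G * b := by
      intro y hy
      have : (α + 1) * b ≤ G * b := Nat.mul_le_mul_right _ hα
      have e : (α + 1) * b = α * b + b := by ring
      omega
    have h5 : α * (m * b) + Y ≤ G * (m * b) := hq
    rw [sum_div k (m * t) hmt]
    generalize (∑ p ∈ range (α * (m * b) + Y),
      if k ≤ st D0 (G * b) (G * b) (pos m b p) / t then 1 else 0) = A at h1 ⊢
    by_cases hk : k < S
    · have h3 := hF.heights hm φ hφ k hk α hα Y hY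
      have h4 : per m b (fun y => ((H (k * t) (st D0 (G * b) (G * b)) (α * b + y) : ℕ) : ℤ)) Y
          ≤ per m b (fun y => hf D0 (G * b) (k * t) (α * b + y) 0) Y := by
        apply per_le hm hb _ _ _ Y hY
        intro y hy
        unfold hf
        rw [add_zero, H_left' _ _ _ _ (hαb y hy)]
      have h6 : hf (big b φ) (G * (m * b)) (m * (k * t)) (α * (m * b) + Y) 0
          = (H (k * (m * t)) (st (big b φ) (G * (m * b)) (G * (m * b))) (α * (m * b) + Y) : ℤ) := by
        unfold hf
        have e : m * (k * t) = k * (m * t) := by ring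
        rw [add_zero, H_left' _ _ _ _ h5, e]
      rw [h6] at h3
      zify
      rw [h1]
      linarith
    · have h4 : per m b (fun y => ((H (k * t) (st D0 (G * b) (G * b)) (α * b + y) : ℕ) : ℤ)) Y
          ≤ per m b (fun _ => 0) Y := by
        apply per_le hm hb _ _ _ Y hY
        intro y hy
        have h7 : H (k * t) (st D0 (G * b) (G * b)) (α * b + y) ≤ 0 := by
          obtain ⟨d, hd⟩ := Nat.exists_eq_add_of_le (hαb y hy)
          refine (H_mono _ _ _ d).trans ?_
          rw [← hd, H_wall _ _ _ _ _ le_rfl, hF.hn]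
          have : S * t ≤ k * t := Nat.mul_le_mul_right _ (not_lt.1 hk)
          omega
        exact_mod_cast h7
      rw [per_const, mul_zero] at h4
      have h8 : A ≤ 0 := by
        zify
        rw [h1]
        exact h4
      omega
  · intro k
    rw [hgt_range k _ _ _ le_rfl, hgt_range k _ _ _ le_rfl, sum_div k (m * t) hmt,
      H_wall _ _ _ _ _ le_rfl,
      sum_pos_full m b G (fun p => if k ≤ st D0 (G * b) (G * b) p / t then 1 else 0),
      sum_div k t ht, H_wall _ _ _ _ _ le_rfl, Nat.mul_sub]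
    congr 1
    · ring
    · ring

/-- The defect of the large set. -/
theorem Fam.eff_ge (hF : Fam S t τ b G δ F D0 gd) (hm : 0 < m)
    (φ : Idx G m → Finset (ℕ × ℕ)) (hφ : ∀ i, φ i ∈ KK b G F gd i.1 i.2.1) :
    m ^ 2 * D0.card ≤ (eff (big b φ) id (rows (G * (m * b)) (G * (m * b)))).card
      + m ^ 2 * (G * b * t + G * b ^ 2)
      + 2 * (12 * G * m * δ) * (G * (m * b)) + (12 * G * m * δ) ^ 2 := by
  have hb := hF.hb
  have ht : 0 < t := by rw [hF.ht]; exact Nat.mul_pos hF.hτ hb
  have h1 := hF.robust hm φ hφ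
  have h2 := liv_blow m b G (fun p => st D0 (G * b) (G * b) p / t)
  have h3 := liv_le_class (G * b) t ht (st D0 (G * b) (G * b))
    (run_inj _ _ _ Function.injective_id)
  have h4 := card_Red_eq D0 (G * b) (hF.red D0 hF.mem)
  have h5 := liv_map_le (G * (m * b)) (st (big b φ) (G * (m * b)) (G * (m * b)))
    (fun y => y / (m * t)) (fun _ _ h => Nat.div_le_div_right h)
  rw [card_eff]
  calc m ^ 2 * D0.card ≤ m ^ 2 * (liv (G * b) (fun p => st D0 (G * b) (G * b) p / t)
        + G * b * t) := by rw [h4]; exact Nat.mul_le_mul_left _ h3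
    _ = m ^ 2 * liv (G * b) (fun p => st D0 (G * b) (G * b) p / t) + m ^ 2 * (G * b * t) := by ring
    _ ≤ _ := by
      have e : m ^ 2 * (G * b * t + G * b ^ 2) = m ^ 2 * (G * b * t) + m ^ 2 * (G * b ^ 2) := by
        ring
      rw [e]
      omega

end

end Pool.Agent.Helper78.Lim
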