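import Mathlib

/-!
Height fields on the quarter plane driven by a set of crossings (min-plus linear dynamics), and
the comparison lemmas for boxes.
-/

namespace Pool.Agent.Helper78.Lim

/-- A height field driven by the set `D` of crossings. -/
structure Fld (D : ℕ → ℕ → Prop) (h : ℕ → ℕ → ℤ) : Prop where
  cross : ∀ r c, D r c → h (r + 1) c = min (h r c + 1) (h (r + 1) (c + 1))
  elbow : ∀ r c, ¬ D r c → h (r + 1) c = h r (c + 1)
  right_le : ∀ r c, h r c ≤ h r (c + 1)
  right_ge : ∀ r c, h r (c + 1) ≤ h r c + 1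
  down_le : ∀ r c, h r c ≤ h (r + 1) c
  down_ge : ∀ r c, h (r + 1) c ≤ h r c + 1

variable {D D' : ℕ → ℕ → Prop} {h h' : ℕ → ℕ → ℤ}

theorem Fld.right_mono (hF : Fld D h) (r c k : ℕ) : h r c ≤ h r (c + k) := by
  induction k with
  | zero => simp
  | succ k ih => exact ih.trans (hF.right_le r (c + k))

theorem Fld.right_lip (hF : Fld D h) (r c k : ℕ) : h r (c + k) ≤ h r c + k := by
  induction k with
  | zero => simp
  | succ k ih =>
    have := hF.right_ge r (c + k)
    push_cast
    rw [← add_assoc]
    linarith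

theorem Fld.down_mono (hF : Fld D h) (r c k : ℕ) : h r c ≤ h (r + k) c := by
  induction k with
  | zero => simp
  | succ k ih => exact ih.trans (hF.down_le (r + k) c)

theorem Fld.down_lip (hF : Fld D h) (r c k : ℕ) : h (r + k) c ≤ h r c + k := by
  induction k with
  | zero => simp
  | succ k ih =>
    have := hF.down_ge (r + k) c
    push_cast
    rw [← add_assoc]
    linarith

/-- The dynamics in a box is monotone and commutes with constants. -/
theorem box_le (hF : Fld D h) (hF' : Fld D' h') (R C R' C' b : ℕ) (e : ℤ)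
    (hD : ∀ y x, y < b → x < b → (D (R + y) (C + x) ↔ D' (R' + y) (C' + x)))
    (htop : ∀ x ≤ b, h' R' (C' + x) + e ≤ h R (C + x))
    (hright : ∀ y ≤ b, h' (R' + y) (C' + b) + e ≤ h (R + y) (C + b)) :
    ∀ y ≤ b, ∀ x ≤ b, h' (R' + y) (C' + x) + e ≤ h (R + y) (C + x) := by
  intro y
  induction y with
  | zero => intro _ x hx; exact htop x hx
  | succ y ih =>
    intro hy
    have ih := ih (by omega)
    have key : ∀ k x, x + k = b → h' (R' + (y + 1)) (C' + x) + e ≤ h (R + (y + 1)) (C + x) := by
      intro k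
      induction k with
      | zero =>
        intro x hx
        have hx' : x = b := by omega
        subst hx'
        exact hright (y + 1) hy
      | succ k ihk =>
        intro x hx
        have h1 := ihk (x + 1) (by omega)
        have hyb : y < b := by omega
        have hxb : x < b := by omega
        have hiff := hD y x hyb hxb
        by_cases hc : D (R + y) (C + x)
        · have e1 := hF.cross _ _ hc
          have e2 := hF'.cross _ _ (hiff.1 hc)
          have i1 := ih x hxb.le
          show h' (R' + y + 1) (C' + x) + e ≤ h (R + y + 1) (C + x)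
          rw [e1, e2]
          have h1' : h' (R' + y + 1) (C' + x + 1) + e ≤ h (R + y + 1) (C + x + 1) := h1
          rcases min_choice (h (R + y) (C + x) + 1) (h (R + y + 1) (C + x + 1)) with hm | hm
          · rw [hm]
            have := min_le_left (h' (R' + y) (C' + x) + 1) (h' (R' + y + 1) (C' + x + 1))
            linarith
          · rw [hm]
            have := min_le_right (h' (R' + y) (C' + x) + 1) (h' (R' + y + 1) (C' + x + 1))
            linarith
        · have e1 := hF.elbow _ _ hc
          have e2 := hF'.elbow _ _ (fun hh => hc (hiff.2 hh))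
          show h' (R' + y + 1) (C' + x) + e ≤ h (R + y + 1) (C + x)
          rw [e1, e2]
          exact ih (x + 1) hxb
    intro x hx
    exact key (b - x) x (by omega)

/-- Lower bound in a box all of whose cells are crossings. -/
theorem full_box (hF : Fld D h) (R C b : ℕ) (T Rt : ℕ → ℤ)
    (hD : ∀ y x, y < b → x < b → D (R + y) (C + x))
    (hT : ∀ x < b, T x ≤ T (x + 1)) (hR : ∀ y < b, Rt (y + 1) ≤ Rt y + 1)
    (htop : ∀ x ≤ b, T x ≤ h R (C + x)) (hright : ∀ y ≤ b, Rt y ≤ h (R + y) (C + b)) :
    ∀ y ≤ b, ∀ x ≤ b, min (T x + y) (Rt y) ≤ h (R + y) (C + x) := by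
  intro y
  induction y with
  | zero =>
    intro _ x hx
    refine (min_le_left _ _).trans ?_
    simpa using htop x hx
  | succ y ih =>
    intro hy
    have ih := ih (by omega)
    have key : ∀ k x, x + k = b →
        min (T x + ((y + 1 : ℕ) : ℤ)) (Rt (y + 1)) ≤ h (R + (y + 1)) (C + x) := by
      intro k
      induction k with
      | zero =>
        intro x hx
        have hx' : x = b := by omega
        subst hx'
        exact (min_le_right _ _).trans (hright (y + 1) hy)
      | succ k ihk =>
        intro x hx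
        have h1 := ihk (x + 1) (by omega)
        have hyb : y < b := by omega
        have hxb : x < b := by omega
        have e1 := hF.cross _ _ (hD y x hyb hxb)
        have i1 := ih x hxb.le
        have hT' := hT x hxb
        have hR' := hR y hyb
        show min (T x + ((y + 1 : ℕ) : ℤ)) (Rt (y + 1)) ≤ h (R + y + 1) (C + x)
        rw [e1]
        have h1' : min (T (x + 1) + ((y + 1 : ℕ) : ℤ)) (Rt (y + 1))
          ≤ h (R + y + 1) (C + x + 1) := h1
        apply le_min
        · rcases min_le_iff.1 i1 with hh | hh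
          · refine (min_le_left _ _).trans ?_
            push_cast; linarith
          · refine (min_le_right _ _).trans ?_
            linarith
        · refine le_trans ?_ h1'
          apply min_le_min _ le_rfl
          linarith
    intro x hx
    exact key (b - x) x (by omega)

/-- Lower bound in a triangle at the wall all of whose cells are crossings. -/
theorem full_tri (hF : Fld D h) (R C b : ℕ) (T : ℕ → ℤ) (W : ℤ)
    (hD : ∀ y x, y + x + 2 ≤ b → D (R + y) (C + x))
    (hT : ∀ x < b, T x ≤ T (x + 1))
    (htop : ∀ x ≤ b, T x ≤ h R (C + x)) (hwall : ∀ y x, y + x = b → W ≤ h (R + y) (C + x)) :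
    ∀ y x, y + x ≤ b → min (T x + y) W ≤ h (R + y) (C + x) := by
  intro y
  induction y with
  | zero =>
    intro x hx
    refine (min_le_left _ _).trans ?_
    simpa using htop x (by omega)
  | succ y ih =>
    have key : ∀ k x, y + 1 + x + k = b →
        min (T x + ((y + 1 : ℕ) : ℤ)) W ≤ h (R + (y + 1)) (C + x) := by
      intro k
      induction k with
      | zero =>
        intro x hx
        exact (min_le_right _ _).trans (hwall (y + 1) x (by omega))
      | succ k ihk =>
        intro x hx
        have h1 := ihk (x + 1) (by omega)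
        have hxb : x < b := by omega
        have e1 := hF.cross _ _ (hD y x (by omega))
        have i1 := ih x (by omega)
        have hT' := hT x hxb
        show min (T x + ((y + 1 : ℕ) : ℤ)) W ≤ h (R + y + 1) (C + x)
        rw [e1]
        have h1' : min (T (x + 1) + ((y + 1 : ℕ) : ℤ)) W ≤ h (R + y + 1) (C + x + 1) := h1
        apply le_min
        · rcases min_le_iff.1 i1 with hh | hh
          · refine (min_le_left _ _).trans ?_
            push_cast; linarith
          · refine (min_le_right _ _).trans ?_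
            linarith
        · refine le_trans ?_ h1'
          apply min_le_min _ le_rfl
          linarith
    intro x hx
    exact key (b - (y + 1 + x)) x (by omega)

/-! ### periodic profiles -/

/-- `m` consecutive copies of the profile `f` on `[0, b]`. -/
def per (m b : ℕ) (f : ℕ → ℤ) (X : ℕ) : ℤ :=
  m * f 0 + (X / b : ℕ) * (f b - f 0) + (f (X % b) - f 0)

theorem per_eq {m b : ℕ} (hb : 0 < b) (f : ℕ → ℤ) (t x : ℕ) (hx : x ≤ b) :
    per m b f (t * b + x) = ((m : ℤ) - 1 - t) * f 0 + t * f b + f x := by
  unfold per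
  rcases hx.lt_or_eq with hlt | heq
  · have h1 : (t * b + x) / b = t := by
      rw [add_comm, Nat.add_mul_div_right _ _ hb, Nat.div_eq_of_lt hlt, zero_add]
    have h2 : (t * b + x) % b = x := by
      rw [add_comm, Nat.add_mul_mod_self_right, Nat.mod_eq_of_lt hlt]
    rw [h1, h2]; ring
  · subst heq
    have h1 : (t * x + x) / x = t + 1 := by
      rw [← Nat.succ_mul, Nat.mul_div_cancel _ hb]
    have h2 : (t * x + x) % x = 0 := by
      rw [← Nat.succ_mul, Nat.mul_mod_left]
    rw [h1, h2]; push_cast; ring

theorem exists_rep {m b : ℕ} (hm : 0 < m) (hb : 0 < b) (X : ℕ) (hX : X ≤ m * b) :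
    ∃ t x, t < m ∧ x ≤ b ∧ X = t * b + x := by
  rcases hX.lt_or_eq with hlt | heq
  · refine ⟨X / b, X % b, ?_, (Nat.mod_lt _ hb).le, ?_⟩
    · exact Nat.div_lt_of_lt_mul (by rwa [mul_comm])
    · rw [mul_comm]; exact (Nat.div_add_mod X b).symm
  · refine ⟨m - 1, b, by omega, le_rfl, ?_⟩
    rw [heq, ← Nat.succ_mul]
    congr 1
    omega

theorem exists_rep' {m b : ℕ} (hb : 0 < b) (X : ℕ) (hX : X < m * b) :
    ∃ t x, t < m ∧ x < b ∧ X = t * b + x := by
  refine ⟨X / b, X % b, ?_, Nat.mod_lt _ hb, ?_⟩
  · exact Nat.div_lt_of_lt_mul (by rwa [mul_comm])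
  · rw [mul_comm]; exact (Nat.div_add_mod X b).symm

theorem per_le {m b : ℕ} (hm : 0 < m) (hb : 0 < b) (f f' : ℕ → ℤ) (hf : ∀ x ≤ b, f x ≤ f' x)
    (X : ℕ) (hX : X ≤ m * b) : per m b f X ≤ per m b f' X := by
  obtain ⟨t, x, ht, hx, rfl⟩ := exists_rep hm hb X hX
  rw [per_eq hb f t x hx, per_eq hb f' t x hx]
  have h1 : (0 : ℤ) ≤ (m : ℤ) - 1 - t := by
    have : (t : ℤ) + 1 ≤ m := by exact_mod_cast ht
    linarith
  have h2 := mul_le_mul_of_nonneg_left (hf 0 (Nat.zero_le _)) h1
  have h3 := mul_le_mul_of_nonneg_left (hf b le_rfl) (Int.natCast_nonneg t)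
  have h4 := hf x hx
  linarith

theorem per_mono {m b : ℕ} (hb : 0 < b) (f : ℕ → ℤ) (hf : ∀ x < b, f x ≤ f (x + 1))
    (X : ℕ) (hX : X < m * b) : per m b f X ≤ per m b f (X + 1) := by
  obtain ⟨t, x, ht, hx, rfl⟩ := exists_rep' hb X hX
  rw [add_assoc, per_eq hb f t x hx.le, per_eq hb f t (x + 1) hx]
  linarith [hf x hx]

theorem per_lip {m b : ℕ} (hb : 0 < b) (f : ℕ → ℤ) (hf : ∀ x < b, f (x + 1) ≤ f x + 1)
    (X : ℕ) (hX : X < m * b) : per m b f (X + 1) ≤ per m b f X + 1 := by
  obtain ⟨t, x, ht, hx, rfl⟩ := exists_rep' hb X hX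
  rw [add_assoc, per_eq hb f t x hx.le, per_eq hb f t (x + 1) hx]
  linarith [hf x hx]

theorem per_zero {m b : ℕ} (f : ℕ → ℤ) : per m b f 0 = m * f 0 := by
  unfold per; simp

theorem per_end {m b : ℕ} (hb : 0 < b) (f : ℕ → ℤ) : per m b f (m * b) = m * f b := by
  unfold per
  rw [Nat.mul_div_cancel _ hb, Nat.mul_mod_left]
  ring

theorem per_add_const {m b : ℕ} (f : ℕ → ℤ) (k : ℤ) (X : ℕ) :
    per m b (fun x => f x + k) X = per m b f X + m * k := by
  unfold per; ring

theorem per_const {m b : ℕ} (k : ℤ) (X : ℕ) : per m b (fun _ => k) X = m * k := by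
  unfold per; ring

theorem per_id {m b : ℕ} (hm : 0 < m) (hb : 0 < b) (X : ℕ) (hX : X ≤ m * b) :
    per m b (fun x => (x : ℤ)) X = X := by
  obtain ⟨t, x, ht, hx, rfl⟩ := exists_rep hm hb X hX
  rw [per_eq hb _ t x hx]
  push_cast; ring

end Pool.Agent.Helper78.Lim
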