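import Pool.Agent.Helper78.LimAsm

/-!
Counting the assembled sets.
-/

namespace Pool.Agent.Helper78.Lim

open Finset

open scoped Classical in
/-- The number of boxes that are not filled with patterns. -/
noncomputable def WW (G : ℕ) (gd : ℕ → ℕ → Prop) : ℕ :=
  ((range G ×ˢ range G).filter (fun p => p.1 + p.2 + 1 ≤ G ∧ ¬ gd p.1 p.2)).card

variable {S t τ b G δ m : ℕ} {F : Finset (Finset (ℕ × ℕ))} {D0 : Finset (ℕ × ℕ)}
  {gd : ℕ → ℕ → Prop}

theorem sum_loc_le (b G : ℕ) (hb : 0 < b) (D : Finset (ℕ × ℕ))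
    (hD : ∀ p ∈ D, p.1 + p.2 + 2 ≤ G * b) :
    ∑ p ∈ range G ×ˢ range G, (loc b p.1 p.2 D).card ≤ D.card := by
  rw [card_eq_sum_card_fiberwise (f := fun p : ℕ × ℕ => (p.1 / b, p.2 / b))
    (t := range G ×ˢ range G)]
  · apply sum_le_sum
    rintro ⟨α, β⟩ _
    apply card_le_card_of_injOn (fun p : ℕ × ℕ => (α * b + p.1, β * b + p.2))
    · rintro ⟨y, x⟩ hp
      have hp := mem_coe.1 hp
      rw [mem_loc] at hp
      obtain ⟨⟨hy, hx⟩, hpD⟩ := hp
      rw [mem_coe, mem_filter]
      refine ⟨hpD, ?_⟩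
      have h1 : (α * b + y) / b = α := by
        rw [add_comm, Nat.add_mul_div_right _ _ hb, Nat.div_eq_of_lt hy, zero_add]
      have h2 : (β * b + x) / b = β := by
        rw [add_comm, Nat.add_mul_div_right _ _ hb, Nat.div_eq_of_lt hx, zero_add]
      show ((α * b + y) / b, (β * b + x) / b) = (α, β)
      rw [h1, h2]
    · rintro ⟨y, x⟩ _ ⟨y', x'⟩ _ h
      simp only [Prod.mk.injEq] at h ⊢
      omega
  · rintro ⟨r, c⟩ hp
    have := hD _ (mem_coe.1 hp)
    simp only at this
    rw [mem_coe, mem_product, mem_range, mem_range]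
    constructor
    · exact Nat.div_lt_of_lt_mul (by rw [mul_comm]; omega)
    · exact Nat.div_lt_of_lt_mul (by rw [mul_comm]; omega)

theorem sum_idx (G m : ℕ) (f : ℕ → ℕ → ℕ) :
    ∑ i : Idx G m, f i.1 i.2.1 = m ^ 2 * ∑ p ∈ range G ×ˢ range G, f p.1 p.2 := by
  simp only [Idx, Fintype.sum_prod_type, sum_const, card_univ, Fintype.card_prod,
    Fintype.card_fin, smul_eq_mul]
  rw [sum_product, Finset.sum_range, mul_sum]
  apply sum_congr rfl
  intro α _
  rw [Finset.sum_range, mul_sum]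
  apply sum_congr rfl
  intro β _
  ring

theorem prod_idx (G m : ℕ) (f : ℕ → ℕ → ℕ) :
    ∏ i : Idx G m, f i.1 i.2.1 = (∏ p ∈ range G ×ˢ range G, f p.1 p.2) ^ (m ^ 2) := by
  simp only [Idx, Fintype.prod_prod_type, prod_const, card_univ, Fintype.card_prod,
    Fintype.card_fin]
  rw [prod_product, Finset.prod_range, ← prod_pow]
  apply prod_congr rfl
  intro α _
  rw [Finset.prod_range, ← prod_pow]
  apply prod_congr rfl
  intro β _
  rw [sq]

theorem prod_idx2 (G : ℕ) (f : ℕ → ℕ → ℕ) :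
    ∏ i : Fin G × Fin G, f i.1 i.2 = ∏ p ∈ range G ×ˢ range G, f p.1 p.2 := by
  simp only [Fintype.prod_prod_type]
  rw [prod_product, Finset.prod_range]
  apply prod_congr rfl
  intro α _
  rw [Finset.prod_range]

theorem Fam.card_big (hF : Fam S t τ b G δ F D0 gd)
    (φ : Idx G m → Finset (ℕ × ℕ)) (hφ : ∀ i, φ i ∈ KK b G F gd i.1 i.2.1) :
    (big b φ).card ≤ m ^ 2 * (D0.card + b ^ 2 * WW G gd) := by
  classical
  have hsub : big b φ ⊆ univ.biUnion (fun i : Idx G m => (φ i).image (fun p : ℕ × ℕ =>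
      ((i.1 : ℕ) * (m * b) + (i.2.2.1 : ℕ) * b + p.1,
        (i.2.1 : ℕ) * (m * b) + (i.2.2.2 : ℕ) * b + p.2))) := by
    rintro ⟨r, c⟩ hp
    have hc := big_cells φ _ hp
    simp only at hc
    obtain ⟨α, s, y, hα, hs, hy, rfl⟩ := exists_idx (b := b) (G := G) (m := m) r (by omega)
    obtain ⟨β, t', x, hβ, ht', hx, rfl⟩ := exists_idx (b := b) (G := G) (m := m) c (by omega)
    rw [mem_big φ hα hβ hs ht' hy hx] at hp
    rw [mem_biUnion]
    exact ⟨(⟨α, hα⟩, ⟨β, hβ⟩, ⟨s, hs⟩, ⟨t', ht'⟩), mem_univ _, mem_image.2 ⟨(y, x), hp.2, rfl⟩⟩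
  have h1 : (big b φ).card ≤ ∑ i : Idx G m, (φ i).card := by
    refine (card_le_card hsub).trans (card_biUnion_le.trans ?_)
    exact sum_le_sum fun i _ => card_image_le
  have h2 : ∀ i : Idx G m, (φ i).card ≤ (loc b i.1 i.2.1 D0).card
      + (if (i.1 : ℕ) + (i.2.1 : ℕ) + 1 ≤ G ∧ ¬ gd i.1 i.2.1 then b ^ 2 else 0) := by
    intro i
    have hi := hφ i
    unfold KK at hi
    split_ifs at hi with c1 c2
    · obtain ⟨D', hD', hloc⟩ := mem_image.1 hi
      rw [← hloc, hF.hcard D' hD' _ i.1.2 _ i.2.1.2]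
      exact Nat.le_add_right _ _
    · rw [mem_singleton] at hi
      rw [if_pos ⟨c2, c1⟩, hi, card_product, card_range, sq]
      exact Nat.le_add_left _ _
    · rw [mem_singleton] at hi
      rw [hi, card_empty]
      exact Nat.zero_le _
  refine (h1.trans (sum_le_sum fun i _ => h2 i)).trans ?_
  rw [sum_idx G m (fun α β => (loc b α β D0).card
      + (if α + β + 1 ≤ G ∧ ¬ gd α β then b ^ 2 else 0))]
  apply Nat.mul_le_mul_left
  rw [sum_add_distrib]
  apply Nat.add_le_add
  · exact sum_loc_le b G hF.hb D0 (hF.cells D0 hF.mem)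
  · rw [← sum_filter, sum_const, smul_eq_mul, mul_comm]
    unfold WW
    exact le_rfl

theorem Fam.big_inj (hF : Fam S t τ b G δ F D0 gd)
    (φ ψ : Idx G m → Finset (ℕ × ℕ)) (hφ : ∀ i, φ i ∈ KK b G F gd i.1 i.2.1)
    (hψ : ∀ i, ψ i ∈ KK b G F gd i.1 i.2.1) (h : big b φ = big b ψ) : φ = ψ := by
  funext i
  obtain ⟨⟨α, hα⟩, ⟨β, hβ⟩, ⟨s, hs⟩, ⟨t', ht'⟩⟩ := i
  have h1 := hφ (⟨α, hα⟩, ⟨β, hβ⟩, ⟨s, hs⟩, ⟨t', ht'⟩)
  have h2 := hψ (⟨α, hα⟩, ⟨β, hβ⟩, ⟨s, hs⟩, ⟨t', ht'⟩)
  unfold KK at h1 h2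
  simp only at h1 h2
  split_ifs at h1 h2 with c1 c2
  · have hab := hF.gd_le α β c1
    obtain ⟨D1, -, e1⟩ := mem_image.1 h1
    obtain ⟨D2, -, e2⟩ := mem_image.1 h2
    ext ⟨y, x⟩
    by_cases hyx : y < b ∧ x < b
    · have hlt1 : s * b + y < m * b := by
        calc s * b + y < s * b + b := by omega
          _ = (s + 1) * b := by ring
          _ ≤ m * b := Nat.mul_le_mul_right b hs
      have hlt2 : t' * b + x < m * b := by
        calc t' * b + x < t' * b + b := by omega
          _ = (t' + 1) * b := by ring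
          _ ≤ m * b := Nat.mul_le_mul_right b ht'
      have h3 := box_sum_le m b G α β _ _ hab hlt1 hlt2
      rw [← add_assoc (α * (m * b)), ← add_assoc (β * (m * b))] at h3
      have m1 := mem_big φ hα hβ hs ht' hyx.1 hyx.2
      have m2 := mem_big ψ hα hβ hs ht' hyx.1 hyx.2
      rw [h] at m1
      constructor
      · intro hh
        exact (m2.1 (m1.2 ⟨h3, hh⟩)).2
      · intro hh
        exact (m1.1 (m2.2 ⟨h3, hh⟩)).2
    · constructor
      · intro hh
        rw [← e1, mem_loc] at hh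
        exact absurd hh.1 hyx
      · intro hh
        rw [← e2, mem_loc] at hh
        exact absurd hh.1 hyx
  · rw [mem_singleton] at h1 h2
    rw [h1, h2]
  · rw [mem_singleton] at h1 h2
    rw [h1, h2]

open scoped Classical in
/-- patterns of the members of the family -/
noncomputable def RR (b G : ℕ) (F : Finset (Finset (ℕ × ℕ))) (gd : ℕ → ℕ → Prop) (α β : ℕ) :
    Finset (Finset (ℕ × ℕ)) :=
  if gd α β then F.image (loc b α β)
  else if α + β + 1 ≤ G then (range b ×ˢ range b).powerset else {∅}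

theorem Fam.card_F (hF : Fam S t τ b G δ F D0 gd) :
    F.card ≤ ∏ p ∈ range G ×ˢ range G, (RR b G F gd p.1 p.2).card := by
  classical
  have hb := hF.hb
  have h1 : F.card ≤ (Fintype.piFinset (fun i : Fin G × Fin G => RR b G F gd i.1 i.2)).card := by
    apply card_le_card_of_injOn (fun D i => loc b i.1 i.2 D)
    · intro D hD
      have hD := mem_coe.1 hD
      rw [mem_coe, Fintype.mem_piFinset]
      rintro ⟨⟨α, hα⟩, ⟨β, hβ⟩⟩
      show loc b α β D ∈ RR b G F gd α β
      unfold RR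
      split_ifs with c1 c2
      · exact mem_image_of_mem _ hD
      · rw [mem_powerset]
        exact filter_subset _ _
      · rw [mem_singleton]
        apply eq_empty_of_forall_notMem
        rintro ⟨y, x⟩ hyx
        rw [mem_loc] at hyx
        have h2 := hF.cells D hD _ hyx.2
        simp only at h2
        have h3 : G * b ≤ (α + β) * b := Nat.mul_le_mul_right _ (by omega)
        have h4 : (α + β) * b = α * b + β * b := by ring
        omega
    · intro D hD D' hD' h
      have key : ∀ D ∈ F, ∀ D' ∈ F, (∀ i : Fin G × Fin G, loc b i.1 i.2 D = loc b i.1 i.2 D') →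
          D ⊆ D' := by
        rintro D hD D' hD' h ⟨r, c⟩ hp
        have h2 := hF.cells D hD _ hp
        simp only at h2
        have hα : r / b < G := Nat.div_lt_of_lt_mul (by rw [mul_comm]; omega)
        have hβ : c / b < G := Nat.div_lt_of_lt_mul (by rw [mul_comm]; omega)
        have h3 := h (⟨r / b, hα⟩, ⟨c / b, hβ⟩)
        simp only at h3
        have e1 : r / b * b + r % b = r := by rw [mul_comm]; exact Nat.div_add_mod r b
        have e2 : c / b * b + c % b = c := by rw [mul_comm]; exact Nat.div_add_mod c b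
        have h4 : (r % b, c % b) ∈ loc b (r / b) (c / b) D := by
          rw [mem_loc, e1, e2]
          exact ⟨⟨Nat.mod_lt _ hb, Nat.mod_lt _ hb⟩, hp⟩
        rw [h3, mem_loc, e1, e2] at h4
        exact h4.2
      have hD := mem_coe.1 hD
      have hD' := mem_coe.1 hD'
      exact Subset.antisymm (key D hD D' hD' (fun i => congrFun h i))
        (key D' hD' D hD (fun i => (congrFun h i).symm))
  refine h1.trans ?_
  rw [Fintype.card_piFinset, prod_idx2 G (fun α β => (RR b G F gd α β).card)]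

theorem Fam.card_RR (hF : Fam S t τ b G δ F D0 gd) :
    ∏ p ∈ range G ×ˢ range G, (RR b G F gd p.1 p.2).card
      ≤ (∏ p ∈ range G ×ˢ range G, (KK b G F gd p.1 p.2).card) * 2 ^ (b ^ 2 * WW G gd) := by
  classical
  have h1 : ∀ p ∈ range G ×ˢ range G, (RR b G F gd p.1 p.2).card
      ≤ (KK b G F gd p.1 p.2).card
        * (if p.1 + p.2 + 1 ≤ G ∧ ¬ gd p.1 p.2 then 2 ^ (b ^ 2) else 1) := by
    intro p _
    unfold RR KK
    by_cases c1 : gd p.1 p.2
    · rw [if_pos c1, if_pos c1, if_neg (fun h => h.2 c1), mul_one]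
    · rw [if_neg c1, if_neg c1]
      by_cases c2 : p.1 + p.2 + 1 ≤ G
      · rw [if_pos c2, if_pos c2, if_pos ⟨c2, c1⟩, card_powerset, card_product, card_range,
          card_singleton, one_mul, sq]
      · rw [if_neg c2, if_neg c2, if_neg (fun h => c2 h.1), mul_one]
  refine (prod_le_prod' h1).trans ?_
  rw [prod_mul_distrib, ← prod_filter, prod_const, ← pow_mul]
  unfold WW
  exact le_rfl

theorem Fam.card_pow (hF : Fam S t τ b G δ F D0 gd) (m : ℕ) :
    F.card ^ (m ^ 2) ≤
      (Fintype.piFinset (fun i : Idx G m => KK b G F gd i.1 i.2.1)).card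
        * 2 ^ (m ^ 2 * (b ^ 2 * WW G gd)) := by
  rw [Fintype.card_piFinset, prod_idx G m (fun α β => (KK b G F gd α β).card)]
  have h1 := Nat.pow_le_pow_left (hF.card_F.trans hF.card_RR) (m ^ 2)
  rw [mul_pow, ← pow_mul, mul_comm (b ^ 2 * WW G gd)] at h1
  exact h1

/-- The defect. -/
noncomputable def dd (t b G δ m : ℕ) (W : ℕ) : ℕ :=
  m ^ 2 * (G * b * t + G * b ^ 2) + 2 * (12 * G * m * δ) * (G * (m * b)) + (12 * G * m * δ) ^ 2
    + m ^ 2 * (b ^ 2 * W)

theorem Fam.card_big_le (hF : Fam S t τ b G δ F D0 gd) (hm : 0 < m) :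
    (Fintype.piFinset (fun i : Idx G m => KK b G F gd i.1 i.2.1)).card
      ≤ (Red (G * (m * b))).card *
        (((rows (G * (m * b)) (G * (m * b))).toFinset.powerset).filter
          (fun X => X.card ≤ dd t b G δ m (WW G gd))).card := by
  classical
  rw [← card_product]
  set n' := G * (m * b) with hn'
  apply card_le_card_of_injOn (fun φ => (eff (big b φ) id (rows n' n'),
    big b φ \ eff (big b φ) id (rows n' n')))
  · intro φ hφ
    have hφ := mem_coe.1 hφ
    rw [Fintype.mem_piFinset] at hφ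
    rw [mem_coe, mem_product]
    refine ⟨eff_mem_Red _ _ (big_cells φ), ?_⟩
    rw [mem_filter, mem_powerset]
    constructor
    · refine sdiff_subset.trans ?_
      unfold big
      exact filter_subset _ _
    · have h1 := hF.eff_ge hm φ hφ
      have h2 := hF.card_big φ hφ
      rw [card_sdiff_of_subset (eff_subset _ _ _)]
      unfold dd
      have e : m ^ 2 * (D0.card + b ^ 2 * WW G gd)
          = m ^ 2 * D0.card + m ^ 2 * (b ^ 2 * WW G gd) := by ring
      rw [e] at h2
      rw [← hn'] at h1 ⊢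
      omega
  · intro φ hφ ψ hψ h
    have hφ := mem_coe.1 hφ
    have hψ := mem_coe.1 hψ
    rw [Fintype.mem_piFinset] at hφ hψ
    simp only [Prod.mk.injEq] at h
    apply hF.big_inj φ ψ hφ hψ
    rw [← union_sdiff_of_subset (eff_subset (big b φ) id (rows n' n')),
      ← union_sdiff_of_subset (eff_subset (big b ψ) id (rows n' n')), h.2, h.1]

/-- Main counting inequality. -/
theorem Fam.main_count (hF : Fam S t τ b G δ F D0 gd) (hm : 0 < m) :
    F.card ^ (m ^ 2) ≤ (Red (G * (m * b))).card *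
        (((rows (G * (m * b)) (G * (m * b))).toFinset.powerset).filter
          (fun X => X.card ≤ dd t b G δ m (WW G gd))).card * 2 ^ (m ^ 2 * (b ^ 2 * WW G gd)) :=
  (hF.card_pow m).trans (Nat.mul_le_mul_right _ (hF.card_big_le hm))

end Pool.Agent.Helper78.Lim
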