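import Pool.Agent.Helper78.LimPigeon

/-!
The main inequality for the logarithm of the number of reduced sets.
-/

namespace Pool.Agent.Helper78.Lim

open Finset

/-- The logarithm of the number of reduced sets. -/
noncomputable def V (n : ℕ) : ℝ := Real.log ((Red n).card : ℝ)

theorem Red_pos (n : ℕ) : 0 < (Red n).card := by
  apply card_pos.2
  refine ⟨∅, ?_⟩
  rw [mem_Red]
  exact ⟨fun p hp => absurd hp (notMem_empty p), Rd_none _ _ _ (fun p _ => notMem_empty p)⟩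

theorem binom_bound (C : Finset (ℕ × ℕ)) (s d : ℕ) (hs : 0 < s) :
    ((C.powerset.filter (fun X => X.card ≤ d)).card : ℝ)
      ≤ (s : ℝ) ^ d * (1 + 1 / (s : ℝ)) ^ C.card := by
  have hs' : (0 : ℝ) < s := by exact_mod_cast hs
  have hs1 : (1 : ℝ) ≤ s := by exact_mod_cast hs
  have h1 := sum_pow_mul_eq_add_pow (1 / (s : ℝ)) 1 C
  have h2 : ((C.powerset.filter (fun X => X.card ≤ d)).card : ℝ) * (1 / (s : ℝ)) ^ d
      ≤ (1 / (s : ℝ) + 1) ^ C.card := by
    rw [← h1]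
    calc ((C.powerset.filter (fun X => X.card ≤ d)).card : ℝ) * (1 / (s : ℝ)) ^ d
        = ∑ X ∈ C.powerset.filter (fun X => X.card ≤ d), (1 / (s : ℝ)) ^ d := by
          rw [sum_const, nsmul_eq_mul]
      _ ≤ ∑ X ∈ C.powerset.filter (fun X => X.card ≤ d),
            (1 / (s : ℝ)) ^ X.card * 1 ^ (C.card - X.card) := by
          apply sum_le_sum
          intro X hX
          rw [one_pow, mul_one]
          apply pow_le_pow_of_le_one (by positivity) _ (mem_filter.1 hX).2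
          rw [div_le_one hs']
          exact hs1
      _ ≤ _ := by
          apply sum_le_sum_of_subset_of_nonneg (filter_subset _ _)
          intro X _ _
          positivity
  have h3 : (s : ℝ) ^ d * (1 / (s : ℝ)) ^ d = 1 := by
    rw [← mul_pow, mul_one_div, div_self hs'.ne', one_pow]
  calc ((C.powerset.filter (fun X => X.card ≤ d)).card : ℝ)
      = (s : ℝ) ^ d * (((C.powerset.filter (fun X => X.card ≤ d)).card : ℝ) * (1 / (s : ℝ)) ^ d) := by
        rw [mul_left_comm, h3, mul_one]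
    _ ≤ (s : ℝ) ^ d * (1 / (s : ℝ) + 1) ^ C.card := mul_le_mul_of_nonneg_left h2 (by positivity)
    _ = _ := by rw [add_comm]

theorem log_binom (C : Finset (ℕ × ℕ)) (s d : ℕ) (hs : 0 < s) :
    Real.log ((C.powerset.filter (fun X => X.card ≤ d)).card : ℝ)
      ≤ d * s + C.card / s := by
  have hs' : (0 : ℝ) < s := by exact_mod_cast hs
  have hpos : (0 : ℝ) < ((C.powerset.filter (fun X => X.card ≤ d)).card : ℝ) := by
    have : 0 < (C.powerset.filter (fun X => X.card ≤ d)).card := by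
      apply card_pos.2
      refine ⟨∅, ?_⟩
      rw [mem_filter, mem_powerset]
      exact ⟨empty_subset _, by simp⟩
    exact_mod_cast this
  have h1 := Real.log_le_log hpos (binom_bound C s d hs)
  rw [Real.log_mul (by positivity) (by positivity), Real.log_pow, Real.log_pow] at h1
  have h2 : Real.log (s : ℝ) ≤ s := by
    have := Real.log_le_sub_one_of_pos hs'
    linarith
  have h3 : Real.log (1 + 1 / (s : ℝ)) ≤ 1 / s := by
    have := Real.log_le_sub_one_of_pos (show (0 : ℝ) < 1 + 1 / (s : ℝ) by positivity)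
    linarith
  have h4 := mul_le_mul_of_nonneg_left h2 (Nat.cast_nonneg (α := ℝ) d)
  have h5 := mul_le_mul_of_nonneg_left h3 (Nat.cast_nonneg (α := ℝ) C.card)
  have h6 : (C.card : ℝ) * (1 / s) = C.card / s := by ring
  rw [h6] at h5
  linarith

theorem card_rows_le (n : ℕ) : (rows n n).toFinset.card ≤ n ^ 2 := by
  have : (rows n n).toFinset ⊆ range n ×ˢ range n := by
    intro p hp
    rw [List.mem_toFinset, mem_rows] at hp
    rw [mem_product, mem_range, mem_range]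
    omega
  refine (card_le_card this).trans ?_
  rw [card_product, card_range, sq]

theorem log_le_sqrt (x : ℝ) (hx : 0 < x) : Real.log x ≤ 2 * Real.sqrt x := by
  have h1 : 0 < Real.sqrt x := Real.sqrt_pos.2 hx
  have h2 : Real.log x = 2 * Real.log (Real.sqrt x) := by
    rw [Real.log_sqrt hx.le]; ring
  have h3 := Real.log_le_sub_one_of_pos h1
  rw [h2]
  linarith

theorem log_card_data (J S N Gm : ℕ) (hJ : 0 < J) (hN : 0 < N) :
    Real.log (Fintype.card (Data J S N Gm) : ℝ)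
      ≤ ((J : ℝ) + 16 * (S * (Gm + 1)) + 8 * Gm ^ 2) * (N * Real.sqrt N) := by
  have hN1 : (1 : ℝ) ≤ N := by exact_mod_cast hN
  have hN0 : (0 : ℝ) < N := by linarith
  have hJ0 : (0 : ℝ) < J := by exact_mod_cast hJ
  have hs1 : (1 : ℝ) ≤ Real.sqrt N := by
    rw [Real.one_le_sqrt]; exact hN1
  have hcard : (Fintype.card (Data J S N Gm) : ℝ)
      = J * ((((((2 : ℝ) * N + 1) ^ (N + 1)) ^ (Gm + 1)) ^ S)
        * ((((((2 : ℝ) * N + 1) ^ (Gm + 1)) ^ (N + 1)) ^ S) * (((N : ℝ) ^ 2 + 1) ^ Gm) ^ Gm)) := by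
    simp only [Data, Fintype.card_prod, Fintype.card_fun, Fintype.card_fin]
    push_cast
    ring
  have h1 : Real.log ((2 : ℝ) * N + 1) ≤ 4 * Real.sqrt N := by
    have h2 := log_le_sqrt ((2 : ℝ) * N + 1) (by positivity)
    have h3 : Real.sqrt ((2 : ℝ) * N + 1) ≤ 2 * Real.sqrt N := by
      have : Real.sqrt ((2 : ℝ) * N + 1) ≤ Real.sqrt (2 ^ 2 * N) := by
        apply Real.sqrt_le_sqrt
        linarith
      rw [Real.sqrt_mul (by positivity), Real.sqrt_sq (by norm_num)] at this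
      exact this
    linarith
  have h2 : Real.log ((N : ℝ) ^ 2 + 1) ≤ 8 * Real.sqrt N := by
    have h3 : Real.log ((N : ℝ) ^ 2 + 1) ≤ Real.log (((2 : ℝ) * N + 1) ^ 2) := by
      apply Real.log_le_log (by positivity)
      nlinarith
    rw [Real.log_pow] at h3
    push_cast at h3
    linarith
  have h3 : Real.log (J : ℝ) ≤ J := by
    have := Real.log_le_sub_one_of_pos hJ0
    linarith
  rw [hcard, Real.log_mul (by positivity) (by positivity), Real.log_mul (by positivity)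
    (by positivity), Real.log_mul (by positivity) (by positivity)]
  simp only [Real.log_pow]
  push_cast
  have hSG : (0 : ℝ) ≤ S * (Gm + 1) := by positivity
  have e1 : (S : ℝ) * ((Gm + 1) * ((N + 1) * Real.log (2 * N + 1)))
      ≤ 8 * (S * (Gm + 1)) * (N * Real.sqrt N) := by
    have a1 : ((N : ℝ) + 1) * Real.log (2 * N + 1) ≤ (2 * N) * (4 * Real.sqrt N) := by
      apply mul_le_mul (by linarith) h1 (Real.log_nonneg (by linarith)) (by positivity)
    have a2 := mul_le_mul_of_nonneg_left a1 hSG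
    calc (S : ℝ) * ((Gm + 1) * ((N + 1) * Real.log (2 * N + 1)))
        = (S * (Gm + 1)) * ((N + 1) * Real.log (2 * N + 1)) := by ring
      _ ≤ _ := a2
      _ = _ := by ring
  have e2 : (Gm : ℝ) * (Gm * Real.log ((N : ℝ) ^ 2 + 1)) ≤ 8 * Gm ^ 2 * (N * Real.sqrt N) := by
    have a1 : Real.log ((N : ℝ) ^ 2 + 1) ≤ 8 * (N * Real.sqrt N) := by
      have : Real.sqrt N ≤ N * Real.sqrt N := by nlinarith
      linarith
    have a2 := mul_le_mul_of_nonneg_left a1 (show (0 : ℝ) ≤ (Gm : ℝ) ^ 2 by positivity)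
    calc (Gm : ℝ) * (Gm * Real.log ((N : ℝ) ^ 2 + 1)) = Gm ^ 2 * Real.log ((N : ℝ) ^ 2 + 1) := by ring
      _ ≤ _ := a2
      _ = _ := by ring
  have e3 : Real.log (J : ℝ) ≤ J * (N * Real.sqrt N) := by
    have : (1 : ℝ) ≤ N * Real.sqrt N := by nlinarith
    nlinarith
  have e4 : (S : ℝ) * ((N + 1) * ((Gm + 1) * Real.log (2 * N + 1)))
      ≤ 8 * (S * (Gm + 1)) * (N * Real.sqrt N) := by
    calc (S : ℝ) * ((N + 1) * ((Gm + 1) * Real.log (2 * N + 1)))
        = (S : ℝ) * ((Gm + 1) * ((N + 1) * Real.log (2 * N + 1))) := by ring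
      _ ≤ _ := e1
  linarith

theorem dd_bound (t τ b G δ m W S N : ℕ) (hn : G * b = S * t) (hN : G * b = N)
    (hδ : S * δ = 6 * b) (hSG : S ≤ G) (hW : S * W ≤ G ^ 2 + S * G) (hS : 0 < S) :
    S * dd t b G δ m W ≤ 5332 * (m * N) ^ 2 ∧ S * (b ^ 2 * W) ≤ 2 * N ^ 2 := by
  have h1 : S * (G * b * t) = N ^ 2 := by
    calc S * (G * b * t) = (G * b) * (S * t) := by ring
      _ = N ^ 2 := by rw [← hn, hN, sq]
  have hSb : S * b ≤ N := by rw [← hN]; exact Nat.mul_le_mul_right _ hSG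
  have h2 : S * (G * b ^ 2) ≤ N ^ 2 := by
    calc S * (G * b ^ 2) = (G * b) * (S * b) := by ring
      _ ≤ N * N := Nat.mul_le_mul hN.le hSb
      _ = N ^ 2 := by ring
  have h3 : S * (12 * G * m * δ) = 72 * (m * N) := by
    calc S * (12 * G * m * δ) = 12 * G * m * (S * δ) := by ring
      _ = 72 * (m * (G * b)) := by rw [hδ]; ring
      _ = _ := by rw [hN]
  have h4 : S * (2 * (12 * G * m * δ) * (G * (m * b))) = 144 * (m * N) ^ 2 := by
    calc S * (2 * (12 * G * m * δ) * (G * (m * b)))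
        = 2 * (S * (12 * G * m * δ)) * (m * (G * b)) := by ring
      _ = _ := by rw [h3, hN]; ring
  have h5 : S * (12 * G * m * δ) ^ 2 ≤ 5184 * (m * N) ^ 2 := by
    calc S * (12 * G * m * δ) ^ 2 ≤ S * S * (12 * G * m * δ) ^ 2 :=
          Nat.mul_le_mul_right _ (Nat.le_mul_of_pos_left _ hS)
      _ = (S * (12 * G * m * δ)) ^ 2 := by ring
      _ = 5184 * (m * N) ^ 2 := by rw [h3]; ring
  have h6 : S * (b ^ 2 * W) ≤ 2 * N ^ 2 := by
    calc S * (b ^ 2 * W) = b ^ 2 * (S * W) := by ring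
      _ ≤ b ^ 2 * (G ^ 2 + S * G) := Nat.mul_le_mul_left _ hW
      _ = (G * b) ^ 2 + (G * b) * (S * b) := by ring
      _ ≤ N ^ 2 + N * N := by
          apply Nat.add_le_add
          · rw [hN]
          · exact Nat.mul_le_mul hN.le hSb
      _ = 2 * N ^ 2 := by ring
  refine ⟨?_, h6⟩
  unfold dd
  calc S * (m ^ 2 * (G * b * t + G * b ^ 2) + 2 * (12 * G * m * δ) * (G * (m * b))
        + (12 * G * m * δ) ^ 2 + m ^ 2 * (b ^ 2 * W))
      = m ^ 2 * (S * (G * b * t)) + m ^ 2 * (S * (G * b ^ 2))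
        + S * (2 * (12 * G * m * δ) * (G * (m * b))) + S * (12 * G * m * δ) ^ 2
        + m ^ 2 * (S * (b ^ 2 * W)) := by ring
    _ ≤ m ^ 2 * N ^ 2 + m ^ 2 * N ^ 2 + 144 * (m * N) ^ 2 + 5184 * (m * N) ^ 2
        + m ^ 2 * (2 * N ^ 2) := by
        have a1 := Nat.mul_le_mul_left (m ^ 2) h2
        have a2 := Nat.mul_le_mul_left (m ^ 2) h6
        rw [h1, h4]
        omega
    _ = 5332 * (m * N) ^ 2 := by ring

/-- The main inequality. -/
theorem main_ineq (s B m : ℕ) (hs : 0 < s) (hB : 0 < B) (hm : 0 < m) :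
    (m : ℝ) ^ 2 * (V ((s ^ 2) ^ ((s ^ 2) ^ 5 + 1) * B)
      - ((((s ^ 2) ^ 5 : ℕ) : ℝ) + 16 * ((s ^ 2 : ℕ) * (((s ^ 2) ^ ((s ^ 2) ^ 5) : ℕ) + 1))
          + 8 * (((s ^ 2) ^ ((s ^ 2) ^ 5) : ℕ) : ℝ) ^ 2)
        * (((s ^ 2) ^ ((s ^ 2) ^ 5 + 1) * B : ℕ)
          * Real.sqrt ((s ^ 2) ^ ((s ^ 2) ^ 5 + 1) * B : ℕ))
      - 5335 / s * (((s ^ 2) ^ ((s ^ 2) ^ 5 + 1) * B : ℕ) : ℝ) ^ 2)
      ≤ V (m * ((s ^ 2) ^ ((s ^ 2) ^ 5 + 1) * B)) := by
  obtain ⟨τ, b, G, W, F, D0, gd, δ, hF, hW, hN, hδ, hSG, hSW, hcard⟩ :=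
    exists_fam (s ^ 2) B (by positivity) hB
  set S := s ^ 2 with hS
  set N := S ^ (S ^ 5 + 1) * B with hNdef
  have hS0 : 0 < S := by positivity
  have hN0 : 0 < N := by positivity
  obtain ⟨hd1, hd2⟩ := dd_bound (S ^ S ^ 5 * B) τ b G δ m W S N hF.hn hN hδ hSG hSW hS0
  have hcount := hF.main_count hm
  have en : G * (m * b) = m * N := by rw [← hN]; ring
  rw [← hW, en] at hcount
  set d := dd (S ^ S ^ 5 * B) b G δ m W with hd
  set C := (rows (m * N) (m * N)).toFinset with hC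
  set X := (C.powerset.filter (fun X => X.card ≤ d)) with hX
  have hFpos : 0 < F.card := card_pos.2 ⟨D0, hF.mem⟩
  have hXpos : 0 < X.card := by
    apply card_pos.2
    refine ⟨∅, ?_⟩
    rw [hX, mem_filter, mem_powerset]
    exact ⟨empty_subset _, by simp⟩
  have hRpos := Red_pos (m * N)
  have hs' : (0 : ℝ) < s := by exact_mod_cast hs
  have hs1 : (1 : ℝ) ≤ s := by exact_mod_cast hs
  have hFr : (0 : ℝ) < F.card := by exact_mod_cast hFpos
  have hXr : (0 : ℝ) < X.card := by exact_mod_cast hXpos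
  have hRr : (0 : ℝ) < (Red (m * N)).card := by exact_mod_cast hRpos
  -- logarithms
  have l1 : (m : ℝ) ^ 2 * Real.log F.card ≤ V (m * N) + Real.log X.card
      + ((m ^ 2 * (b ^ 2 * W) : ℕ) : ℝ) * Real.log 2 := by
    have h1 : ((F.card : ℝ)) ^ (m ^ 2) ≤ ((Red (m * N)).card : ℝ) * (X.card : ℝ)
        * 2 ^ (m ^ 2 * (b ^ 2 * W)) := by exact_mod_cast hcount
    have h2 := Real.log_le_log (by positivity) h1
    rw [Real.log_pow, Real.log_mul (by positivity) (by positivity),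
      Real.log_mul (by positivity) (by positivity), Real.log_pow] at h2
    unfold V
    push_cast at h2 ⊢
    exact h2
  have l2 : Real.log X.card ≤ 5333 / s * ((m : ℝ) * N) ^ 2 := by
    have h1 := log_binom C s d hs
    have h2 : (d : ℝ) * s ≤ 5332 / s * ((m : ℝ) * N) ^ 2 := by
      have h3 : (S : ℝ) * d ≤ 5332 * ((m : ℝ) * N) ^ 2 := by exact_mod_cast hd1
      have h4 : (S : ℝ) = s ^ 2 := by rw [hS]; push_cast; ring
      rw [h4] at h3
      rw [div_mul_eq_mul_div, le_div_iff₀ hs']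
      calc (d : ℝ) * s * s = s ^ 2 * d := by ring
        _ ≤ _ := h3
    have h3 : (C.card : ℝ) ≤ ((m : ℝ) * N) ^ 2 := by
      have := card_rows_le (m * N)
      exact_mod_cast this
    have h4 : (C.card : ℝ) / s ≤ 1 / s * ((m : ℝ) * N) ^ 2 := by
      rw [div_mul_eq_mul_div, one_mul]
      exact div_le_div_of_nonneg_right h3 hs'.le
    calc Real.log X.card ≤ d * s + C.card / s := h1
      _ ≤ 5332 / s * ((m : ℝ) * N) ^ 2 + 1 / s * ((m : ℝ) * N) ^ 2 := add_le_add h2 h4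
      _ = _ := by ring
  have l3 : ((m ^ 2 * (b ^ 2 * W) : ℕ) : ℝ) * Real.log 2 ≤ 2 / s * ((m : ℝ) * N) ^ 2 := by
    have h1 : Real.log 2 ≤ 1 := by
      have := Real.log_le_sub_one_of_pos (show (0 : ℝ) < 2 by norm_num)
      linarith
    have h2 : (s : ℝ) * ((b ^ 2 * W : ℕ) : ℝ) ≤ 2 * (N : ℝ) ^ 2 := by
      have h3 : (S : ℝ) * ((b ^ 2 * W : ℕ) : ℝ) ≤ 2 * (N : ℝ) ^ 2 := by exact_mod_cast hd2
      have h4 : (S : ℝ) = s ^ 2 := by rw [hS]; push_cast; ring
      rw [h4] at h3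
      have h5 : (0 : ℝ) ≤ ((b ^ 2 * W : ℕ) : ℝ) := Nat.cast_nonneg _
      nlinarith [mul_nonneg (mul_nonneg hs'.le h5) (sub_nonneg.2 hs1)]
    have h3 : (0 : ℝ) ≤ ((m ^ 2 * (b ^ 2 * W) : ℕ) : ℝ) := Nat.cast_nonneg _
    have h4 : ((m ^ 2 * (b ^ 2 * W) : ℕ) : ℝ) * Real.log 2 ≤ ((m ^ 2 * (b ^ 2 * W) : ℕ) : ℝ) := by
      nlinarith
    refine h4.trans ?_
    rw [div_mul_eq_mul_div, le_div_iff₀ hs']
    push_cast at h2 ⊢
    have h5 := mul_le_mul_of_nonneg_left h2 (show (0 : ℝ) ≤ (m : ℝ) ^ 2 by positivity)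
    calc (m : ℝ) ^ 2 * (b ^ 2 * W) * s = m ^ 2 * (s * (b ^ 2 * W)) := by ring
      _ ≤ _ := h5
      _ = _ := by ring
  have l4 : V N ≤ ((((S ^ 5 : ℕ)) : ℝ) + 16 * (S * (((S ^ S ^ 5 : ℕ)) + 1)) + 8 * (((S ^ S ^ 5 : ℕ))) ^ 2)
      * (N * Real.sqrt N) + Real.log F.card := by
    have h1 := log_card_data (S ^ 5) S N (S ^ S ^ 5) (by positivity) hN0
    have hDpos : (0 : ℝ) < (Fintype.card (Data (S ^ 5) S N (S ^ S ^ 5)) : ℝ) := by
      have h2 := Red_pos N
      have h3 : 0 < Fintype.card (Data (S ^ 5) S N (S ^ S ^ 5)) * F.card := lt_of_lt_of_le h2 hcard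
      have h4 : 0 < Fintype.card (Data (S ^ 5) S N (S ^ S ^ 5)) := Nat.pos_of_mul_pos_right h3
      exact_mod_cast h4
    have h2 : ((Red N).card : ℝ) ≤ (Fintype.card (Data (S ^ 5) S N (S ^ S ^ 5)) : ℝ) * F.card := by
      exact_mod_cast hcard
    have h3 := Real.log_le_log (by exact_mod_cast Red_pos N) h2
    rw [Real.log_mul hDpos.ne' hFr.ne'] at h3
    unfold V
    linarith
  have hm0 : (0 : ℝ) ≤ (m : ℝ) ^ 2 := by positivity
  have l5 := mul_le_mul_of_nonneg_left l4 hm0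
  have e1 : (5335 : ℝ) / s * ((m : ℝ) * N) ^ 2
      = 5333 / s * ((m : ℝ) * N) ^ 2 + 2 / s * ((m : ℝ) * N) ^ 2 := by ring
  have e2 : (m : ℝ) ^ 2 * (5335 / s * (N : ℝ) ^ 2) = 5335 / s * ((m : ℝ) * N) ^ 2 := by ring
  linarith

end Pool.Agent.Helper78.Lim
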