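import Pool.Agent.Helper78.LimRed

/-!
The one parameter semigroup of the staircase products and the lower bound for the number of
reduced sets.
-/

namespace Pool.Agent.Helper78.Lim

open Finset Pool.Agent.Helper78.Schub

section Abstract

variable {R E : Type*} [CommRing R] [Ring E] [Algebra R E]

/-- The product over the rows of a staircase. -/
def PP (u : ℕ → E) (x : R) : ℕ → ℕ → E
  | _, 0 => 1
  | j, m + 1 => PP u x (j + 1) m * row u x j m

variable {u : ℕ → E}

theorem hh_add (hu : NilCox u) (i : ℕ) (x y : R) : hh u i x * hh u i y = hh u i (x + y) := by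
  simp only [hh, mul_add, add_mul, mul_one, one_mul, smul_mul_assoc, mul_smul_comm, hu.sq,
    smul_zero]
  module

theorem hh_comm_PP (hu : NilCox u) (i : ℕ) (y x : R) (m : ℕ) : ∀ j, i + 2 ≤ j →
    hh u i y * PP u x j m = PP u x j m * hh u i y := by
  induction m with
  | zero => intro j _; simp [PP]
  | succ m ih =>
    intro j hj
    rw [PP, ← mul_assoc, ih (j + 1) (by omega), mul_assoc, hh_comm_row hu i x y m j hj, mul_assoc]

theorem row_PP (hu : NilCox u) (s t : R) (m : ℕ) : ∀ j,
    row u s j m * PP u t j (m + 1) = PP u t (j + 1) m * row u (s + t) j m := by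
  induction m with
  | zero => intro j; simp [row, PP]
  | succ m ih =>
    intro j
    have e1 : row u s j (m + 1) = hh u j s * row u s (j + 1) m := rfl
    have e2 : PP u t j (m + 1 + 1) = PP u t (j + 1) (m + 1) * row u t j (m + 1) := rfl
    have e3 : hh u j s = hh u j (-t) * hh u j (s + t) := by
      rw [hh_add hu]
      congr 1
      ring
    have e4 : row u (s + t) j (m + 1) = hh u j (s + t) * row u (s + t) (j + 1) m := rfl
    have e5 : hh u j (-t) * row u t j (m + 1) = row u t (j + 1) m := by
      have : row u t j (m + 1) = hh u j t * row u t (j + 1) m := rfl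
      rw [this, ← mul_assoc, hh_mul_neg hu, one_mul]
    have e6 : PP u t (j + 1) (m + 1) = PP u t (j + 2) m * row u t (j + 1) m := rfl
    have e7 := hh_comm_PP hu j s t m (j + 2) le_rfl
    have e8 := ih (j + 1)
    have e9 := row_comm hu (s + t) t (m + 1) j
    calc row u s j (m + 1) * PP u t j (m + 1 + 1)
        = hh u j s * (row u s (j + 1) m * PP u t (j + 1) (m + 1)) * row u t j (m + 1) := by
          rw [e1, e2]; simp only [mul_assoc]
      _ = (hh u j s * PP u t (j + 2) m) * row u (s + t) (j + 1) m * row u t j (m + 1) := by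
          rw [e8]; simp only [mul_assoc]
      _ = PP u t (j + 2) m * (hh u j (-t) * hh u j (s + t)) * row u (s + t) (j + 1) m
            * row u t j (m + 1) := by
          rw [e7, ← e3]
      _ = PP u t (j + 2) m * hh u j (-t) * (row u (s + t) j (m + 1) * row u t j (m + 1)) := by
          rw [e4]; simp only [mul_assoc]
      _ = PP u t (j + 2) m * (hh u j (-t) * row u t j (m + 1)) * row u (s + t) j (m + 1) := by
          rw [e9]; simp only [mul_assoc]
      _ = PP u t (j + 1) (m + 1) * row u (s + t) j (m + 1) := by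
          rw [e5, e6]

theorem PP_add (hu : NilCox u) (s t : R) (m : ℕ) : ∀ j,
    PP u s j m * PP u t j m = PP u (s + t) j m := by
  induction m with
  | zero => intro j; simp [PP]
  | succ m ih =>
    intro j
    have e1 : PP u s j (m + 1) = PP u s (j + 1) m * row u s j m := rfl
    have e2 : PP u (s + t) j (m + 1) = PP u (s + t) (j + 1) m * row u (s + t) j m := rfl
    rw [e1, mul_assoc, row_PP hu, ← mul_assoc, ih, e2]

end Abstract

theorem PP_FF (n : ℕ) (x : ℝ) (m : ℕ) : ∀ j, j + m = n →
    PP (U ℝ n) x j m (FF ℝ n (fun _ => x) j) = FF ℝ n (fun _ => x) n := by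
  induction m with
  | zero =>
    intro j hj
    have : j = n := by omega
    subst this
    rfl
  | succ m ih =>
    intro j hj
    have e1 : PP (U ℝ n) x j (m + 1) (FF ℝ n (fun _ => x) j)
        = PP (U ℝ n) x (j + 1) m (row (U ℝ n) x j m (FF ℝ n (fun _ => x) j)) := rfl
    have e2 : m = n - 1 - j := by omega
    have e3 : row (U ℝ n) x j m (FF ℝ n (fun _ => x) j) = FF ℝ n (fun _ => x) (j + 1) := by
      rw [e2]; rfl
    rw [e1, e3, ih (j + 1) (by omega)]

theorem PP_fl (n : ℕ) (g : Equiv.Perm (Fin n) → ℝ) (m : ℕ) : ∀ j, j + m = n →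
    PP (U ℝ n) (1 : ℝ) j m (fl n (rows n j) g) = fl n (rows n n) g := by
  induction m with
  | zero =>
    intro j hj
    have : j = n := by omega
    subst this
    rfl
  | succ m ih =>
    intro j hj
    have e1 : PP (U ℝ n) (1 : ℝ) j (m + 1) (fl n (rows n j) g)
        = PP (U ℝ n) (1 : ℝ) (j + 1) m (row (U ℝ n) (1 : ℝ) j m (fl n (rows n j) g)) := rfl
    have e2 : n - 1 - j = m := by omega
    have e3 : row (U ℝ n) (1 : ℝ) j m (fl n (rows n j) g) = fl n (rows n (j + 1)) g := by
      rw [rows, fl_append, ← row_eq_fl, add_zero, e2]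
    rw [e1, e3, ih (j + 1) (by omega)]

theorem FF_two (n : ℕ) : FF ℝ n (fun _ => 2) n = fl n (rows n n) (FF ℝ n (fun _ => 1) n) := by
  have h1 := PP_FF n 2 n 0 (by omega)
  have h2 := PP_FF n 1 n 0 (by omega)
  have h3 := PP_fl n (FF ℝ n (fun _ => 1) n) n 0 (by omega)
  have h4 := PP_add (nilCox_U ℝ n) (1 : ℝ) 1 n 0
  have e : ∀ x : ℝ, FF ℝ n (fun _ => x) 0 = dl ℝ n := fun _ => rfl
  rw [e] at h1 h2
  have e2 : fl n (rows n 0) (FF ℝ n (fun _ => 1) n) = FF ℝ n (fun _ => 1) n := rfl
  rw [e2] at h3
  rw [← h3, ← h1]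
  conv_rhs => rw [← h2]
  rw [← Module.End.mul_apply, h4]
  norm_num

theorem FF_two_top (n : ℕ) :
    FF ℝ n (fun _ => 2) n Fin.revPerm = 2 ^ (∑ j ∈ range n, (n - 1 - j)) := by
  have h1 := congrFun (FF_natural ((Int.castRingHom ℝ).comp
    (MvPolynomial.eval (fun _ : Fin n => (2 : ℤ)))) (xv n) n) (Fin.revPerm : Equiv.Perm (Fin n))
  have h2 : FF ℝ n (fun j => ((Int.castRingHom ℝ).comp
      (MvPolynomial.eval (fun _ : Fin n => (2 : ℤ)))) (xv n j)) n = FF ℝ n (fun _ => 2) n := by
    apply FF_congr
    intro j hj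
    rw [xv, dif_pos hj]
    simp
  rw [h2, FF_top] at h1
  rw [← h1]
  simp only [RingHom.coe_comp, Function.comp_apply, map_prod, map_pow, MvPolynomial.eval_X]
  rw [prod_pow_eq_pow_sum, Finset.sum_range]
  simp

theorem fl_linear (n : ℕ) (L : List (ℕ × ℕ)) (f : Equiv.Perm (Fin n) → ℝ) (v : Equiv.Perm (Fin n)) :
    fl n L f v = ∑ v0, f v0 * fl n L (fun v => if v = v0 then 1 else 0) v := by
  induction L generalizing v with
  | nil =>
    show f v = ∑ v0, f v0 * (if v = v0 then 1 else 0)
    simp
  | cons p L ih =>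
    simp only [fl_cons, hh_apply]
    rw [ih v]
    by_cases h : Desc v (p.1 + p.2)
    · simp only [h, if_true, one_mul]
      rw [ih, ← sum_add_distrib]
      apply sum_congr rfl
      intro v0 _
      ring
    · simp only [h, if_false, mul_zero, add_zero]

theorem swap_lt (a p q : ℕ) (hpq : p < q) (hne : ¬ (p = a ∧ q = a + 1)) :
    Equiv.swap a (a + 1) p < Equiv.swap a (a + 1) q := by
  rw [Equiv.swap_apply_def, Equiv.swap_apply_def]
  split_ifs <;> omega

theorem Rd_start (D : Finset (ℕ × ℕ)) (x : ℕ → ℕ) (L : List (ℕ × ℕ)) (h : Rd D x L) :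
    Rd D id L ∧ (run D L x = fun p => x (run D L id p)) ∧
      ∀ p q, p < q → run D L id q < run D L id p → x (run D L id q) < x (run D L id p) := by
  induction L with
  | nil =>
    refine ⟨trivial, rfl, ?_⟩
    intro p q hpq hlt
    simp only [run, id] at hlt
    omega
  | cons c L ih =>
    obtain ⟨h1, h2⟩ := h
    obtain ⟨i1, i2, i3⟩ := ih h1
    by_cases hc : c ∈ D
    · have h3 := h2 hc
      rw [i2] at h3
      have hinj := run_inj D L id Function.injective_id
      have h4 : run D L id (c.1 + c.2) < run D L id (c.1 + c.2 + 1) := by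
        rcases lt_trichotomy (run D L id (c.1 + c.2)) (run D L id (c.1 + c.2 + 1)) with h5 | h5 | h5
        · exact h5
        · have := hinj h5
          omega
        · have := i3 _ _ (Nat.lt_add_one _) h5
          simp only at h3
          omega
      have e1 : run D (c :: L) id
          = fun p => run D L id (Equiv.swap (c.1 + c.2) (c.1 + c.2 + 1) p) := by
        simp only [run, stp]
        rw [if_pos ⟨hc, h4⟩]
      have e2 : run D (c :: L) x
          = fun p => x (run D L id (Equiv.swap (c.1 + c.2) (c.1 + c.2 + 1) p)) := by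
        simp only [run, stp, i2]
        rw [if_pos ⟨hc, h3⟩]
      refine ⟨⟨i1, fun _ => h4⟩, ?_, ?_⟩
      · rw [e1, e2]
      · intro p q hpq hlt
        rw [e1] at hlt ⊢
        by_cases hne : p = c.1 + c.2 ∧ q = c.1 + c.2 + 1
        · obtain ⟨rfl, rfl⟩ := hne
          simp only [Equiv.swap_apply_left, Equiv.swap_apply_right]
          exact h3
        · exact i3 _ _ (swap_lt _ _ _ hpq hne) hlt
    · refine ⟨⟨i1, fun h => absurd h hc⟩, ?_, ?_⟩
      · simp only [run, H_stp_neg _ hc, i2]
      · simp only [run, H_stp_neg _ hc]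
        exact i3

/-- Lower bound for the number of reduced sets. -/
theorem Red_lower (n : ℕ) :
    (2 : ℝ) ^ (∑ j ∈ range n, (n - 1 - j)) ≤ ((Red n).card : ℝ) ^ 2 := by
  classical
  have hL : (rows n n).Nodup := nodup_rows n n
  have hn : ∀ p ∈ rows n n, p.1 + p.2 + 1 < n := by
    intro p hp
    rw [mem_rows] at hp
    omega
  rw [← FF_two_top, FF_two, fl_linear, sq, ← sum_FF, sum_mul]
  apply sum_le_sum
  intro v0 _
  apply mul_le_mul_of_nonneg_left _ (FF_nonneg n v0)
  rw [sum_FF]
  have h1 : fl n (rows n n) (fun v => if v = v0 then 1 else 0) Fin.revPerm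
      ≤ ∑ v, fl n (rows n n) (fun v => if v = v0 then 1 else 0) v := by
    apply single_le_sum (f := fun v => fl n (rows n n) (fun v => if v = v0 then 1 else 0) v) _
      (mem_univ _)
    intro v _
    show (0 : ℝ) ≤ fl n (rows n n) (fun v => if v = v0 then 1 else 0) v
    rw [fl_count n v0 _ hL hn]
    exact Nat.cast_nonneg _
  refine h1.trans ?_
  rw [fl_sum n v0 _ hL hn]
  unfold Red
  have h2 : ((rows n n).toFinset.powerset.filter (fun D => Rd D (wd v0) (rows n n))).card
      ≤ ((rows n n).toFinset.powerset.filter (fun D => Rd D id (rows n n))).card := by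
    apply card_le_card
    intro D hD
    rw [mem_filter] at hD ⊢
    exact ⟨hD.1, (Rd_start D _ _ hD.2).1⟩
  exact_mod_cast h2

end Pool.Agent.Helper78.Lim
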