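import Pool.Agent.Helper78.SchubLocal

/-! The upper bound. -/

namespace Pool.Agent.Helper78.Schub

open MvPolynomial

/-- the carrier potential -/
noncomputable def KK (y : ℕ → ℕ) : ℝ :=
  (kap (code [y 0, y 1, y 2, y 3, y 4, y 5, y 6, y 7, y 8] 9) : ℝ)

/-- the window potential -/
noncomputable def QQ (y : ℕ → ℕ) : ℝ := (psi (code [y 0, y 1, y 2, y 3, y 4] 5) : ℝ)

theorem pot : Pot 4 5 (275 / 168) (2 ^ 20) (2 ^ 14) KK QQ where
  hs1 := by norm_num
  hs := by norm_num
  hc := by norm_num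
  K_ge y := by unfold KK; exact_mod_cast kap_pos _
  K_le y := by unfold KK; exact_mod_cast kap_le _
  Q_ge y := by unfold QQ; exact_mod_cast psi_pos _
  Q_le y := by unfold QQ; exact_mod_cast psi_le _
  loc y y' h := by
    unfold QQ
    rw [h 0 (by norm_num), h 1 (by norm_num), h 2 (by norm_num), h 3 (by norm_num),
      h 4 (by norm_num)]
  ineq y hy := by
    have hd : [y 0, y 1, y 2, y 3, y 4, y 5, y 6, y 7, y 8, y 9].Nodup := by
      have h1 : ([0, 1, 2, 3, 4, 5, 6, 7, 8, 9].map y).Nodup :=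
        List.Nodup.map hy (by decide)
      simpa only [List.map_cons, List.map_nil] using h1
    have key := window_ineq _ _ _ _ _ _ _ _ _ _ hd
    have s0 : Equiv.swap 4 (4 + 1) 0 = 0 := by decide
    have s1 : Equiv.swap 4 (4 + 1) 1 = 1 := by decide
    have s2 : Equiv.swap 4 (4 + 1) 2 = 2 := by decide
    have s3 : Equiv.swap 4 (4 + 1) 3 = 3 := by decide
    have s4 : Equiv.swap 4 (4 + 1) 4 = 5 := by decide
    have s5 : Equiv.swap 4 (4 + 1) 5 = 4 := by decide
    have s6 : Equiv.swap 4 (4 + 1) 6 = 6 := by decide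
    have s7 : Equiv.swap 4 (4 + 1) 7 = 7 := by decide
    have s8 : Equiv.swap 4 (4 + 1) 8 = 8 := by decide
    have s5' : Equiv.swap 4 (4 + 1) (0 + (4 + 1)) = 4 := by decide
    have s6' : Equiv.swap 4 (4 + 1) (1 + (4 + 1)) = 6 := by decide
    have s7' : Equiv.swap 4 (4 + 1) (2 + (4 + 1)) = 7 := by decide
    have s8' : Equiv.swap 4 (4 + 1) (3 + (4 + 1)) = 8 := by decide
    have s9' : Equiv.swap 4 (4 + 1) (4 + (4 + 1)) = 9 := by decide
    simp only [KK, QQ, s0, s1, s2, s3, s4, s5, s6, s7, s8, s9']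
    simp only [Nat.reduceAdd, Nat.reduceSub]
    have key' : (168 : ℝ) * (kap (code [y 0, y 1, y 2, y 3, y 4, y 5, y 6, y 7, y 8] 9)
        * psi (code [y 5, y 6, y 7, y 8, y 9] 5)
      + (if y 4 < y 5 then kap (code [y 0, y 1, y 2, y 3, y 5, y 4, y 6, y 7, y 8] 9)
          * psi (code [y 4, y 6, y 7, y 8, y 9] 5) else 0 : ℝ))
      ≤ 275 * (kap (code [y 1, y 2, y 3, y 4, y 5, y 6, y 7, y 8, y 9] 9)
        * psi (code [y 0, y 1, y 2, y 3, y 4] 5)) := by
      exact_mod_cast key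
    linarith

theorem sum_len (n : ℕ) : ((∑ j ∈ Finset.range n, (n - 1 - j) : ℕ) : ℝ) ≤ (n : ℝ) ^ 2 / 2 := by
  have h1 : ∑ j ∈ Finset.range n, (n - 1 - j) = ∑ j ∈ Finset.range n, j :=
    Finset.sum_range_reflect (fun j => j) n
  have h2 := Finset.sum_range_id_mul_two n
  rw [h1]
  have h3 : (∑ j ∈ Finset.range n, j) * 2 ≤ n * n := by
    rw [h2]; exact Nat.mul_le_mul_left n (Nat.sub_le n 1)
  have h4 : ((∑ j ∈ Finset.range n, j : ℕ) : ℝ) * 2 ≤ n * n := by exact_mod_cast h3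
  nlinarith

theorem logb_c : Real.logb 2 (275 / 168) ≤ 123 / 173 := by
  have h1 : Real.logb 2 ((275 / 168 : ℝ) ^ 173) ≤ Real.logb 2 ((2 : ℝ) ^ 123) := by
    apply Real.logb_le_logb_of_le (by norm_num) (by positivity)
    norm_num
  rw [Real.logb_pow, Real.logb_pow, Real.logb_self_eq_one (by norm_num)] at h1
  push_cast at h1
  linarith

theorem logb_bound (n : ℕ) (S : Equiv.Perm (Fin n) → MvPolynomial (Fin n) ℤ)
    (hS : IsSchubertFamily n S) :
    Real.logb 2 (maxEval n S) ≤ 123 / 346 * (n : ℝ) ^ 2 + 104 * n + 76 := by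
  obtain ⟨w, -, hw⟩ := Finset.exists_mem_eq_sup' (s := (Finset.univ : Finset (Equiv.Perm (Fin n))))
    Finset.univ_nonempty (fun w => eval (fun _ => (1 : ℤ)) (S w))
  have h1 := eval_le pot n S hS w
  have hw' : maxEval n S = eval (fun _ => (1 : ℤ)) (S w) := hw
  rw [← hw'] at h1
  set N := ∑ j ∈ Finset.range n, (n - 1 - j) with hN
  have hpos : (0 : ℝ) < maxEval n S := by
    have h2 : eval (fun _ => (1 : ℤ)) (S 1) ≤ maxEval n S :=
      Finset.le_sup' (fun w => eval (fun _ => (1 : ℤ)) (S w)) (Finset.mem_univ 1)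
    have h3 := eval_family n S hS 1
    rw [FF_one] at h3
    have h4 : (1 : ℤ) ≤ maxEval n S := by
      have : eval (fun _ => (1 : ℤ)) (S 1) = 1 := by exact_mod_cast h3
      omega
    have : (1 : ℝ) ≤ maxEval n S := by exact_mod_cast h4
    linarith
  have e1 : ((2 ^ 20 * (2 ^ 14) ^ 5 : ℝ)) ^ n * (275 / 168) ^ N * (2 ^ 20 * (2 ^ 14) ^ (n + 4))
      = 2 ^ (104 * n + 76) * (275 / 168) ^ N := by
    have : (2 : ℝ) ^ (104 * n + 76) = (2 ^ 20 * (2 ^ 14) ^ 5) ^ n * (2 ^ 20 * (2 ^ 14) ^ (n + 4)) := by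
      rw [← pow_mul, ← pow_add, ← pow_mul, ← pow_mul, ← pow_add, ← pow_add]
      congr 1
      ring
    rw [this]; ring
  rw [e1] at h1
  have h2 := Real.logb_le_logb_of_le (b := 2) (by norm_num) hpos h1
  rw [Real.logb_mul (by positivity) (by positivity), Real.logb_pow, Real.logb_pow,
    Real.logb_self_eq_one (by norm_num)] at h2
  have h3 := sum_len n
  rw [← hN] at h3
  have h4 := logb_c
  have h5 : (N : ℝ) * Real.logb 2 (275 / 168) ≤ (N : ℝ) * (123 / 173) :=
    mul_le_mul_of_nonneg_left h4 (Nat.cast_nonneg N)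
  push_cast at h2
  linarith

theorem logb_nonneg (n : ℕ) (S : Equiv.Perm (Fin n) → MvPolynomial (Fin n) ℤ)
    (hS : IsSchubertFamily n S) : 0 ≤ Real.logb 2 (maxEval n S) := by
  apply Real.logb_nonneg (by norm_num)
  have h2 : eval (fun _ => (1 : ℤ)) (S 1) ≤ maxEval n S :=
    Finset.le_sup' (fun w => eval (fun _ => (1 : ℤ)) (S w)) (Finset.mem_univ 1)
  have h3 := eval_family n S hS 1
  rw [FF_one] at h3
  have h4 : (1 : ℤ) ≤ maxEval n S := by
    have : eval (fun _ => (1 : ℤ)) (S 1) = 1 := by exact_mod_cast h3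
    omega
  exact_mod_cast h4

theorem main :
    (∀ n : ℕ, ∃! S : Equiv.Perm (Fin n) → MvPolynomial (Fin n) ℤ, IsSchubertFamily n S) ∧
    ∀ S : (n : ℕ) → Equiv.Perm (Fin n) → MvPolynomial (Fin n) ℤ,
      (∀ n, IsSchubertFamily n (S n)) →
      (∀ n : ℕ, Real.logb 2 (maxEval n (S n)) ≤ 0.3555 * (n : ℝ) ^ 2 + 104 * n + 76) ∧
      Filter.limsup (fun n : ℕ => Real.logb 2 (maxEval n (S n)) / (n : ℝ) ^ 2) Filter.atTop
        ≤ 0.3555 := by
  refine ⟨existsUnique_family, fun S hS => ⟨fun n => ?_, ?_⟩⟩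
  · have h1 := logb_bound n (S n) (hS n)
    have h2 : (0 : ℝ) ≤ (n : ℝ) ^ 2 := by positivity
    nlinarith
  · apply Filter.limsup_le_of_le
    · refine Filter.IsCoboundedUnder.of_frequently_ge (a := 0) ?_
      apply Filter.Eventually.frequently
      filter_upwards with n
      exact div_nonneg (logb_nonneg n (S n) (hS n)) (by positivity)
    · filter_upwards [Filter.eventually_ge_atTop 100000000] with n hn
      have hn' : (100000000 : ℝ) ≤ n := by exact_mod_cast hn
      have h1 := logb_bound n (S n) (hS n)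
      rw [div_le_iff₀ (by positivity)]
      nlinarith

end Pool.Agent.Helper78.Schub
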