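import Pool.Agent.Helper78.LimIneq
import Pool.Agent.Helper78.LimSemi
import Pool.Agent.Helper78.SchubMain

/-!
Existence of the limit.
-/

namespace Pool.Agent.Helper78.Lim

open Filter Topology

/-- A convergence criterion for quadratically growing sequences. -/
theorem conv (f : ℕ → ℝ) (C : ℝ) (hmono : Monotone f) (h0 : ∀ n, 0 ≤ f n)
    (hC : ∀ n : ℕ, f n ≤ C * (n : ℝ) ^ 2)
    (hε : ∀ ε : ℝ, 0 < ε → ∃ K : ℕ, 0 < K ∧ ∃ B0 : ℕ, ∀ B, B0 ≤ B → ∀ m : ℕ, 0 < m →
      (m : ℝ) ^ 2 * (f (K * B) - ε * ((K * B : ℕ) : ℝ) ^ 2) ≤ f (m * (K * B))) :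
    ∃ L : ℝ, Tendsto (fun n : ℕ => f n / (n : ℝ) ^ 2) atTop (𝓝 L) := by
  have hC0 : 0 ≤ C := by
    have := hC 1
    have := h0 1
    norm_num at *
    linarith
  set a : ℕ → ℝ := fun n => f n / (n : ℝ) ^ 2 with ha
  have ha0 : ∀ n, 0 ≤ a n := fun n => div_nonneg (h0 n) (by positivity)
  have haC : ∀ n, a n ≤ C := by
    intro n
    rcases Nat.eq_zero_or_pos n with rfl | hn
    · simp only [ha]; simp [hC0]
    · simp only [ha]
      have : (0 : ℝ) < n := by exact_mod_cast hn
      rw [div_le_iff₀ (by positivity)]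
      exact hC n
  have hbdd : IsBoundedUnder (· ≤ ·) atTop a := isBoundedUnder_of ⟨C, haC⟩
  have hbdd' : IsBoundedUnder (· ≥ ·) atTop a := isBoundedUnder_of ⟨0, ha0⟩
  set A := limsup a atTop with hA
  have key : ∀ ε : ℝ, 0 < ε → ∀ᶠ n in atTop, A - ε < a n := by
    intro ε hε0
    obtain ⟨K, hK, B0, hKB⟩ := hε (ε / 4) (by positivity)
    have hK' : (0 : ℝ) < K := by exact_mod_cast hK
    -- a good starting point
    have hfreq : ∃ᶠ n in atTop, A - ε / 4 < a n := by
      apply frequently_lt_of_lt_limsup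
      · exact hbdd'.isCoboundedUnder_le
      · linarith
    obtain ⟨N1, hN1⟩ := exists_nat_gt (8 * K * |A| / ε)
    obtain ⟨n0, hn0, hn0'⟩ := (hfreq.and_eventually
      (eventually_ge_atTop (K * B0 + N1 + 1))).exists
    set B := n0 / K + 1 with hB
    have hBB0 : B0 ≤ B := by
      have : B0 ≤ n0 / K := by
        rw [Nat.le_div_iff_mul_le hK, mul_comm]
        omega
      omega
    have hlt : n0 < K * B := by
      rw [hB]
      have := Nat.lt_mul_div_succ n0 hK
      exact this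
    have hle : K * B ≤ n0 + K := by
      rw [hB]
      have := Nat.mul_div_le n0 K
      calc K * (n0 / K + 1) = K * (n0 / K) + K := by ring
        _ ≤ n0 + K := by omega
    set M := K * B with hM
    have hMpos : 0 < M := by omega
    have hM0 : (0 : ℝ) < M := by exact_mod_cast hMpos
    have hn00 : (0 : ℝ) < n0 := by
      have : 0 < n0 := by omega
      exact_mod_cast this
    have hltr : (n0 : ℝ) < M := by exact_mod_cast hlt
    have hler : (M : ℝ) ≤ n0 + K := by exact_mod_cast hle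
    have hN1r : (N1 : ℝ) ≤ n0 := by
      have : N1 ≤ n0 := by omega
      exact_mod_cast this
    -- lower bound at M
    have h1 : (A - ε / 4) * (n0 : ℝ) ^ 2 < f n0 := by
      have := hn0
      simp only [ha] at this
      rwa [lt_div_iff₀ (by positivity)] at this
    have h2 : f n0 ≤ f M := hmono hlt.le
    have h3 : (A - ε / 2) * (M : ℝ) ^ 2 ≤ f M := by
      rcases le_or_gt (A - ε / 4) 0 with h4 | h4
      · have h5 : (A - ε / 2) * (M : ℝ) ^ 2 ≤ 0 :=
          mul_nonpos_of_nonpos_of_nonneg (by linarith) (by positivity)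
        exact h5.trans (h0 M)
      · have h5 : (A - ε / 4) * ((M : ℝ) ^ 2 - 2 * K * M) ≤ (A - ε / 4) * (n0 : ℝ) ^ 2 := by
          apply mul_le_mul_of_nonneg_left _ h4.le
          have h6 : (0 : ℝ) ≤ n0 - (M - K) := by linarith
          rcases le_or_gt (M : ℝ) K with h7 | h7
          · nlinarith
          · nlinarith
        have h6 : 8 * K * A / ε ≤ M := by
          have : 8 * K * A / ε ≤ 8 * K * |A| / ε := by
            apply div_le_div_of_nonneg_right _ hε0.le
            exact mul_le_mul_of_nonneg_left (le_abs_self A) (by positivity)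
          linarith
        rw [div_le_iff₀ hε0] at h6
        have h7 : 2 * K * M * (A - ε / 4) ≤ (ε / 4) * (M : ℝ) ^ 2 := by
          have h8 : 2 * K * (A - ε / 4) ≤ (ε / 4) * M := by nlinarith
          nlinarith
        nlinarith
    -- propagate
    obtain ⟨N2, hN2⟩ := exists_nat_gt (8 * M * |A| / ε)
    filter_upwards [eventually_ge_atTop (M + N2 + 1)] with n hn
    set m := n / M with hm
    have hmpos : 0 < m := Nat.div_pos (by omega) hMpos
    have hmle : m * M ≤ n := Nat.div_mul_le_self n M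
    have hmlt : n < m * M + M := by
      have := Nat.lt_div_mul_add hMpos (a := n)
      exact this
    have hm4 := hKB B hBB0 m hmpos
    have h5 : f (m * M) ≤ f n := hmono hmle
    have hn0r : (0 : ℝ) < n := by
      have : 0 < n := by omega
      exact_mod_cast this
    have hmltr : (n : ℝ) < m * M + M := by exact_mod_cast hmlt
    have hnM : (M : ℝ) ≤ n := by
      have : M ≤ n := by omega
      exact_mod_cast this
    have h6 : ((m : ℝ) * M) ^ 2 * (A - 3 * ε / 4) ≤ f n := by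
      have h7 : (m : ℝ) ^ 2 * ((A - ε / 2) * (M : ℝ) ^ 2 - ε / 4 * (M : ℝ) ^ 2)
          ≤ (m : ℝ) ^ 2 * (f M - ε / 4 * (M : ℝ) ^ 2) :=
        mul_le_mul_of_nonneg_left (by linarith) (by positivity)
      calc ((m : ℝ) * M) ^ 2 * (A - 3 * ε / 4)
          = (m : ℝ) ^ 2 * ((A - ε / 2) * (M : ℝ) ^ 2 - ε / 4 * (M : ℝ) ^ 2) := by ring
        _ ≤ _ := h7
        _ ≤ f (m * M) := hm4
        _ ≤ f n := h5
    simp only [ha]
    rw [lt_div_iff₀ (by positivity)]
    rcases le_or_gt (A - 3 * ε / 4) 0 with h7 | h7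
    · have h8 : (A - ε) * (n : ℝ) ^ 2 < 0 :=
        mul_neg_of_neg_of_pos (by linarith) (by positivity)
      exact lt_of_lt_of_le h8 (h0 n)
    · have h8 : (A - 3 * ε / 4) * ((n : ℝ) ^ 2 - 2 * M * n) ≤ ((m : ℝ) * M) ^ 2 * (A - 3 * ε / 4) := by
        rw [mul_comm]
        apply mul_le_mul_of_nonneg_right _ h7.le
        have h9 : (0 : ℝ) ≤ m * M - (n - M) := by linarith
        have h10 : (0 : ℝ) ≤ n - M := by linarith
        nlinarith
      have h9 : 8 * M * A / ε < n := by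
        have h10 : 8 * M * A / ε ≤ 8 * M * |A| / ε := by
          apply div_le_div_of_nonneg_right _ hε0.le
          exact mul_le_mul_of_nonneg_left (le_abs_self A) (by positivity)
        have h11 : (N2 : ℝ) ≤ n := by
          have : N2 ≤ n := by omega
          exact_mod_cast this
        linarith
      rw [div_lt_iff₀ hε0] at h9
      have h10 : 2 * M * (A - 3 * ε / 4) < (ε / 4) * n := by nlinarith
      have h11 : 2 * M * n * (A - 3 * ε / 4) < (ε / 4) * (n : ℝ) ^ 2 := by nlinarith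
      nlinarith
  refine ⟨A, ?_⟩
  rw [Metric.tendsto_atTop']
  intro ε hε0
  have h1 := key ε hε0
  have h2 : ∀ᶠ n in atTop, a n < A + ε := by
    apply eventually_lt_of_limsup_lt _ hbdd
    linarith
  obtain ⟨N, hN⟩ := eventually_atTop.1 (h1.and h2)
  refine ⟨N, fun n hn => ?_⟩
  have h3 := hN n hn.le
  rw [Real.dist_eq, abs_lt]
  constructor <;> linarith [h3.1, h3.2]

theorem V_mono : Monotone V := by
  apply monotone_nat_of_le_succ
  intro n
  unfold V
  apply Real.log_le_log (by exact_mod_cast Red_pos n)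
  exact_mod_cast Finset.card_le_card (Red_mono n)

theorem V_nonneg (n : ℕ) : 0 ≤ V n := by
  unfold V
  apply Real.log_nonneg
  exact_mod_cast Red_pos n

theorem V_le (n : ℕ) : V n ≤ 1 * (n : ℝ) ^ 2 := by
  classical
  have h1 : (Red n).card ≤ 2 ^ (n ^ 2) := by
    unfold Red
    refine (Finset.card_filter_le _ _).trans ?_
    rw [Finset.card_powerset]
    exact Nat.pow_le_pow_right (by norm_num) (card_rows_le n)
  have h2 : ((Red n).card : ℝ) ≤ 2 ^ (n ^ 2) := by exact_mod_cast h1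
  have h3 := Real.log_le_log (by exact_mod_cast Red_pos n) h2
  rw [Real.log_pow] at h3
  have h4 : Real.log 2 ≤ 1 := by
    have := Real.log_le_sub_one_of_pos (show (0 : ℝ) < 2 by norm_num)
    linarith
  unfold V
  push_cast at h3
  nlinarith [sq_nonneg (n : ℝ)]

theorem V_conv : ∃ L : ℝ, Tendsto (fun n : ℕ => V n / (n : ℝ) ^ 2) atTop (𝓝 L) := by
  apply conv V 1 V_mono V_nonneg V_le
  intro ε hε
  obtain ⟨s, hs⟩ := exists_nat_gt (5335 / (ε / 2))
  have hs0 : (0 : ℝ) < s := lt_trans (by positivity) hs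
  have hspos : 0 < s := by exact_mod_cast hs0
  have hs1 : 5335 / (s : ℝ) ≤ ε / 2 := by
    rw [div_lt_iff₀ (by positivity)] at hs
    rw [div_le_iff₀ hs0]
    linarith
  set Cs : ℝ := ((((s ^ 2) ^ 5 : ℕ) : ℝ) + 16 * ((s ^ 2 : ℕ) * (((s ^ 2) ^ ((s ^ 2) ^ 5) : ℕ) + 1))
          + 8 * (((s ^ 2) ^ ((s ^ 2) ^ 5) : ℕ) : ℝ) ^ 2) with hCs
  have hCs0 : 0 ≤ Cs := by positivity
  obtain ⟨B0, hB0⟩ := exists_nat_gt ((2 * Cs / ε) ^ 2)
  refine ⟨(s ^ 2) ^ ((s ^ 2) ^ 5 + 1), by positivity, B0 + 1, ?_⟩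
  intro B hB m hm
  have h1 := main_ineq s B m hspos (by omega) hm
  rw [← hCs] at h1
  set K := (s ^ 2) ^ ((s ^ 2) ^ 5 + 1) with hK
  have hKpos : 0 < K := by positivity
  refine le_trans ?_ h1
  apply mul_le_mul_of_nonneg_left _ (by positivity)
  set N : ℕ := K * B with hN
  have hBN : B ≤ N := Nat.le_mul_of_pos_left _ hKpos
  have hN0 : (B0 : ℝ) ≤ N := by
    have : B0 ≤ N := by omega
    exact_mod_cast this
  have h2 : 2 * Cs / ε ≤ Real.sqrt N := by
    apply Real.le_sqrt_of_sq_le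
    linarith
  rw [div_le_iff₀ hε] at h2
  have hNr : (0 : ℝ) ≤ N := Nat.cast_nonneg _
  have h3 : Real.sqrt N * Real.sqrt N = N := Real.mul_self_sqrt hNr
  have h4 : Cs * (N * Real.sqrt N) ≤ ε / 2 * (N : ℝ) ^ 2 := by
    have h5 : Cs ≤ ε / 2 * Real.sqrt N := by linarith
    have h6 : (0 : ℝ) ≤ N * Real.sqrt N := by positivity
    calc Cs * (N * Real.sqrt N) ≤ (ε / 2 * Real.sqrt N) * (N * Real.sqrt N) :=
          mul_le_mul_of_nonneg_right h5 h6
      _ = ε / 2 * (N * (Real.sqrt N * Real.sqrt N)) := by ring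
      _ = ε / 2 * (N : ℝ) ^ 2 := by rw [h3]; ring
  have h5 : 5335 / (s : ℝ) * (N : ℝ) ^ 2 ≤ ε / 2 * (N : ℝ) ^ 2 :=
    mul_le_mul_of_nonneg_right hs1 (by positivity)
  linarith

end Pool.Agent.Helper78.Lim
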