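import Mathlib

/-!
Inversions of words and dominance of their height functions.
-/

namespace Pool.Agent.Helper78.Lim

/-- Number of inversions of a word. -/
def linv : List ℕ → ℕ
  | [] => 0
  | x :: l => l.countP (fun y => decide (y < x)) + linv l

/-- Number of entries `≥ k` among the first `x` entries. -/
def hgt (k : ℕ) (l : List ℕ) (x : ℕ) : ℕ := (l.take x).countP (fun y => decide (k ≤ y))

theorem linv_swap (l1 l2 : List ℕ) (x y : ℕ) (h : y < x) :
    linv (l1 ++ x :: y :: l2) = linv (l1 ++ y :: x :: l2) + 1 := by
  induction l1 with
  | nil =>
    simp only [List.nil_append, linv, List.countP_cons]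
    have h1 : decide (x < y) = false := by simp; omega
    have h2 : decide (y < x) = true := by simpa using h
    simp only [h1, h2]
    simp
    omega
  | cons z l1 ih =>
    simp only [List.cons_append, linv, ih]
    have : (l1 ++ x :: y :: l2).countP (fun w => decide (w < z))
        = (l1 ++ y :: x :: l2).countP (fun w => decide (w < z)) := by
      simp only [List.countP_append, List.countP_cons]
      omega
    omega

/-- The number of pairs of an entry of `l1` and a smaller entry of `l2`. -/
def crossing (l1 l2 : List ℕ) : ℕ := (l1.map fun x => l2.countP (fun y => decide (y < x))).sum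

theorem linv_append (l1 l2 : List ℕ) : linv (l1 ++ l2) = linv l1 + linv l2 + crossing l1 l2 := by
  induction l1 with
  | nil => simp [linv, crossing]
  | cons z l1 ih =>
    simp only [List.cons_append, linv, ih, List.countP_append, crossing, List.map_cons,
      List.sum_cons]
    omega

theorem hgt_append_of_le (k : ℕ) (l1 l2 : List ℕ) (x : ℕ) (h : x ≤ l1.length) :
    hgt k (l1 ++ l2) x = hgt k l1 x := by
  unfold hgt
  rw [List.take_append_of_le_length h]

theorem hgt_append_of_ge (k : ℕ) (l1 l2 : List ℕ) (x : ℕ) (h : l1.length ≤ x) :
    hgt k (l1 ++ l2) x = l1.countP (fun y => decide (k ≤ y)) + hgt k l2 (x - l1.length) := by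
  unfold hgt
  rw [List.take_append, List.take_of_length_le h, List.countP_append]

theorem hgt_mid (k : ℕ) (l1 l2 : List ℕ) (x y : ℕ) :
    hgt k (l1 ++ x :: y :: l2) (l1.length + 1)
      = hgt k (l1 ++ x :: y :: l2) l1.length + (if k ≤ x then 1 else 0) := by
  rw [hgt_append_of_ge _ _ _ _ (by omega), hgt_append_of_ge _ _ _ _ le_rfl]
  simp [hgt, List.countP_cons]

theorem hgt_mid2 (k : ℕ) (l1 l2 : List ℕ) (x y : ℕ) :
    hgt k (l1 ++ x :: y :: l2) (l1.length + 2)
      = hgt k (l1 ++ x :: y :: l2) l1.length + (if k ≤ x then 1 else 0)
        + (if k ≤ y then 1 else 0) := by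
  rw [hgt_append_of_ge _ _ _ _ (by omega), hgt_append_of_ge _ _ _ _ le_rfl]
  simp [hgt, List.countP_cons]
  omega

theorem hgt_swap (k : ℕ) (l1 l2 : List ℕ) (x y j : ℕ) (h : j ≠ l1.length + 1) :
    hgt k (l1 ++ x :: y :: l2) j = hgt k (l1 ++ y :: x :: l2) j := by
  rcases le_or_gt j l1.length with hj | hj
  · rw [hgt_append_of_le _ _ _ _ hj, hgt_append_of_le _ _ _ _ hj]
  · rw [hgt_append_of_ge _ _ _ _ hj.le, hgt_append_of_ge _ _ _ _ hj.le]
    obtain ⟨d, hd⟩ : ∃ d, j - l1.length = d + 2 := ⟨j - l1.length - 2, by omega⟩
    rw [hd]
    simp only [hgt, List.take_succ_cons, List.countP_cons]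
    omega

theorem exists_desc_of_not_sorted : ∀ (l : List ℕ), ¬ l.Pairwise (· ≤ ·) →
    ∃ l1 x y l2, l = l1 ++ x :: y :: l2 ∧ y < x := by
  intro l
  induction l with
  | nil => intro h; exact absurd List.Pairwise.nil h
  | cons a l ih =>
    intro h
    by_cases hl : l.Pairwise (· ≤ ·)
    · cases l with
      | nil => exact absurd (List.pairwise_singleton _ _) h
      | cons b l' =>
        refine ⟨[], a, b, l', rfl, ?_⟩
        by_contra hcon
        apply h
        rw [List.pairwise_cons]
        refine ⟨?_, hl⟩
        intro c hc
        rw [List.pairwise_cons] at hl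
        rcases List.mem_cons.1 hc with rfl | hc
        · omega
        · have := hl.1 c hc; omega
    · obtain ⟨l1, x, y, l2, rfl, hxy⟩ := ih hl
      exact ⟨a :: l1, x, y, l2, rfl, hxy⟩

/-- In a sorted word all entries after an entry `≥ k` are `≥ k`. -/
theorem sorted_hgt (k : ℕ) : ∀ (w : List ℕ), w.Pairwise (· ≤ ·) → ∀ x ≤ w.length,
    0 < hgt k w x → hgt k w w.length = hgt k w x + (w.length - x) := by
  intro w
  induction w with
  | nil => intro _ x _ h; simp [hgt] at h
  | cons a w ih =>
    intro hw x hx hpos
    rw [List.pairwise_cons] at hw
    cases x with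
    | zero => simp [hgt] at hpos
    | succ x =>
      have hx' : x ≤ w.length := by simpa using hx
      by_cases ha : k ≤ a
      · have hall : ∀ b ∈ w, k ≤ b := fun b hb => ha.trans (hw.1 b hb)
        have h1 : ∀ j ≤ w.length, hgt k w j = j := by
          intro j hj
          unfold hgt
          rw [List.countP_eq_length.2]
          · rw [List.length_take, min_eq_left hj]
          · intro b hb
            simpa using hall b (List.mem_of_mem_take hb)
        have h2 : ∀ j, hgt k (a :: w) (j + 1) = hgt k w j + 1 := by
          intro j
          simp [hgt, ha]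
        rw [List.length_cons, h2, h2, h1 _ le_rfl, h1 x hx']
        omega
      · have h2 : ∀ j, hgt k (a :: w) (j + 1) = hgt k w j := by
          intro j
          simp [hgt, ha]
        rw [h2] at hpos
        have := ih hw.2 x hx' hpos
        rw [List.length_cons, h2, h2, this]
        omega

theorem hgt_le_len (k : ℕ) (l : List ℕ) (x : ℕ) : hgt k l x ≤ x := by
  unfold hgt
  refine List.countP_le_length.trans ?_
  rw [List.length_take]
  exact min_le_left _ _

theorem hgt_mono_add (k : ℕ) (l : List ℕ) (x d : ℕ) : hgt k l (x + d) ≤ hgt k l x + d := by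
  unfold hgt
  rw [List.take_add, List.countP_append]
  have h1 : List.countP (fun y => decide (k ≤ y)) (List.take d (List.drop x l)) ≤ d :=
    List.countP_le_length.trans (by rw [List.length_take]; exact min_le_left _ _)
  omega

theorem linv_sorted : ∀ (w : List ℕ), w.Pairwise (· ≤ ·) → linv w = 0 := by
  intro w
  induction w with
  | nil => intro _; rfl
  | cons a w ih =>
    intro hw
    rw [List.pairwise_cons] at hw
    simp only [linv]
    rw [ih hw.2, List.countP_eq_zero.2]
    intro b hb
    have := hw.1 b hb
    simp; omega

/-- Dominance of the heights implies the inequality for the numbers of inversions. -/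
theorem linv_mono : ∀ (M : ℕ) (w v : List ℕ), linv w ≤ M → w.length = v.length →
    (∀ k x, x ≤ w.length → hgt k v x ≤ hgt k w x) →
    (∀ k, hgt k v v.length = hgt k w w.length) → linv v ≤ linv w := by
  intro M
  induction M with
  | zero =>
    intro w v hM hlen hh htot
    have hw : w.Pairwise (· ≤ ·) := by
      by_contra hcon
      obtain ⟨l1, x, y, l2, rfl, hxy⟩ := exists_desc_of_not_sorted w hcon
      rw [linv_swap l1 l2 x y hxy] at hM
      omega
    have hv : v.Pairwise (· ≤ ·) := by
      by_contra hcon
      obtain ⟨l1, x, y, l2, rfl, hxy⟩ := exists_desc_of_not_sorted v hcon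
      have h1 := hgt_mid x l1 l2 x y
      have h2 := hgt_mid2 x l1 l2 x y
      rw [if_pos le_rfl] at h1 h2
      rw [if_neg (by omega)] at h2
      have hl : l1.length + 2 ≤ w.length := by rw [hlen]; simp
      have h3 := hh x (l1.length + 1) (by omega)
      have h4 := sorted_hgt x w hw (l1.length + 1) (by omega) (by omega)
      have h5 := htot x
      have h6 := hgt_mono_add x (l1 ++ x :: y :: l2) (l1.length + 2)
        ((l1 ++ x :: y :: l2).length - (l1.length + 2))
      have h7 : l1.length + 2 + ((l1 ++ x :: y :: l2).length - (l1.length + 2))
          = (l1 ++ x :: y :: l2).length := by simp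
      rw [h7] at h6
      omega
    rw [linv_sorted v hv]
    exact Nat.zero_le _
  | succ M ih =>
    intro w v hM hlen hh htot
    by_cases hw : w.Pairwise (· ≤ ·)
    · exact ih w v (by rw [linv_sorted w hw]; omega) hlen hh htot
    · obtain ⟨l1, x, y, l2, rfl, hxy⟩ := exists_desc_of_not_sorted w hw
      have hsw := linv_swap l1 l2 x y hxy
      have hlen' : (l1 ++ x :: y :: l2).length = l1.length + 2 + l2.length := by simp; omega
      have hlen'' : (l1 ++ y :: x :: l2).length = l1.length + 2 + l2.length := by simp; omega
      -- split v
      obtain ⟨v1, p, q, v2, rfl, hv1⟩ : ∃ v1 p q v2, v = v1 ++ p :: q :: v2 ∧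
          v1.length = l1.length := by
        have hv : l1.length + 2 ≤ v.length := by omega
        refine ⟨v.take l1.length, v[l1.length], v[l1.length + 1], v.drop (l1.length + 2), ?_, ?_⟩
        · conv_lhs => rw [← List.take_append_drop l1.length v]
          congr 1
          rw [List.drop_eq_getElem_cons (by omega : l1.length < v.length)]
          congr 1
          rw [List.drop_eq_getElem_cons (by omega : l1.length + 1 < v.length)]
        · rw [List.length_take]; omega
      have vlen : (v1 ++ p :: q :: v2).length = l1.length + 2 + v2.length := by simp; omega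
      have a0 : ∀ k, hgt k (v1 ++ p :: q :: v2) l1.length
          ≤ hgt k (l1 ++ x :: y :: l2) l1.length := fun k => hh k _ (by omega)
      have a2 : ∀ k, hgt k (v1 ++ p :: q :: v2) l1.length + (if k ≤ p then 1 else 0)
          + (if k ≤ q then 1 else 0) ≤ hgt k (l1 ++ x :: y :: l2) l1.length
            + (if k ≤ x then 1 else 0) + (if k ≤ y then 1 else 0) := by
        intro k
        have h1 := hh k (l1.length + 2) (by omega)
        rw [hgt_mid2 k l1 l2 x y] at h1
        have h2 := hgt_mid2 k v1 v2 p q
        rw [hv1] at h2
        omega
      rcases lt_or_ge q p with hpq | hpq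
      · -- swap both
        have hsv := linv_swap v1 v2 p q hpq
        have := ih (l1 ++ y :: x :: l2) (v1 ++ q :: p :: v2) (by omega)
          (by rw [hlen'']; simp; omega)
          (by
            intro k j hj
            by_cases hj1 : j = l1.length + 1
            · subst hj1
              have e1 := hgt_mid k l1 l2 y x
              have e2 := hgt_mid k v1 v2 q p
              rw [hv1] at e2
              have e3 := hgt_swap k l1 l2 x y l1.length (by omega)
              have e4 := hgt_swap k v1 v2 p q l1.length (by omega)
              have b0 := a0 k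
              have b2 := a2 k
              rw [e1, e2, ← e3, ← e4]
              by_cases c1 : k ≤ q
              · have c2 : k ≤ p := by omega
                by_cases c3 : k ≤ y
                · simp only [c1, c3, if_true]; omega
                · simp only [c1, c2, c3, if_true, if_false] at b2 ⊢
                  split_ifs at b2 <;> omega
              · simp only [c1, if_false]; omega
            · have e3 := hgt_swap k l1 l2 x y j hj1
              have e4 := hgt_swap k v1 v2 p q j (by omega)
              rw [← e3, ← e4]
              exact hh k j (by omega))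
          (by
            intro k
            have e1 : (v1 ++ q :: p :: v2).length = (v1 ++ p :: q :: v2).length := by simp
            have e2 : (l1 ++ y :: x :: l2).length = (l1 ++ x :: y :: l2).length := by simp
            rw [e1, e2, ← hgt_swap k l1 l2 x y _ (by omega), ← hgt_swap k v1 v2 p q _ (by omega)]
            exact htot k)
        omega
      · have := ih (l1 ++ y :: x :: l2) (v1 ++ p :: q :: v2) (by omega)
          (by rw [hlen'']; omega)
          (by
            intro k j hj
            by_cases hj1 : j = l1.length + 1
            · subst hj1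
              have e1 := hgt_mid k l1 l2 y x
              have e2 := hgt_mid k v1 v2 p q
              rw [hv1] at e2
              have e3 := hgt_swap k l1 l2 x y l1.length (by omega)
              have b0 := a0 k
              have b2 := a2 k
              rw [e1, e2, ← e3]
              by_cases c1 : k ≤ p
              · have c2 : k ≤ q := by omega
                by_cases c3 : k ≤ y
                · simp only [c1, c3, if_true]; omega
                · simp only [c1, c2, c3, if_true, if_false] at b2 ⊢
                  split_ifs at b2 <;> omega
              · simp only [c1, if_false]; omega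
            · have e3 := hgt_swap k l1 l2 x y j hj1
              rw [← e3]
              exact hh k j (by omega))
          (by
            intro k
            have e2 : (l1 ++ y :: x :: l2).length = (l1 ++ x :: y :: l2).length := by simp
            rw [e2, ← hgt_swap k l1 l2 x y _ (by omega)]
            exact htot k)
        omega

theorem hgt_replicate (k a E x : ℕ) :
    hgt k (List.replicate E a) x = if k ≤ a then min x E else 0 := by
  unfold hgt
  rw [List.take_replicate, List.countP_replicate]
  simp

theorem hgt_map_succ (k : ℕ) (l : List ℕ) (x : ℕ) :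
    hgt k (l.map Nat.succ) x = hgt (k - 1) l x := by
  unfold hgt
  rw [← List.map_take, List.countP_map]
  congr 1
  funext y
  simp only [Function.comp_apply, decide_eq_decide]
  omega

theorem linv_map_succ (l : List ℕ) : linv (l.map Nat.succ) = linv l := by
  induction l with
  | nil => rfl
  | cons a l ih =>
    simp only [List.map_cons, linv, ih, List.countP_map]
    congr 2
    funext y
    simp

theorem crossing_le (l1 l2 : List ℕ) : crossing l1 l2 ≤ l1.length * l2.length := by
  unfold crossing
  have : ∀ x ∈ l1.map (fun x => l2.countP (fun y => decide (y < x))), x ≤ l2.length := by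
    intro x hx
    obtain ⟨y, -, rfl⟩ := List.mem_map.1 hx
    exact List.countP_le_length
  have h := List.sum_le_card_nsmul _ _ this
  rw [List.length_map] at h
  simpa using h

theorem linv_replicate (E a : ℕ) : linv (List.replicate E a) = 0 := by
  apply linv_sorted
  rw [List.pairwise_replicate]
  right; exact le_rfl

theorem hgt_zero_of_lt (k : ℕ) (l : List ℕ) (x : ℕ) (h : ∀ a ∈ l, a < k) : hgt k l x = 0 := by
  unfold hgt
  rw [List.countP_eq_zero]
  intro a ha
  have := h a (List.mem_of_mem_take ha)
  simp; omega

/-- Robust form of the dominance inequality. -/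
theorem linv_robust (w v : List ℕ) (E n : ℕ) (hw : w.length = n) (hv : v.length = n)
    (hh : ∀ k x, x ≤ n → hgt k v x ≤ hgt k w x + E)
    (htot : ∀ k, hgt k v n = hgt k w n) : linv v ≤ linv w + 2 * E * n + E ^ 2 := by
  set top : ℕ := w.sum + v.sum + 2 with htop
  have hwt : ∀ a ∈ w, a + 1 < top := by
    intro a ha
    have := List.le_sum_of_mem ha
    omega
  have hvt : ∀ a ∈ v, a + 1 < top := by
    intro a ha
    have := List.le_sum_of_mem ha
    omega
  set w' := List.replicate E top ++ (w.map Nat.succ ++ List.replicate E 0) with hw'
  set v' := List.replicate E 0 ++ (v.map Nat.succ ++ List.replicate E top) with hv'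
  have hlw : w'.length = n + 2 * E := by simp [hw', hw]; omega
  have hlv : v'.length = n + 2 * E := by simp [hv', hv]; omega
  have hgw1 : ∀ k x, x ≤ E → hgt k w' x = if k ≤ top then x else 0 := by
    intro k x hx
    rw [hw', hgt_append_of_le _ _ _ _ (by simpa using hx), hgt_replicate, min_eq_left hx]
  have hgw2 : ∀ k x, x ≤ n → hgt k w' (E + x) = (if k ≤ top then E else 0) + hgt (k - 1) w x := by
    intro k x hx
    rw [hw', hgt_append_of_ge _ _ _ _ (by simp)]
    simp only [List.length_replicate, List.countP_replicate, Nat.add_sub_cancel_left,
      decide_eq_true_eq]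
    rw [hgt_append_of_le _ _ _ _ (by simpa [hw] using hx), hgt_map_succ]
  have hgw3 : ∀ k x, x ≤ E → hgt k w' (E + n + x) = (if k ≤ top then E else 0) + hgt (k - 1) w n
      + (if k = 0 then x else 0) := by
    intro k x hx
    rw [hw', hgt_append_of_ge _ _ _ _ (by simp; omega)]
    simp only [List.length_replicate, List.countP_replicate, decide_eq_true_eq]
    have e1 : E + n + x - E = n + x := by omega
    rw [e1, hgt_append_of_ge _ _ _ _ (by simp [hw])]
    have e2 : (w.map Nat.succ).countP (fun y => decide (k ≤ y)) = hgt (k - 1) w n := by
      rw [← hgt_map_succ]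
      unfold hgt
      rw [List.take_of_length_le (by simp [hw])]
    rw [e2, hgt_replicate]
    have e3 : n + x - (w.map Nat.succ).length = x := by simp [hw]
    rw [e3, min_eq_left hx]
    simp only [Nat.le_zero]
    omega
  have hgv1 : ∀ k x, x ≤ E → hgt k v' x = if k = 0 then x else 0 := by
    intro k x hx
    rw [hv', hgt_append_of_le _ _ _ _ (by simpa using hx), hgt_replicate, min_eq_left hx]
    simp only [Nat.le_zero]
  have hgv2 : ∀ k x, x ≤ n → hgt k v' (E + x) = (if k = 0 then E else 0) + hgt (k - 1) v x := by
    intro k x hx
    rw [hv', hgt_append_of_ge _ _ _ _ (by simp)]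
    simp only [List.length_replicate, List.countP_replicate, Nat.add_sub_cancel_left,
      decide_eq_true_eq, Nat.le_zero]
    rw [hgt_append_of_le _ _ _ _ (by simpa [hv] using hx), hgt_map_succ]
  have hgv3 : ∀ k x, x ≤ E → hgt k v' (E + n + x) = (if k = 0 then E else 0) + hgt (k - 1) v n
      + (if k ≤ top then x else 0) := by
    intro k x hx
    rw [hv', hgt_append_of_ge _ _ _ _ (by simp; omega)]
    simp only [List.length_replicate, List.countP_replicate, decide_eq_true_eq, Nat.le_zero]
    have e1 : E + n + x - E = n + x := by omega
    rw [e1, hgt_append_of_ge _ _ _ _ (by simp [hv])]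
    have e2 : (v.map Nat.succ).countP (fun y => decide (k ≤ y)) = hgt (k - 1) v n := by
      rw [← hgt_map_succ]
      unfold hgt
      rw [List.take_of_length_le (by simp [hv])]
    rw [e2, hgt_replicate]
    have e3 : n + x - (v.map Nat.succ).length = x := by simp [hv]
    rw [e3, min_eq_left hx]
    omega
  have hbig : ∀ k, top < k → ∀ x, hgt (k - 1) w x = 0 ∧ hgt (k - 1) v x = 0 := by
    intro k hk x
    exact ⟨hgt_zero_of_lt _ _ _ (fun a ha => by have := hwt a ha; omega),
      hgt_zero_of_lt _ _ _ (fun a ha => by have := hvt a ha; omega)⟩
  have key := linv_mono _ w' v' le_rfl (by rw [hlw, hlv])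
    (by
      intro k x hx
      rw [hlw] at hx
      rcases le_or_gt x E with h1 | h1
      · rw [hgw1 k x h1, hgv1 k x h1]
        split_ifs <;> omega
      · rcases le_or_gt x (E + n) with h2 | h2
        · obtain ⟨d, rfl⟩ := Nat.exists_eq_add_of_le h1.le
          have hd : d ≤ n := by omega
          rw [hgw2 k d hd, hgv2 k d hd]
          have h3 := hh (k - 1) d hd
          rcases Nat.eq_zero_or_pos k with rfl | hk
          · have e1 : hgt 0 v d = hgt 0 w d := by
              unfold hgt
              simp [hw, hv]
            simp [e1]
          · rw [if_neg (by omega : ¬ k = 0)]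
            by_cases hk2 : k ≤ top
            · rw [if_pos hk2]; omega
            · have := hbig k (by omega) d
              rw [this.1, this.2, if_neg hk2]
        · obtain ⟨d, rfl⟩ := Nat.exists_eq_add_of_le h2.le
          have hd : d ≤ E := by omega
          rw [hgw3 k d hd, hgv3 k d hd]
          have h3 := htot (k - 1)
          rcases Nat.eq_zero_or_pos k with rfl | hk
          · simp only [if_true, zero_le, h3]; omega
          · rw [if_neg (by omega : ¬ k = 0), if_neg (by omega : ¬ k = 0)]
            by_cases hk2 : k ≤ top
            · rw [if_pos hk2, if_pos hk2]; omega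
            · have := hbig k (by omega) n
              rw [this.1, this.2, if_neg hk2, if_neg hk2])
    (by
      intro k
      rw [hlw, hlv]
      have e : n + 2 * E = E + n + E := by ring
      rw [e, hgw3 k E le_rfl, hgv3 k E le_rfl, htot (k - 1)]
      rcases Nat.eq_zero_or_pos k with rfl | hk
      · simp
      · rw [if_neg (by omega : ¬ k = 0)]
        omega)
  have h1 : linv v ≤ linv v' := by
    rw [hv', linv_append, linv_append, linv_map_succ]
    omega
  have h2 : linv w' ≤ linv w + 2 * E * n + E ^ 2 := by
    rw [hw', linv_append, linv_append, linv_map_succ, linv_replicate, linv_replicate]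
    have c1 := crossing_le (w.map Nat.succ) (List.replicate E 0)
    have c2 := crossing_le (List.replicate E top) (w.map Nat.succ ++ List.replicate E 0)
    simp only [List.length_map, List.length_replicate, List.length_append, hw] at c1 c2
    nlinarith
  omega

end Pool.Agent.Helper78.Lim
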