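import Pool.Agent.Helper78.LimBox

/-!
The comparison of heights in a large box filled with independent copies of small boxes.
-/

namespace Pool.Agent.Helper78.Lim

variable {D D' : ℕ → ℕ → Prop} {h h' : ℕ → ℕ → ℤ}

theorem copy_step (hF : Fld D h) (hF' : Fld D' h') (R C R' C' b : ℕ) (g : ℕ → ℕ → ℤ)
    (δ K ε : ℤ) (hδ : 0 ≤ δ)
    (hM1 : ∀ y ≤ b, |g y b - g 0 b - (g y 0 - g 0 0)| ≤ δ)
    (hM2 : ∀ x ≤ b, |g b x - g 0 x - (g b 0 - g 0 0)| ≤ δ)
    (hD : ∀ y x, y < b → x < b → (D (R + y) (C + x) ↔ D' (R' + y) (C' + x)))
    (g1 : ∀ x ≤ b, h' R' (C' + x) = g 0 x) (g2 : ∀ y ≤ b, h' (R' + y) (C' + b) = g y b)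
    (g3 : ∀ y ≤ b, h' (R' + y) C' = g y 0) (g4 : ∀ x ≤ b, h' (R' + b) (C' + x) = g b x)
    (htop : ∀ x ≤ b, K + g 0 x - ε ≤ h R (C + x))
    (hright : ∀ y ≤ b, K + (g y 0 + g 0 b - g 0 0) - ε ≤ h (R + y) (C + b)) :
    (∀ y ≤ b, K + g y 0 - (ε + 2 * δ) ≤ h (R + y) C) ∧
    (∀ x ≤ b, K + (g b 0 + g 0 x - g 0 0) - (ε + 2 * δ) ≤ h (R + b) (C + x)) := by
  have key := box_le hF hF' R C R' C' b (K - ε - δ) hD
    (by
      intro x hx
      rw [g1 x hx]
      linarith [htop x hx])
    (by
      intro y hy
      rw [g2 y hy]
      have := (abs_le.1 (hM1 y hy)).2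
      linarith [hright y hy])
  constructor
  · intro y hy
    have := key y hy 0 (Nat.zero_le _)
    rw [add_zero, add_zero, g3 y hy] at this
    linarith
  · intro x hx
    have := key b le_rfl x hx
    rw [g4 x hx] at this
    have h2 := (abs_le.1 (hM2 x hx)).1
    linarith

theorem good_box (hF : Fld D h) (R C m b : ℕ) (hm : 0 < m) (hb : 0 < b) (g : ℕ → ℕ → ℤ)
    (δ E : ℤ) (hδ : 0 ≤ δ)
    (hM1 : ∀ y ≤ b, |g y b - g 0 b - (g y 0 - g 0 0)| ≤ δ)
    (hM2 : ∀ x ≤ b, |g b x - g 0 x - (g b 0 - g 0 0)| ≤ δ)
    (hcopy : ∀ s < m, ∀ t < m, ∃ (D' : ℕ → ℕ → Prop) (h' : ℕ → ℕ → ℤ) (R' C' : ℕ), Fld D' h' ∧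
      (∀ y x, y < b → x < b → (D (R + s * b + y) (C + t * b + x) ↔ D' (R' + y) (C' + x))) ∧
      (∀ x ≤ b, h' R' (C' + x) = g 0 x) ∧ (∀ y ≤ b, h' (R' + y) (C' + b) = g y b) ∧
      (∀ y ≤ b, h' (R' + y) C' = g y 0) ∧ (∀ x ≤ b, h' (R' + b) (C' + x) = g b x))
    (htop : ∀ X ≤ m * b, per m b (fun x => g 0 x) X - E ≤ h R (C + X))
    (hright : ∀ Y ≤ m * b, per m b (fun y => g y b) Y - E ≤ h (R + Y) (C + m * b)) :
    (∀ Y ≤ m * b, per m b (fun y => g y 0) Y - (E + 6 * m * δ) ≤ h (R + Y) C) ∧
    (∀ X ≤ m * b, per m b (fun x => g b x) X - (E + 6 * m * δ) ≤ h (R + m * b) (C + X)) := by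
  set G : ℕ → ℕ → ℤ := fun Y X =>
    per m b (fun y => g y 0) Y + per m b (fun x => g 0 x) X - m * g 0 0 with hG
  set E' : ℤ := E + m * δ with hE'
  have hmz : (1 : ℤ) ≤ m := by exact_mod_cast hm
  have hmδ : 0 ≤ (m : ℤ) * δ := by positivity
  -- the right side in terms of `G`
  have hrightG : ∀ Y ≤ m * b, G Y (m * b) - E' ≤ h (R + Y) (C + m * b) := by
    intro Y hY
    refine le_trans ?_ (hright Y hY)
    obtain ⟨s, y, hs, hy, rfl⟩ := exists_rep hm hb Y hY
    have hsz : (s : ℤ) + 1 ≤ m := by exact_mod_cast hs
    simp only [hG]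
    rw [per_eq hb _ s y hy, per_end hb, per_eq hb _ s y hy]
    have h1 := (abs_le.1 (hM1 y hy)).1
    have h2 := (abs_le.1 (hM1 b le_rfl)).1
    have h3 := mul_le_mul_of_nonneg_left h2 (Int.natCast_nonneg s)
    have h4 : ((s : ℤ) + 1) * δ ≤ m * δ := mul_le_mul_of_nonneg_right hsz hδ
    simp only [hE']
    nlinarith
  have A : ∀ s ≤ m, (∀ t < m, ∀ x ≤ b, G (s * b) (t * b + x) - (E' + 2 * δ * ((m : ℤ) + s - 1 - t))
      ≤ h (R + s * b) (C + (t * b + x))) ∧
      (∀ s' < s, ∀ y ≤ b, G (s' * b + y) 0 - (E' + 2 * δ * ((m : ℤ) + s'))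
        ≤ h (R + (s' * b + y)) C) := by
    intro s
    induction s with
    | zero =>
      intro _
      constructor
      · intro t ht x hx
        have hX : t * b + x ≤ m * b := by
          calc t * b + x ≤ t * b + b := by omega
            _ = (t + 1) * b := by ring
            _ ≤ m * b := Nat.mul_le_mul_right b ht
        have h1 := htop (t * b + x) hX
        have htz : (t : ℤ) + 1 ≤ m := by exact_mod_cast ht
        have h2 : 0 ≤ 2 * δ * ((m : ℤ) + (0 : ℕ) - 1 - t) := by
          apply mul_nonneg (by linarith)
          push_cast; linarith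
        have h3 : G (0 * b) (t * b + x) = per m b (fun x => g 0 x) (t * b + x) := by
          simp only [hG, zero_mul, per_zero]; ring
        have h4 : R + 0 * b = R := by simp
        rw [h3, h4]
        linarith
      · intro s' hs'; omega
    | succ s ih =>
      intro hs
      obtain ⟨ihA, ihL⟩ := ih (by omega)
      have hsm : s < m := hs
      -- sweep the row of copies from right to left
      have sweep : ∀ k t, t + k = m →
          (∀ y ≤ b, G (s * b + y) (t * b) - (E' + 2 * δ * ((m : ℤ) + s - t))
            ≤ h (R + (s * b + y)) (C + t * b)) ∧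
          (∀ t' < m, t ≤ t' → ∀ x ≤ b,
            G ((s + 1) * b) (t' * b + x) - (E' + 2 * δ * ((m : ℤ) + (s + 1 : ℕ) - 1 - t'))
              ≤ h (R + (s + 1) * b) (C + (t' * b + x))) := by
        intro k
        induction k with
        | zero =>
          intro t ht
          have htm : t = m := by omega
          subst htm
          constructor
          · intro y hy
            have hY : s * b + y ≤ t * b := by
              calc s * b + y ≤ s * b + b := by omega
                _ = (s + 1) * b := by ring
                _ ≤ t * b := Nat.mul_le_mul_right b hs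
            have h1 := hrightG (s * b + y) hY
            have h2 : 0 ≤ 2 * δ * ((t : ℤ) + s - t) := by
              apply mul_nonneg (by linarith)
              have : (0 : ℤ) ≤ s := Int.natCast_nonneg s
              linarith
            linarith
          · intro t' h1 h2; omega
        | succ k ihk =>
          intro t ht
          obtain ⟨hR1, hB1⟩ := ihk (t + 1) (by omega)
          have htm : t < m := by omega
          obtain ⟨D1, h1, R1, C1, hF1, hD1, g1, g2, g3, g4⟩ := hcopy s hsm t htm
          set K : ℤ := ((m : ℤ) - 1 - s) * g 0 0 + s * g b 0 + ((m : ℤ) - 1 - t) * g 0 0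
            + t * g 0 b - m * g 0 0 + g 0 0 with hK
          set ε : ℤ := E' + 2 * δ * ((m : ℤ) + s - 1 - t) with hε
          have eG : ∀ y ≤ b, ∀ x ≤ b, G (s * b + y) (t * b + x) = K + (g y 0 + g 0 x - g 0 0) := by
            intro y hy x hx
            simp only [hG]
            rw [per_eq hb _ s y hy, per_eq hb _ t x hx]
            simp only [hK]; ring
          have cs := copy_step hF hF1 (R + s * b) (C + t * b) R1 C1 b g δ K ε hδ hM1 hM2 hD1
            g1 g2 g3 g4
            (by
              intro x hx
              have h2 := ihA t htm x hx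
              have h3 := eG 0 (Nat.zero_le _) x hx
              rw [add_zero] at h3
              rw [h3] at h2
              rw [add_assoc C]
              simp only [hε]
              linarith)
            (by
              intro y hy
              have h2 := hR1 y hy
              have h3 := eG y hy b le_rfl
              have h4 : (t + 1) * b = t * b + b := by ring
              rw [h4, h3] at h2
              have h5 : R + s * b + y = R + (s * b + y) := by ring
              have h6 : C + t * b + b = C + (t * b + b) := by ring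
              rw [h5, h6]
              simp only [hε]
              push_cast at h2
              have h7 : (m : ℤ) + s - (t + 1) = (m : ℤ) + s - 1 - t := by ring
              rw [h7] at h2
              exact h2)
          obtain ⟨c1, c2⟩ := cs
          constructor
          · intro y hy
            have h2 := c1 y hy
            have h3 := eG y hy 0 (Nat.zero_le _)
            rw [add_zero] at h3
            rw [h3]
            have h5 : R + s * b + y = R + (s * b + y) := by ring
            rw [h5] at h2
            simp only [hε] at h2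
            have h7 : E' + 2 * δ * ((m : ℤ) + s - t) = E' + 2 * δ * ((m : ℤ) + s - 1 - t) + 2 * δ := by
              ring
            rw [h7]
            linarith
          · intro t' ht' htt' x hx
            rcases htt'.lt_or_eq with hlt | heq
            · exact hB1 t' ht' hlt x hx
            · subst heq
              have h2 := c2 x hx
              have h3 := eG b le_rfl x hx
              have h4 : (s + 1) * b = s * b + b := by ring
              rw [h4, h3]
              have h5 : R + s * b + b = R + (s * b + b) := by ring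
              have h6 : C + t * b + x = C + (t * b + x) := by ring
              rw [h5, h6] at h2
              simp only [hε] at h2
              push_cast
              have h7 : E' + 2 * δ * ((m : ℤ) + (s + 1) - 1 - t)
                  = E' + 2 * δ * ((m : ℤ) + s - 1 - t) + 2 * δ := by ring
              rw [h7]
              linarith
      obtain ⟨sw1, sw2⟩ := sweep m 0 (by omega)
      constructor
      · intro t ht x hx
        exact sw2 t ht (Nat.zero_le _) x hx
      · intro s' hs' y hy
        rcases Nat.lt_succ_iff_lt_or_eq.1 hs' with hlt | heq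
        · exact ihL s' hlt y hy
        · subst heq
          have := sw1 y hy
          simpa using this
  obtain ⟨A1, A2⟩ := A m le_rfl
  constructor
  · intro Y hY
    obtain ⟨s, y, hs, hy, rfl⟩ := exists_rep hm hb Y hY
    have h1 := A2 s hs y hy
    have hsz : (s : ℤ) + 1 ≤ m := by exact_mod_cast hs
    have h2 : G (s * b + y) 0 = per m b (fun y => g y 0) (s * b + y) := by
      simp only [hG, per_zero]; ring
    rw [h2] at h1
    have h3 : 2 * δ * ((m : ℤ) + s) ≤ 4 * m * δ := by nlinarith
    simp only [hE'] at h1
    nlinarith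
  · intro X hX
    obtain ⟨t, x, ht, hx, rfl⟩ := exists_rep hm hb X hX
    have h1 := A1 t ht x hx
    have htz : (t : ℤ) + 1 ≤ m := by exact_mod_cast ht
    have h3 : 2 * δ * ((m : ℤ) + m - 1 - t) ≤ 4 * m * δ := by
      have : (0 : ℤ) ≤ t := Int.natCast_nonneg t
      nlinarith
    have h4 : per m b (fun x => g b x) (t * b + x) ≤ G (m * b) (t * b + x) + m * δ := by
      simp only [hG]
      rw [per_end hb, per_eq hb _ t x hx, per_eq hb _ t x hx]
      have h5 := (abs_le.1 (hM2 x hx)).2
      have h6 := (abs_le.1 (hM2 b le_rfl)).2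
      have h7 := mul_le_mul_of_nonneg_left h6 (Int.natCast_nonneg t)
      have h8 : ((t : ℤ) + 1) * δ ≤ m * δ := mul_le_mul_of_nonneg_right htz hδ
      nlinarith
    simp only [hE'] at h1
    nlinarith

end Pool.Agent.Helper78.Lim
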