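import Pool.Agent.Helper78.LimCount

/-!
Pigeonhole: a large family with common data.
-/

namespace Pool.Agent.Helper78.Lim

open Finset

theorem pigeon {α β : Type*} [Fintype β] [DecidableEq β] (A : Finset α) (hA : A.Nonempty)
    (f : α → β) : ∃ a0 ∈ A, A.card ≤ Fintype.card β * (A.filter (fun a => f a = f a0)).card := by
  obtain ⟨a0, ha0, hmax⟩ := exists_max_image A (fun a => (A.filter (fun x => f x = f a)).card) hA
  refine ⟨a0, ha0, ?_⟩
  rw [card_eq_sum_card_fiberwise (f := f) (t := (univ : Finset β))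
    (fun _ _ => mem_coe.2 (mem_univ _))]
  calc ∑ y ∈ (univ : Finset β), (A.filter (fun a => f a = y)).card
      ≤ ∑ y ∈ (univ : Finset β), (A.filter (fun a => f a = f a0)).card := by
        apply sum_le_sum
        intro y _
        by_cases hy : ∃ a ∈ A, f a = y
        · obtain ⟨a, ha, rfl⟩ := hy
          exact hmax a ha
        · have : A.filter (fun a => f a = y) = ∅ := by
            apply filter_false_of_mem
            intro a ha h
            exact hy ⟨a, ha, h⟩
          rw [this, card_empty]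
          exact Nat.zero_le _
    _ = _ := by rw [sum_const, smul_eq_mul, card_univ]

theorem fin_ofNat_inj (n a b : ℕ) (ha : a ≤ n) (hb : b ≤ n)
    (h : Fin.ofNat (n + 1) a = Fin.ofNat (n + 1) b) : a = b := by
  have := congrArg Fin.val h
  simp only [Fin.ofNat] at this
  rwa [Nat.mod_eq_of_lt (by omega), Nat.mod_eq_of_lt (by omega)] at this

theorem WW_le (G : ℕ) (gd : ℕ → ℕ → Prop) (X : Finset (ℕ × ℕ))
    (h : ∀ p ∈ range G ×ˢ range G, p.1 + p.2 + 1 ≤ G → ¬ gd p.1 p.2 → p ∈ X) :
    WW G gd ≤ X.card := by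
  classical
  unfold WW
  apply card_le_card
  intro p hp
  rw [mem_filter] at hp
  exact h p hp.1 hp.2.1 hp.2.2

/-- The data of a reduced set. -/
abbrev Data (J S N Gm : ℕ) :=
  Fin J × (Fin S → Fin (Gm + 1) → Fin (N + 1) → Fin (2 * N + 1)) ×
    (Fin S → Fin (N + 1) → Fin (Gm + 1) → Fin (2 * N + 1)) × (Fin Gm → Fin Gm → Fin (N ^ 2 + 1))

/-- The data map, for a choice `l` of the scale. -/
noncomputable def dat (J S N Gm t : ℕ) (bl : ℕ → ℕ) (l : Finset (ℕ × ℕ) → Fin J)
    (D : Finset (ℕ × ℕ)) : Data J S N Gm :=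
  (l D, fun k α c => Fin.ofNat (2 * N + 1) (H (k * t) (st D N (α * bl (l D))) (α * bl (l D) + c)),
    fun k r β => Fin.ofNat (2 * N + 1) (H (k * t) (st D N r) (r + β * bl (l D))),
    fun α β => Fin.ofNat (N ^ 2 + 1) (loc (bl (l D)) α β D).card)

/-- The existence of a large family with common data. -/
theorem exists_fam (S B : ℕ) (hS : 0 < S) (hB : 0 < B) :
    ∃ (τ b G W : ℕ) (F : Finset (Finset (ℕ × ℕ))) (D0 : Finset (ℕ × ℕ)) (gd : ℕ → ℕ → Prop)
      (δ : ℕ), Fam S (S ^ (S ^ 5) * B) τ b G δ F D0 gd ∧ W = WW G gd ∧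
      G * b = S ^ (S ^ 5 + 1) * B ∧ S * δ = 6 * b ∧ S ≤ G ∧ S * W ≤ G ^ 2 + S * G ∧
      (Red (S ^ (S ^ 5 + 1) * B)).card ≤
        Fintype.card (Data (S ^ 5) S (S ^ (S ^ 5 + 1) * B) (S ^ (S ^ 5))) * F.card := by
  classical
  set J := S ^ 5 with hJ
  set N := S ^ (J + 1) * B with hN
  set t := S ^ J * B with ht
  have hJ0 : 0 < J := by positivity
  have hnon : (Red N).Nonempty := by
    refine ⟨∅, ?_⟩
    rw [mem_Red]
    exact ⟨fun p hp => absurd hp (notMem_empty p), Rd_none _ _ _ (fun p _ => notMem_empty p)⟩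
  -- choice of the scale
  have hscale : ∀ D : Finset (ℕ × ℕ), ∃ l : Fin J, (∀ p ∈ D, p.1 + p.2 + 2 ≤ N) →
      J * ((range (S ^ (J - 1 - l) * S) ×ˢ range (S ^ (J - 1 - l) * S)).filter
      (fun p : ℕ × ℕ => ¬ ∀ k < S, Mixed (hf D N (k * t)) S (S ^ (l : ℕ) * B) p.1 p.2)).card
        ≤ S ^ 3 * S * (S ^ (J - 1 - l) * S) ^ 2 := by
    intro D
    by_cases hD : ∀ p ∈ D, p.1 + p.2 + 2 ≤ N
    · obtain ⟨l, hl, h⟩ := exists_scale (D := fun r c => (r, c) ∈ D) S J S B S hS hJ0 hS hB
        (fun k => hf D N (k * t)) (fun k => fld_hf D N (k * t) hD)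
      exact ⟨⟨l, hl⟩, fun _ => h⟩
    · exact ⟨⟨0, hJ0⟩, fun h => absurd h hD⟩
  choose l hl using hscale
  set bl : ℕ → ℕ := fun l => S * (S ^ l * B) with hbl
  obtain ⟨D0, hD0, hcard⟩ := pigeon (Red N) hnon (dat J S N (S ^ J) t bl l)
  set l0 : ℕ := (l D0 : ℕ) with hl0
  have hl0J : l0 < J := (l D0).2
  set G := S ^ (J - 1 - l0) * S with hG
  set b := S * (S ^ l0 * B) with hb
  have hGb : G * b = N := by
    simp only [hG, hb, hN]
    have : J + 1 = (J - 1 - l0) + 1 + (l0 + 1) := by omega
    rw [this, pow_add, pow_add, pow_add]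
    ring
  have hG0 : 0 < G := by positivity
  have hb0 : 0 < b := by positivity
  have hGm : G ≤ S ^ J := by
    simp only [hG]
    rw [← pow_succ]
    exact Nat.pow_le_pow_right hS (by omega)
  set gd : ℕ → ℕ → Prop := fun α β => α + β + 2 ≤ G ∧
    ∀ k < S, Mixed (hf D0 N (k * t)) S (S ^ l0 * B) α β with hgd
  have hcells : ∀ D ∈ Red N, ∀ p ∈ D, p.1 + p.2 + 2 ≤ N := fun D hD => ((mem_Red _ _).1 hD).1
  refine ⟨S ^ (J - 1 - l0), b, G, WW G gd,
    (Red N).filter (fun D => dat J S N (S ^ J) t bl l D = dat J S N (S ^ J) t bl l D0), D0, gd,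
    6 * (S ^ l0 * B), ?_, rfl, hGb, ?_, ?_, ?_, hcard⟩
  · -- the family
    have hdat : ∀ D, dat J S N (S ^ J) t bl l D = dat J S N (S ^ J) t bl l D0 →
        l D = l D0 ∧
        (∀ k < S, ∀ α ≤ G, ∀ c ≤ N, H (k * t) (st D N (α * b)) (α * b + c)
          = H (k * t) (st D0 N (α * b)) (α * b + c)) ∧
        (∀ k < S, ∀ r ≤ N, ∀ β ≤ G, H (k * t) (st D N r) (r + β * b)
          = H (k * t) (st D0 N r) (r + β * b)) ∧
        (∀ α < G, ∀ β < G, (loc b α β D).card = (loc b α β D0).card) := by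
      intro D hD
      unfold dat at hD
      simp only [Prod.mk.injEq] at hD
      obtain ⟨e0, e1, e2, e3⟩ := hD
      rw [e0] at e1 e2 e3
      refine ⟨e0, ?_, ?_, ?_⟩
      · intro k hk α hα c hc
        have h1 := congrFun (congrFun (congrFun e1 ⟨k, hk⟩) ⟨α, by omega⟩) ⟨c, by omega⟩
        have hαb : α * b ≤ N := by rw [← hGb]; exact Nat.mul_le_mul_right _ hα
        apply fin_ofNat_inj (2 * N) _ _ ((H_le _ _ _).trans (by omega))
          ((H_le _ _ _).trans (by omega))
        exact h1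
      · intro k hk r hr β hβ
        have h1 := congrFun (congrFun (congrFun e2 ⟨k, hk⟩) ⟨r, by omega⟩) ⟨β, by omega⟩
        have hβb : β * b ≤ N := by rw [← hGb]; exact Nat.mul_le_mul_right _ hβ
        apply fin_ofNat_inj (2 * N) _ _ ((H_le _ _ _).trans (by omega))
          ((H_le _ _ _).trans (by omega))
        exact h1
      · intro α hα β hβ
        have h1 := congrFun (congrFun e3 ⟨α, by omega⟩) ⟨β, by omega⟩
        have hbN : b ≤ N := by rw [← hGb]; exact Nat.le_mul_of_pos_left _ hG0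
        have hle : ∀ D, (loc b α β D).card ≤ N ^ 2 := by
          intro D
          unfold loc
          refine (card_filter_le _ _).trans ?_
          rw [card_product, card_range, sq]
          exact Nat.mul_le_mul hbN hbN
        exact fin_ofNat_inj (N ^ 2) _ _ (hle D) (hle D0) h1
    refine ⟨hb0, by positivity, ?_, ?_, ?_, ?_, ?_, ?_, ?_, fun α β h => h.1, ?_, ?_⟩
    · simp only [ht, hb]
      have : J = (J - 1 - l0) + (l0 + 1) := by omega
      conv_lhs => rw [this, pow_add, pow_add]
      ring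
    · rw [hGb]
      simp only [hN, ht]
      ring
    · exact mem_filter.2 ⟨hD0, rfl⟩
    · intro D hD
      rw [hGb]
      exact (mem_filter.1 hD).1
    · intro D hD k hk α hα c hc
      obtain ⟨-, h1, -, -⟩ := hdat D (mem_filter.1 hD).2
      unfold hf
      rw [hGb] at hc ⊢
      rw [h1 k hk α hα c hc]
    · intro D hD k hk r hr β hβ
      obtain ⟨-, -, h1, -⟩ := hdat D (mem_filter.1 hD).2
      unfold hf
      rw [hGb] at hr ⊢
      rw [h1 k hk r hr β hβ]
    · intro D hD α hα β hβ
      obtain ⟨-, -, -, h1⟩ := hdat D (mem_filter.1 hD).2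
      exact h1 α hα β hβ
    · intro α β h k hk y hy
      have h1 := h.2 k hk y hy b le_rfl 0 (Nat.zero_le _)
      rw [hGb]
      simp only [add_zero] at h1
      push_cast at h1 ⊢
      exact h1
    · intro α β h k hk x hx
      have h1 := h.2 k hk b le_rfl x hx 0 (Nat.zero_le _)
      rw [hGb]
      simp only [add_zero] at h1
      push_cast at h1 ⊢
      exact h1
  · simp only [hb]; ring
  · simp only [hG]
    exact Nat.le_mul_of_pos_left _ (by positivity)
  · have h1 := hl D0 (hcells D0 hD0)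
    set bad := ((range (S ^ (J - 1 - (l D0 : ℕ)) * S) ×ˢ range (S ^ (J - 1 - (l D0 : ℕ)) * S)).filter
      (fun p : ℕ × ℕ => ¬ ∀ k < S, Mixed (hf D0 N (k * t)) S (S ^ (l D0 : ℕ) * B) p.1 p.2))
      with hbad
    have h2 : S * bad.card ≤ G ^ 2 := by
      have h3 : S ^ 4 * (S * bad.card) ≤ S ^ 4 * G ^ 2 := by
        calc S ^ 4 * (S * bad.card) = J * bad.card := by rw [hJ]; ring
          _ ≤ _ := h1
          _ = S ^ 4 * G ^ 2 := by simp only [hG]; ring
      exact Nat.le_of_mul_le_mul_left h3 (by positivity)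
    have h4 : WW G gd ≤ bad.card + G := by
      refine (WW_le G gd (bad ∪
        ((range G ×ˢ range G).filter (fun p => p.1 + p.2 + 1 = G))) ?_).trans
        ((card_union_le _ _).trans ?_)
      · intro p hp1 hp2 hp3
        rw [mem_union]
        by_cases h5 : p.1 + p.2 + 1 = G
        · right
          exact mem_filter.2 ⟨hp1, h5⟩
        · left
          rw [hbad, mem_filter]
          refine ⟨hp1, fun h6 => hp3 ⟨by omega, h6⟩⟩
      apply Nat.add_le_add_left
      calc ((range G ×ˢ range G).filter (fun p => p.1 + p.2 + 1 = G)).card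
          ≤ (range G).card := by
            apply card_le_card_of_injOn (fun p => p.1)
            · intro p hp
              have hp := (mem_filter.1 (mem_coe.1 hp)).1
              exact mem_coe.2 (mem_product.1 hp).1
            · intro p hp q hq h
              have hp := (mem_filter.1 (mem_coe.1 hp)).2
              have hq := (mem_filter.1 (mem_coe.1 hq)).2
              simp only at h
              apply Prod.ext
              · exact h
              · omega
        _ = G := card_range _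
    calc S * WW G gd ≤ S * (bad.card + G) := Nat.mul_le_mul_left _ h4
      _ = S * bad.card + S * G := by ring
      _ ≤ G ^ 2 + S * G := Nat.add_le_add_right h2 _

end Pool.Agent.Helper78.Lim
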