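import Pool.Agent.Helper78.SchubFam

/-! Local potentials and the upper bound for the number of reduced pipe dreams. -/

namespace Pool.Agent.Helper78.Schub

open Equiv MvPolynomial

variable {n : ℕ}

/-- The one-line word of `w`, shifted by `o` and extended by the identity. -/
def ee (w : Perm (Fin n)) (o : ℕ) (k : ℕ) : ℕ :=
  if h : o ≤ k ∧ k < n + o then (w ⟨k - o, by omega⟩ : ℕ) + o else k

theorem ee_inj (w : Perm (Fin n)) (o : ℕ) : Function.Injective (ee w o) := by
  intro a b hab
  unfold ee at hab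
  split_ifs at hab with h1 h2 h2
  · have h3 : w ⟨a - o, by omega⟩ = w ⟨b - o, by omega⟩ := by
      apply Fin.ext
      omega
    have h4 := w.injective h3
    simp only [Fin.mk.injEq] at h4
    omega
  · have := (w ⟨a - o, by omega⟩).2
    omega
  · have := (w ⟨b - o, by omega⟩).2
    omega
  · exact hab

theorem ee_swap (w : Perm (Fin n)) (o i : ℕ) (h : i + 1 < n) (k : ℕ) :
    ee (w * adj i h) o (k + i) = ee w o (Equiv.swap o (o + 1) k + i) := by
  by_cases h1 : k = o
  · subst h1
    rw [Equiv.swap_apply_left]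
    unfold ee
    rw [dif_pos (by omega), dif_pos (by omega), Perm.mul_apply]
    have e1 : (⟨k + i - k, by omega⟩ : Fin n) = ⟨i, Nat.lt_of_succ_lt h⟩ := by
      apply Fin.ext; show k + i - k = i; omega
    have e2 : (⟨k + 1 + i - k, by omega⟩ : Fin n) = ⟨i + 1, h⟩ := by
      apply Fin.ext; show k + 1 + i - k = i + 1; omega
    rw [e1, e2, adj_left]
  by_cases h2 : k = o + 1
  · subst h2
    rw [Equiv.swap_apply_right]
    unfold ee
    rw [dif_pos (by omega), dif_pos (by omega), Perm.mul_apply]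
    have e1 : (⟨o + i - o, by omega⟩ : Fin n) = ⟨i, Nat.lt_of_succ_lt h⟩ := by
      apply Fin.ext; show o + i - o = i; omega
    have e2 : (⟨o + 1 + i - o, by omega⟩ : Fin n) = ⟨i + 1, h⟩ := by
      apply Fin.ext; show o + 1 + i - o = i + 1; omega
    rw [e1, e2, adj_right]
  rw [Equiv.swap_apply_of_ne_of_ne h1 h2]
  unfold ee
  split_ifs with h3
  · rw [Perm.mul_apply, adj_ne]
    · show k + i - o ≠ i; omega
    · show k + i - o ≠ i + 1; omega
  · rfl

theorem ee_swap_ne (w : Perm (Fin n)) (o i : ℕ) (h : i + 1 < n) (k : ℕ) (h1 : k ≠ i + o)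
    (h2 : k ≠ i + o + 1) : ee (w * adj i h) o k = ee w o k := by
  unfold ee
  split_ifs with h3
  · rw [Perm.mul_apply, adj_ne]
    · show k - o ≠ i; omega
    · show k - o ≠ i + 1; omega
  · rfl

/-- A local potential. -/
structure Pot (o s : ℕ) (c M L : ℝ) (K Q : (ℕ → ℕ) → ℝ) : Prop where
  hs1 : 1 ≤ s
  hs : s ≤ o + 1
  hc : 0 ≤ c
  K_ge : ∀ y, 1 ≤ K y
  K_le : ∀ y, K y ≤ M
  Q_ge : ∀ y, 1 ≤ Q y
  Q_le : ∀ y, Q y ≤ L
  loc : ∀ y y' : ℕ → ℕ, (∀ k < s, y k = y' k) → Q y = Q y'
  ineq : ∀ y : ℕ → ℕ, Function.Injective y →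
    K y * Q (fun k => y (k + (o + 1))) +
      (if y o < y (o + 1) then K (fun k => y (Equiv.swap o (o + 1) k)) *
        Q (fun k => y (Equiv.swap o (o + 1) (k + (o + 1)))) else 0)
      ≤ c * (K (fun k => y (k + 1)) * Q (fun k => y (k + (o + 1 - s))))

section

variable {o s : ℕ} {c M L : ℝ} {K Q : (ℕ → ℕ) → ℝ}

/-- window starts on both sides of the carrier -/
def AA (n o s p : ℕ) : Finset ℕ :=
  (Finset.range (n + o)).filter fun a => p + o + 1 ≤ a ∨ a + s ≤ p + o

/-- The global potential with carrier at position `p`. -/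
noncomputable def GG (o s : ℕ) (K Q : (ℕ → ℕ) → ℝ) (p : ℕ) (w : Perm (Fin n)) : ℝ :=
  K (fun k => ee w o (k + p)) * ∏ a ∈ AA n o s p, Q (fun k => ee w o (k + a))

theorem GG_ge (hP : Pot o s c M L K Q) (p : ℕ) (w : Perm (Fin n)) : 1 ≤ GG o s K Q p w := by
  unfold GG
  have h1 := hP.K_ge (fun k => ee w o (k + p))
  have h2 : (1 : ℝ) ≤ ∏ a ∈ AA n o s p, Q (fun k => ee w o (k + a)) := by
    apply Finset.one_le_prod
    intro a _
    exact hP.Q_ge _
  nlinarith

theorem cell_ineq (hP : Pot o s c M L K Q) (i : ℕ) (h : i + 1 < n) (w : Perm (Fin n)) :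
    GG o s K Q i w + (if Desc w i then 0 else GG o s K Q i (w * adj i h))
      ≤ c * GG o s K Q (i + 1) w := by
  have hs1 := hP.hs1
  have hs := hP.hs
  set B := (Finset.range (n + o)).filter fun a => i + o + 2 ≤ a ∨ a + s ≤ i + o with hB
  have hA1 : AA n o s i = insert (i + o + 1) B := by
    ext a
    simp only [AA, hB, Finset.mem_filter, Finset.mem_range, Finset.mem_insert]
    omega
  have hA2 : AA n o s (i + 1) = insert (i + (o + 1 - s)) B := by
    ext a
    simp only [AA, hB, Finset.mem_filter, Finset.mem_range, Finset.mem_insert]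
    omega
  have hn1 : i + o + 1 ∉ B := by
    simp only [hB, Finset.mem_filter, Finset.mem_range]
    omega
  have hn2 : i + (o + 1 - s) ∉ B := by
    simp only [hB, Finset.mem_filter, Finset.mem_range]
    omega
  have hBs : ∏ a ∈ B, Q (fun k => ee (w * adj i h) o (k + a))
      = ∏ a ∈ B, Q (fun k => ee w o (k + a)) := by
    apply Finset.prod_congr rfl
    intro a ha
    simp only [hB, Finset.mem_filter, Finset.mem_range] at ha
    apply hP.loc
    intro k hk
    apply ee_swap_ne <;> omega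
  set y : ℕ → ℕ := fun k => ee w o (k + i) with hy
  have hyinj : Function.Injective y := by
    intro a b hab
    have := ee_inj w o hab
    omega
  have hPB : (0 : ℝ) ≤ ∏ a ∈ B, Q (fun k => ee w o (k + a)) := by
    apply Finset.prod_nonneg
    intro a _
    exact zero_le_one.trans (hP.Q_ge _)
  have key := hP.ineq y hyinj
  have e1 : (fun k => y (k + (o + 1))) = fun k => ee w o (k + (i + o + 1)) := by
    funext k
    show ee w o _ = ee w o _
    congr 1; omega
  have e2 : (fun k => y (Equiv.swap o (o + 1) k)) = fun k => ee (w * adj i h) o (k + i) := by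
    funext k
    exact (ee_swap w o i h k).symm
  have e3 : (fun k => y (Equiv.swap o (o + 1) (k + (o + 1))))
      = fun k => ee (w * adj i h) o (k + (i + o + 1)) := by
    funext k
    have := ee_swap w o i h (k + (o + 1))
    rw [show k + (i + o + 1) = k + (o + 1) + i by omega, this]
  have e4 : (fun k => y (k + 1)) = fun k => ee w o (k + (i + 1)) := by
    funext k
    show ee w o _ = ee w o _
    congr 1; omega
  have e5 : (fun k => y (k + (o + 1 - s))) = fun k => ee w o (k + (i + (o + 1 - s))) := by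
    funext k
    show ee w o _ = ee w o _
    congr 1; omega
  have e6 : y o < y (o + 1) ↔ ¬ Desc w i := by
    rw [not_desc_of w i h]
    show ee w o (o + i) < ee w o (o + 1 + i) ↔ _
    unfold ee
    rw [dif_pos (by omega), dif_pos (by omega)]
    have f1 : (⟨o + i - o, by omega⟩ : Fin n) = ⟨i, Nat.lt_of_succ_lt h⟩ := by
      apply Fin.ext; show o + i - o = i; omega
    have f2 : (⟨o + 1 + i - o, by omega⟩ : Fin n) = ⟨i + 1, h⟩ := by
      apply Fin.ext; show o + 1 + i - o = i + 1; omega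
    rw [f1, f2, Fin.lt_def]
    omega
  rw [e1, e2, e3, e4, e5] at key
  simp only [e6] at key
  unfold GG
  rw [hA1, hA2, Finset.prod_insert hn1, Finset.prod_insert hn1, Finset.prod_insert hn2, hBs]
  have := mul_le_mul_of_nonneg_right key hPB
  by_cases hd : Desc w i
  · simp only [hd, not_true_eq_false, if_false, if_true, add_zero] at this ⊢
    linarith
  · simp only [hd, not_false_eq_true, if_false, if_true] at this ⊢
    linarith

theorem sum_hh (i : ℕ) (h : i + 1 < n) (f G : Perm (Fin n) → ℝ) :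
    ∑ v, hh (U ℝ n) i (1 : ℝ) f v * G v
      = ∑ w, f w * (G w + (if Desc w i then 0 else G (w * adj i h))) := by
  have h1 : ∀ v, hh (U ℝ n) i (1 : ℝ) f v * G v
      = f v * G v + (if Desc v i then f (v * adj i h) * G v else 0) := by
    intro v
    rw [hh_apply, sw_of i h]
    by_cases hd : Desc v i
    · rw [if_pos hd, if_pos hd]; ring
    · rw [if_neg hd, if_neg hd]; ring
  have h2 : ∀ w, f w * (G w + (if Desc w i then 0 else G (w * adj i h)))
      = f w * G w + (if Desc w i then 0 else f w * G (w * adj i h)) := by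
    intro w
    by_cases hd : Desc w i
    · rw [if_pos hd, if_pos hd]; ring
    · rw [if_neg hd, if_neg hd]; ring
  simp only [h1, h2, Finset.sum_add_distrib]
  congr 1
  apply Fintype.sum_equiv (Equiv.mulRight (adj i h))
  intro v
  show _ = if Desc (v * adj i h) i then 0 else f (v * adj i h) * G (v * adj i h * adj i h)
  rw [mul_assoc v, adj_mul_self, mul_one]
  by_cases hd : Desc v i
  · rw [if_pos hd, if_neg]
    rw [desc_mul_adj v i h]
    simpa using hd
  · rw [if_neg hd, if_pos]
    rwa [desc_mul_adj v i h]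

theorem hh_nonneg (i : ℕ) (f : Perm (Fin n) → ℝ) (hf : ∀ v, 0 ≤ f v) (v : Perm (Fin n)) :
    0 ≤ hh (U ℝ n) i (1 : ℝ) f v := by
  rw [hh_apply]
  have := hf v
  split_ifs
  · have := hf (v * sw n i); linarith
  · linarith

theorem row_nonneg (m : ℕ) : ∀ (j : ℕ) (f : Perm (Fin n) → ℝ), (∀ v, 0 ≤ f v) →
    ∀ v, 0 ≤ row (U ℝ n) (1 : ℝ) j m f v := by
  induction m with
  | zero => intro j f hf v; exact hf v
  | succ m ih =>
    intro j f hf v
    rw [row_succ]
    exact hh_nonneg j _ (ih (j + 1) f hf) v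

theorem row_sum (hP : Pot o s c M L K Q) (m : ℕ) : ∀ (j : ℕ), j + m = n - 1 →
    ∀ (f : Perm (Fin n) → ℝ), (∀ v, 0 ≤ f v) →
    ∑ v, row (U ℝ n) (1 : ℝ) j m f v * GG o s K Q j v
      ≤ c ^ m * ∑ v, f v * GG o s K Q (n - 1) v := by
  induction m with
  | zero =>
    intro j hj f hf
    have : j = n - 1 := by omega
    subst this
    simp [row]
  | succ m ih =>
    intro j hj f hf
    have hjn : j + 1 < n := by omega
    have h1 := ih (j + 1) (by omega) f hf
    rw [row_succ, sum_hh j hjn]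
    calc ∑ w, row (U ℝ n) (1 : ℝ) (j + 1) m f w
          * (GG o s K Q j w + (if Desc w j then 0 else GG o s K Q j (w * adj j hjn)))
        ≤ ∑ w, row (U ℝ n) (1 : ℝ) (j + 1) m f w * (c * GG o s K Q (j + 1) w) := by
          apply Finset.sum_le_sum
          intro w _
          exact mul_le_mul_of_nonneg_left (cell_ineq hP j hjn w) (row_nonneg m (j + 1) f hf w)
      _ = c * ∑ w, row (U ℝ n) (1 : ℝ) (j + 1) m f w * GG o s K Q (j + 1) w := by
          rw [Finset.mul_sum]
          apply Finset.sum_congr rfl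
          intro w _
          ring
      _ ≤ c * (c ^ m * ∑ v, f v * GG o s K Q (n - 1) v) :=
          mul_le_mul_of_nonneg_left h1 hP.hc
      _ = c ^ (m + 1) * ∑ v, f v * GG o s K Q (n - 1) v := by ring

theorem prod_subset_le {ι : Type*} [DecidableEq ι] {A B : Finset ι} (hAB : A ⊆ B) (f : ι → ℝ)
    (hf : ∀ a, 1 ≤ f a) : ∏ a ∈ A, f a ≤ ∏ a ∈ B, f a := by
  rw [← Finset.prod_sdiff hAB]
  have h1 : (1 : ℝ) ≤ ∏ a ∈ B \ A, f a := Finset.one_le_prod (fun a _ => hf a)
  have h2 : (0 : ℝ) ≤ ∏ a ∈ A, f a := Finset.prod_nonneg (fun a _ => zero_le_one.trans (hf a))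
  nlinarith

theorem row_change (hP : Pot o s c M L K Q) (j : ℕ) (w : Perm (Fin n)) :
    GG o s K Q (n - 1) w ≤ (M * L ^ s) * GG o s K Q j w := by
  classical
  have hL : (1 : ℝ) ≤ L := (hP.Q_ge (fun _ => 0)).trans (hP.Q_le _)
  have hM : (1 : ℝ) ≤ M := (hP.K_ge (fun _ => 0)).trans (hP.K_le _)
  set q : ℕ → ℝ := fun a => Q (fun k => ee w o (k + a)) with hq
  have hq1 : ∀ a, 1 ≤ q a := fun a => hP.Q_ge _
  have hsub : AA n o s (n - 1) ⊆ AA n o s j ∪ Finset.Ico (j + o + 1 - s) (j + o + 1) := by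
    intro a
    simp only [AA, Finset.mem_filter, Finset.mem_range, Finset.mem_union, Finset.mem_Ico]
    omega
  have hsub2 : AA n o s (n - 1) \ AA n o s j ⊆ Finset.Ico (j + o + 1 - s) (j + o + 1) := by
    intro a ha
    rw [Finset.mem_sdiff] at ha
    have := hsub ha.1
    rw [Finset.mem_union] at this
    rcases this with h | h
    · exact absurd h ha.2
    · exact h
  have h1 : ∏ a ∈ AA n o s (n - 1), q a ≤ L ^ s * ∏ a ∈ AA n o s j, q a := by
    rw [← Finset.prod_inter_mul_prod_sdiff (AA n o s (n - 1)) (AA n o s j)]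
    have h2 : ∏ a ∈ AA n o s (n - 1) ∩ AA n o s j, q a ≤ ∏ a ∈ AA n o s j, q a :=
      prod_subset_le Finset.inter_subset_right q hq1
    have h3 : ∏ a ∈ AA n o s (n - 1) \ AA n o s j, q a ≤ L ^ s := by
      calc ∏ a ∈ AA n o s (n - 1) \ AA n o s j, q a
          ≤ ∏ a ∈ Finset.Ico (j + o + 1 - s) (j + o + 1), q a := prod_subset_le hsub2 q hq1
        _ ≤ ∏ a ∈ Finset.Ico (j + o + 1 - s) (j + o + 1), L := by
            apply Finset.prod_le_prod
            · intro a _; exact zero_le_one.trans (hq1 a)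
            · intro a _; exact hP.Q_le _
        _ = L ^ (Finset.Ico (j + o + 1 - s) (j + o + 1)).card := by
            rw [Finset.prod_const]
        _ ≤ L ^ s := by
            apply pow_le_pow_right₀ hL
            rw [Nat.card_Ico]
            have := hP.hs
            omega
    have h4 : (0 : ℝ) ≤ ∏ a ∈ AA n o s (n - 1) \ AA n o s j, q a :=
      Finset.prod_nonneg (fun a _ => zero_le_one.trans (hq1 a))
    have h5 : (0 : ℝ) ≤ ∏ a ∈ AA n o s j, q a :=
      Finset.prod_nonneg (fun a _ => zero_le_one.trans (hq1 a))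
    calc _ ≤ (∏ a ∈ AA n o s j, q a) * L ^ s := mul_le_mul h2 h3 h4 h5
      _ = _ := by ring
  have h6 : (0 : ℝ) ≤ ∏ a ∈ AA n o s j, q a :=
    Finset.prod_nonneg (fun a _ => zero_le_one.trans (hq1 a))
  have h7 : (0 : ℝ) ≤ ∏ a ∈ AA n o s (n - 1), q a :=
    Finset.prod_nonneg (fun a _ => zero_le_one.trans (hq1 a))
  unfold GG
  have hLs : (0 : ℝ) ≤ L ^ s := by positivity
  calc K (fun k => ee w o (k + (n - 1))) * ∏ a ∈ AA n o s (n - 1), q a
      ≤ M * (L ^ s * ∏ a ∈ AA n o s j, q a) :=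
        mul_le_mul (hP.K_le _) h1 h7 (zero_le_one.trans hM)
    _ = (M * L ^ s) * (1 * ∏ a ∈ AA n o s j, q a) := by ring
    _ ≤ (M * L ^ s) * (K (fun k => ee w o (k + j)) * ∏ a ∈ AA n o s j, q a) := by
        apply mul_le_mul_of_nonneg_left _ (by positivity)
        exact mul_le_mul_of_nonneg_right (hP.K_ge _) h6

theorem FF_nonneg (k : ℕ) (v : Perm (Fin n)) : 0 ≤ FF ℝ n (fun _ => 1) k v := by
  induction k generalizing v with
  | zero => simp only [FF, dl]; split_ifs <;> norm_num
  | succ k ih =>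
    simp only [FF]
    exact row_nonneg _ _ _ ih v

theorem FF_sum (hP : Pot o s c M L K Q) (k : ℕ) (hk : k ≤ n) :
    ∑ v, FF ℝ n (fun _ => 1) k v * GG o s K Q (n - 1) v
      ≤ (M * L ^ s) ^ k * c ^ (∑ j ∈ Finset.range k, (n - 1 - j))
        * GG o s K Q (n - 1) (1 : Perm (Fin n)) := by
  have hL : (1 : ℝ) ≤ L := (hP.Q_ge (fun _ => 0)).trans (hP.Q_le _)
  have hM : (1 : ℝ) ≤ M := (hP.K_ge (fun _ => 0)).trans (hP.K_le _)
  have hD : (0 : ℝ) ≤ M * L ^ s := by positivity
  have hc := hP.hc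
  induction k with
  | zero =>
    simp only [FF, dl, Finset.range_zero, Finset.sum_empty, pow_zero, one_mul]
    rw [Finset.sum_eq_single (1 : Perm (Fin n))]
    · simp
    · intro b _ hb
      rw [if_neg hb, zero_mul]
    · intro h; exact absurd (Finset.mem_univ _) h
  | succ k ih =>
    have ih := ih (by omega)
    have h1 := row_sum hP (n - 1 - k) k (by omega) (FF ℝ n (fun _ => 1) k) (FF_nonneg k)
    have h2 : ∑ v, FF ℝ n (fun _ => 1) (k + 1) v * GG o s K Q (n - 1) v
        ≤ (M * L ^ s) * ∑ v, FF ℝ n (fun _ => 1) (k + 1) v * GG o s K Q k v := by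
      rw [Finset.mul_sum]
      apply Finset.sum_le_sum
      intro v _
      have := mul_le_mul_of_nonneg_left (row_change hP k v) (FF_nonneg (k + 1) v)
      calc _ ≤ _ := this
        _ = _ := by ring
    calc _ ≤ (M * L ^ s) * ∑ v, FF ℝ n (fun _ => 1) (k + 1) v * GG o s K Q k v := h2
      _ ≤ (M * L ^ s) * (c ^ (n - 1 - k)
          * ∑ v, FF ℝ n (fun _ => 1) k v * GG o s K Q (n - 1) v) :=
          mul_le_mul_of_nonneg_left h1 hD
      _ ≤ (M * L ^ s) * (c ^ (n - 1 - k) * ((M * L ^ s) ^ k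
          * c ^ (∑ j ∈ Finset.range k, (n - 1 - j))
          * GG o s K Q (n - 1) (1 : Perm (Fin n)))) := by
          apply mul_le_mul_of_nonneg_left _ hD
          exact mul_le_mul_of_nonneg_left ih (by positivity)
      _ = _ := by
          rw [Finset.sum_range_succ, pow_succ, pow_add]
          ring

/-- The bound for the number of reduced pipe dreams. -/
theorem total_bound (hP : Pot o s c M L K Q) (n : ℕ) :
    ∑ v, FF ℝ n (fun _ => 1) n v
      ≤ (M * L ^ s) ^ n * c ^ (∑ j ∈ Finset.range n, (n - 1 - j)) * (M * L ^ (n + o)) := by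
  have hL : (1 : ℝ) ≤ L := (hP.Q_ge (fun _ => 0)).trans (hP.Q_le _)
  have hM : (1 : ℝ) ≤ M := (hP.K_ge (fun _ => 0)).trans (hP.K_le _)
  have hc := hP.hc
  have h1 : ∑ v, FF ℝ n (fun _ => 1) n v
      ≤ ∑ v, FF ℝ n (fun _ => 1) n v * GG o s K Q (n - 1) v := by
    apply Finset.sum_le_sum
    intro v _
    exact le_mul_of_one_le_right (FF_nonneg n v) (GG_ge hP _ v)
  refine h1.trans ((FF_sum hP n le_rfl).trans ?_)
  apply mul_le_mul_of_nonneg_left _ (by positivity)
  unfold GG
  apply mul_le_mul (hP.K_le _) _ _ (by positivity)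
  · calc ∏ a ∈ AA n o s (n - 1), Q (fun k => ee (1 : Perm (Fin n)) o (k + a))
        ≤ ∏ a ∈ AA n o s (n - 1), L := by
          apply Finset.prod_le_prod
          · intro a _; exact zero_le_one.trans (hP.Q_ge _)
          · intro a _; exact hP.Q_le _
      _ = L ^ (AA n o s (n - 1)).card := by rw [Finset.prod_const]
      _ ≤ L ^ (n + o) := by
          apply pow_le_pow_right₀ hL
          calc _ ≤ (Finset.range (n + o)).card := Finset.card_filter_le _ _
            _ = n + o := Finset.card_range _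
  · apply Finset.prod_nonneg
    intro a _; exact zero_le_one.trans (hP.Q_ge _)

/-- principal evaluations of a Schubert family in terms of `FF` -/
theorem eval_family (n : ℕ) (S : Perm (Fin n) → MvPolynomial (Fin n) ℤ)
    (hS : IsSchubertFamily n S) (w : Perm (Fin n)) :
    ((eval (fun _ => (1 : ℤ)) (S w) : ℤ) : ℝ) = FF ℝ n (fun _ => 1) n w := by
  rw [family_unique S _ hS (isSchubertFamily_FF n)]
  have h1 := congrFun (FF_natural ((Int.castRingHom ℝ).comp
    (eval (fun _ : Fin n => (1 : ℤ)))) (xv n) n) w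
  have h2 : FF ℝ n (fun j => ((Int.castRingHom ℝ).comp
      (eval (fun _ : Fin n => (1 : ℤ)))) (xv n j)) n = FF ℝ n (fun _ => 1) n := by
    apply FF_congr
    intro j hj
    rw [xv, dif_pos hj]
    simp
  rw [h2] at h1
  exact h1

theorem eval_le (hP : Pot o s c M L K Q) (n : ℕ) (S : Perm (Fin n) → MvPolynomial (Fin n) ℤ)
    (hS : IsSchubertFamily n S) (w : Perm (Fin n)) :
    ((eval (fun _ => (1 : ℤ)) (S w) : ℤ) : ℝ)
      ≤ (M * L ^ s) ^ n * c ^ (∑ j ∈ Finset.range n, (n - 1 - j)) * (M * L ^ (n + o)) := by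
  rw [eval_family n S hS w]
  refine le_trans ?_ (total_bound hP n)
  exact Finset.single_le_sum (f := fun v => FF ℝ n (fun _ => 1) n v)
    (fun v _ => FF_nonneg n v) (Finset.mem_univ w)

end

end Pool.Agent.Helper78.Schub
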