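import Pool.Agent.Helper78.LimWord
import Pool.Agent.Helper78.SchubPot

/-!
Reduced sets of crossings, effective crossings, inversions, and the principal evaluations.
-/

namespace Pool.Agent.Helper78.Lim

open Finset

/-- Every crossing of `D` in the list exchanges increasing letters. -/
def Rd (D : Finset (ℕ × ℕ)) (x : ℕ → ℕ) : List (ℕ × ℕ) → Prop
  | [] => True
  | p :: L => Rd D x L ∧ (p ∈ D → run D L x (p.1 + p.2) < run D L x (p.1 + p.2 + 1))

/-- The effective crossings. -/
def eff (D : Finset (ℕ × ℕ)) (x : ℕ → ℕ) : List (ℕ × ℕ) → Finset (ℕ × ℕ)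
  | [] => ∅
  | p :: L => if p ∈ D ∧ run D L x (p.1 + p.2) < run D L x (p.1 + p.2 + 1) then
      insert p (eff D x L) else eff D x L

theorem run_congr (D D' : Finset (ℕ × ℕ)) (L : List (ℕ × ℕ)) (x : ℕ → ℕ)
    (h : ∀ p ∈ L, (p ∈ D ↔ p ∈ D')) : run D L x = run D' L x := by
  induction L with
  | nil => rfl
  | cons p L ih =>
    have ih := ih (fun q hq => h q (List.mem_cons_of_mem _ hq))
    have hp := h p List.mem_cons_self
    simp only [run, ih, stp]
    by_cases h1 : p ∈ D
    · simp [h1, hp.1 h1]
    · have h2 : p ∉ D' := fun hh => h1 (hp.2 hh)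
      simp [h1, h2]

theorem Rd_congr (D D' : Finset (ℕ × ℕ)) (L : List (ℕ × ℕ)) (x : ℕ → ℕ)
    (h : ∀ p ∈ L, (p ∈ D ↔ p ∈ D')) : Rd D x L ↔ Rd D' x L := by
  induction L with
  | nil => exact Iff.rfl
  | cons p L ih =>
    have ih := ih (fun q hq => h q (List.mem_cons_of_mem _ hq))
    have hp := h p List.mem_cons_self
    have hr := run_congr D D' L x (fun q hq => h q (List.mem_cons_of_mem _ hq))
    simp only [Rd, ih, hr, hp]

theorem eff_subset (D : Finset (ℕ × ℕ)) (x : ℕ → ℕ) (L : List (ℕ × ℕ)) : eff D x L ⊆ D := by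
  induction L with
  | nil => simp [eff]
  | cons p L ih =>
    simp only [eff]
    split_ifs with h
    · exact insert_subset h.1 ih
    · exact ih

theorem mem_of_eff (D : Finset (ℕ × ℕ)) (x : ℕ → ℕ) (L : List (ℕ × ℕ)) (p : ℕ × ℕ)
    (hp : p ∈ eff D x L) : p ∈ L := by
  induction L with
  | nil => simp [eff] at hp
  | cons q L ih =>
    simp only [eff] at hp
    split_ifs at hp with h
    · rcases mem_insert.1 hp with rfl | hp
      · exact List.mem_cons_self
      · exact List.mem_cons_of_mem _ (ih hp)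
    · exact List.mem_cons_of_mem _ (ih hp)

theorem eff_cons_iff (D : Finset (ℕ × ℕ)) (x : ℕ → ℕ) (L : List (ℕ × ℕ)) (p : ℕ × ℕ)
    (hp : p ∉ L) : ∀ q ∈ L, (q ∈ eff D x (p :: L) ↔ q ∈ eff D x L) := by
  intro q hq
  have hne : q ≠ p := fun e => hp (e ▸ hq)
  simp only [eff]
  split_ifs with h
  · simp [hne]
  · exact Iff.rfl

theorem run_eff (D : Finset (ℕ × ℕ)) (x : ℕ → ℕ) (L : List (ℕ × ℕ)) (hL : L.Nodup) :
    run (eff D x L) L x = run D L x := by
  induction L with
  | nil => rfl
  | cons p L ih =>
    have hp := (List.nodup_cons.1 hL).1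
    have ih := ih (List.nodup_cons.1 hL).2
    have h1 := run_congr _ _ L x (eff_cons_iff D x L p hp)
    have hpe : p ∉ eff D x L := fun hh => hp (mem_of_eff _ _ _ _ hh)
    have h2 : run (eff D x (p :: L)) (p :: L) x
        = stp (p ∈ eff D x (p :: L)) (p.1 + p.2) (run D L x) := by
      rw [← ih, ← h1]; rfl
    rw [h2]
    show _ = stp (p ∈ D) (p.1 + p.2) (run D L x)
    by_cases h : p ∈ D ∧ run D L x (p.1 + p.2) < run D L x (p.1 + p.2 + 1)
    · have h3 : p ∈ eff D x (p :: L) := by
        simp only [eff]; rw [if_pos h]; exact mem_insert_self _ _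
      unfold stp
      rw [if_pos ⟨h3, h.2⟩, if_pos h]
    · have h3 : p ∉ eff D x (p :: L) := by
        simp only [eff]; rw [if_neg h]; exact hpe
      unfold stp
      rw [if_neg (fun hh => h3 hh.1), if_neg h]

theorem Rd_eff (D : Finset (ℕ × ℕ)) (x : ℕ → ℕ) (L : List (ℕ × ℕ)) (hL : L.Nodup) :
    Rd (eff D x L) x L := by
  induction L with
  | nil => trivial
  | cons p L ih =>
    have hp := (List.nodup_cons.1 hL).1
    have hL' := (List.nodup_cons.1 hL).2
    have ih := ih hL'
    have h0 := eff_cons_iff D x L p hp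
    have hpe : p ∉ eff D x L := fun hh => hp (mem_of_eff _ _ _ _ hh)
    refine ⟨(Rd_congr _ _ L x h0).2 ih, ?_⟩
    intro h
    rw [run_congr _ _ L x h0, run_eff D x L hL']
    simp only [eff] at h
    split_ifs at h with h1
    · exact h1.2
    · exact absurd h hpe

/-! ### inversions -/

theorem sum_swap (a : ℕ) (g : ℕ → ℕ) (q : ℕ) (hq : q ≠ a + 1) :
    ∑ p ∈ range q, g (Equiv.swap a (a + 1) p) = ∑ p ∈ range q, g p := by
  have hle : ∀ q, q ≤ a → ∑ p ∈ range q, g (Equiv.swap a (a + 1) p) = ∑ p ∈ range q, g p := by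
    intro q hq
    apply sum_congr rfl
    intro p hp
    have := mem_range.1 hp
    rw [Equiv.swap_apply_of_ne_of_ne (by omega) (by omega)]
  rcases le_or_gt q a with h1 | h1
  · exact hle q h1
  · obtain ⟨d, rfl⟩ : ∃ d, q = a + 2 + d := ⟨q - (a + 2), by omega⟩
    clear hq h1
    induction d with
    | zero =>
      rw [add_zero, sum_range_succ, sum_range_succ, sum_range_succ, sum_range_succ, hle a le_rfl,
        Equiv.swap_apply_left, Equiv.swap_apply_right]
      ring
    | succ d ih =>
      have e : a + 2 + (d + 1) = (a + 2 + d) + 1 := by ring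
      rw [e, sum_range_succ, sum_range_succ, ih,
        Equiv.swap_apply_of_ne_of_ne (by omega) (by omega)]

/-- Number of inversions among the first `n` letters. -/
def liv (n : ℕ) (x : ℕ → ℕ) : ℕ := linv ((List.range n).map x)

theorem linv_snoc (l : List ℕ) (z : ℕ) :
    linv (l ++ [z]) = linv l + l.countP (fun y => decide (z < y)) := by
  induction l with
  | nil => simp [linv]
  | cons a l ih =>
    simp only [List.cons_append, linv, ih, List.countP_append, List.countP_cons, List.countP_nil]
    simp only [decide_eq_true_eq]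
    omega

theorem countP_range (n : ℕ) (x : ℕ → ℕ) (P : ℕ → Prop) [DecidablePred P] :
    ((List.range n).map x).countP (fun y => decide (P y))
      = ∑ p ∈ range n, if P (x p) then 1 else 0 := by
  induction n with
  | zero => simp
  | succ n ih =>
    rw [List.range_succ, List.map_append, List.countP_append, ih, sum_range_succ]
    simp [List.countP_cons]

theorem liv_succ (n : ℕ) (x : ℕ → ℕ) :
    liv (n + 1) x = liv n x + ∑ p ∈ range n, if x n < x p then 1 else 0 := by
  unfold liv
  rw [List.range_succ, List.map_append, List.map_singleton, linv_snoc,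
    countP_range n x (fun y => x n < y)]

theorem liv_zero (x : ℕ → ℕ) : liv 0 x = 0 := rfl

theorem liv_eq_sum (n : ℕ) (x : ℕ → ℕ) :
    liv n x = ∑ q ∈ range n, ∑ p ∈ range q, if x q < x p then 1 else 0 := by
  induction n with
  | zero => rfl
  | succ n ih => rw [liv_succ, sum_range_succ, ih]

theorem liv_swap (n a : ℕ) (ha : a + 1 < n) (x : ℕ → ℕ) (hx : x a < x (a + 1)) :
    liv n (fun p => x (Equiv.swap a (a + 1) p)) = liv n x + 1 := by
  have hle : ∀ q, q ≤ a → liv q (fun p => x (Equiv.swap a (a + 1) p)) = liv q x := by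
    intro q
    induction q with
    | zero => intro _; rfl
    | succ q ih =>
      intro hq
      rw [liv_succ, liv_succ, ih (by omega)]
      rw [Equiv.swap_apply_of_ne_of_ne (by omega) (by omega),
        sum_swap a (fun p => if x q < x p then 1 else 0) q (by omega)]
  obtain ⟨d, rfl⟩ : ∃ d, n = a + 2 + d := ⟨n - (a + 2), by omega⟩
  clear ha
  induction d with
  | zero =>
    rw [add_zero, liv_succ, liv_succ, liv_succ, liv_succ, hle a le_rfl]
    rw [Equiv.swap_apply_left, Equiv.swap_apply_right, sum_range_succ, sum_range_succ,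
      sum_swap a (fun p => if x (a + 1) < x p then 1 else 0) a (by omega),
      sum_swap a (fun p => if x a < x p then 1 else 0) a (by omega),
      Equiv.swap_apply_left, if_pos hx, if_neg (by omega)]
    ring
  | succ d ih =>
    have e : a + 2 + (d + 1) = (a + 2 + d) + 1 := by ring
    rw [e, liv_succ, liv_succ, ih]
    rw [Equiv.swap_apply_of_ne_of_ne (by omega) (by omega),
      sum_swap a (fun p => if x (a + 2 + d) < x p then 1 else 0) _ (by omega)]
    ring

theorem liv_run (D : Finset (ℕ × ℕ)) (n : ℕ) (x : ℕ → ℕ) (L : List (ℕ × ℕ)) (hL : L.Nodup)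
    (hn : ∀ p ∈ L, p.1 + p.2 + 1 < n) :
    liv n (run D L x) = liv n x + (eff D x L).card := by
  induction L with
  | nil => simp [run, eff]
  | cons p L ih =>
    have hp := (List.nodup_cons.1 hL).1
    have ih := ih (List.nodup_cons.1 hL).2 (fun q hq => hn q (List.mem_cons_of_mem _ hq))
    have hpe : p ∉ eff D x L := fun hh => hp (mem_of_eff _ _ _ _ hh)
    have hpn := hn p List.mem_cons_self
    simp only [run, eff, stp]
    split_ifs with h
    · rw [liv_swap n _ hpn _ h.2, ih, card_insert_of_notMem hpe]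
      ring
    · exact ih

theorem liv_id (n : ℕ) : liv n id = 0 := by
  rw [liv_eq_sum]
  apply sum_eq_zero
  intro q _
  apply sum_eq_zero
  intro p hp
  have := mem_range.1 hp
  rw [if_neg]
  simp only [id]
  omega

theorem run_inj (D : Finset (ℕ × ℕ)) (L : List (ℕ × ℕ)) (x : ℕ → ℕ) (hx : Function.Injective x) :
    Function.Injective (run D L x) := by
  induction L with
  | nil => exact hx
  | cons p L ih =>
    simp only [run, stp]
    split_ifs with h
    · exact ih.comp (Equiv.injective _)
    · exact ih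

/-! ### number of reduced sets -/

/-- The reduced sets of crossings in the staircase of size `n`. -/
noncomputable def Red (n : ℕ) : Finset (Finset (ℕ × ℕ)) := by
  classical
  exact (rows n n).toFinset.powerset.filter (fun D => Rd D id (rows n n))

theorem mem_Red (n : ℕ) (D : Finset (ℕ × ℕ)) :
    D ∈ Red n ↔ (∀ p ∈ D, p.1 + p.2 + 2 ≤ n) ∧ Rd D id (rows n n) := by
  classical
  unfold Red
  rw [mem_filter, mem_powerset]
  apply and_congr_left
  intro _
  constructor
  · intro h p hp
    have := h hp
    rw [List.mem_toFinset, mem_rows] at this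
    exact this.2
  · intro h p hp
    have := h p hp
    rw [List.mem_toFinset, mem_rows]
    exact ⟨by omega, this⟩

theorem run_none (D : Finset (ℕ × ℕ)) (L : List (ℕ × ℕ)) (x : ℕ → ℕ) (h : ∀ p ∈ L, p ∉ D) :
    run D L x = x := by
  induction L with
  | nil => rfl
  | cons p L ih =>
    simp only [run]
    rw [ih (fun q hq => h q (List.mem_cons_of_mem _ hq)), H_stp_neg _ (h p List.mem_cons_self)]

theorem Rd_none (D : Finset (ℕ × ℕ)) (L : List (ℕ × ℕ)) (x : ℕ → ℕ) (h : ∀ p ∈ L, p ∉ D) :
    Rd D x L := by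
  induction L with
  | nil => trivial
  | cons p L ih =>
    exact ⟨ih (fun q hq => h q (List.mem_cons_of_mem _ hq)),
      fun hp => absurd hp (h p List.mem_cons_self)⟩

theorem Rd_append (D : Finset (ℕ × ℕ)) (L1 L2 : List (ℕ × ℕ)) (x : ℕ → ℕ) :
    Rd D x (L1 ++ L2) ↔ Rd D x L2 ∧ Rd D (run D L2 x) L1 := by
  induction L1 with
  | nil => simp [Rd]
  | cons p L1 ih =>
    simp only [List.cons_append, Rd, ih, run_append]
    tauto

theorem rows_mono_aux (D : Finset (ℕ × ℕ)) (n : ℕ) (hD : ∀ p ∈ D, p.1 + p.2 + 2 ≤ n) (k : ℕ)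
    (x : ℕ → ℕ) :
    run D (rows (n + 1) k) x = run D (rows n k) x ∧
      (Rd D x (rows (n + 1) k) ↔ Rd D x (rows n k)) := by
  induction k with
  | zero => exact ⟨rfl, Iff.rfl⟩
  | succ k ih =>
    have h1 : ∀ y, run D (rseg k 0 (n + 1 - 1 - k)) y = run D (rseg k 0 (n - 1 - k)) y ∧
        (Rd D y (rseg k 0 (n + 1 - 1 - k)) ↔ Rd D y (rseg k 0 (n - 1 - k))) := by
      intro y
      obtain ⟨m, hm⟩ : ∃ m, n + 1 - 1 - k = (n - 1 - k) + m :=
        ⟨(n + 1 - 1 - k) - (n - 1 - k), by omega⟩
      have hnone : ∀ p ∈ rseg k (0 + (n - 1 - k)) m, p ∉ D := by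
        intro p hp hpD
        rw [mem_rseg] at hp
        have := hD p hpD
        omega
      rw [hm, rseg_append, run_append, run_none D _ y hnone, Rd_append, run_none D _ y hnone]
      exact ⟨rfl, ⟨fun h => h.2, fun h => ⟨Rd_none D _ y hnone, h⟩⟩⟩
    simp only [rows, run_append, Rd_append, ih.1, (h1 _).1, (h1 _).2, ih.2, and_self]

theorem Red_mono (n : ℕ) : Red n ⊆ Red (n + 1) := by
  intro D hD
  rw [mem_Red] at hD ⊢
  refine ⟨fun p hp => (hD.1 p hp).trans (Nat.le_succ n), ?_⟩
  have h := rows_mono_aux D n hD.1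
  have e : rows (n + 1) (n + 1) = rows (n + 1) n := by
    rw [rows]
    have : n + 1 - 1 - n = 0 := by omega
    rw [this]; rfl
  rw [e, (h n id).2]
  exact hD.2

theorem card_filter_powerset_insert {α : Type*} [DecidableEq α] (s : Finset α) (a : α)
    (ha : a ∉ s) (P : Finset α → Prop) [DecidablePred P] :
    ((insert a s).powerset.filter P).card
      = (s.powerset.filter P).card + (s.powerset.filter (fun D => P (insert a D))).card := by
  rw [powerset_insert, filter_union, card_union_of_disjoint]
  · congr 1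
    rw [filter_image, card_image_of_injOn]
    intro D hD D' hD' h
    have hD := (mem_filter.1 (mem_coe.1 hD)).1
    have hD' := (mem_filter.1 (mem_coe.1 hD')).1
    rw [mem_powerset] at hD hD'
    have h1 : a ∉ D := fun hh => ha (hD hh)
    have h2 : a ∉ D' := fun hh => ha (hD' hh)
    have h : insert a D = insert a D' := h
    have h3 : (insert a D).erase a = (insert a D').erase a := by
      rw [h]
    rwa [erase_insert h1, erase_insert h2] at h3
  · rw [disjoint_left]
    intro D hD hD'
    rw [mem_filter, mem_powerset] at hD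
    rw [mem_filter, mem_image] at hD'
    obtain ⟨⟨E, -, rfl⟩, -⟩ := hD'
    exact ha (hD.1 (mem_insert_self _ _))

/-! ### connection with the principal evaluations -/

open Pool.Agent.Helper78.Schub

/-- The word of a permutation. -/
def wd {n : ℕ} (w : Equiv.Perm (Fin n)) (k : ℕ) : ℕ := if h : k < n then w ⟨k, h⟩ else k

theorem wd_inj {n : ℕ} (v w : Equiv.Perm (Fin n)) (h : wd v = wd w) : v = w := by
  apply Equiv.ext
  intro k
  have := congrFun h k
  unfold wd at this
  rw [dif_pos k.2, dif_pos k.2] at this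
  exact Fin.ext this

theorem wd_one (n : ℕ) : wd (1 : Equiv.Perm (Fin n)) = id := by
  funext k
  unfold wd
  split_ifs <;> rfl

theorem wd_injective {n : ℕ} (w : Equiv.Perm (Fin n)) : Function.Injective (wd w) := by
  intro a b hab
  unfold wd at hab
  split_ifs at hab with h1 h2 h2
  · have := w.injective (Fin.ext hab)
    simpa using this
  · have := (w ⟨a, h1⟩).2; omega
  · have := (w ⟨b, h2⟩).2; omega
  · exact hab

theorem wd_adj {n : ℕ} (w : Equiv.Perm (Fin n)) (i : ℕ) (h : i + 1 < n) :
    wd (w * adj i h) = fun p => wd w (Equiv.swap i (i + 1) p) := by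
  funext p
  by_cases h1 : p = i
  · subst h1
    rw [Equiv.swap_apply_left]
    unfold wd
    rw [dif_pos (by omega), dif_pos h, Equiv.Perm.mul_apply, adj_left]
  by_cases h2 : p = i + 1
  · subst h2
    rw [Equiv.swap_apply_right]
    unfold wd
    rw [dif_pos h, dif_pos (by omega), Equiv.Perm.mul_apply, adj_right]
  rw [Equiv.swap_apply_of_ne_of_ne h1 h2]
  unfold wd
  split_ifs with h3
  · rw [Equiv.Perm.mul_apply, adj_ne i h _ h1 h2]
  · rfl

theorem desc_iff_wd {n : ℕ} (w : Equiv.Perm (Fin n)) (i : ℕ) (h : i + 1 < n) :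
    Desc w i ↔ wd w (i + 1) < wd w i := by
  rw [desc_of w i h]
  unfold wd
  rw [dif_pos h, dif_pos (by omega)]
  exact Iff.rfl

/-- the effect of a list of cells -/
noncomputable def fl (n : ℕ) (L : List (ℕ × ℕ)) (f : Equiv.Perm (Fin n) → ℝ) :
    Equiv.Perm (Fin n) → ℝ :=
  L.foldr (fun p f => hh (U ℝ n) (p.1 + p.2) (1 : ℝ) f) f

theorem fl_cons (n : ℕ) (p : ℕ × ℕ) (L : List (ℕ × ℕ)) (f : Equiv.Perm (Fin n) → ℝ) :
    fl n (p :: L) f = hh (U ℝ n) (p.1 + p.2) (1 : ℝ) (fl n L f) := rfl

theorem fl_append (n : ℕ) (L1 L2 : List (ℕ × ℕ)) (f : Equiv.Perm (Fin n) → ℝ) :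
    fl n (L1 ++ L2) f = fl n L1 (fl n L2 f) := by
  unfold fl
  rw [List.foldr_append]

theorem row_eq_fl (n r m : ℕ) (f : Equiv.Perm (Fin n) → ℝ) : ∀ c,
    row (U ℝ n) (1 : ℝ) (r + c) m f = fl n (rseg r c m) f := by
  induction m with
  | zero => intro c; rfl
  | succ m ih =>
    intro c
    rw [row_succ, rseg, fl_cons, ← ih (c + 1), ← add_assoc]

theorem FF_eq_fl (n k : ℕ) : FF ℝ n (fun _ => 1) k = fl n (rows n k) (dl ℝ n) := by
  induction k with
  | zero => rfl
  | succ k ih =>
    rw [rows, fl_append, ← ih, ← row_eq_fl, add_zero]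
    rfl

open scoped Classical in
theorem fl_count (n : ℕ) (v0 : Equiv.Perm (Fin n)) (L : List (ℕ × ℕ)) (hL : L.Nodup)
    (hn : ∀ p ∈ L, p.1 + p.2 + 1 < n) (v : Equiv.Perm (Fin n)) :
    fl n L (fun v => if v = v0 then 1 else 0) v
      = ((L.toFinset.powerset.filter
          (fun D => Rd D (wd v0) L ∧ run D L (wd v0) = wd v)).card : ℝ) := by
  induction L generalizing v with
  | nil =>
    show (if v = v0 then (1 : ℝ) else 0) = _
    simp only [List.toFinset_nil, powerset_empty]
    by_cases h : v = v0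
    · subst h
      rw [if_pos rfl, filter_true_of_mem]
      · simp
      · intro D _
        exact ⟨trivial, rfl⟩
    · rw [if_neg h, filter_false_of_mem]
      · simp
      · rintro D _ ⟨-, h2⟩
        exact h (wd_inj _ _ h2).symm
  | cons p L ih =>
    have hp := (List.nodup_cons.1 hL).1
    have hL' := (List.nodup_cons.1 hL).2
    have hpn := hn p List.mem_cons_self
    have ih := ih hL' (fun q hq => hn q (List.mem_cons_of_mem _ hq))
    have hpf : p ∉ L.toFinset := by rwa [List.mem_toFinset]
    rw [fl_cons, hh_apply, List.toFinset_cons, card_filter_powerset_insert _ _ hpf, Nat.cast_add]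
    congr 1
    · rw [ih]
      congr 2
      apply filter_congr
      intro D hD
      rw [mem_powerset] at hD
      have h1 : p ∉ D := fun hh => hpf (hD hh)
      simp only [Rd, run, H_stp_neg _ h1, h1, false_imp_iff, and_true]
    · rw [one_mul]
      have key : ∀ D ∈ L.toFinset.powerset,
          ((Rd (insert p D) (wd v0) (p :: L) ∧ run (insert p D) (p :: L) (wd v0) = wd v) ↔
            (Desc v (p.1 + p.2) ∧ (Rd D (wd v0) L ∧
              run D L (wd v0) = wd (v * sw n (p.1 + p.2))))) := by
        intro D hD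
        rw [mem_powerset] at hD
        have h1 : p ∉ D := fun hh => hpf (hD hh)
        have h2 : ∀ q ∈ L, (q ∈ insert p D ↔ q ∈ D) := by
          intro q hq
          have : q ≠ p := fun e => hp (e ▸ hq)
          simp [this]
        simp only [Rd, run, run_congr _ _ L (wd v0) h2, Rd_congr _ _ L (wd v0) h2,
          mem_insert_self, true_imp_iff]
        rw [sw_of _ hpn, wd_adj, desc_iff_wd v _ hpn]
        constructor
        · rintro ⟨⟨h3, h4⟩, h5⟩
          unfold stp at h5
          rw [if_pos ⟨mem_insert_self _ _, h4⟩] at h5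
          refine ⟨?_, h3, ?_⟩
          · rw [← h5]
            simpa only [Equiv.swap_apply_left, Equiv.swap_apply_right] using h4
          · rw [← h5]
            funext q
            simp
        · rintro ⟨h3, h4, h5⟩
          have h6 : run D L (wd v0) (p.1 + p.2) < run D L (wd v0) (p.1 + p.2 + 1) := by
            rw [h5]
            simpa only [Equiv.swap_apply_left, Equiv.swap_apply_right] using h3
          refine ⟨⟨h4, h6⟩, ?_⟩
          unfold stp
          rw [if_pos ⟨mem_insert_self _ _, h6⟩, h5]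
          funext q
          simp
      rw [filter_congr key]
      by_cases hd : Desc v (p.1 + p.2)
      · simp only [hd, true_and, if_true]
        exact ih _
      · simp only [hd, false_and, if_false]
        simp

theorem run_wd (n : ℕ) (v0 : Equiv.Perm (Fin n)) (D : Finset (ℕ × ℕ)) (L : List (ℕ × ℕ))
    (hn : ∀ p ∈ L, p.1 + p.2 + 1 < n) : ∃ v : Equiv.Perm (Fin n), run D L (wd v0) = wd v := by
  induction L with
  | nil => exact ⟨v0, rfl⟩
  | cons p L ih =>
    obtain ⟨v, hv⟩ := ih (fun q hq => hn q (List.mem_cons_of_mem _ hq))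
    have hpn := hn p List.mem_cons_self
    simp only [run, stp, hv]
    split_ifs with h
    · exact ⟨v * adj _ hpn, (wd_adj v _ hpn).symm⟩
    · exact ⟨v, rfl⟩

open scoped Classical in
theorem fl_sum (n : ℕ) (v0 : Equiv.Perm (Fin n)) (L : List (ℕ × ℕ)) (hL : L.Nodup)
    (hn : ∀ p ∈ L, p.1 + p.2 + 1 < n) :
    ∑ v, fl n L (fun v => if v = v0 then 1 else 0) v
      = ((L.toFinset.powerset.filter (fun D => Rd D (wd v0) L)).card : ℝ) := by
  have h1 : ∀ v, fl n L (fun v => if v = v0 then 1 else 0) v
      = ((L.toFinset.powerset.filter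
          (fun D => Rd D (wd v0) L ∧ run D L (wd v0) = wd v)).card : ℝ) :=
    fun v => fl_count n v0 L hL hn v
  simp only [h1]
  rw [← Nat.cast_sum]
  congr 1
  choose g hg using fun D => run_wd n v0 D L hn
  rw [card_eq_sum_card_fiberwise (f := g) (t := univ) (fun _ _ => mem_coe.2 (mem_univ _))]
  apply sum_congr rfl
  intro v _
  rw [filter_filter]
  congr 1
  apply filter_congr
  intro D _
  apply and_congr_right
  intro _
  rw [hg]
  constructor
  · intro h; exact wd_inj _ _ h
  · intro h; rw [h]

/-- The total number of reduced sets is the sum of the principal evaluations. -/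
theorem sum_FF (n : ℕ) : ∑ v, FF ℝ n (fun _ => 1) n v = ((Red n).card : ℝ) := by
  classical
  have h1 := fl_sum n 1 (rows n n) (nodup_rows n n) (by
    intro p hp
    rw [mem_rows] at hp
    omega)
  rw [FF_eq_fl]
  have h2 : dl ℝ n = fun v => if v = 1 then 1 else 0 := rfl
  rw [h2, h1, wd_one]
  unfold Red
  congr 2

end Pool.Agent.Helper78.Lim
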