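import Pool.Agent.Helper78.LimBox

/-!
Energy increment: at some scale the vertical flux is nearly constant in most boxes.
-/

namespace Pool.Agent.Helper78.Lim

open Finset

theorem sum_range_mul' {M : Type*} [AddCommMonoid M] (S b : ℕ) (f : ℕ → M) :
    ∑ X ∈ range (S * b), f X = ∑ j ∈ range S, ∑ x ∈ range b, f (j * b + x) := by
  induction S with
  | zero => simp
  | succ S ih => rw [Nat.succ_mul, sum_range_add, ih, sum_range_succ]

/-- The vertical flux through the box `(α, β)` of size `b`. -/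
def Q (h : ℕ → ℕ → ℤ) (b α β : ℕ) : ℤ :=
  ∑ x ∈ range b, (h ((α + 1) * b) (β * b + x) - h (α * b) (β * b + x))

/-- The normalized flux. -/
noncomputable def q (h : ℕ → ℕ → ℤ) (b α β : ℕ) : ℝ := (Q h b α β : ℝ) / (b : ℝ) ^ 2

theorem Q_parent (h : ℕ → ℕ → ℤ) (S b A B : ℕ) :
    Q h (S * b) A B = ∑ i ∈ range S, ∑ j ∈ range S, Q h b (A * S + i) (B * S + j) := by
  unfold Q
  rw [sum_range_mul']
  conv_rhs => rw [sum_comm]
  apply sum_congr rfl
  intro j _
  conv_rhs => rw [sum_comm]
  apply sum_congr rfl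
  intro x _
  have h1 := sum_range_sub (fun i => h ((A * S + i) * b) ((B * S + j) * b + x)) S
  have e1 : (A + 1) * (S * b) = (A * S + S) * b := by ring
  have e2 : A * (S * b) = (A * S + 0) * b := by ring
  have e3 : B * (S * b) + (j * b + x) = (B * S + j) * b + x := by ring
  rw [e1, e2, e3, ← h1]
  rfl

theorem q_parent (h : ℕ → ℕ → ℤ) (S b A B : ℕ) (hS : 0 < S) (hb : 0 < b) :
    ∑ i ∈ range S, ∑ j ∈ range S, q h b (A * S + i) (B * S + j)
      = (S : ℝ) ^ 2 * q h (S * b) A B := by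
  have hS' : (S : ℝ) ≠ 0 := by positivity
  have hb' : (b : ℝ) ≠ 0 := by positivity
  unfold q
  rw [Q_parent]
  push_cast
  simp only [← sum_div]
  field_simp

/-- Deviation of the fluxes of the children from the flux of the parent. -/
noncomputable def dev (h : ℕ → ℕ → ℤ) (b S A B : ℕ) : ℝ :=
  ∑ i ∈ range S, ∑ j ∈ range S, (q h b (A * S + i) (B * S + j) - q h (S * b) A B) ^ 2

theorem dev_eq (h : ℕ → ℕ → ℤ) (S b A B : ℕ) (hS : 0 < S) (hb : 0 < b) :
    dev h b S A B = ∑ i ∈ range S, ∑ j ∈ range S, (q h b (A * S + i) (B * S + j)) ^ 2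
      - (S : ℝ) ^ 2 * (q h (S * b) A B) ^ 2 := by
  have h1 := q_parent h S b A B hS hb
  unfold dev
  set p := q h (S * b) A B with hp
  have h2 : ∀ i j : ℕ, (q h b (A * S + i) (B * S + j) - p) ^ 2
      = (q h b (A * S + i) (B * S + j)) ^ 2 - 2 * p * q h b (A * S + i) (B * S + j) + p ^ 2 := by
    intro i j; ring
  simp only [h2, sum_add_distrib, sum_sub_distrib, ← mul_sum, h1, sum_const, card_range,
    nsmul_eq_mul]
  ring

/-- The energy at scale `b`. -/
noncomputable def en (h : ℕ → ℕ → ℤ) (b G : ℕ) : ℝ :=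
  ∑ α ∈ range G, ∑ β ∈ range G, (q h b α β) ^ 2

theorem en_step (h : ℕ → ℕ → ℤ) (S b G : ℕ) (hS : 0 < S) (hb : 0 < b) :
    ∑ A ∈ range G, ∑ B ∈ range G, dev h b S A B = en h b (G * S) - (S : ℝ) ^ 2 * en h (S * b) G := by
  unfold en
  rw [sum_range_mul' G S, mul_sum, ← sum_sub_distrib]
  apply sum_congr rfl
  intro A _
  simp only [sum_range_mul' G S]
  rw [sum_comm, mul_sum, ← sum_sub_distrib]
  apply sum_congr rfl
  intro B _
  rw [dev_eq h S b A B hS hb]

variable {D : ℕ → ℕ → Prop} {h : ℕ → ℕ → ℤ}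

theorem q_nonneg (hF : Fld D h) (b α β : ℕ) : 0 ≤ q h b α β := by
  unfold q Q
  apply div_nonneg _ (by positivity)
  push_cast
  apply sum_nonneg
  intro x _
  have h1 := hF.down_mono (α * b) (β * b + x) b
  have e : (α + 1) * b = α * b + b := by ring
  rw [e]
  have : (h (α * b) (β * b + x) : ℝ) ≤ h (α * b + b) (β * b + x) := by exact_mod_cast h1
  linarith

theorem q_le_one (hF : Fld D h) (b α β : ℕ) (hb : 0 < b) : q h b α β ≤ 1 := by
  unfold q Q
  rw [div_le_one (by positivity)]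
  push_cast
  calc ∑ x ∈ range b, ((h ((α + 1) * b) (β * b + x) : ℝ) - h (α * b) (β * b + x))
      ≤ ∑ x ∈ range b, (b : ℝ) := by
        apply sum_le_sum
        intro x _
        have h1 := hF.down_lip (α * b) (β * b + x) b
        have e : (α + 1) * b = α * b + b := by ring
        rw [e]
        have : (h (α * b + b) (β * b + x) : ℝ) ≤ h (α * b) (β * b + x) + b := by exact_mod_cast h1
        linarith
    _ = (b : ℝ) ^ 2 := by rw [sum_const, card_range, nsmul_eq_mul]; ring

theorem en_nonneg (h : ℕ → ℕ → ℤ) (b G : ℕ) : 0 ≤ en h b G :=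
  sum_nonneg fun _ _ => sum_nonneg fun _ _ => sq_nonneg _

theorem en_le (hF : Fld D h) (b G : ℕ) (hb : 0 < b) : en h b G ≤ (G : ℝ) ^ 2 := by
  unfold en
  calc ∑ α ∈ range G, ∑ β ∈ range G, (q h b α β) ^ 2
      ≤ ∑ α ∈ range G, ∑ β ∈ range G, (1 : ℝ) := by
        apply sum_le_sum; intro α _
        apply sum_le_sum; intro β _
        have h1 := q_nonneg hF b α β
        have h2 := q_le_one hF b α β hb
        nlinarith
    _ = (G : ℝ) ^ 2 := by simp; ring

/-- All vertical increments in the box are nearly independent of the column. -/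
def Mixed (h : ℕ → ℕ → ℤ) (S b A B : ℕ) : Prop :=
  ∀ y ≤ S * b, ∀ x ≤ S * b, ∀ x' ≤ S * b,
    |(h (A * (S * b) + y) (B * (S * b) + x) - h (A * (S * b)) (B * (S * b) + x))
      - (h (A * (S * b) + y) (B * (S * b) + x') - h (A * (S * b)) (B * (S * b) + x'))| ≤ 6 * b

theorem col_bound (hF : Fld D h) (S b A B : ℕ) (hS : 0 < S) (hb : 0 < b)
    (hdev : dev h b S A B ≤ 1 / S) (y x : ℕ) (hy : y ≤ S * b) (hx : x ≤ S * b) :
    |((h (A * (S * b) + y) (B * (S * b) + x) - h (A * (S * b)) (B * (S * b) + x) : ℤ) : ℝ)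
      - ((y / b : ℕ) : ℝ) * b * q h (S * b) A B| ≤ 3 * b := by
  obtain ⟨j, x0, hj, hx0, rfl⟩ := exists_rep hS hb x hx
  set Y := y / b with hY
  set y0 := y % b with hy0
  have hyY : y = Y * b + y0 := by rw [mul_comm]; exact (Nat.div_add_mod y b).symm
  have hy0b : y0 < b := Nat.mod_lt _ hb
  have hYS : Y ≤ S := by
    rw [hY]; exact Nat.div_le_of_le_mul (by rwa [mul_comm])
  set R := A * (S * b) with hR
  set C := B * (S * b) with hC
  set p := q h (S * b) A B with hp
  -- step 1
  have s1 : (0 : ℝ) ≤ (h (R + y) (C + (j * b + x0)) : ℝ) - h (R + Y * b) (C + (j * b + x0)) ∧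
      (h (R + y) (C + (j * b + x0)) : ℝ) - h (R + Y * b) (C + (j * b + x0)) ≤ b := by
    have h1 := hF.down_mono (R + Y * b) (C + (j * b + x0)) y0
    have h2 := hF.down_lip (R + Y * b) (C + (j * b + x0)) y0
    rw [add_assoc, ← hyY] at h1 h2
    have h3 : (y0 : ℤ) ≤ b := by exact_mod_cast hy0b.le
    constructor
    · have : (h (R + Y * b) (C + (j * b + x0)) : ℝ) ≤ h (R + y) (C + (j * b + x0)) := by
        exact_mod_cast h1
      linarith
    · have : (h (R + y) (C + (j * b + x0)) : ℝ) ≤ h (R + Y * b) (C + (j * b + x0)) + b := by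
        exact_mod_cast h2.trans (by linarith)
      linarith
  -- the vertical increment
  set V : ℕ → ℝ := fun z => (h (R + Y * b) (C + z) : ℝ) - h R (C + z) with hV
  -- step 2
  have s2 : ∀ z < b, |V (j * b + x0) - V (j * b + z)| ≤ b := by
    intro z hz
    simp only [hV]
    rcases le_total z x0 with hzx | hzx
    · obtain ⟨d, rfl⟩ := Nat.exists_eq_add_of_le hzx
      have h1 := hF.right_mono (R + Y * b) (C + (j * b + z)) d
      have h2 := hF.right_lip (R + Y * b) (C + (j * b + z)) d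
      have h3 := hF.right_mono R (C + (j * b + z)) d
      have h4 := hF.right_lip R (C + (j * b + z)) d
      have e : C + (j * b + z) + d = C + (j * b + (z + d)) := by ring
      rw [e] at h1 h2 h3 h4
      have hd : (d : ℝ) ≤ b := by exact_mod_cast (by omega : d ≤ b)
      have h1' : (h (R + Y * b) (C + (j * b + z)) : ℝ) ≤ h (R + Y * b) (C + (j * b + (z + d))) := by
        exact_mod_cast h1
      have h2' : (h (R + Y * b) (C + (j * b + (z + d))) : ℝ)
          ≤ h (R + Y * b) (C + (j * b + z)) + d := by exact_mod_cast h2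
      have h3' : (h R (C + (j * b + z)) : ℝ) ≤ h R (C + (j * b + (z + d))) := by exact_mod_cast h3
      have h4' : (h R (C + (j * b + (z + d))) : ℝ) ≤ h R (C + (j * b + z)) + d := by
        exact_mod_cast h4
      rw [abs_le]; constructor <;> linarith
    · obtain ⟨d, rfl⟩ := Nat.exists_eq_add_of_le hzx
      have h1 := hF.right_mono (R + Y * b) (C + (j * b + x0)) d
      have h2 := hF.right_lip (R + Y * b) (C + (j * b + x0)) d
      have h3 := hF.right_mono R (C + (j * b + x0)) d
      have h4 := hF.right_lip R (C + (j * b + x0)) d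
      have e : C + (j * b + x0) + d = C + (j * b + (x0 + d)) := by ring
      rw [e] at h1 h2 h3 h4
      have hd : (d : ℝ) ≤ b := by exact_mod_cast (by omega : d ≤ b)
      have h1' : (h (R + Y * b) (C + (j * b + x0)) : ℝ)
          ≤ h (R + Y * b) (C + (j * b + (x0 + d))) := by exact_mod_cast h1
      have h2' : (h (R + Y * b) (C + (j * b + (x0 + d))) : ℝ)
          ≤ h (R + Y * b) (C + (j * b + x0)) + d := by exact_mod_cast h2
      have h3' : (h R (C + (j * b + x0)) : ℝ) ≤ h R (C + (j * b + (x0 + d))) := by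
        exact_mod_cast h3
      have h4' : (h R (C + (j * b + (x0 + d))) : ℝ) ≤ h R (C + (j * b + x0)) + d := by
        exact_mod_cast h4
      rw [abs_le]; constructor <;> linarith
  -- step 3
  have s3 : ∑ z ∈ range b, V (j * b + z)
      = (b : ℝ) ^ 2 * ∑ i ∈ range Y, q h b (A * S + i) (B * S + j) := by
    have hb' : (b : ℝ) ≠ 0 := by positivity
    unfold q
    rw [← sum_div, mul_div_cancel₀ _ (by positivity)]
    have : ∀ i, (Q h b (A * S + i) (B * S + j) : ℝ) = ∑ x ∈ range b,
        ((h ((A * S + i + 1) * b) ((B * S + j) * b + x) : ℝ)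
          - h ((A * S + i) * b) ((B * S + j) * b + x)) := by
      intro i; unfold Q; push_cast; rfl
    simp only [this]
    rw [sum_comm]
    apply sum_congr rfl
    intro z _
    have h1 := sum_range_sub (fun i => (h ((A * S + i) * b) ((B * S + j) * b + z) : ℝ)) Y
    have h1' : ∑ i ∈ range Y, ((h ((A * S + i + 1) * b) ((B * S + j) * b + z) : ℝ)
          - h ((A * S + i) * b) ((B * S + j) * b + z))
        = (h ((A * S + Y) * b) ((B * S + j) * b + z) : ℝ)
          - h ((A * S + 0) * b) ((B * S + j) * b + z) := h1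
    rw [h1']
    simp only [hV]
    have e1 : R + Y * b = (A * S + Y) * b := by rw [hR]; ring
    have e2 : R = (A * S + 0) * b := by rw [hR]; ring
    have e3 : C + (j * b + z) = (B * S + j) * b + z := by rw [hC]; ring
    rw [e1, e3, ← e2]
  -- step 4
  have hb0 : (0 : ℝ) < b := by exact_mod_cast hb
  have s4 : |(b : ℝ) * V (j * b + x0)
      - (b : ℝ) ^ 2 * ∑ i ∈ range Y, q h b (A * S + i) (B * S + j)| ≤ (b : ℝ) * b := by
    rw [← s3]
    have : (b : ℝ) * V (j * b + x0) = ∑ z ∈ range b, V (j * b + x0) := by simp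
    rw [this, ← sum_sub_distrib]
    refine (abs_sum_le_sum_abs _ _).trans ?_
    calc ∑ z ∈ range b, |V (j * b + x0) - V (j * b + z)| ≤ ∑ z ∈ range b, (b : ℝ) :=
          sum_le_sum fun z hz => s2 z (mem_range.1 hz)
      _ = (b : ℝ) * b := by simp
  have s4' : |V (j * b + x0) - (b : ℝ) * ∑ i ∈ range Y, q h b (A * S + i) (B * S + j)| ≤ b := by
    have e : (b : ℝ) * V (j * b + x0)
        - (b : ℝ) ^ 2 * ∑ i ∈ range Y, q h b (A * S + i) (B * S + j)
        = b * (V (j * b + x0) - (b : ℝ) * ∑ i ∈ range Y, q h b (A * S + i) (B * S + j)) := by ring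
    rw [e, abs_mul, abs_of_pos hb0] at s4
    exact le_of_mul_le_mul_left s4 hb0
  -- step 5
  have s5 : ∑ i ∈ range S, |q h b (A * S + i) (B * S + j) - p| ≤ 1 := by
    have hS0 : (0 : ℝ) < S := by exact_mod_cast hS
    have h1 : (∑ i ∈ range S, |q h b (A * S + i) (B * S + j) - p|) ^ 2
        ≤ (S : ℝ) * ∑ i ∈ range S, |q h b (A * S + i) (B * S + j) - p| ^ 2 := by
      have := sq_sum_le_card_mul_sum_sq (s := range S)
        (f := fun i => |q h b (A * S + i) (B * S + j) - p|)
      rwa [card_range] at this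
    have h2 : ∑ i ∈ range S, |q h b (A * S + i) (B * S + j) - p| ^ 2 ≤ dev h b S A B := by
      unfold dev
      apply sum_le_sum
      intro i _
      rw [sq_abs]
      exact single_le_sum (f := fun j => (q h b (A * S + i) (B * S + j) - p) ^ 2)
        (fun _ _ => sq_nonneg _) (mem_range.2 hj)
    have h3 : (∑ i ∈ range S, |q h b (A * S + i) (B * S + j) - p|) ^ 2 ≤ 1 := by
      calc _ ≤ _ := h1
        _ ≤ (S : ℝ) * (1 / S) := mul_le_mul_of_nonneg_left (h2.trans hdev) hS0.le
        _ = 1 := by field_simp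
    have h4 : 0 ≤ ∑ i ∈ range S, |q h b (A * S + i) (B * S + j) - p| :=
      sum_nonneg fun _ _ => abs_nonneg _
    nlinarith
  have s6 : |(b : ℝ) * ∑ i ∈ range Y, q h b (A * S + i) (B * S + j) - (Y : ℝ) * b * p| ≤ b := by
    have e : (b : ℝ) * ∑ i ∈ range Y, q h b (A * S + i) (B * S + j) - (Y : ℝ) * b * p
        = b * ∑ i ∈ range Y, (q h b (A * S + i) (B * S + j) - p) := by
      rw [sum_sub_distrib]; simp; ring
    rw [e, abs_mul, abs_of_pos hb0]
    have h1 : |∑ i ∈ range Y, (q h b (A * S + i) (B * S + j) - p)| ≤ 1 := by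
      refine (abs_sum_le_sum_abs _ _).trans (le_trans ?_ s5)
      exact sum_le_sum_of_subset_of_nonneg (range_mono hYS) fun _ _ _ => abs_nonneg _
    nlinarith
  push_cast
  have e : (h (R + y) (C + (j * b + x0)) : ℝ) - h R (C + (j * b + x0)) - (Y : ℝ) * b * p
      = ((h (R + y) (C + (j * b + x0)) : ℝ) - h (R + Y * b) (C + (j * b + x0)))
        + (V (j * b + x0) - (b : ℝ) * ∑ i ∈ range Y, q h b (A * S + i) (B * S + j))
        + ((b : ℝ) * ∑ i ∈ range Y, q h b (A * S + i) (B * S + j) - (Y : ℝ) * b * p) := by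
    simp only [hV]; ring
  rw [e]
  obtain ⟨t1, t2⟩ := abs_le.1 s4'
  obtain ⟨t3, t4⟩ := abs_le.1 s6
  rw [abs_le]
  constructor <;> linarith [s1.1, s1.2]

theorem mixed_of_dev (hF : Fld D h) (S b A B : ℕ) (hS : 0 < S) (hb : 0 < b)
    (hdev : dev h b S A B ≤ 1 / S) : Mixed h S b A B := by
  intro y hy x hx x' hx'
  have h1 := col_bound hF S b A B hS hb hdev y x hy hx
  have h2 := col_bound hF S b A B hS hb hdev y x' hy hx'
  obtain ⟨a1, a2⟩ := abs_le.1 h1
  obtain ⟨b1, b2⟩ := abs_le.1 h2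
  have : (|((h (A * (S * b) + y) (B * (S * b) + x) - h (A * (S * b)) (B * (S * b) + x))
      - (h (A * (S * b) + y) (B * (S * b) + x') - h (A * (S * b)) (B * (S * b) + x')) : ℤ)| : ℝ)
        ≤ 6 * b := by
    rw [abs_le]
    constructor
    · push_cast at *; linarith
    · push_cast at *; linarith
  exact_mod_cast this

open scoped Classical in
/-- Scale selection. -/
theorem exists_scale (S J g B L : ℕ) (hS : 0 < S) (hJ : 0 < J) (hg : 0 < g) (hB : 0 < B)
    (hs : ℕ → ℕ → ℕ → ℤ) (hF : ∀ k, Fld D (hs k)) :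
    ∃ l < J, J * ((range (S ^ (J - 1 - l) * g) ×ˢ range (S ^ (J - 1 - l) * g)).filter
      (fun p : ℕ × ℕ => ¬ ∀ k < L, Mixed (hs k) S (S ^ l * B) p.1 p.2)).card
        ≤ S ^ 3 * L * (S ^ (J - 1 - l) * g) ^ 2 := by
  -- normalized energies
  set G : ℕ → ℕ := fun l => S ^ (J - l) * g with hG
  set E : ℕ → ℝ := fun l => ∑ k ∈ range L, en (hs k) (S ^ l * B) (G l) / (G l : ℝ) ^ 2 with hE
  have hGpos : ∀ l, (0 : ℝ) < G l := by intro l; simp only [hG]; positivity
  have hE0 : E 0 ≤ L := by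
    simp only [hE]
    calc ∑ k ∈ range L, en (hs k) (S ^ 0 * B) (G 0) / (G 0 : ℝ) ^ 2 ≤ ∑ k ∈ range L, (1 : ℝ) := by
          apply sum_le_sum
          intro k _
          rw [div_le_one (by have := hGpos 0; positivity)]
          exact en_le (hF k) _ _ (by positivity)
      _ = L := by simp
  have hEJ : 0 ≤ E J := by
    simp only [hE]
    exact sum_nonneg fun k _ => div_nonneg (en_nonneg _ _ _) (by positivity)
  have hex : ∃ l < J, E l - E (l + 1) ≤ (L : ℝ) / J := by
    by_contra hcon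
    push Not at hcon
    have h1 : ∑ l ∈ range J, (L : ℝ) / J < ∑ l ∈ range J, (E l - E (l + 1)) := by
      apply sum_lt_sum_of_nonempty (nonempty_range_iff.2 hJ.ne')
      intro l hl
      exact hcon l (mem_range.1 hl)
    rw [sum_range_sub' E J] at h1
    simp only [sum_const, card_range, nsmul_eq_mul] at h1
    have hJ0 : (J : ℝ) ≠ 0 := by positivity
    rw [mul_div_cancel₀ _ hJ0] at h1
    linarith
  obtain ⟨l, hl, hle⟩ := hex
  refine ⟨l, hl, ?_⟩
  set b := S ^ l * B with hb
  set G1 := S ^ (J - 1 - l) * g with hG1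
  have hb0 : 0 < b := by positivity
  have hG10 : (0 : ℝ) < G1 := by simp only [hG1]; positivity
  have e1 : G l = G1 * S := by
    simp only [hG, hG1]
    have : J - l = (J - 1 - l) + 1 := by omega
    rw [this, pow_succ]; ring
  have e2 : G (l + 1) = G1 := by
    simp only [hG, hG1]
    have : J - (l + 1) = J - 1 - l := by omega
    rw [this]
  have e3 : S ^ (l + 1) * B = S * b := by rw [hb, pow_succ]; ring
  have hS0 : (0 : ℝ) < S := by exact_mod_cast hS
  have key : ∑ k ∈ range L, ∑ A ∈ range G1, ∑ B' ∈ range G1, dev (hs k) b S A B'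
      ≤ (S : ℝ) ^ 2 * (G1 : ℝ) ^ 2 * (L / J) := by
    have h1 : E l - E (l + 1) = (∑ k ∈ range L, ∑ A ∈ range G1, ∑ B' ∈ range G1,
        dev (hs k) b S A B') / ((S : ℝ) ^ 2 * (G1 : ℝ) ^ 2) := by
      simp only [hE, e1, e2, e3, ← hb, sum_div, ← sum_sub_distrib]
      apply sum_congr rfl
      intro k _
      simp only [← sum_div]
      rw [en_step (hs k) S b G1 hS hb0]
      push_cast
      field_simp
    rw [h1, div_le_iff₀ (by positivity)] at hle
    linarith
  -- counting the bad boxes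
  set bad := (range G1 ×ˢ range G1).filter
    (fun p : ℕ × ℕ => ¬ ∀ k < L, Mixed (hs k) S b p.1 p.2) with hbad
  have hcount : (bad.card : ℝ) * (1 / S) ≤ (S : ℝ) ^ 2 * (G1 : ℝ) ^ 2 * (L / J) := by
    refine le_trans ?_ key
    rw [sum_comm]
    have h1 : ∑ A ∈ range G1, ∑ k ∈ range L, ∑ B' ∈ range G1, dev (hs k) b S A B'
        = ∑ p ∈ range G1 ×ˢ range G1, ∑ k ∈ range L, dev (hs k) b S p.1 p.2 := by
      rw [sum_product]
      apply sum_congr rfl
      intro A _
      rw [sum_comm]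
    rw [h1]
    have h2 : (bad.card : ℝ) * (1 / S) = ∑ p ∈ bad, (1 / S : ℝ) := by
      rw [sum_const, nsmul_eq_mul]
    rw [h2]
    have dev_nonneg : ∀ k A B', 0 ≤ dev (hs k) b S A B' := fun k A B' =>
      sum_nonneg fun _ _ => sum_nonneg fun _ _ => sq_nonneg _
    calc ∑ p ∈ bad, (1 / S : ℝ) ≤ ∑ p ∈ bad, ∑ k ∈ range L, dev (hs k) b S p.1 p.2 := by
          apply sum_le_sum
          intro p hp
          rw [hbad, mem_filter] at hp
          obtain ⟨-, hp⟩ := hp
          push Not at hp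
          obtain ⟨k, hk, hmix⟩ := hp
          have h3 : 1 / (S : ℝ) < dev (hs k) b S p.1 p.2 := by
            by_contra hcon
            push Not at hcon
            exact hmix (mixed_of_dev (hF k) S b p.1 p.2 hS hb0 hcon)
          exact h3.le.trans (single_le_sum (f := fun k => dev (hs k) b S p.1 p.2)
            (fun k _ => dev_nonneg k _ _) (mem_range.2 hk))
      _ ≤ ∑ p ∈ range G1 ×ˢ range G1, ∑ k ∈ range L, dev (hs k) b S p.1 p.2 := by
          apply sum_le_sum_of_subset_of_nonneg (filter_subset _ _)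
          intro p _ _
          exact sum_nonneg fun k _ => dev_nonneg k _ _
  have hJ0 : (0 : ℝ) < J := by exact_mod_cast hJ
  have hfin : ((J * bad.card : ℕ) : ℝ) ≤ ((S ^ 3 * L * G1 ^ 2 : ℕ) : ℝ) := by
    push_cast
    have h1 : (bad.card : ℝ) ≤ (S : ℝ) ^ 3 * (G1 : ℝ) ^ 2 * (L / J) := by
      have h2 := mul_le_mul_of_nonneg_right hcount hS0.le
      have h3 : (bad.card : ℝ) * (1 / S) * S = bad.card := by field_simp
      rw [h3] at h2
      calc (bad.card : ℝ) ≤ _ := h2
        _ = _ := by ring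
    calc (J : ℝ) * bad.card ≤ J * ((S : ℝ) ^ 3 * (G1 : ℝ) ^ 2 * (L / J)) :=
          mul_le_mul_of_nonneg_left h1 hJ0.le
      _ = (S : ℝ) ^ 3 * L * (G1 : ℝ) ^ 2 := by field_simp
  exact_mod_cast hfin

end Pool.Agent.Helper78.Lim
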