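import Pool.Agent.Helper78.LimRed
import Pool.Agent.Helper78.LimScale

/-!
Sums over blown up words.
-/

namespace Pool.Agent.Helper78.Lim

open Finset

theorem hgt_range (k n : ℕ) (x : ℕ → ℕ) (q : ℕ) (hq : q ≤ n) :
    hgt k ((List.range n).map x) q = ∑ p ∈ range q, if k ≤ x p then 1 else 0 := by
  unfold hgt
  rw [← List.map_take, List.take_range, min_eq_left hq]
  exact countP_range q x (fun y => k ≤ y)

/-- The position in the small word corresponding to a position in the large word. -/
def pos (m b p : ℕ) : ℕ := p / (m * b) * b + p % b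

theorem pos_eq (m b α s y : ℕ) (hs : s < m) (hy : y < b) :
    pos m b (α * (m * b) + (s * b + y)) = α * b + y := by
  unfold pos
  have hb : 0 < b := by omega
  have hlt : s * b + y < m * b := by
    calc s * b + y < s * b + b := by omega
      _ = (s + 1) * b := by ring
      _ ≤ m * b := Nat.mul_le_mul_right b hs
  have h1 : (α * (m * b) + (s * b + y)) / (m * b) = α := by
    rw [add_comm, Nat.add_mul_div_right _ _ (by omega), Nat.div_eq_of_lt hlt, zero_add]
  have h2 : (α * (m * b) + (s * b + y)) % b = y := by
    have : α * (m * b) + (s * b + y) = y + (α * m + s) * b := by ring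
    rw [this, Nat.add_mul_mod_self_right, Nat.mod_eq_of_lt hy]
  rw [h1, h2]

theorem sum_pos_step (m b α s y : ℕ) (hs : s < m) (hy : y ≤ b) (g : ℕ → ℕ) :
    (∑ p ∈ range (α * (m * b) + (s * b + y)), g (pos m b p)) + ∑ p ∈ range (α * b), g p
      = (∑ p ∈ range (α * (m * b) + s * b), g (pos m b p)) + ∑ p ∈ range (α * b + y), g p := by
  have e : α * (m * b) + (s * b + y) = α * (m * b) + s * b + y := by ring
  rw [e, sum_range_add _ (α * (m * b) + s * b) y, sum_range_add _ (α * b) y]
  have : ∑ i ∈ range y, g (pos m b (α * (m * b) + s * b + i)) = ∑ i ∈ range y, g (α * b + i) := by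
    apply sum_congr rfl
    intro i hi
    have := mem_range.1 hi
    rw [add_assoc, pos_eq m b α s i hs (by omega)]
  rw [this]
  ring

theorem sum_pos_rep (m b α s : ℕ) (hs : s ≤ m) (g : ℕ → ℕ) :
    (∑ p ∈ range (α * (m * b) + s * b), g (pos m b p)) + s * ∑ p ∈ range (α * b), g p
      = (∑ p ∈ range (α * (m * b)), g (pos m b p)) + s * ∑ p ∈ range (α * b + b), g p := by
  induction s with
  | zero => simp
  | succ s ih =>
    have ih := ih (by omega)
    have h1 := sum_pos_step m b α s b hs le_rfl g
    have e : (s + 1) * b = s * b + b := by ring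
    rw [e]
    nlinarith

theorem sum_pos_full (m b α : ℕ) (g : ℕ → ℕ) :
    ∑ p ∈ range (α * (m * b)), g (pos m b p) = m * ∑ p ∈ range (α * b), g p := by
  induction α with
  | zero => simp
  | succ α ih =>
    have h1 := sum_pos_rep m b α m le_rfl g
    have e1 : (α + 1) * (m * b) = α * (m * b) + m * b := by ring
    have e2 : (α + 1) * b = α * b + b := by ring
    rw [e1, e2]
    rw [ih] at h1
    omega

theorem sum_pos_per (m b α Y : ℕ) (hm : 0 < m) (hb : 0 < b) (hY : Y ≤ m * b) (g : ℕ → ℕ) :
    ((∑ p ∈ range (α * (m * b) + Y), g (pos m b p) : ℕ) : ℤ)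
      = per m b (fun y => ((∑ p ∈ range (α * b + y), g p : ℕ) : ℤ)) Y := by
  obtain ⟨s, y, hs, hy, rfl⟩ := exists_rep hm hb Y hY
  rw [per_eq hb _ s y hy]
  have h1 := sum_pos_step m b α s y hs hy g
  have h2 := sum_pos_rep m b α s hs.le g
  have h3 := sum_pos_full m b α g
  rw [h3] at h2
  simp only [add_zero]
  zify at h1 h2 ⊢
  linear_combination h1 + h2

theorem liv_map_le (n : ℕ) (x c : ℕ → ℕ) (hc : Monotone c) :
    liv n (fun p => c (x p)) ≤ liv n x := by
  rw [liv_eq_sum, liv_eq_sum]
  apply sum_le_sum
  intro q _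
  apply sum_le_sum
  intro p _
  by_cases h : c (x q) < c (x p)
  · have : x q < x p := by
      by_contra hcon
      exact absurd (hc (not_lt.1 hcon)) (not_le.2 h)
    rw [if_pos h, if_pos this]
  · rw [if_neg h]
    exact Nat.zero_le _

theorem liv_le_class (n t : ℕ) (ht : 0 < t) (x : ℕ → ℕ) (hx : Function.Injective x) :
    liv n x ≤ liv n (fun p => x p / t) + n * t := by
  rw [liv_eq_sum, liv_eq_sum]
  calc ∑ q ∈ range n, ∑ p ∈ range q, (if x q < x p then 1 else 0)
      ≤ ∑ q ∈ range n, ((∑ p ∈ range q, if x q / t < x p / t then 1 else 0) + t) := by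
        apply sum_le_sum
        intro q _
        have h1 : ∀ p ∈ range q, (if x q < x p then 1 else 0)
            ≤ (if x q / t < x p / t then 1 else 0) + (if x p / t = x q / t then 1 else 0) := by
          intro p _
          by_cases h : x q < x p
          · rw [if_pos h]
            have h2 : x q / t ≤ x p / t := Nat.div_le_div_right h.le
            rcases h2.lt_or_eq with h3 | h3
            · rw [if_pos h3]; omega
            · rw [if_pos h3.symm]; omega
          · rw [if_neg h]; exact Nat.zero_le _
        refine (sum_le_sum h1).trans ?_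
        rw [sum_add_distrib]
        apply Nat.add_le_add_left
        rw [← card_filter]
        have h2 : ((range q).filter fun p => x p / t = x q / t).card
            ≤ (Ico (x q / t * t) (x q / t * t + t)).card := by
          apply card_le_card_of_injOn x
          · intro p hp
            have hp := (mem_filter.1 (mem_coe.1 hp)).2
            rw [mem_coe, mem_Ico, ← hp]
            constructor
            · exact Nat.div_mul_le_self _ _
            · exact Nat.lt_div_mul_add ht
          · exact hx.injOn
        refine h2.trans ?_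
        rw [Nat.card_Ico]
        omega
    _ = (∑ q ∈ range n, ∑ p ∈ range q, if x q / t < x p / t then 1 else 0) + n * t := by
        rw [sum_add_distrib, sum_const, card_range, smul_eq_mul]

theorem liv_blow (m b G : ℕ) (c : ℕ → ℕ) :
    m ^ 2 * liv (G * b) c ≤ liv (G * (m * b)) (fun p => c (pos m b p)) + m ^ 2 * (G * b ^ 2) := by
  set cc : ℕ → ℕ → ℕ := fun α y =>
    ∑ p ∈ range (α * b), if c (α * b + y) < c p then 1 else 0 with hcc
  have h1 : m ^ 2 * ∑ α ∈ range G, ∑ y ∈ range b, cc α y
      ≤ liv (G * (m * b)) (fun p => c (pos m b p)) := by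
    rw [liv_eq_sum, sum_range_mul', mul_sum]
    apply sum_le_sum
    intro α _
    rw [sum_range_mul']
    have e : m ^ 2 * ∑ y ∈ range b, cc α y = ∑ s ∈ range m, ∑ y ∈ range b, m * cc α y := by
      rw [sum_const, card_range, ← mul_sum, smul_eq_mul]
      ring
    rw [e]
    apply sum_le_sum
    intro s hs
    apply sum_le_sum
    intro y hy
    have hs := mem_range.1 hs
    have hy := mem_range.1 hy
    rw [pos_eq m b α s y hs hy]
    simp only [hcc]
    rw [← sum_pos_full m b α (fun p => if c (α * b + y) < c p then 1 else 0)]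
    apply sum_le_sum_of_subset
    intro p hp
    rw [mem_range] at hp ⊢
    omega
  have h2 : liv (G * b) c ≤ (∑ α ∈ range G, ∑ y ∈ range b, cc α y) + G * b ^ 2 := by
    rw [liv_eq_sum, sum_range_mul']
    have e : G * b ^ 2 = ∑ α ∈ range G, ∑ y ∈ range b, b := by
      simp only [sum_const, card_range, smul_eq_mul]
      ring
    rw [e, ← sum_add_distrib]
    apply sum_le_sum
    intro α _
    rw [← sum_add_distrib]
    apply sum_le_sum
    intro y hy
    have hy := mem_range.1 hy
    rw [sum_range_add]
    apply Nat.add_le_add_left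
    calc ∑ i ∈ range y, (if c (α * b + y) < c (α * b + i) then 1 else 0)
        ≤ ∑ i ∈ range y, 1 := by
          apply sum_le_sum
          intro i _
          split_ifs <;> omega
      _ = y := by simp
      _ ≤ b := hy.le
  calc m ^ 2 * liv (G * b) c
      ≤ m ^ 2 * ((∑ α ∈ range G, ∑ y ∈ range b, cc α y) + G * b ^ 2) :=
        Nat.mul_le_mul_left _ h2
    _ = m ^ 2 * (∑ α ∈ range G, ∑ y ∈ range b, cc α y) + m ^ 2 * (G * b ^ 2) := by ring
    _ ≤ _ := Nat.add_le_add_right h1 _

theorem eff_of_Rd (D : Finset (ℕ × ℕ)) (x : ℕ → ℕ) (L : List (ℕ × ℕ)) (hR : Rd D x L) :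
    ∀ p ∈ L, p ∈ D → p ∈ eff D x L := by
  induction L with
  | nil => intro p hp; simp at hp
  | cons q L ih =>
    intro p hp hpD
    have ih := ih hR.1
    simp only [eff]
    rcases List.mem_cons.1 hp with rfl | hp
    · rw [if_pos ⟨hpD, hR.2 hpD⟩]
      exact mem_insert_self _ _
    · split_ifs with h
      · exact mem_insert_of_mem (ih p hp hpD)
      · exact ih p hp hpD

/-- The number of effective crossings is the number of inversions of the final word. -/
theorem card_eff (D : Finset (ℕ × ℕ)) (n : ℕ) :
    (eff D id (rows n n)).card = liv n (st D n n) := by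
  unfold st
  rw [liv_run D n id (rows n n) (nodup_rows n n)]
  · rw [liv_id, zero_add]
  · intro p hp
    rw [mem_rows] at hp
    omega

theorem card_Red_eq (D : Finset (ℕ × ℕ)) (n : ℕ) (hD : D ∈ Red n) : D.card = liv n (st D n n) := by
  rw [mem_Red] at hD
  rw [← card_eff]
  congr 1
  apply Subset.antisymm
  · intro p hp
    apply eff_of_Rd D id _ hD.2 p _ hp
    rw [mem_rows]
    have := hD.1 p hp
    exact ⟨by omega, this⟩
  · exact eff_subset _ _ _

theorem eff_mem_Red (D : Finset (ℕ × ℕ)) (n : ℕ) (hD : ∀ p ∈ D, p.1 + p.2 + 2 ≤ n) :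
    eff D id (rows n n) ∈ Red n := by
  rw [mem_Red]
  exact ⟨fun p hp => hD p (eff_subset _ _ _ hp), Rd_eff _ _ _ (nodup_rows n n)⟩

end Pool.Agent.Helper78.Lim
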