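import Pool.Agent.Helper78.LimBox
import Pool.Agent.Helper78.LimList

/-!
Words driven by a set of crossings, and their height fields.
-/

namespace Pool.Agent.Helper78.Lim

open Finset

/-- Exchange the letters at positions `a`, `a + 1` when `c` holds and they are increasing. -/
def stp (c : Prop) [Decidable c] (a : ℕ) (x : ℕ → ℕ) : ℕ → ℕ :=
  if c ∧ x a < x (a + 1) then fun p => x (Equiv.swap a (a + 1) p) else x

/-- Number of letters `≥ i` among the first `q` letters. -/
def H (i : ℕ) (x : ℕ → ℕ) (q : ℕ) : ℕ := ∑ p ∈ range q, if i ≤ x p then 1 else 0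

theorem H_succ (i : ℕ) (x : ℕ → ℕ) (q : ℕ) :
    H i x (q + 1) = H i x q + if i ≤ x q then 1 else 0 := sum_range_succ _ _

theorem H_zero (i : ℕ) (x : ℕ → ℕ) : H i x 0 = 0 := rfl

theorem H_swap_le (i a : ℕ) (x : ℕ → ℕ) (q : ℕ) (hq : q ≤ a) :
    H i (fun p => x (Equiv.swap a (a + 1) p)) q = H i x q := by
  unfold H
  apply sum_congr rfl
  intro p hp
  have := mem_range.1 hp
  beta_reduce
  rw [Equiv.swap_apply_of_ne_of_ne (by omega) (by omega)]

theorem H_swap_ge (i a : ℕ) (x : ℕ → ℕ) (d : ℕ) :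
    H i (fun p => x (Equiv.swap a (a + 1) p)) (a + 2 + d) = H i x (a + 2 + d) := by
  induction d with
  | zero =>
    have := H_swap_le i a x a le_rfl
    rw [add_zero, H_succ, H_succ, H_succ, H_succ, this, Equiv.swap_apply_left,
      Equiv.swap_apply_right]
    ring
  | succ d ih =>
    have e : a + 2 + (d + 1) = (a + 2 + d) + 1 := by ring
    rw [e, H_succ, H_succ, ih, Equiv.swap_apply_of_ne_of_ne (by omega) (by omega)]

theorem H_stp_ne (c : Prop) [Decidable c] (i a : ℕ) (x : ℕ → ℕ) (q : ℕ) (hq : q ≠ a + 1) :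
    H i (stp c a x) q = H i x q := by
  unfold stp
  split_ifs with h
  · rcases le_or_gt q a with h1 | h1
    · exact H_swap_le i a x q h1
    · obtain ⟨d, rfl⟩ : ∃ d, q = a + 2 + d := ⟨q - (a + 2), by omega⟩
      exact H_swap_ge i a x d
  · rfl

theorem H_stp_eq (c : Prop) [Decidable c] (hc : c) (i a : ℕ) (x : ℕ → ℕ) :
    H i (stp c a x) (a + 1) = min (H i x a + 1) (H i x (a + 2)) := by
  unfold stp
  split_ifs with h
  · rw [H_succ, H_swap_le i a x a le_rfl, H_succ, H_succ, Equiv.swap_apply_left]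
    have := h.2
    split_ifs <;> omega
  · have h' : ¬ x a < x (a + 1) := fun hh => h ⟨hc, hh⟩
    rw [H_succ, H_succ, H_succ]
    split_ifs <;> omega

theorem H_stp_neg (c : Prop) [Decidable c] (hc : ¬ c) (a : ℕ) (x : ℕ → ℕ) :
    stp c a x = x := by
  unfold stp
  rw [if_neg (fun h => hc h.1)]

theorem H_stp_ge (c : Prop) [Decidable c] (i a : ℕ) (x : ℕ → ℕ) (q : ℕ) :
    H i x q ≤ H i (stp c a x) q := by
  by_cases hq : q = a + 1
  · subst hq
    by_cases hc : c
    · rw [H_stp_eq c hc, H_succ, H_succ, H_succ]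
      split_ifs <;> omega
    · rw [H_stp_neg c hc]
  · rw [H_stp_ne c i a x q hq]

/-- The word after processing the cells of the list (the head of the list is processed last),
with crossings at the cells of `D`. -/
def run (D : Finset (ℕ × ℕ)) : List (ℕ × ℕ) → (ℕ → ℕ) → (ℕ → ℕ)
  | [], x => x
  | p :: L, x => stp (p ∈ D) (p.1 + p.2) (run D L x)

theorem run_append (D : Finset (ℕ × ℕ)) (L1 L2 : List (ℕ × ℕ)) (x : ℕ → ℕ) :
    run D (L1 ++ L2) x = run D L1 (run D L2 x) := by
  induction L1 with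
  | nil => rfl
  | cons p L1 ih => simp only [List.cons_append, run, ih]

/-- The cells `(r, c), …, (r, c + m - 1)`. -/
def rseg (r : ℕ) : ℕ → ℕ → List (ℕ × ℕ)
  | _, 0 => []
  | c, m + 1 => (r, c) :: rseg r (c + 1) m

theorem rseg_append (r : ℕ) (j m : ℕ) : ∀ c, rseg r c (j + m) = rseg r c j ++ rseg r (c + j) m := by
  induction j with
  | zero => intro c; simp [rseg]
  | succ j ih =>
    intro c
    have e : j + 1 + m = (j + m) + 1 := by ring
    rw [e]
    simp only [rseg, List.cons_append, List.cons.injEq, true_and]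
    rw [ih (c + 1)]
    congr 2
    ring

theorem mem_rseg (r m : ℕ) : ∀ (c : ℕ) (p : ℕ × ℕ),
    p ∈ rseg r c m ↔ p.1 = r ∧ c ≤ p.2 ∧ p.2 < c + m := by
  induction m with
  | zero => intro c p; simp [rseg]
  | succ m ih =>
    rintro c ⟨p1, p2⟩
    simp only [rseg, List.mem_cons, ih, Prod.mk.injEq]
    omega

theorem nodup_rseg (r m : ℕ) : ∀ c, (rseg r c m).Nodup := by
  induction m with
  | zero => intro c; simp [rseg]
  | succ m ih =>
    intro c
    simp only [rseg, List.nodup_cons]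
    refine ⟨?_, ih _⟩
    rw [mem_rseg]
    simp

/-- The cells of the first `k` rows of the staircase of size `n`, in reverse order of
processing. -/
def rows (n : ℕ) : ℕ → List (ℕ × ℕ)
  | 0 => []
  | k + 1 => rseg k 0 (n - 1 - k) ++ rows n k

theorem mem_rows (n k : ℕ) (p : ℕ × ℕ) : p ∈ rows n k ↔ p.1 < k ∧ p.1 + p.2 + 2 ≤ n := by
  induction k with
  | zero => simp [rows]
  | succ k ih =>
    simp only [rows, List.mem_append, ih, mem_rseg]
    omega

theorem nodup_rows (n k : ℕ) : (rows n k).Nodup := by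
  induction k with
  | zero => simp [rows]
  | succ k ih =>
    simp only [rows, List.nodup_append]
    refine ⟨nodup_rseg _ _ _, ih, ?_⟩
    intro a ha b hb hab
    subst hab
    rw [mem_rseg] at ha
    rw [mem_rows] at hb
    omega

/-- The word after `r` rows. -/
def st (D : Finset (ℕ × ℕ)) (n r : ℕ) : ℕ → ℕ := run D (rows n r) id

theorem H_run_seg (D : Finset (ℕ × ℕ)) (i r m : ℕ) (x : ℕ → ℕ) (q : ℕ) : ∀ (j : ℕ),
    (q ≤ r + j ∨ r + j + m < q) → H i (run D (rseg r j m) x) q = H i x q := by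
  induction m with
  | zero => intro j _; rfl
  | succ m ih =>
    intro j hq
    simp only [rseg, run]
    rw [H_stp_ne _ _ _ _ _ (by omega)]
    apply ih
    omega

theorem H_run_ge (D : Finset (ℕ × ℕ)) (i : ℕ) (L : List (ℕ × ℕ)) (x : ℕ → ℕ) (q : ℕ) :
    H i x q ≤ H i (run D L x) q := by
  induction L with
  | nil => exact le_rfl
  | cons p L ih => exact ih.trans (H_stp_ge _ _ _ _ _)

theorem st_succ (D : Finset (ℕ × ℕ)) (n r : ℕ) :
    st D n (r + 1) = run D (rseg r 0 (n - 1 - r)) (st D n r) := by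
  unfold st
  rw [rows, run_append]

theorem H_row (D : Finset (ℕ × ℕ)) (n r c i : ℕ) (hc : r + c + 2 ≤ n) :
    H i (st D n (r + 1)) (r + c + 1) =
      if (r, c) ∈ D then min (H i (st D n r) (r + c) + 1) (H i (st D n (r + 1)) (r + c + 2))
      else H i (st D n r) (r + c + 1) := by
  obtain ⟨m, hm⟩ : ∃ m, n - 1 - r = c + (m + 1) := ⟨n - 1 - r - (c + 1), by omega⟩
  have e0 : st D n (r + 1) = run D (rseg r 0 c) (run D (rseg r c (m + 1)) (st D n r)) := by
    rw [st_succ, hm, rseg_append, run_append, zero_add]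
  have e1 : run D (rseg r c (m + 1)) (st D n r)
      = stp ((r, c) ∈ D) (r + c) (run D (rseg r (c + 1) m) (st D n r)) := rfl
  have h1 : H i (st D n (r + 1)) (r + c + 1)
      = H i (stp ((r, c) ∈ D) (r + c) (run D (rseg r (c + 1) m) (st D n r))) (r + c + 1) := by
    rw [e0, H_run_seg _ _ _ _ _ _ _ (by omega), e1]
  have h2 : H i (st D n (r + 1)) (r + c + 2)
      = H i (run D (rseg r (c + 1) m) (st D n r)) (r + c + 2) := by
    rw [e0, H_run_seg _ _ _ _ _ _ _ (by omega), e1, H_stp_ne _ _ _ _ _ (by omega)]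
  rw [h1]
  split_ifs with h
  · rw [H_stp_eq _ h, ← h2, H_run_seg _ _ _ _ _ _ _ (by omega)]
  · rw [H_stp_neg _ h, H_run_seg _ _ _ _ _ _ _ (by omega)]

theorem H_row_out (D : Finset (ℕ × ℕ)) (n r i q : ℕ) (hq : n ≤ q ∨ q ≤ r) :
    H i (st D n (r + 1)) q = H i (st D n r) q := by
  rw [st_succ]
  rcases Nat.eq_zero_or_pos (n - 1 - r) with h | h
  · rw [h]; rfl
  · apply H_run_seg
    omega

theorem fld (D : Finset (ℕ × ℕ)) (n i : ℕ) (hD : ∀ p ∈ D, p.1 + p.2 + 2 ≤ n) :
    Fld (fun r c => (r, c) ∈ D) (fun r c => (H i (st D n r) (r + c) : ℤ)) := by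
  have hcross : ∀ r c, (r, c) ∈ D → (H i (st D n (r + 1)) (r + 1 + c) : ℤ)
      = min ((H i (st D n r) (r + c) : ℤ) + 1) (H i (st D n (r + 1)) (r + 1 + (c + 1)) : ℤ) := by
    intro r c h
    have h1 := H_row D n r c i (hD _ h)
    rw [if_pos h] at h1
    have e1 : r + 1 + c = r + c + 1 := by ring
    have e2 : r + 1 + (c + 1) = r + c + 2 := by ring
    rw [e1, e2, h1]
    push_cast
    rfl
  have helbow : ∀ r c, ¬ (r, c) ∈ D → (H i (st D n (r + 1)) (r + 1 + c) : ℤ)
      = (H i (st D n r) (r + (c + 1)) : ℤ) := by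
    intro r c h
    have e1 : r + 1 + c = r + c + 1 := by ring
    have e2 : r + (c + 1) = r + c + 1 := by ring
    rw [e1, e2]
    by_cases hc : r + c + 2 ≤ n
    · have h1 := H_row D n r c i hc
      rw [if_neg h] at h1
      rw [h1]
    · rw [H_row_out _ _ _ _ _ (by omega)]
  have hright : ∀ r c, (H i (st D n r) (r + c) : ℤ) ≤ H i (st D n r) (r + (c + 1)) := by
    intro r c
    rw [← add_assoc, H_succ]
    push_cast
    split_ifs <;> simp
  have hright' : ∀ r c, (H i (st D n r) (r + (c + 1)) : ℤ) ≤ H i (st D n r) (r + c) + 1 := by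
    intro r c
    rw [← add_assoc, H_succ]
    push_cast
    split_ifs <;> simp
  refine ⟨hcross, helbow, hright, hright', ?_, ?_⟩
  · intro r c
    refine (hright r c).trans ?_
    have e : r + 1 + c = r + (c + 1) := by ring
    show (H i (st D n r) (r + (c + 1)) : ℤ) ≤ H i (st D n (r + 1)) (r + 1 + c)
    rw [e, st_succ]
    exact_mod_cast H_run_ge _ _ _ _ _
  · intro r c
    show (H i (st D n (r + 1)) (r + 1 + c) : ℤ) ≤ H i (st D n r) (r + c) + 1
    by_cases h : (r, c) ∈ D
    · rw [hcross r c h]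
      exact min_le_left _ _
    · rw [helbow r c h]
      exact hright' r c

theorem H_id (i q : ℕ) : H i id q = q - i := by
  induction q with
  | zero => simp [H_zero]
  | succ q ih =>
    rw [H_succ, ih]
    simp only [id]
    split_ifs <;> omega

theorem H_top (D : Finset (ℕ × ℕ)) (n i q : ℕ) : H i (st D n 0) q = q - i := by
  show H i id q = _
  exact H_id i q

theorem H_wall (D : Finset (ℕ × ℕ)) (n i r q : ℕ) (hq : n ≤ q) : H i (st D n r) q = q - i := by
  induction r with
  | zero => exact H_top D n i q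
  | succ r ih => rw [H_row_out _ _ _ _ _ (Or.inl hq), ih]

theorem H_left (D : Finset (ℕ × ℕ)) (n i r k : ℕ) : H i (st D n (r + k)) r = H i (st D n r) r := by
  induction k with
  | zero => rfl
  | succ k ih =>
    rw [← add_assoc, H_row_out _ _ _ _ _ (Or.inr (by omega)), ih]

theorem H_left' (D : Finset (ℕ × ℕ)) (n i r : ℕ) (hr : r ≤ n) :
    H i (st D n r) r = H i (st D n n) r := by
  obtain ⟨k, rfl⟩ := Nat.exists_eq_add_of_le hr
  exact (H_left D _ i r k).symm

theorem H_le (i : ℕ) (x : ℕ → ℕ) (q : ℕ) : H i x q ≤ q := by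
  unfold H
  calc _ ≤ ∑ p ∈ range q, 1 := by
        apply sum_le_sum
        intro p _
        split_ifs <;> omega
    _ = q := by simp

end Pool.Agent.Helper78.Lim
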