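import Mathlib

/-!
# Strongly separating, spreading and QI permutation groups (definitions of `MP_a3c043_al`)

`G` is a subgroup of `Equiv.Perm Ω`, `Ω` a finite set, and for `X ⊆ Ω` and `g ∈ G` the set `X g` of the
problem file is `X.image g`.
-/

set_option autoImplicit false

namespace Pool.Agent.Helper78.Sep

variable {Ω : Type} [Fintype Ω] [DecidableEq Ω]

/-- A subset `X` of `Ω` is non-trivial if `1 < |X| < n`. -/
def Nontriv (X : Finset Ω) : Prop := 1 < X.card ∧ X.card < Fintype.card Ω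

/-- `G` is strongly separating: for all non-trivial `A, B` with `|B|` dividing `n` and
`|A| |B| = k n`, some `g ∈ G` satisfies `|A ∩ B g| ≠ k`. -/
def StronglySeparating (G : Subgroup (Equiv.Perm Ω)) : Prop :=
  ∀ A B : Finset Ω, Nontriv A → Nontriv B → B.card ∣ Fintype.card Ω →
    ∀ k : ℕ, A.card * B.card = k * Fintype.card Ω → ∃ g ∈ G, (A ∩ B.image g).card ≠ k

/-- `G` is spreading: for every non-empty proper subset `A` and every non-injective `t : Ω → Ω`,
some `g ∈ G` satisfies `|(A g) t⁻¹| > |A|`. -/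
def Spreading (G : Subgroup (Equiv.Perm Ω)) : Prop :=
  ∀ A : Finset Ω, A.Nonempty → A ≠ Finset.univ → ∀ t : Ω → Ω, ¬ Function.Injective t →
    ∃ g ∈ G, A.card < (Finset.univ.filter fun x => t x ∈ A.image g).card

/-- `G` is QI: the augmentation submodule `{f : Ω → ℚ | ∑ x, f x = 0}` is an irreducible
`ℚG`-module, that is, it is nonzero, and every `G`-invariant subspace `W` of it is zero or all of it. -/
def QI (G : Subgroup (Equiv.Perm Ω)) : Prop :=
  (∃ f : Ω → ℚ, ∑ x, f x = 0 ∧ f ≠ 0) ∧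
    ∀ W : Submodule ℚ (Ω → ℚ), (∀ f ∈ W, ∑ x, f x = 0) →
      (∀ g ∈ G, ∀ f ∈ W, (fun x => f (g x)) ∈ W) →
      (∀ f ∈ W, f = 0) ∨ (∀ f : Ω → ℚ, ∑ x, f x = 0 → f ∈ W)

end Pool.Agent.Helper78.Sep
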