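import Mathlib
import Pool.Agent.Helper78.SepDefs

/-!
# The group `W(E₆)` acting on the 27 points of `GQ(2,4)`

Points: `a_i = i`, `b_i = 6 + i` (`0 ≤ i ≤ 5`), and `c_ij` the pairs in lexicographic order, from 12 on.
-/

set_option autoImplicit false

namespace Pool.Agent.Helper78.Schlaefli

open Pool.Agent.Helper78.Sep

def rows : List ℕ := [130944, 1974080, 14823104, 52710848, 88640448, 110168000, 127038, 1970237, 14819387, 52707383, 88637487, 110166047, 132120771, 119275845, 81396297, 45483089, 23988321, 117555590, 79798922, 44131474, 23128226, 68784908, 34952468, 17619236, 9647640, 4897320, 2522160]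

def tabsH : List (List ℕ) := [
  [0, 1, 2, 3, 4, 5, 6, 7, 8, 9, 10, 11, 12, 13, 14, 15, 16, 17, 18, 19, 20, 21, 22, 23, 24, 25, 26],
  [0, 3, 23, 26, 22, 1, 18, 12, 10, 8, 11, 14, 7, 15, 13, 16, 9, 24, 21, 25, 6, 5, 2, 19, 4, 17, 20],
  [0, 5, 22, 1, 24, 21, 20, 12, 9, 16, 8, 10, 7, 14, 11, 13, 15, 25, 6, 23, 26, 18, 4, 2, 17, 19, 3],
  [0, 6, 17, 18, 19, 20, 1, 7, 13, 14, 15, 16, 12, 8, 9, 10, 11, 2, 3, 4, 5, 26, 25, 24, 23, 22, 21],
  [0, 18, 24, 21, 25, 6, 3, 12, 15, 13, 16, 9, 7, 10, 8, 11, 14, 23, 26, 22, 1, 20, 17, 4, 19, 2, 5],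
  [0, 20, 25, 6, 23, 26, 5, 12, 14, 11, 13, 15, 7, 9, 16, 8, 10, 22, 1, 24, 21, 3, 19, 17, 2, 4, 18],
  [0, 21, 4, 5, 17, 18, 26, 7, 16, 15, 9, 8, 12, 11, 10, 14, 13, 19, 20, 2, 3, 6, 24, 22, 25, 23, 1],
  [0, 26, 19, 20, 2, 3, 21, 7, 11, 10, 14, 13, 12, 16, 15, 9, 8, 4, 5, 17, 18, 1, 23, 25, 22, 24, 6],
  [7, 8, 6, 24, 26, 25, 13, 12, 17, 5, 3, 4, 0, 2, 20, 18, 19, 1, 23, 21, 22, 16, 14, 15, 10, 9, 11],
  [7, 11, 21, 22, 6, 24, 16, 12, 4, 3, 20, 2, 0, 19, 18, 5, 17, 26, 25, 1, 23, 8, 15, 9, 14, 10, 13],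
  [7, 13, 1, 23, 21, 22, 8, 12, 2, 20, 18, 19, 0, 17, 5, 3, 4, 6, 24, 26, 25, 11, 9, 10, 15, 14, 16],
  [7, 16, 26, 25, 1, 23, 11, 12, 19, 18, 5, 17, 0, 4, 3, 20, 2, 21, 22, 6, 24, 13, 10, 14, 9, 15, 8],
  [7, 22, 9, 13, 15, 11, 25, 0, 20, 4, 2, 18, 12, 5, 19, 17, 3, 14, 8, 10, 16, 24, 21, 1, 6, 26, 23],
  [7, 23, 10, 16, 9, 13, 24, 0, 18, 2, 19, 5, 12, 3, 17, 4, 20, 15, 11, 14, 8, 22, 1, 26, 21, 6, 25],
  [7, 24, 15, 11, 14, 8, 23, 0, 3, 17, 4, 20, 12, 18, 2, 19, 5, 10, 16, 9, 13, 25, 6, 21, 26, 1, 22],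
  [7, 25, 14, 8, 10, 16, 22, 0, 5, 19, 17, 3, 12, 20, 4, 2, 18, 9, 13, 15, 11, 23, 26, 6, 1, 21, 24],
  [12, 2, 8, 15, 16, 14, 17, 0, 6, 22, 23, 21, 7, 1, 25, 24, 26, 13, 10, 11, 9, 4, 5, 3, 18, 20, 19],
  [12, 4, 16, 14, 13, 10, 19, 0, 26, 24, 22, 6, 7, 21, 23, 25, 1, 11, 9, 8, 15, 17, 18, 5, 20, 3, 2],
  [12, 9, 20, 17, 3, 19, 14, 7, 25, 21, 1, 24, 0, 22, 26, 6, 23, 5, 2, 18, 4, 15, 11, 13, 8, 16, 10],
  [12, 10, 18, 4, 20, 17, 15, 7, 24, 1, 26, 22, 0, 23, 6, 21, 25, 3, 19, 5, 2, 9, 13, 16, 11, 8, 14],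
  [12, 14, 5, 2, 18, 4, 9, 7, 22, 26, 6, 23, 0, 25, 21, 1, 24, 20, 17, 3, 19, 10, 16, 8, 13, 11, 15],
  [12, 15, 3, 19, 5, 2, 10, 7, 23, 6, 21, 25, 0, 24, 1, 26, 22, 18, 4, 20, 17, 14, 8, 11, 16, 13, 9],
  [12, 17, 13, 10, 11, 9, 2, 0, 1, 25, 24, 26, 7, 6, 22, 23, 21, 8, 15, 16, 14, 19, 20, 18, 3, 5, 4],
  [12, 19, 11, 9, 8, 15, 4, 0, 21, 23, 25, 1, 7, 26, 24, 22, 6, 16, 14, 13, 10, 2, 3, 20, 5, 18, 17]]

def tabsT : List (List ℕ) := [
  [0, 1, 2, 3, 4, 5, 6, 7, 8, 9, 10, 11, 12, 13, 14, 15, 16, 17, 18, 19, 20, 21, 22, 23, 24, 25, 26],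
  [0, 2, 1, 3, 4, 5, 6, 8, 7, 9, 10, 11, 13, 12, 14, 15, 16, 17, 21, 22, 23, 18, 19, 20, 24, 25, 26],
  [0, 3, 1, 2, 4, 5, 6, 9, 7, 8, 10, 11, 14, 12, 13, 15, 16, 18, 21, 24, 25, 17, 19, 20, 22, 23, 26],
  [0, 4, 1, 2, 3, 5, 6, 10, 7, 8, 9, 11, 15, 12, 13, 14, 16, 19, 22, 24, 26, 17, 18, 20, 21, 23, 25],
  [0, 5, 1, 2, 3, 4, 6, 11, 7, 8, 9, 10, 16, 12, 13, 14, 15, 20, 23, 25, 26, 17, 18, 19, 21, 22, 24],
  [1, 0, 2, 3, 4, 5, 7, 6, 8, 9, 10, 11, 12, 17, 18, 19, 20, 13, 14, 15, 16, 21, 22, 23, 24, 25, 26],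
  [1, 2, 0, 3, 4, 5, 7, 8, 6, 9, 10, 11, 17, 12, 18, 19, 20, 13, 21, 22, 23, 14, 15, 16, 24, 25, 26],
  [1, 3, 0, 2, 4, 5, 7, 9, 6, 8, 10, 11, 18, 12, 17, 19, 20, 14, 21, 24, 25, 13, 15, 16, 22, 23, 26],
  [1, 4, 0, 2, 3, 5, 7, 10, 6, 8, 9, 11, 19, 12, 17, 18, 20, 15, 22, 24, 26, 13, 14, 16, 21, 23, 25],
  [1, 5, 0, 2, 3, 4, 7, 11, 6, 8, 9, 10, 20, 12, 17, 18, 19, 16, 23, 25, 26, 13, 14, 15, 21, 22, 24],
  [2, 0, 1, 3, 4, 5, 8, 6, 7, 9, 10, 11, 13, 17, 21, 22, 23, 12, 14, 15, 16, 18, 19, 20, 24, 25, 26],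
  [2, 1, 0, 3, 4, 5, 8, 7, 6, 9, 10, 11, 17, 13, 21, 22, 23, 12, 18, 19, 20, 14, 15, 16, 24, 25, 26],
  [2, 3, 0, 1, 4, 5, 8, 9, 6, 7, 10, 11, 21, 13, 17, 22, 23, 14, 18, 24, 25, 12, 15, 16, 19, 20, 26],
  [2, 4, 0, 1, 3, 5, 8, 10, 6, 7, 9, 11, 22, 13, 17, 21, 23, 15, 19, 24, 26, 12, 14, 16, 18, 20, 25],
  [2, 5, 0, 1, 3, 4, 8, 11, 6, 7, 9, 10, 23, 13, 17, 21, 22, 16, 20, 25, 26, 12, 14, 15, 18, 19, 24],
  [3, 0, 1, 2, 4, 5, 9, 6, 7, 8, 10, 11, 14, 18, 21, 24, 25, 12, 13, 15, 16, 17, 19, 20, 22, 23, 26],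
  [3, 1, 0, 2, 4, 5, 9, 7, 6, 8, 10, 11, 18, 14, 21, 24, 25, 12, 17, 19, 20, 13, 15, 16, 22, 23, 26],
  [3, 2, 0, 1, 4, 5, 9, 8, 6, 7, 10, 11, 21, 14, 18, 24, 25, 13, 17, 22, 23, 12, 15, 16, 19, 20, 26],
  [3, 4, 0, 1, 2, 5, 9, 10, 6, 7, 8, 11, 24, 14, 18, 21, 25, 15, 19, 22, 26, 12, 13, 16, 17, 20, 23],
  [3, 5, 0, 1, 2, 4, 9, 11, 6, 7, 8, 10, 25, 14, 18, 21, 24, 16, 20, 23, 26, 12, 13, 15, 17, 19, 22],
  [4, 0, 1, 2, 3, 5, 10, 6, 7, 8, 9, 11, 15, 19, 22, 24, 26, 12, 13, 14, 16, 17, 18, 20, 21, 23, 25],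
  [4, 1, 0, 2, 3, 5, 10, 7, 6, 8, 9, 11, 19, 15, 22, 24, 26, 12, 17, 18, 20, 13, 14, 16, 21, 23, 25],
  [4, 2, 0, 1, 3, 5, 10, 8, 6, 7, 9, 11, 22, 15, 19, 24, 26, 13, 17, 21, 23, 12, 14, 16, 18, 20, 25],
  [4, 3, 0, 1, 2, 5, 10, 9, 6, 7, 8, 11, 24, 15, 19, 22, 26, 14, 18, 21, 25, 12, 13, 16, 17, 20, 23],
  [4, 5, 0, 1, 2, 3, 10, 11, 6, 7, 8, 9, 26, 15, 19, 22, 24, 16, 20, 23, 25, 12, 13, 14, 17, 18, 21],
  [5, 0, 1, 2, 3, 4, 11, 6, 7, 8, 9, 10, 16, 20, 23, 25, 26, 12, 13, 14, 15, 17, 18, 19, 21, 22, 24],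
  [5, 1, 0, 2, 3, 4, 11, 7, 6, 8, 9, 10, 20, 16, 23, 25, 26, 12, 17, 18, 19, 13, 14, 15, 21, 22, 24],
  [5, 2, 0, 1, 3, 4, 11, 8, 6, 7, 9, 10, 23, 16, 20, 25, 26, 13, 17, 21, 22, 12, 14, 15, 18, 19, 24],
  [5, 3, 0, 1, 2, 4, 11, 9, 6, 7, 8, 10, 25, 16, 20, 23, 26, 14, 18, 21, 24, 12, 13, 15, 17, 19, 22],
  [5, 4, 0, 1, 2, 3, 11, 10, 6, 7, 8, 9, 26, 16, 20, 23, 25, 15, 19, 22, 24, 12, 13, 14, 17, 18, 21],
  [12, 4, 2, 3, 16, 20, 11, 21, 24, 22, 7, 6, 26, 23, 25, 0, 1, 9, 8, 19, 15, 10, 17, 13, 18, 14, 5],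
  [12, 3, 2, 4, 16, 20, 11, 22, 24, 21, 7, 6, 25, 23, 26, 0, 1, 10, 8, 18, 14, 9, 17, 13, 19, 15, 5],
  [12, 3, 2, 5, 15, 19, 10, 23, 25, 21, 7, 6, 24, 22, 26, 0, 1, 11, 8, 18, 14, 9, 17, 13, 20, 16, 4],
  [13, 4, 1, 3, 16, 23, 11, 18, 24, 19, 8, 6, 26, 20, 25, 0, 2, 9, 7, 22, 15, 10, 17, 12, 21, 14, 5],
  [13, 3, 1, 4, 16, 23, 11, 19, 24, 18, 8, 6, 25, 20, 26, 0, 2, 10, 7, 21, 14, 9, 17, 12, 22, 15, 5],
  [13, 3, 1, 5, 15, 22, 10, 20, 25, 18, 8, 6, 24, 19, 26, 0, 2, 11, 7, 21, 14, 9, 17, 12, 23, 16, 4],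
  [14, 4, 1, 2, 16, 25, 11, 17, 22, 19, 9, 6, 26, 20, 23, 0, 3, 8, 7, 24, 15, 10, 18, 12, 21, 13, 5],
  [14, 2, 1, 4, 16, 25, 11, 19, 22, 17, 9, 6, 23, 20, 26, 0, 3, 10, 7, 21, 13, 8, 18, 12, 24, 15, 5],
  [14, 2, 1, 5, 15, 24, 10, 20, 23, 17, 9, 6, 22, 19, 26, 0, 3, 11, 7, 21, 13, 8, 18, 12, 25, 16, 4],
  [15, 3, 1, 2, 16, 26, 11, 17, 21, 18, 10, 6, 25, 20, 23, 0, 4, 8, 7, 24, 14, 9, 19, 12, 22, 13, 5],
  [15, 2, 1, 3, 16, 26, 11, 18, 21, 17, 10, 6, 23, 20, 25, 0, 4, 9, 7, 22, 13, 8, 19, 12, 24, 14, 5],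
  [15, 2, 1, 5, 14, 24, 9, 20, 23, 17, 10, 6, 21, 18, 25, 0, 4, 11, 7, 22, 13, 8, 19, 12, 26, 16, 3],
  [16, 3, 1, 2, 15, 26, 10, 17, 21, 18, 11, 6, 24, 19, 22, 0, 5, 8, 7, 25, 14, 9, 20, 12, 23, 13, 4],
  [16, 2, 1, 3, 15, 26, 10, 18, 21, 17, 11, 6, 22, 19, 24, 0, 5, 9, 7, 23, 13, 8, 20, 12, 25, 14, 4],
  [16, 2, 1, 4, 14, 25, 9, 19, 22, 17, 11, 6, 21, 18, 24, 0, 5, 10, 7, 23, 13, 8, 20, 12, 26, 15, 3]]

def linesL : List (ℕ × ℕ × ℕ) := [(0, 7, 12), (0, 8, 13), (0, 9, 14), (0, 10, 15), (0, 11, 16), (1, 6, 12), (1, 8, 17), (1, 9, 18), (1, 10, 19), (1, 11, 20), (2, 6, 13), (2, 7, 17), (2, 9, 21), (2, 10, 22), (2, 11, 23), (3, 6, 14), (3, 7, 18), (3, 8, 21), (3, 10, 24), (3, 11, 25), (4, 6, 15), (4, 7, 19), (4, 8, 22), (4, 9, 24), (4, 11, 26), (5, 6, 16), (5, 7, 20), (5, 8, 23), (5, 9, 25), (5, 10, 26), (12, 21, 26), (12, 22, 25), (12, 23, 24), (13, 18, 26), (13, 19, 25), (13, 20,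 24), (14, 17, 26), (14, 19, 23), (14, 20, 22), (15, 17, 25), (15, 18, 23), (15, 20, 21), (16, 17, 24), (16, 18, 22), (16, 19, 21)]

/-- Collinearity in `GQ(2,4)`. -/
def adj (x y : Fin 27) : Bool := Nat.testBit (rows.getD x.1 0) y.1

/-- The automorphism group of the collinearity graph. -/
def G : Subgroup (Equiv.Perm (Fin 27)) where
  carrier := {g | ∀ x y, adj (g x) (g y) = adj x y}
  mul_mem' := by
    intro g h hg hh x y
    simp only [Equiv.Perm.coe_mul, Function.comp_apply]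
    rw [hg, hh]
  one_mem' := by
    intro x y
    simp
  inv_mem' := by
    intro g hg x y
    have := hg (g⁻¹ x) (g⁻¹ y)
    simpa using this.symm

lemma mem_G (g : Equiv.Perm (Fin 27)) : g ∈ G ↔ ∀ x y, adj (g x) (g y) = adj x y := Iff.rfl

/-- The map given by a table. -/
def tab (l : List ℕ) (x : Fin 27) : Fin 27 := ⟨(l.getD x.1 0) % 27, Nat.mod_lt _ (by norm_num)⟩

lemma rows_distinct : ∀ x y : Fin 27, (∀ z, adj x z = adj y z) → x = y := by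
  decide +kernel

lemma tabsH_adj : ∀ l ∈ tabsH, ∀ x y : Fin 27, adj (tab l x) (tab l y) = adj x y := by
  decide +kernel

lemma tabsT_adj : ∀ l ∈ tabsT, ∀ x y : Fin 27, adj (tab l x) (tab l y) = adj x y := by
  decide +kernel

lemma exists_of_tab (f : Fin 27 → Fin 27) (hf : ∀ x y, adj (f x) (f y) = adj x y) :
    ∃ g ∈ G, ∀ x, g x = f x := by
  have hinj : Function.Injective f := by
    intro x y hxy
    apply rows_distinct
    intro z
    rw [← hf x z, ← hf y z, hxy]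
  refine ⟨Equiv.ofBijective f ((Finite.injective_iff_bijective).1 hinj), ?_, fun x => rfl⟩
  intro x y
  exact hf x y

/-- The 24 points off the line `{0, 7, 12}`. -/
def offL : List ℕ := [1, 2, 3, 4, 5, 6, 8, 9, 10, 11, 13, 14, 15, 16, 17, 18, 19, 20, 21, 22, 23, 24, 25, 26]

/-- The line `{0, 7, 12}` repeated eight times. -/
def onL : List ℕ := [0, 0, 0, 0, 0, 0, 0, 0, 7, 7, 7, 7, 7, 7, 7, 7, 12, 12, 12, 12, 12, 12, 12, 12]

def isOn (y : Fin 27) : Bool := y == 0 || y == 7 || y == 12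

lemma tabsH_perm : ∀ y : Fin 27, (tabsH.map fun l => (tab l y).1).Perm
    (if isOn y then onL else offL) := by
  decide +kernel

lemma tabsT_lines : ∀ p ∈ linesL, ∃ l ∈ tabsT, (tab l 0).1 = p.1 ∧ (tab l 7).1 = p.2.1 ∧
    (tab l 12).1 = p.2.2 := by
  decide +kernel

/-- sum over the line `{0,7,12}` -/
def lineSum (a : Fin 27 → ℤ) : ℤ := a 0 + a 7 + a 12

lemma sum_tabsH (a : Fin 27 → ℤ) (y : Fin 27) :
    (tabsH.map fun l => a (tab l y)).sum =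
      if isOn y then 8 * lineSum a else (∑ x, a x) - lineSum a := by
  have h1 : (tabsH.map fun l => a (tab l y)) =
      (tabsH.map fun l => (tab l y).1).map (fun k => a ⟨k % 27, Nat.mod_lt _ (by norm_num)⟩) := by
    rw [List.map_map]
    apply List.map_congr_left
    intro l _
    simp only [Function.comp_apply]
    congr 1
    ext
    simp [tab]
  rw [h1, ((tabsH_perm y).map _).sum_eq]
  split_ifs
  · simp only [onL, List.map_cons, List.map_nil, List.sum_cons, List.sum_nil, lineSum]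
    have e0 : (⟨0 % 27, Nat.mod_lt _ (by norm_num)⟩ : Fin 27) = 0 := rfl
    have e7 : (⟨7 % 27, Nat.mod_lt _ (by norm_num)⟩ : Fin 27) = 7 := rfl
    have e12 : (⟨12 % 27, Nat.mod_lt _ (by norm_num)⟩ : Fin 27) = 12 := rfl
    rw [e0, e7, e12]
    ring
  · rw [show (∑ x, a x) = ((List.finRange 27).map a).sum from by
      rw [← List.sum_ofFn, List.ofFn_eq_map]]
    simp only [offL, List.map_cons, List.map_nil, List.sum_cons, List.sum_nil, lineSum]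
    have hfr : List.finRange 27 = [0,1,2,3,4,5,6,7,8,9,10,11,12,13,14,15,16,17,18,19,20,21,22,23,24,25,26] := by
      decide
    rw [hfr]
    simp only [List.map_cons, List.map_nil, List.sum_cons, List.sum_nil]
    simp only [Nat.reduceMod]
    have e : ∀ (k : ℕ) (h : k < 27), (⟨k, h⟩ : Fin 27) = Fin.ofNat 27 k := by
      intro k h
      ext
      simp [Fin.ofNat, Nat.mod_eq_of_lt h]
    simp only [e]
    have e1 : Fin.ofNat 27 1 = 1 := rfl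
    rw [e1]
    simp only [Fin.ofNat_eq_cast, Nat.cast_ofNat]
    ring

/-- The condition that all the sums `∑ y, a (g y) * b y` are equal to `k`. -/
def Const (a b : Fin 27 → ℤ) (k : ℤ) : Prop := ∀ g ∈ G, ∑ y, a (g y) * b y = k

lemma Const.comp {a b : Fin 27 → ℤ} {k : ℤ} (h : Const a b k) {g g' : Equiv.Perm (Fin 27)}
    (hg : g ∈ G) (hg' : g' ∈ G) : Const (a ∘ g) (b ∘ g') k := by
  intro u hu
  have h1 := h (g * u * g'⁻¹) (G.mul_mem (G.mul_mem hg hu) (G.inv_mem hg'))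
  rw [← h1, ← Equiv.sum_comp g' (fun y => a ((g * u * g'⁻¹) y) * b y)]
  apply Finset.sum_congr rfl
  intro y _
  simp [Equiv.Perm.mul_apply]

lemma Const.line {a b : Fin 27 → ℤ} {k : ℤ} (h : Const a b k)
    (hk : (∑ x, a x) * (∑ x, b x) = 27 * k) :
    (9 * lineSum a - ∑ x, a x) * (9 * lineSum b - ∑ x, b x) = 0 := by
  have h1 : ∀ l ∈ tabsH, ∑ y, a (tab l y) * b y = k := by
    intro l hl
    obtain ⟨g, hg, hgx⟩ := exists_of_tab (tab l) (tabsH_adj l hl)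
    rw [← h g hg]
    apply Finset.sum_congr rfl
    intro y _
    rw [hgx]
  have h2 : (tabsH.map fun l => ∑ y, a (tab l y) * b y).sum = 24 * k := by
    have : (tabsH.map fun l => ∑ y, a (tab l y) * b y) = tabsH.map fun _ => k :=
      List.map_congr_left (fun l hl => h1 l hl)
    rw [this, List.map_const', List.sum_replicate]
    simp [tabsH]
  have h3 : (tabsH.map fun l => ∑ y, a (tab l y) * b y).sum =
      ∑ y, (tabsH.map fun l => a (tab l y)).sum * b y := by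
    have gen : ∀ L : List (List ℕ), (L.map fun l => ∑ y, a (tab l y) * b y).sum =
        ∑ y, (L.map fun l => a (tab l y)).sum * b y := by
      intro L
      induction L with
      | nil => simp
      | cons l L ih =>
        simp only [List.map_cons, List.sum_cons, ih, add_mul, Finset.sum_add_distrib]
    exact gen tabsH
  have h4 : ∑ y, (tabsH.map fun l => a (tab l y)).sum * b y =
      8 * lineSum a * lineSum b + ((∑ x, a x) - lineSum a) * ((∑ x, b x) - lineSum b) := by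
    have h5 : ∀ y : Fin 27, (tabsH.map fun l => a (tab l y)).sum * b y =
        ((∑ x, a x) - lineSum a) * b y +
          (if isOn y then (8 * lineSum a - ((∑ x, a x) - lineSum a)) * b y else 0) := by
      intro y
      rw [sum_tabsH]
      split_ifs
      · ring
      · ring
    rw [Finset.sum_congr rfl (fun y _ => h5 y), Finset.sum_add_distrib, ← Finset.mul_sum,
      ← Finset.sum_filter]
    have h6 : (Finset.univ.filter fun y : Fin 27 => isOn y = true) = {0, 7, 12} := by decide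
    rw [h6, Finset.sum_insert (by decide), Finset.sum_insert (by decide), Finset.sum_singleton]
    simp only [lineSum]
    ring
  have h7 := h3.symm.trans h2
  rw [h4] at h7
  nlinarith [h7, hk]

/-- Existence of elements of `G` mapping the line `{0,7,12}` to each of the 45 lines. -/
lemma exists_G_line : ∀ p ∈ linesL, ∃ g ∈ G, (g 0).1 = p.1 ∧ (g 7).1 = p.2.1 ∧
    (g 12).1 = p.2.2 := by
  intro p hp
  obtain ⟨l, hl, h⟩ := tabsT_lines p hp
  obtain ⟨g, hg, hgx⟩ := exists_of_tab (tab l) (tabsT_adj l hl)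
  refine ⟨g, hg, ?_⟩
  rw [hgx, hgx, hgx]
  exact h

lemma arith1 (p q r s t w c : ℤ) (hp : p = 0 ∨ p = 1) (hq : q = 0 ∨ q = 1) (hr : r = 0 ∨ r = 1)
    (hs : s = 0 ∨ s = 1) (ht : t = 0 ∨ t = 1) (hw : w = 0 ∨ w = 1)
    (hsum : 2 * c = p + q + r + s + t + w) (b1 : p + q ≤ c ∧ c ≤ p + q + 1)
    (b2 : r + s ≤ c ∧ c ≤ r + s + 1) (b3 : t + w ≤ c ∧ c ≤ t + w + 1)
    (b4 : p + r ≤ c ∧ c ≤ p + r + 1) (b5 : p + s ≤ c ∧ c ≤ p + s + 1)
    (b6 : q + r ≤ c ∧ c ≤ q + r + 1) (b7 : q + s ≤ c ∧ c ≤ q + s + 1)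
    (b8 : p + t ≤ c ∧ c ≤ p + t + 1) (b9 : p + w ≤ c ∧ c ≤ p + w + 1)
    (b10 : q + t ≤ c ∧ c ≤ q + t + 1) (b11 : q + w ≤ c ∧ c ≤ q + w + 1)
    (b12 : r + t ≤ c ∧ c ≤ r + t + 1) (b13 : r + w ≤ c ∧ c ≤ r + w + 1)
    (b14 : s + t ≤ c ∧ c ≤ s + t + 1) (b15 : s + w ≤ c ∧ c ≤ s + w + 1) :
    c = 0 ∨ c = 3 := by
  rcases hp with rfl | rfl <;> rcases hq with rfl | rfl <;> rcases hr with rfl | rfl <;>
    rcases hs with rfl | rfl <;> rcases ht with rfl | rfl <;> rcases hw with rfl | rfl <;> omega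

lemma step1 (x y : ℤ) (hx : x = 0 ∨ x = 1) (hy : y = 0 ∨ y = 1) (h : 0 - 1 = x - y) :
    x = 0 ∧ y = 1 := by omega

lemma step2 (x y : ℤ) (hx : x = 0 ∨ x = 1) (hy : y = 0 ∨ y = 1) (h : 1 - 0 = x - y) :
    x = 1 ∧ y = 0 := by omega

lemma arith2 (u v : Fin 6 → ℤ) (c : ℤ) (hu : ∀ i, u i = 0 ∨ u i = 1)
    (hv : ∀ i, v i = 0 ∨ v i = 1) (hd : ∀ i, u 0 - v 0 = u i - v i)
    (hc : 2 * c = u 0 + v 1 + u 2 + v 3 + u 4 + v 5) : u 0 = v 0 := by
  rcases hu 0 with h | h <;> rcases hv 0 with h' | h'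
  · rw [h, h']
  · exfalso
    have hs : ∀ i, u i = 0 ∧ v i = 1 := by
      intro i
      refine step1 _ _ (hu i) (hv i) ?_
      rw [← hd i, h, h']
    rw [(hs 0).1, (hs 1).2, (hs 2).1, (hs 3).2, (hs 4).1, (hs 5).2] at hc
    omega
  · exfalso
    have hs : ∀ i, u i = 1 ∧ v i = 0 := by
      intro i
      refine step2 _ _ (hu i) (hv i) ?_
      rw [← hd i, h, h']
    rw [(hs 0).1, (hs 1).2, (hs 2).1, (hs 3).2, (hs 4).1, (hs 5).2] at hc
    omega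
  · rw [h, h']

lemma arith (u v : Fin 6 → ℤ) (w : Fin 6 → Fin 6 → ℤ) (c : ℤ) (hu : ∀ i, u i = 0 ∨ u i = 1)
    (hv : ∀ i, v i = 0 ∨ v i = 1) (hw : ∀ i j, i ≠ j → w i j = 0 ∨ w i j = 1)
    (hsym : ∀ i j, w i j = w j i)
    (h1 : ∀ i j, i ≠ j → u i + v j + w i j = c) (h2 : w 0 1 + w 2 3 + w 4 5 = c) :
    c = 0 ∨ c = 3 := by
  have hd : ∀ j, u 0 - v 0 = u j - v j := by
    intro j
    by_cases hij : 0 = j
    · rw [hij]
    · have e1 := h1 0 j hij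
      have e2 := h1 j 0 (Ne.symm hij)
      have e3 := hsym 0 j
      omega
  have a1 := h1 0 1 (by decide)
  have a2 := h1 2 3 (by decide)
  have a3 := h1 4 5 (by decide)
  have hc0 : u 0 = v 0 := arith2 u v c hu hv hd (by omega)
  have hvu : ∀ j, v j = u j := by
    intro j
    have := hd j
    omega
  have hbound : ∀ i j, i ≠ j → u i + u j ≤ c ∧ c ≤ u i + u j + 1 := by
    intro i j hij
    have e1 := h1 i j hij
    have e2 := hw i j hij
    have e3 := hvu j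
    clear a1 a2 a3
    omega
  have e1 := hvu 1
  have e3 := hvu 3
  have e5 := hvu 5
  exact arith1 (u 0) (u 1) (u 2) (u 3) (u 4) (u 5) c (hu 0) (hu 1) (hu 2) (hu 3) (hu 4) (hu 5)
    (by omega) (hbound 0 1 (by decide)) (hbound 2 3 (by decide)) (hbound 4 5 (by decide))
    (hbound 0 2 (by decide)) (hbound 0 3 (by decide)) (hbound 1 2 (by decide))
    (hbound 1 3 (by decide)) (hbound 0 4 (by decide)) (hbound 0 5 (by decide))
    (hbound 1 4 (by decide)) (hbound 1 5 (by decide)) (hbound 2 4 (by decide))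
    (hbound 2 5 (by decide)) (hbound 3 4 (by decide)) (hbound 3 5 (by decide))

/-- index of `c_ij` -/
def cIdx (i j : Fin 6) : ℕ :=
  [[0, 12, 13, 14, 15, 16], [12, 0, 17, 18, 19, 20], [13, 17, 0, 21, 22, 23],
    [14, 18, 21, 0, 24, 25], [15, 19, 22, 24, 0, 26], [16, 20, 23, 25, 26, 0]].getD i.1 [] |>.getD j.1 0

lemma cIdx_lt (i j : Fin 6) : cIdx i j < 27 := by
  revert i j
  decide

lemma cIdx_symm (i j : Fin 6) : cIdx i j = cIdx j i := by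
  revert i j
  decide

lemma line_abc : ∀ i j : Fin 6, i ≠ j →
    (i.1, 6 + j.1, cIdx i j) ∈ linesL := by
  decide

/-- In `GQ(2,4)` a set meeting all lines in the same number of points is trivial. -/
lemma no_movoid (f : Fin 27 → ℤ) (h01 : ∀ x, f x = 0 ∨ f x = 1) (c : ℤ)
    (hc : ∀ g ∈ G, f (g 0) + f (g 7) + f (g 12) = c) : (∀ x, f x = 0) ∨ (∀ x, f x = 1) := by
  have hl : ∀ x y z : ℕ, ∀ hx : x < 27, ∀ hy : y < 27, ∀ hz : z < 27, (x, y, z) ∈ linesL →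
      f ⟨x, hx⟩ + f ⟨y, hy⟩ + f ⟨z, hz⟩ = c := by
    intro x y z hx hy hz hm
    obtain ⟨g, hg, h1, h2, h3⟩ := exists_G_line _ hm
    have e1 : g 0 = ⟨x, hx⟩ := Fin.ext h1
    have e2 : g 7 = ⟨y, hy⟩ := Fin.ext h2
    have e3 : g 12 = ⟨z, hz⟩ := Fin.ext h3
    rw [← e1, ← e2, ← e3]
    exact hc g hg
  have hrange : c = 0 ∨ c = 3 := by
    refine arith (fun i => f ⟨i.1, by omega⟩) (fun i => f ⟨6 + i.1, by omega⟩)
      (fun i j => f ⟨cIdx i j, cIdx_lt i j⟩) c (fun i => h01 _) (fun i => h01 _)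
      (fun i j _ => h01 _) ?_ ?_ ?_
    · intro i j
      simp only [cIdx_symm i j]
    · intro i j hij
      exact hl _ _ _ _ _ _ (line_abc i j hij)
    · exact hl 12 21 26 (by norm_num) (by norm_num) (by norm_num) (by decide)
  have hcover : ∀ x : Fin 27, ∃ p ∈ linesL, (p.1 < 27 ∧ p.2.1 < 27 ∧ p.2.2 < 27) ∧
      (p.1 = x.1 ∨ p.2.1 = x.1 ∨ p.2.2 = x.1) := by
    decide +kernel
  rcases hrange with hc0 | hc3
  · left
    intro x
    obtain ⟨⟨p, q, r⟩, hp, ⟨h1, h2, h3⟩, h4⟩ := hcover x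
    have e := hl p q r h1 h2 h3 hp
    have e1 := h01 ⟨p, h1⟩
    have e2 := h01 ⟨q, h2⟩
    have e3 := h01 ⟨r, h3⟩
    rcases h4 with h4 | h4 | h4
    · have : x = ⟨p, h1⟩ := Fin.ext h4.symm
      rw [this]
      omega
    · have : x = ⟨q, h2⟩ := Fin.ext h4.symm
      rw [this]
      omega
    · have : x = ⟨r, h3⟩ := Fin.ext h4.symm
      rw [this]
      omega
  · right
    intro x
    obtain ⟨⟨p, q, r⟩, hp, ⟨h1, h2, h3⟩, h4⟩ := hcover x
    have e := hl p q r h1 h2 h3 hp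
    have e1 := h01 ⟨p, h1⟩
    have e2 := h01 ⟨q, h2⟩
    have e3 := h01 ⟨r, h3⟩
    rcases h4 with h4 | h4 | h4
    · have : x = ⟨p, h1⟩ := Fin.ext h4.symm
      rw [this]
      omega
    · have : x = ⟨q, h2⟩ := Fin.ext h4.symm
      rw [this]
      omega
    · have : x = ⟨r, h3⟩ := Fin.ext h4.symm
      rw [this]
      omega

/-- If all sums `∑ y, a (g y) * b y`, `g ∈ G`, are equal, with `a, b` indicator functions, then `a`
or `b` is constant. -/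
lemma Const.trivial {a b : Fin 27 → ℤ} {k : ℤ} (h : Const a b k)
    (hk : (∑ x, a x) * (∑ x, b x) = 27 * k) (ha : ∀ x, a x = 0 ∨ a x = 1)
    (hb : ∀ x, b x = 0 ∨ b x = 1) :
    ((∀ x, a x = 0) ∨ (∀ x, a x = 1)) ∨ ((∀ x, b x = 0) ∨ (∀ x, b x = 1)) := by
  have key : ∀ g ∈ G, ∀ g' ∈ G,
      (9 * lineSum (a ∘ g) - ∑ x, a x) * (9 * lineSum (b ∘ g') - ∑ x, b x) = 0 := by
    intro g hg g' hg'
    have h1 := (h.comp hg hg').line (by
      rw [← hk]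
      congr 1
      · exact Equiv.sum_comp g a
      · exact Equiv.sum_comp g' b)
    have e1 : ∑ x, (a ∘ g) x = ∑ x, a x := Equiv.sum_comp g a
    have e2 : ∑ x, (b ∘ g') x = ∑ x, b x := Equiv.sum_comp g' b
    rw [e1, e2] at h1
    exact h1
  by_cases hA : ∀ g ∈ G, 9 * lineSum (a ∘ g) = ∑ x, a x
  · left
    have h1 : ∀ g ∈ G, lineSum (a ∘ g) = lineSum (a ∘ (1 : Equiv.Perm (Fin 27))) := by
      intro g hg
      have e1 := hA g hg
      have e2 := hA 1 G.one_mem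
      omega
    exact no_movoid a ha _ (fun g hg => h1 g hg)
  · right
    push Not at hA
    obtain ⟨g, hg, hne⟩ := hA
    have hB : ∀ g' ∈ G, 9 * lineSum (b ∘ g') = ∑ x, b x := by
      intro g' hg'
      rcases mul_eq_zero.1 (key g hg g' hg') with h1 | h1
      · exact absurd (sub_eq_zero.1 h1) hne
      · exact sub_eq_zero.1 h1
    have h1 : ∀ g ∈ G, lineSum (b ∘ g) = lineSum (b ∘ (1 : Equiv.Perm (Fin 27))) := by
      intro g hg
      have e1 := hB g hg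
      have e2 := hB 1 G.one_mem
      omega
    exact no_movoid b hb _ (fun g hg => h1 g hg)

/-- Indicator function of a finset, with integer values. -/
def ind (A : Finset (Fin 27)) (x : Fin 27) : ℤ := if x ∈ A then 1 else 0

lemma sum_ind (A : Finset (Fin 27)) : ∑ x, ind A x = A.card := by
  simp [ind]

lemma ind01 (A : Finset (Fin 27)) (x : Fin 27) : ind A x = 0 ∨ ind A x = 1 := by
  unfold ind
  split_ifs
  · right; rfl
  · left; rfl

lemma card_inter (A B : Finset (Fin 27)) (g : Equiv.Perm (Fin 27)) :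
    ((A ∩ B.image g).card : ℤ) = ∑ y, ind A (g y) * ind B y := by
  rw [← Equiv.sum_comp g⁻¹ (fun y => ind A (g y) * ind B y), ← sum_ind]
  apply Finset.sum_congr rfl
  intro x _
  have hx : x ∈ B.image g ↔ g⁻¹ x ∈ B := by
    rw [Finset.mem_image]
    constructor
    · rintro ⟨y, hy, rfl⟩
      simpa using hy
    · intro h
      exact ⟨g⁻¹ x, h, by simp⟩
  have hx2 : g (g⁻¹ x) = x := by simp
  simp only [ind, Finset.mem_inter, hx, hx2]
  by_cases h1 : x ∈ A <;> simp [h1]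

theorem stronglySeparating_G : StronglySeparating G := by
  intro A B hA hB _ k hk
  by_contra hcon
  push Not at hcon
  have hC : Const (ind A) (ind B) k := by
    intro g hg
    rw [← card_inter, hcon g hg]
  have hk' : (∑ x, ind A x) * (∑ x, ind B x) = 27 * (k : ℤ) := by
    rw [sum_ind, sum_ind, ← Nat.cast_mul, hk, Fintype.card_fin]
    push_cast
    ring
  have hA' : 1 < A.card ∧ A.card < 27 := hA
  have hB' : 1 < B.card ∧ B.card < 27 := hB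
  have h0 : ∀ X : Finset (Fin 27), 1 < X.card → ¬ ∀ x, ind X x = 0 := by
    intro X hX h
    have := sum_ind X
    rw [Finset.sum_congr rfl (fun x _ => h x)] at this
    simp at this
    omega
  have h1 : ∀ X : Finset (Fin 27), X.card < 27 → ¬ ∀ x, ind X x = 1 := by
    intro X hX h
    have := sum_ind X
    rw [Finset.sum_congr rfl (fun x _ => h x)] at this
    simp at this
    omega
  rcases hC.trivial hk' (ind01 A) (ind01 B) with (h | h) | (h | h)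
  · exact h0 A hA'.1 h
  · exact h1 A hA'.2 h
  · exact h0 B hB'.1 h
  · exact h1 B hB'.2 h

theorem transitive_G : MulAction.IsPretransitive G (Fin 27) := by
  have h0 : ∀ x : Fin 27, ∃ g ∈ G, g x = 0 := by
    intro x
    have hcov : ∀ x : Fin 27, ∃ l ∈ tabsT, tab l 0 = x ∨ tab l 7 = x ∨ tab l 12 = x := by
      decide +kernel
    have hcov2 : ∀ i : Fin 27, (i = 0 ∨ i = 7 ∨ i = 12) → ∃ l ∈ tabsH, tab l 0 = i := by
      decide +kernel
    have step : ∀ i : Fin 27, (i = 0 ∨ i = 7 ∨ i = 12) → ∃ g ∈ G, g i = 0 := by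
      intro i hi
      obtain ⟨l, hl, h⟩ := hcov2 i hi
      obtain ⟨g, hg, hgx⟩ := exists_of_tab (tab l) (tabsH_adj l hl)
      refine ⟨g⁻¹, G.inv_mem hg, ?_⟩
      rw [← h, ← hgx 0]
      simp
    obtain ⟨l, hl, h⟩ := hcov x
    obtain ⟨g, hg, hgx⟩ := exists_of_tab (tab l) (tabsT_adj l hl)
    have : ∃ i : Fin 27, (i = 0 ∨ i = 7 ∨ i = 12) ∧ g i = x := by
      rcases h with h | h | h
      · exact ⟨0, by simp, by rw [hgx, h]⟩
      · exact ⟨7, by simp, by rw [hgx, h]⟩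
      · exact ⟨12, by simp, by rw [hgx, h]⟩
    obtain ⟨i, hi, hix⟩ := this
    obtain ⟨g', hg', hgi⟩ := step i hi
    refine ⟨g' * g⁻¹, G.mul_mem hg' (G.inv_mem hg), ?_⟩
    rw [← hix]
    simp [hgi]
  constructor
  intro x y
  obtain ⟨g, hg, hx⟩ := h0 x
  obtain ⟨g', hg', hy⟩ := h0 y
  refine ⟨⟨g'⁻¹ * g, G.mul_mem (G.inv_mem hg') hg⟩, ?_⟩
  show (g'⁻¹ * g) x = y
  rw [Equiv.Perm.mul_apply, hx, ← hy]
  simp

/-- The map sending each `b_i` to `a_i` and fixing all other points. -/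
def tmap (x : Fin 27) : Fin 27 := if 6 ≤ x.1 ∧ x.1 < 12 then ⟨x.1 - 6, by omega⟩ else x

lemma tmap_triangles : ∀ x y : Fin 27, adj x y = true → ∀ z : Fin 27, adj y z = true → adj x z = true →
    (Finset.univ.filter fun w => tmap w = x ∨ tmap w = y ∨ tmap w = z).card ≤ 3 := by
  decide +kernel

theorem not_spreading_G : ¬ Spreading G := by
  intro h
  obtain ⟨g, hg, hlt⟩ := h {0, 7, 12} (by simp) (by decide) tmap (by
    intro hinj
    have : (6 : Fin 27) = 0 := hinj (by decide)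
    exact absurd this (by decide))
  have h1 : adj (g 0) (g 7) = true := by
    rw [hg]; decide
  have h2 : adj (g 7) (g 12) = true := by
    rw [hg]; decide
  have h3 : adj (g 0) (g 12) = true := by
    rw [hg]; decide
  have h4 := tmap_triangles _ _ h1 _ h2 h3
  have h5 : (Finset.univ.filter fun x => tmap x ∈ ({0, 7, 12} : Finset (Fin 27)).image g) =
      (Finset.univ.filter fun w => tmap w = g 0 ∨ tmap w = g 7 ∨ tmap w = g 12) := by
    ext w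
    simp
  rw [h5] at hlt
  have h6 : ({0, 7, 12} : Finset (Fin 27)).card = 3 := by decide
  omega

/-- Functions with sum zero on the whole set and on all lines. -/
def W6 : Submodule ℚ (Fin 27 → ℚ) where
  carrier := {f | ∑ x, f x = 0 ∧ ∀ x y z, adj x y = true → adj y z = true → adj x z = true →
    f x + f y + f z = 0}
  add_mem' := by
    intro f g hf hg
    refine ⟨?_, ?_⟩
    · simp only [Pi.add_apply, Finset.sum_add_distrib]
      rw [hf.1, hg.1, add_zero]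
    · intro x y z h1 h2 h3
      have e1 := hf.2 x y z h1 h2 h3
      have e2 := hg.2 x y z h1 h2 h3
      simp only [Pi.add_apply]
      linarith
  zero_mem' := by
    refine ⟨by simp, ?_⟩
    intro x y z _ _ _
    simp
  smul_mem' := by
    intro c f hf
    refine ⟨?_, ?_⟩
    · simp only [Pi.smul_apply, smul_eq_mul, ← Finset.mul_sum]
      rw [hf.1, mul_zero]
    · intro x y z h1 h2 h3
      have e1 := hf.2 x y z h1 h2 h3
      simp only [Pi.smul_apply, smul_eq_mul]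
      linear_combination c * e1

/-- Difference of the two halves of a double six. -/
def d6 (x : Fin 27) : ℤ := if x.1 < 6 then 1 else if x.1 < 12 then -1 else 0

theorem not_QI_G : ¬ QI G := by
  rintro ⟨-, h⟩
  rcases h W6 (fun f hf => hf.1) (by
    intro g hg f hf
    refine ⟨?_, ?_⟩
    · rw [← hf.1]
      exact Equiv.sum_comp g f
    · intro x y z h1 h2 h3
      exact hf.2 (g x) (g y) (g z) (by rw [hg]; exact h1) (by rw [hg]; exact h2)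
        (by rw [hg]; exact h3)) with h1 | h1
  · have hm : (fun x => (d6 x : ℚ)) ∈ W6 := by
      refine ⟨?_, ?_⟩
      · have : ∑ x, d6 x = 0 := by decide +kernel
        show ∑ x, (d6 x : ℚ) = 0
        exact_mod_cast this
      · have : ∀ x y : Fin 27, adj x y = true → ∀ z : Fin 27, adj y z = true → adj x z = true →
            d6 x + d6 y + d6 z = 0 := by decide +kernel
        intro x y z h1 h2 h3
        show (d6 x : ℚ) + d6 y + d6 z = 0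
        exact_mod_cast this x y h1 z h2 h3
    have := congrFun (h1 _ hm) 0
    simp [d6] at this
  · have hm : (fun x : Fin 27 => ((if x = 0 then 1 else if x = 1 then -1 else 0 : ℤ) : ℚ)) ∈ W6 := by
      apply h1
      have h2 : ∑ x : Fin 27, (if x = 0 then 1 else if x = 1 then -1 else 0 : ℤ) = 0 := by
        decide +kernel
      rw [← Int.cast_sum, h2, Int.cast_zero]
    have := hm.2 0 7 12 (by decide) (by decide) (by decide)
    simp at this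

end Pool.Agent.Helper78.Schlaefli
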