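import Mathlib

/-! Abstract nilCoxeter relations and the commutation of the row products. -/

namespace Pool.Agent.Helper78.Schub

section Abstract

variable {R E : Type*} [CommRing R] [Ring E] [Algebra R E]

/-- The nilCoxeter relations. -/
structure NilCox (u : ℕ → E) : Prop where
  sq : ∀ i, u i * u i = 0
  comm : ∀ i j, i + 2 ≤ j → u i * u j = u j * u i
  braid : ∀ i, u i * u (i + 1) * u i = u (i + 1) * u i * u (i + 1)

/-- `1 + x u_i`. -/
def hh (u : ℕ → E) (i : ℕ) (x : R) : E := 1 + x • u i

/-- `(1 + x u_j) (1 + x u_{j+1}) ⋯ (1 + x u_{j+m-1})`. -/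
def row (u : ℕ → E) (x : R) : ℕ → ℕ → E
  | _, 0 => 1
  | j, m + 1 => hh u j x * row u x (j + 1) m

variable {u : ℕ → E}

theorem hh_mul_neg (hu : NilCox u) (i : ℕ) (x : R) : hh u i (-x) * hh u i x = 1 := by
  simp only [hh, mul_add, add_mul, mul_one, one_mul, smul_mul_assoc, mul_smul_comm, hu.sq,
    smul_zero]
  module

theorem hh_key (hu : NilCox u) (i : ℕ) (x y : R) :
    hh u i x * hh u (i + 1) x * hh u i y * hh u (i + 1) (-x)
      = 1 + (x + y) • u i + (x * y) • (u (i + 1) * u i - u i * u (i + 1)) := by
  have hb := hu.braid i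
  have ha : u i * u i = 0 := hu.sq i
  have hbb : u (i + 1) * u (i + 1) = 0 := hu.sq (i + 1)
  set a := u i with hadef
  set b := u (i + 1) with hbdef
  have e1 : a * b * a * b = 0 := by
    rw [hb, mul_assoc, hbb, mul_zero]
  have e2 : b * a * b = a * b * a := hb.symm
  simp only [hh, ← hadef, ← hbdef]
  have : (1 + x • a) * (1 + x • b) * (1 + y • a) * (1 + -x • b)
      = 1 + (x + y) • a + (x * y) • (b * a - a * b)
        + (x * y) • (a * a) - (x * x) • (b * b) - (x * x * x) • (a * b * b)
        - (x * x * y) • (b * a * b) - (x * x * y) • (a * a * b) + (x * x * y) • (a * b * a)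
        - (x * x * x * y) • (a * b * a * b) := by
    simp only [mul_add, add_mul, mul_one, one_mul, smul_mul_assoc, mul_smul_comm,
      neg_smul, mul_neg, mul_assoc, smul_sub]
    module
  rw [this, e1, e2, ha, hbb, mul_assoc a b b, hbb]
  simp only [zero_mul, mul_zero, smul_zero]
  abel

theorem hh_comm_of_lt (hu : NilCox u) {i j : ℕ} (h : i + 2 ≤ j) (x y : R) :
    hh u i x * hh u j y = hh u j y * hh u i x := by
  simp only [hh, mul_add, add_mul, mul_one, one_mul, smul_mul_assoc, mul_smul_comm,
    hu.comm i j h]
  module

theorem u_comm_row (hu : NilCox u) (i : ℕ) (x : R) (m : ℕ) :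
    ∀ j, i + 2 ≤ j → u i * row u x j m = row u x j m * u i := by
  induction m with
  | zero => intro j _; simp [row]
  | succ m ih =>
    intro j hj
    rw [row, ← mul_assoc]
    have h1 : u i * hh u j x = hh u j x * u i := by
      simp only [hh, mul_add, add_mul, mul_one, one_mul, smul_mul_assoc, mul_smul_comm,
        hu.comm i j hj]
    rw [h1, mul_assoc, ih (j + 1) (by omega), mul_assoc]

theorem hh_comm_row (hu : NilCox u) (i : ℕ) (x y : R) (m : ℕ) (j : ℕ) (hj : i + 2 ≤ j) :
    hh u i y * row u x j m = row u x j m * hh u i y := by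
  simp only [hh, mul_add, add_mul, mul_one, one_mul, smul_mul_assoc, mul_smul_comm,
    u_comm_row hu i x m j hj]

theorem row_comm (hu : NilCox u) (x y : R) (m : ℕ) :
    ∀ j, row u x j m * row u y j m = row u y j m * row u x j m := by
  induction m with
  | zero => intro j; simp [row]
  | succ m ih =>
    intro j
    cases m with
    | zero =>
      simp only [row, mul_one]
      simp only [hh, mul_add, add_mul, mul_one, one_mul, smul_mul_assoc, mul_smul_comm, hu.sq,
        smul_zero]
      module
    | succ m =>
      have key : ∀ x y : R, row u x j (m + 2) * row u y j (m + 2)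
          = (1 + (x + y) • u j + (x * y) • (u (j + 1) * u j - u j * u (j + 1)))
            * (row u x (j + 1) (m + 1) * row u y (j + 1) (m + 1)) := by
        intro x y
        rw [← hh_key hu j x y]
        have e1 : row u x j (m + 2) = hh u j x * (hh u (j + 1) x * row u x (j + 2) m) := rfl
        have e2 : row u y j (m + 2) = hh u j y * row u y (j + 1) (m + 1) := rfl
        have e3 : row u x (j + 2) m = hh u (j + 1) (-x) * row u x (j + 1) (m + 1) := by
          have : row u x (j + 1) (m + 1) = hh u (j + 1) x * row u x (j + 2) m := rfl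
          rw [this, ← mul_assoc, hh_mul_neg hu, one_mul]
        have e4 := hh_comm_row hu j x y m (j + 2) le_rfl
        rw [e1, e2]
        calc hh u j x * (hh u (j + 1) x * row u x (j + 2) m)
              * (hh u j y * row u y (j + 1) (m + 1))
            = hh u j x * hh u (j + 1) x * (row u x (j + 2) m * hh u j y)
              * row u y (j + 1) (m + 1) := by simp only [mul_assoc]
          _ = hh u j x * hh u (j + 1) x * (hh u j y * row u x (j + 2) m)
              * row u y (j + 1) (m + 1) := by rw [e4]
          _ = hh u j x * hh u (j + 1) x * hh u j y * hh u (j + 1) (-x)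
              * (row u x (j + 1) (m + 1) * row u y (j + 1) (m + 1)) := by
                rw [e3]; simp only [mul_assoc]
      have k1 := key x y
      have k2 := key y x
      have k3 := ih (j + 1)
      show row u x j (m + 2) * row u y j (m + 2) = row u y j (m + 2) * row u x j (m + 2)
      rw [k1, k2, k3, add_comm x y, mul_comm x y]

end Abstract

end Pool.Agent.Helper78.Schub
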