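import Mathlib

/-! Arithmetic of packed vectors of natural numbers. -/

namespace Pool.Agent.Helper78.Schub

/-- `a 0 + b * a 1 + ... + b ^ (n-1) * a (n-1)` -/
def pk (b : ℕ) : ℕ → (ℕ → ℕ) → ℕ
  | 0, _ => 0
  | n + 1, a => a 0 + b * pk b n (fun k => a (k + 1))

theorem pk_succ (b n : ℕ) (a : ℕ → ℕ) : pk b (n + 1) a = a 0 + b * pk b n (fun k => a (k + 1)) :=
  rfl

theorem pk_congr (b : ℕ) (n : ℕ) : ∀ (a a' : ℕ → ℕ), (∀ k < n, a k = a' k) →
    pk b n a = pk b n a' := by
  induction n with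
  | zero => intro a a' _; rfl
  | succ n ih =>
    intro a a' h
    rw [pk_succ, pk_succ, h 0 (by omega), ih _ (fun k => a' (k + 1)) (fun k hk => h (k + 1) (by omega))]

theorem mul_pk (b : ℕ) (n c : ℕ) : ∀ (a : ℕ → ℕ), c * pk b n a = pk b n (fun k => c * a k) := by
  induction n with
  | zero => intro a; rfl
  | succ n ih =>
    intro a
    rw [pk_succ, pk_succ, ← ih]
    ring

theorem pk_mul (b : ℕ) (n c : ℕ) (a : ℕ → ℕ) : pk b n a * c = pk b n (fun k => a k * c) := by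
  rw [mul_comm, mul_pk]
  apply pk_congr
  intro k _
  ring

theorem pk_add (b : ℕ) (n : ℕ) : ∀ (a c : ℕ → ℕ),
    pk b n a + pk b n c = pk b n (fun k => a k + c k) := by
  induction n with
  | zero => intro a c; rfl
  | succ n ih =>
    intro a c
    rw [pk_succ, pk_succ, pk_succ, ← ih]
    ring

theorem pk_mono (b : ℕ) (n : ℕ) : ∀ (a c : ℕ → ℕ), (∀ k < n, a k ≤ c k) →
    pk b n a ≤ pk b n c := by
  induction n with
  | zero => intro a c _; exact le_rfl
  | succ n ih =>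
    intro a c h
    rw [pk_succ, pk_succ]
    have h1 := h 0 (by omega)
    have h2 := ih (fun k => a (k + 1)) (fun k => c (k + 1)) (fun k hk => h (k + 1) (by omega))
    have h3 := Nat.mul_le_mul_left b h2
    omega

theorem pk_sub (b : ℕ) (n : ℕ) (a c : ℕ → ℕ) (h : ∀ k < n, c k ≤ a k) :
    pk b n a - pk b n c = pk b n (fun k => a k - c k) := by
  have h1 : pk b n (fun k => a k - c k) + pk b n c = pk b n a := by
    rw [pk_add]
    apply pk_congr
    intro k hk
    have := h k hk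
    omega
  omega

theorem pk_lt (b : ℕ) (n : ℕ) : ∀ (a : ℕ → ℕ), (∀ k < n, a k < b) → pk b n a < b ^ n := by
  induction n with
  | zero => intro a _; simp [pk]
  | succ n ih =>
    intro a h
    rw [pk_succ]
    have h1 := h 0 (by omega)
    have h2 := ih (fun k => a (k + 1)) (fun k hk => h (k + 1) (by omega))
    have h3 : b * (pk b n (fun k => a (k + 1)) + 1) ≤ b * b ^ n := Nat.mul_le_mul_left b h2
    rw [pow_succ']
    rw [mul_add, mul_one] at h3
    omega

theorem pk_div (b : ℕ) (n : ℕ) (a : ℕ → ℕ) (h : a 0 < b) :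
    pk b (n + 1) a / b = pk b n (fun k => a (k + 1)) := by
  rw [pk_succ, Nat.add_mul_div_left _ _ (by omega), Nat.div_eq_of_lt h, zero_add]

theorem pk_mod1 (b : ℕ) (n : ℕ) (a : ℕ → ℕ) (h : a 0 < b) :
    pk b (n + 1) a % b = a 0 := by
  rw [pk_succ, Nat.add_mul_mod_self_left, Nat.mod_eq_of_lt h]

theorem pk_shift (b : ℕ) (m : ℕ) : ∀ (n : ℕ) (a : ℕ → ℕ), m ≤ n → (∀ k < n, a k < b) →
    pk b n a / b ^ m = pk b (n - m) (fun k => a (k + m)) := by
  induction m with
  | zero =>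
    intro n a _ _
    simp
  | succ m ih =>
    intro n a hn h
    obtain ⟨n', rfl⟩ : ∃ n', n = n' + 1 := ⟨n - 1, by omega⟩
    rw [pow_succ', ← Nat.div_div_eq_div_mul, pk_div b n' a (h 0 (by omega)),
      ih n' _ (by omega) (fun k hk => h (k + 1) (by omega))]
    have : n' + 1 - (m + 1) = n' - m := by omega
    rw [this]
    apply pk_congr
    intro k _
    congr 1

theorem pk_mod (b : ℕ) (m : ℕ) : ∀ (n : ℕ) (a : ℕ → ℕ), m ≤ n → (∀ k < n, a k < b) →
    pk b n a % b ^ m = pk b m a := by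
  induction m with
  | zero =>
    intro n a _ _
    simp [pk, Nat.mod_one]
  | succ m ih =>
    intro n a hn h
    obtain ⟨n', rfl⟩ : ∃ n', n = n' + 1 := ⟨n - 1, by omega⟩
    rw [pow_succ', Nat.mod_mul, pk_mod1 b n' a (h 0 (by omega)), pk_div b n' a (h 0 (by omega)),
      ih n' _ (by omega) (fun k hk => h (k + 1) (by omega)), pk_succ]

theorem pk_inj (b : ℕ) (n : ℕ) : ∀ (a c : ℕ → ℕ), (∀ k < n, a k < b) → (∀ k < n, c k < b) →
    pk b n a = pk b n c → ∀ k < n, a k = c k := by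
  induction n with
  | zero => intro a c _ _ _ k hk; omega
  | succ n ih =>
    intro a c ha hc h k hk
    have h0 : a 0 = c 0 := by
      rw [← pk_mod1 b n a (ha 0 (by omega)), ← pk_mod1 b n c (hc 0 (by omega)), h]
    have h1 : pk b n (fun k => a (k + 1)) = pk b n (fun k => c (k + 1)) := by
      rw [← pk_div b n a (ha 0 (by omega)), ← pk_div b n c (hc 0 (by omega)), h]
    cases k with
    | zero => exact h0
    | succ k =>
      exact ih (fun k => a (k + 1)) (fun k => c (k + 1)) (fun k hk => ha (k + 1) (by omega))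
        (fun k hk => hc (k + 1) (by omega)) h1 k (by omega)

theorem land_split (F x y : ℕ) :
    x &&& y = ((x % 2 ^ F) &&& (y % 2 ^ F)) + 2 ^ F * ((x / 2 ^ F) &&& (y / 2 ^ F)) := by
  rw [← Nat.and_mod_two_pow, ← Nat.and_div_two_pow]
  exact (Nat.mod_add_div _ _).symm

theorem land_lt (F x y : ℕ) (h : y < 2 ^ F) : x &&& y < 2 ^ F :=
  lt_of_le_of_lt Nat.and_le_right h

theorem pk_land (F : ℕ) (n : ℕ) : ∀ (a c : ℕ → ℕ), (∀ k < n, a k < 2 ^ F) →
    (∀ k < n, c k < 2 ^ F) →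
    pk (2 ^ F) n a &&& pk (2 ^ F) n c = pk (2 ^ F) n (fun k => a k &&& c k) := by
  induction n with
  | zero => intro a c _ _; simp [pk]
  | succ n ih =>
    intro a c ha hc
    rw [land_split F, pk_mod1 _ n a (ha 0 (by omega)), pk_mod1 _ n c (hc 0 (by omega)),
      pk_div _ n a (ha 0 (by omega)), pk_div _ n c (hc 0 (by omega)),
      ih _ _ (fun k hk => ha (k + 1) (by omega)) (fun k hk => hc (k + 1) (by omega)), pk_succ]

theorem pk_mask (F c : ℕ) (hc : c ≤ F) (n : ℕ) : ∀ x : ℕ,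
    x &&& pk (2 ^ F) n (fun _ => 2 ^ c - 1) = pk (2 ^ F) n (fun k => x / (2 ^ F) ^ k % 2 ^ c) := by
  have hlt : 2 ^ c - 1 < 2 ^ F := by
    have h1 : 0 < 2 ^ c := by positivity
    have h2 : 2 ^ c ≤ 2 ^ F := Nat.pow_le_pow_right (by norm_num) hc
    omega
  induction n with
  | zero => intro x; simp [pk]
  | succ n ih =>
    intro x
    rw [land_split F, pk_mod1 _ n _ hlt, pk_div _ n _ hlt, ih, pk_succ]
    congr 1
    · rw [Nat.and_two_pow_sub_one_eq_mod, pow_zero, Nat.div_one]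
      exact Nat.mod_mod_of_dvd _ (pow_dvd_pow 2 hc)
    · congr 1
      apply pk_congr
      intro k _
      rw [pow_succ', Nat.div_div_eq_div_mul]

theorem vle_core (F : ℕ) (n : ℕ) (X Y : ℕ → ℕ) (h : ℕ) (h1 : ∀ k < n, X k ≤ Y k + h)
    (h2 : ∀ k < n, Y k + h < 2 ^ F)
    (hh : (pk (2 ^ F) n Y + pk (2 ^ F) n (fun _ => h) - pk (2 ^ F) n X)
      &&& pk (2 ^ F) n (fun _ => h) = pk (2 ^ F) n (fun _ => h)) :
    ∀ k < n, (Y k + h - X k) &&& h = h := by
  intro k hk
  have hb : ∀ k < n, Y k + h - X k < 2 ^ F := fun k hk => by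
    have := h2 k hk; omega
  have hb' : ∀ k < n, h < 2 ^ F := fun k hk => by
    have := h2 k hk; omega
  rw [pk_add, pk_sub _ _ _ _ h1, pk_land F n _ _ hb hb'] at hh
  have := pk_inj _ n _ _ (fun k hk => land_lt F _ _ (hb' k hk)) hb' hh k hk
  exact this

theorem le_of_land (x y h : ℕ) (h0 : 0 < h) (hh : (y + h - x) &&& h = h) : x ≤ y := by
  have h1 : (y + h - x) &&& h ≤ y + h - x := Nat.and_le_left
  rw [hh] at h1
  omega

end Pool.Agent.Helper78.Schub
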