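import Pool.Agent.Helper78.SchubChkDefs
import Pool.Agent.Helper78.SchubPack

/-! Soundness of the packed verification. -/

namespace Pool.Agent.Helper78.Schub

theorem fc_eq {α : Type} (n : ℕ) (k : ℕ → α) : fc n k = k n := by cases n <;> rfl

theorem ifb_eq {α : Type} (c : Bool) (x y : α) : ifb c x y = if c = true then x else y := by
  cases c <;> rfl

theorem cnt_nil (a : ℕ) : cnt a [] = 0 := rfl

theorem cnt_cons (a x : ℕ) (t : List ℕ) :
    cnt a (x :: t) = (if x < a then 1 else 0) + cnt a t := by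
  have : cnt a (x :: t) = ifb (Nat.blt x a) (Nat.succ (cnt a t)) (cnt a t) := rfl
  rw [this, ifb_eq]
  by_cases h : x < a
  · have h' : Nat.blt x a = true := by simpa [Nat.blt_eq] using h
    rw [if_pos h', if_pos h]; omega
  · have h' : ¬ Nat.blt x a = true := by simpa [Nat.blt_eq] using h
    rw [if_neg h', if_neg h]; omega

theorem code_nil (L : ℕ) : code [] L = 0 := rfl

theorem code_cons (a : ℕ) (t : List ℕ) (L : ℕ) :
    code (a :: t) L = cnt a t + L * code t (L - 1) := rfl

theorem ins_nil (b L : ℕ) : ins b [] L = 0 := rfl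

theorem ins_cons (b a : ℕ) (t : List ℕ) (L : ℕ) :
    ins b (a :: t) L = (if b < a then 1 else 0) + L * ins b t (L - 1) := by
  have : ins b (a :: t) L = ifb (Nat.blt b a) (Nat.succ (L * ins b t (L - 1)))
    (L * ins b t (L - 1)) := rfl
  rw [this, ifb_eq]
  by_cases h : b < a
  · have h' : Nat.blt b a = true := by simpa [Nat.blt_eq] using h
    rw [if_pos h', if_pos h]; omega
  · have h' : ¬ Nat.blt b a = true := by simpa [Nat.blt_eq] using h
    rw [if_neg h', if_neg h]; omega

theorem cnt_append (a z : ℕ) (t : List ℕ) :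
    cnt a (t ++ [z]) = cnt a t + (if z < a then 1 else 0) := by
  induction t with
  | nil => simp [cnt_cons, cnt_nil]
  | cons x t ih =>
    rw [List.cons_append, cnt_cons, cnt_cons, ih]
    omega

theorem code_append (t : List ℕ) (z : ℕ) : ∀ L, code (t ++ [z]) L = code t L + ins z t L := by
  induction t with
  | nil => intro L; simp [code_cons, code_nil, cnt_nil, ins_nil]
  | cons x t ih =>
    intro L
    rw [List.cons_append, code_cons, code_cons, ins_cons, cnt_append, ih]
    ring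

theorem cnt_map (f : ℕ → ℕ) (a : ℕ) (t : List ℕ) (h : ∀ x ∈ t, (x < a ↔ f x < f a)) :
    cnt (f a) (t.map f) = cnt a t := by
  induction t with
  | nil => rfl
  | cons x t ih =>
    rw [List.map_cons, cnt_cons, cnt_cons, ih (fun y hy => h y (List.mem_cons_of_mem _ hy))]
    have := h x (List.mem_cons_self ..)
    by_cases hx : x < a
    · rw [if_pos hx, if_pos (this.1 hx)]
    · rw [if_neg hx, if_neg (fun h' => hx (this.2 h'))]

theorem code_map (f : ℕ → ℕ) (t : List ℕ) (h : ∀ x ∈ t, ∀ y ∈ t, (x < y ↔ f x < f y)) :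
    ∀ L, code (t.map f) L = code t L := by
  induction t with
  | nil => intro L; rfl
  | cons x t ih =>
    intro L
    rw [List.map_cons, code_cons, code_cons, ih (fun y hy z hz => h y (List.mem_cons_of_mem _ hy) z
      (List.mem_cons_of_mem _ hz)), cnt_map f x t]
    intro y hy
    exact h y (List.mem_cons_of_mem _ hy) x (List.mem_cons_self ..)

theorem ins_map (f : ℕ → ℕ) (b : ℕ) (t : List ℕ) (h : ∀ x ∈ t, (b < x ↔ f b < f x)) :
    ∀ L, ins (f b) (t.map f) L = ins b t L := by
  induction t with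
  | nil => intro L; rfl
  | cons x t ih =>
    intro L
    rw [List.map_cons, ins_cons, ins_cons, ih (fun y hy => h y (List.mem_cons_of_mem _ hy))]
    have := h x (List.mem_cons_self ..)
    by_cases hx : b < x
    · rw [if_pos hx, if_pos (this.1 hx)]
    · rw [if_neg hx, if_neg (fun h' => hx (this.2 h'))]

theorem pkr_eq (b : ℕ) (f : ℕ → ℕ) (n : ℕ) : ∀ j, pkr b f n j = pk b n (fun k => f (j + k)) := by
  induction n with
  | zero => intro j; rfl
  | succ n ih =>
    intro j
    have : pkr b f (n + 1) j = f j + b * pkr b f n (j + 1) := rfl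
    rw [this, ih, pk_succ]
    congr 2
    apply pk_congr
    intro k _
    congr 1
    omega

theorem allR_true {α : Type} (l : List α) (f : α → Bool) (h : allR l f = true) :
    ∀ x ∈ l, f x = true := by
  induction l with
  | nil => intro x hx; simp at hx
  | cons a t ih =>
    have e : allR (a :: t) f = ifb (f a) (allR t f) false := rfl
    rw [e, ifb_eq] at h
    by_cases ha : f a = true
    · rw [if_pos ha] at h
      intro x hx
      rcases List.mem_cons.1 hx with rfl | hx
      · exact ha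
      · exact ih h x hx
    · rw [if_neg ha] at h
      exact absurd h (by simp)

theorem mem_remove (x y : ℕ) (l : List ℕ) : y ∈ remove x l ↔ y ∈ l ∧ y ≠ x := by
  induction l with
  | nil => simp [remove]
  | cons a t ih =>
    have e : remove x (a :: t) = ifb (Nat.beq x a) (remove x t) (a :: remove x t) := rfl
    rw [e, ifb_eq]
    by_cases h : x = a
    · have h' : Nat.beq x a = true := Nat.beq_eq ▸ h
      rw [if_pos h', ih, List.mem_cons]
      constructor
      · rintro ⟨h1, h2⟩; exact ⟨Or.inr h1, h2⟩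
      · rintro ⟨h1 | h1, h2⟩
        · exact absurd (h1.trans h.symm) h2
        · exact ⟨h1, h2⟩
    · have h' : ¬ Nat.beq x a = true := by
        intro h''; exact h (Nat.eq_of_beq_eq_true h'')
      rw [if_neg h', List.mem_cons, ih, List.mem_cons]
      constructor
      · rintro (h1 | ⟨h1, h2⟩)
        · exact ⟨Or.inl h1, fun h3 => h (h3.symm.trans h1)⟩
        · exact ⟨Or.inr h1, h2⟩
      · rintro ⟨h1 | h1, h2⟩
        · exact Or.inl h1
        · exact Or.inr ⟨h1, h2⟩

theorem sel_true (l : List ℕ) (f : List ℕ → ℕ → Bool) (h : sel l f = true) (x : ℕ) (hx : x ∈ l) :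
    f (remove x l) x = true := allR_true l _ h x hx

/-! ### the packed comparison -/

theorem B1_eq : B1 = 2 ^ 44 := by unfold B1; norm_num
set_option exponentiation.threshold 500 in
theorem B2_eq : B2 = 2 ^ 396 := rfl
theorem B12 : (2 : ℕ) ^ 396 = (2 ^ 44) ^ 9 := by rw [← pow_mul]

theorem h9_eq : h9 = pk (2 ^ 44) 9 (fun _ => 2 ^ 43) := by
  unfold h9; rw [pkr_eq, B1_eq]; norm_num

theorem h8_eq : h8 = pk (2 ^ 396) 8 (fun _ => h9) := by
  unfold h8; rw [pkr_eq, B2_eq]

theorem h9_lt : h9 < 2 ^ 396 := by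
  rw [h9_eq, B12]
  apply pk_lt
  intro k _
  norm_num

theorem vchk_sound (n : ℕ) (v v' w q1 q2 τ : ℕ → ℕ)
    (hv : ∀ i < 9, v i ≤ 2 ^ 20) (hv' : ∀ i < 9, v' i ≤ 2 ^ 20) (hw : ∀ i < 9, w i ≤ 2 ^ 14)
    (hq1 : ∀ j < n, q1 j ≤ 168 * 2 ^ 14) (hq2 : ∀ j < n, q2 j ≤ 168 * 2 ^ 14)
    (hτ : ∀ j < n, τ j ≤ 2 ^ 20)
    (H : vchk (pk (2 ^ 44) 9 v) (pk (2 ^ 44) 9 v') (pk (2 ^ 44) 9 w) (pk (2 ^ 396) n q1)
      (pk (2 ^ 396) n q2) (pk (2 ^ 396) n τ) (pk (2 ^ 396) n (fun _ => h9)) = true) :
    ∀ j < n, ∀ i < 9, v i * q1 j + v' i * q2 j ≤ w i * (275 * τ j) := by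
  have H' : (pk (2 ^ 44) 9 w * (275 * pk (2 ^ 396) n τ) + pk (2 ^ 396) n (fun _ => h9)
      - (pk (2 ^ 44) 9 v * pk (2 ^ 396) n q1 + pk (2 ^ 44) 9 v' * pk (2 ^ 396) n q2))
      &&& pk (2 ^ 396) n (fun _ => h9) = pk (2 ^ 396) n (fun _ => h9) :=
    Nat.eq_of_beq_eq_true H
  rw [mul_pk, mul_pk, mul_pk, mul_pk,
    pk_add (2 ^ 396) n (fun k => pk (2 ^ 44) 9 v * q1 k)] at H'
  have hx : ∀ j < n, ∀ i < 9, v i * q1 j + v' i * q2 j < 2 ^ 43 := by
    intro j hj i hi
    have h1 := Nat.mul_le_mul (hv i hi) (hq1 j hj)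
    have h2 := Nat.mul_le_mul (hv' i hi) (hq2 j hj)
    norm_num at h1 h2 ⊢
    omega
  have hy : ∀ j < n, ∀ i < 9, w i * (275 * τ j) < 2 ^ 43 := by
    intro j hj i hi
    have h1 := Nat.mul_le_mul (hw i hi) (Nat.mul_le_mul_left 275 (hτ j hj))
    norm_num at h1 ⊢
    omega
  have eX : ∀ j, pk (2 ^ 44) 9 v * q1 j + pk (2 ^ 44) 9 v' * q2 j
      = pk (2 ^ 44) 9 (fun i => v i * q1 j + v' i * q2 j) := by
    intro j
    rw [pk_mul, pk_mul, pk_add]
  have eY : ∀ j, pk (2 ^ 44) 9 w * (275 * τ j) = pk (2 ^ 44) 9 (fun i => w i * (275 * τ j)) := by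
    intro j
    rw [pk_mul]
  have key := vle_core 396 n (fun j => pk (2 ^ 44) 9 v * q1 j + pk (2 ^ 44) 9 v' * q2 j)
    (fun j => pk (2 ^ 44) 9 w * (275 * τ j)) h9 (by
      intro j hj
      simp only [eX]
      have : pk (2 ^ 44) 9 (fun i => v i * q1 j + v' i * q2 j) ≤ h9 := by
        rw [h9_eq]
        apply pk_mono
        intro i hi
        exact (hx j hj i hi).le
      omega) (by
      intro j hj
      simp only [eY]
      rw [h9_eq, pk_add, B12]
      apply pk_lt
      intro i hi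
      have := hy j hj i hi
      norm_num at this ⊢
      omega) H'
  intro j hj i hi
  have k1 := key j hj
  simp only [eX, eY] at k1
  rw [h9_eq] at k1
  have k2 := vle_core 44 9 _ _ (2 ^ 43) (by
      intro i hi
      have := hx j hj i hi
      show v i * q1 j + v' i * q2 j ≤ w i * (275 * τ j) + 2 ^ 43
      omega) (by
      intro i hi
      have := hy j hj i hi
      show w i * (275 * τ j) + 2 ^ 43 < 2 ^ 44
      norm_num at this ⊢
      omega) k1 i hi
  exact le_of_land _ _ _ (by norm_num) k2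

end Pool.Agent.Helper78.Schub
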