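import Pool.Agent.Helper78.SchubTab

/-! Kernel-friendly verification of the local inequalities: definitions. -/

namespace Pool.Agent.Helper78.Schub

/-- forced application -/
noncomputable def fc {α : Type} (n : ℕ) (k : ℕ → α) : α :=
  @Nat.rec (fun _ => α) (k 0) (fun m _ => k (Nat.succ m)) n

/-- if-then-else -/
noncomputable def ifb {α : Type} (c : Bool) (x y : α) : α := @Bool.rec (fun _ => α) y x c

/-- list lookup -/
noncomputable def nth {α : Type} (d : α) (l : List α) : ℕ → α :=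
  @List.rec α (fun _ => ℕ → α) (fun _ => d)
    (fun x _ r k => @Nat.rec (fun _ => α) x (fun m _ => r m) k) l

/-- block of 72 fields -/
noncomputable def blk (q : ℕ) : ℕ :=
  fc (Nat.div q 360) fun a => fc (Nat.mod (Nat.div q 20) 18) fun b => fc (Nat.mod q 20) fun c =>
    nth 0 (nth [] (nth [] tks a) b) c

/-- number of entries of `t` below `a` -/
noncomputable def cnt (a : ℕ) (t : List ℕ) : ℕ :=
  @List.rec ℕ (fun _ => ℕ) 0 (fun x _ r => ifb (Nat.blt x a) (Nat.succ r) r) t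

/-- order code of a list -/
noncomputable def code (l : List ℕ) : ℕ → ℕ :=
  @List.rec ℕ (fun _ => ℕ → ℕ) (fun _ => 0)
    (fun a t r L => Nat.add (cnt a t) (Nat.mul L (r (Nat.pred L)))) l

/-- contribution of a last element to the code -/
noncomputable def ins (b : ℕ) (l : List ℕ) : ℕ → ℕ :=
  @List.rec ℕ (fun _ => ℕ → ℕ) (fun _ => 0)
    (fun a _ r L => ifb (Nat.blt b a) (Nat.succ (Nat.mul L (r (Nat.pred L))))
      (Nat.mul L (r (Nat.pred L)))) l

/-- packing of the values `f j, f (j+1), …, f (j+n-1)` in base `b` -/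
noncomputable def pkr (b : ℕ) (f : ℕ → ℕ) (n : ℕ) : ℕ → ℕ :=
  @Nat.rec (fun _ => ℕ → ℕ) (fun _ => 0)
    (fun _ s j => Nat.add (f j) (Nat.mul b (s (Nat.succ j)))) n

/-- `2 ^ 44` -/
noncomputable def B1 : ℕ := 17592186044416
/-- `2 ^ 396` -/
noncomputable def B2 : ℕ := Nat.pow 2 396

noncomputable def m9 : ℕ := pkr B1 (fun _ => 1048575) 9 0
noncomputable def o9 : ℕ := pkr B1 (fun _ => 1) 9 0
noncomputable def h9 : ℕ := pkr B1 (fun _ => 8796093022208) 9 0
noncomputable def m8 : ℕ := pkr B2 (fun _ => 1048575) 8 0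
noncomputable def o8 : ℕ := pkr B2 (fun _ => 1) 8 0
noncomputable def h8 : ℕ := pkr B2 (fun _ => h9) 8 0

/-- carrier potential from the code of a 9-window -/
noncomputable def kap (c : ℕ) : ℕ :=
  Nat.succ (Nat.mod (Nat.shiftRight (blk (Nat.div c 72)) (Nat.mul 44 (Nat.mod c 72))) 1048576)

/-- window potential from the code of a 5-window -/
noncomputable def psi (c : ℕ) : ℕ := Nat.succ (Nat.mod (Nat.shiftRight tq (Nat.mul 14 c)) 16384)

/-- block of 9 truncated fields -/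
noncomputable def am (c : ℕ) : ℕ :=
  fc (Nat.div c 8) fun q => fc (Nat.mod c 8) fun r =>
    Nat.land (Nat.shiftRight (blk q) (Nat.mul 396 r)) m9

/-- window potentials for the nine possible positions of the first letter, packed -/
noncomputable def wvec (r1 r2 r3 r4 : ℕ) : ℕ :=
  fc (Nat.mul 5 (code [r1, r2, r3, r4] 4)) fun e =>
    pkr B1 (fun i => fc (Nat.add (cnt i [r1, r2, r3, r4]) e) psi) 9 0

noncomputable def allR {α : Type} (l : List α) (f : α → Bool) : Bool :=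
  @List.rec α (fun _ => Bool) true (fun x _ r => ifb (f x) r false) l

noncomputable def remove (x : ℕ) (l : List ℕ) : List ℕ :=
  @List.rec ℕ (fun _ => List ℕ) [] (fun y _ r => ifb (Nat.beq x y) r (y :: r)) l

noncomputable def sel (l : List ℕ) (f : List ℕ → ℕ → Bool) : Bool :=
  allR l fun x => f (remove x l) x

/-- packed comparison -/
noncomputable def vchk (v v' w q1 q2 t h : ℕ) : Bool :=
  Nat.beq (Nat.land (Nat.sub (Nat.add (Nat.mul w (Nat.mul 275 t)) h)
    (Nat.add (Nat.mul v q1) (Nat.mul v' q2))) h) h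

/-- ranks -/
noncomputable def rk (g t : ℕ) : ℕ :=
  Nat.div (ifb (Nat.blt (Nat.mul 2 g) t) (Nat.succ t) t) 2

noncomputable def tvec (a g : ℕ) : ℕ :=
  Nat.add (Nat.land (Nat.shiftRight a (Nat.mul 44 g)) m8) o8

noncomputable def chk2 (v v' w q1 q2 t t' g : ℕ) : Bool :=
  fc (Nat.mul 396 g) fun s =>
  ifb (vchk v v' w (Nat.shiftRight q1 s) (Nat.shiftRight q2 s) (Nat.shiftRight t s)
    (Nat.shiftRight h8 s))
  (fc (Nat.pow 2 (Nat.add s 396)) fun m =>
    vchk v v' w (Nat.mod q1 m) (Nat.mod q2 m) (Nat.mod t' m) (Nat.mod h8 m)) false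

noncomputable def chkg (t0 t1 t2 b b' a q1 q2 : ℕ) (asc : Bool) (g : ℕ) : Bool :=
  fc (Nat.add (Nat.land (Nat.shiftRight b (Nat.mul 396 g)) m9) o9) fun v =>
  fc (ifb asc (Nat.add (Nat.land (Nat.shiftRight b' (Nat.mul 396 g)) m9) o9) 0) fun v' =>
  fc (rk g t0) fun r2 => fc (rk g t1) fun r3 => fc (rk g t2) fun r4 =>
  fc (wvec g r2 r3 r4) fun w =>
  fc (tvec a g) fun t => fc (tvec a (Nat.succ g)) fun t' =>
  chk2 v v' w q1 q2 t t' g

noncomputable def leaf (t0 t1 t2 t3 t4 t5 t6 : ℕ) : Bool :=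
  fc (code [t0, t1, t2, t3, t4, t5, t6] 7) fun c7 =>
  fc (code [t0, t1, t3, t2, t4, t5, t6] 7) fun d7 =>
  fc (code [t0, t1, t2, t3, t4, t5, t6] 8) fun c8 =>
  fc (code [t3, t4, t5, t6] 5) fun f1 =>
  fc (code [t2, t4, t5, t6] 5) fun f2 =>
  fc (pkr B2 (fun j => am (Nat.add c8 (ins (Nat.mul 2 j) [t0, t1, t2, t3, t4, t5, t6] 8))) 8 0)
    fun a =>
  fc (pkr B2 (fun j => Nat.mul 168 (fc (Nat.add f1 (ins (Nat.mul 2 j) [t3, t4, t5, t6] 5)) psi)) 8 0)
    fun q1 =>
  fc (pkr B2 (fun j => Nat.mul 168 (fc (Nat.add f2 (ins (Nat.mul 2 j) [t2, t4, t5, t6] 5)) psi)) 8 0)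
    fun q2 =>
  fc (blk c7) fun b => fc (blk d7) fun b' =>
  allR [0, 1, 2, 3, 4, 5, 6, 7] fun g => chkg t0 t1 t2 b b' a q1 q2 (Nat.blt t2 t3) g

noncomputable def test1 : Bool :=
  sel [3, 5, 7, 9, 11] fun l2 t2 => sel l2 fun l3 t3 => sel l3 fun l4 t4 => sel l4 fun l5 t5 =>
    sel l5 fun _ t6 => leaf 1 t2 13 t3 t4 t5 t6

end Pool.Agent.Helper78.Schub
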