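import Mathlib

/-!
Schubert polynomials of `S_n` through divided differences, and the maximal principal evaluation.
-/

namespace Pool.Agent.Helper78.Schub

open MvPolynomial

/-- The simple transposition exchanging the positions `i` and `i + 1` (counted from `0`). -/
def adj {n : ℕ} (i : ℕ) (h : i + 1 < n) : Equiv.Perm (Fin n) :=
  Equiv.swap ⟨i, Nat.lt_of_succ_lt h⟩ ⟨i + 1, h⟩

/-- Number of inversions of a permutation. -/
def inv {n : ℕ} (w : Equiv.Perm (Fin n)) : ℕ :=
  (Finset.univ.filter fun p : Fin n × Fin n => p.1 < p.2 ∧ w p.2 < w p.1).card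

/-- `S` is the family of Schubert polynomials of `S_n` (variables `x_0, …, x_{n-1}`):
`S w₀ = x_0^{n-1} x_1^{n-2} ⋯`, and `S (w s_i) = ∂_i (S w)` whenever `ℓ (w s_i) < ℓ w`;
the divided difference equation `g = ∂_i f` is written `(x_i - x_{i+1}) g = f - s_i f`. -/
structure IsSchubertFamily (n : ℕ) (S : Equiv.Perm (Fin n) → MvPolynomial (Fin n) ℤ) : Prop where
  top : S Fin.revPerm = ∏ i : Fin n, X i ^ (n - 1 - (i : ℕ))
  step : ∀ (w : Equiv.Perm (Fin n)) (i : ℕ) (h : i + 1 < n), inv (w * adj i h) < inv w →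
    (X ⟨i, Nat.lt_of_succ_lt h⟩ - X ⟨i + 1, h⟩) * S (w * adj i h)
      = S w - rename (adj i h) (S w)

/-- The maximal principal evaluation `max_w S_w(1, …, 1)` of a family indexed by `S_n`. -/
noncomputable def maxEval (n : ℕ) (S : Equiv.Perm (Fin n) → MvPolynomial (Fin n) ℤ) : ℤ :=
  Finset.univ.sup' Finset.univ_nonempty (fun w => eval (fun _ => (1 : ℤ)) (S w))

end Pool.Agent.Helper78.Schub
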