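import Pool.Agent.Helper78.SchubLeaf

/-! Verification of all middle patterns by kernel computation. -/

namespace Pool.Agent.Helper78.Schub

/-- all middle patterns starting with `t0` -/
noncomputable def FA (t0 : ℕ) (l0 : List ℕ) : Bool :=
  sel l0 fun l1 t1 => sel l1 fun l2 t2 => sel l2 fun l3 t3 => sel l3 fun l4 t4 =>
    sel l4 fun l5 t5 => sel l5 fun _ t6 => leaf t0 t1 t2 t3 t4 t5 t6

set_option maxRecDepth 100000

theorem E1 : FA 1 [3, 5, 7, 9, 11, 13] = true := by decide +kernel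
theorem E3 : FA 3 [1, 5, 7, 9, 11, 13] = true := by decide +kernel
theorem E5 : FA 5 [1, 3, 7, 9, 11, 13] = true := by decide +kernel
theorem E7 : FA 7 [1, 3, 5, 9, 11, 13] = true := by decide +kernel
theorem E9 : FA 9 [1, 3, 5, 7, 11, 13] = true := by decide +kernel
theorem E11 : FA 11 [1, 3, 5, 7, 9, 13] = true := by decide +kernel
theorem E13 : FA 13 [1, 3, 5, 7, 9, 11] = true := by decide +kernel

theorem FA_sound (t0 : ℕ) (l : List ℕ) (h : FA t0 l = true) (t1 t2 t3 t4 t5 t6 : ℕ)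
    (h1 : t1 ∈ l) (h2 : t2 ∈ l) (h3 : t3 ∈ l) (h4 : t4 ∈ l) (h5 : t5 ∈ l) (h6 : t6 ∈ l)
    (hd : [t1, t2, t3, t4, t5, t6].Nodup) : leaf t0 t1 t2 t3 t4 t5 t6 = true := by
  simp only [List.nodup_cons, List.mem_cons, List.not_mem_nil, or_false, not_or] at hd
  obtain ⟨⟨n12, n13, n14, n15, n16⟩, ⟨n23, n24, n25, n26⟩, ⟨n34, n35, n36⟩, ⟨n45, n46⟩, n56, -⟩ := hd
  unfold FA at h
  have k1 := sel_true _ _ h t1 h1
  have k2 := sel_true _ _ k1 t2 (by simp only [mem_remove]; exact ⟨h2, Ne.symm n12⟩)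
  have k3 := sel_true _ _ k2 t3 (by
    simp only [mem_remove]; exact ⟨⟨h3, Ne.symm n13⟩, Ne.symm n23⟩)
  have k4 := sel_true _ _ k3 t4 (by
    simp only [mem_remove]; exact ⟨⟨⟨h4, Ne.symm n14⟩, Ne.symm n24⟩, Ne.symm n34⟩)
  have k5 := sel_true _ _ k4 t5 (by
    simp only [mem_remove]
    exact ⟨⟨⟨⟨h5, Ne.symm n15⟩, Ne.symm n25⟩, Ne.symm n35⟩, Ne.symm n45⟩)
  have k6 := sel_true _ _ k5 t6 (by
    simp only [mem_remove]
    exact ⟨⟨⟨⟨⟨h6, Ne.symm n16⟩, Ne.symm n26⟩, Ne.symm n36⟩, Ne.symm n46⟩, Ne.symm n56⟩)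
  exact k6

theorem all_leaf (t0 t1 t2 t3 t4 t5 t6 : ℕ)
    (hodd : ∀ x ∈ [t0, t1, t2, t3, t4, t5, t6], x ∈ [1, 3, 5, 7, 9, 11, 13])
    (hd : [t0, t1, t2, t3, t4, t5, t6].Nodup) : leaf t0 t1 t2 t3 t4 t5 t6 = true := by
  have o0 := hodd t0 (by simp)
  have o1 := hodd t1 (by simp)
  have o2 := hodd t2 (by simp)
  have o3 := hodd t3 (by simp)
  have o4 := hodd t4 (by simp)
  have o5 := hodd t5 (by simp)
  have o6 := hodd t6 (by simp)
  rw [List.nodup_cons] at hd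
  obtain ⟨hn, hd⟩ := hd
  simp only [List.mem_cons, List.not_mem_nil, or_false, not_or] at hn o0
  obtain ⟨n1, n2, n3, n4, n5, n6⟩ := hn
  have key : ∀ l : List ℕ, (∀ x ∈ [1, 3, 5, 7, 9, 11, 13], x ≠ t0 → x ∈ l) → FA t0 l = true →
      leaf t0 t1 t2 t3 t4 t5 t6 = true := by
    intro l hl hF
    exact FA_sound t0 l hF t1 t2 t3 t4 t5 t6 (hl _ o1 (Ne.symm n1)) (hl _ o2 (Ne.symm n2))
      (hl _ o3 (Ne.symm n3)) (hl _ o4 (Ne.symm n4)) (hl _ o5 (Ne.symm n5)) (hl _ o6 (Ne.symm n6)) hd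
  rcases o0 with rfl | rfl | rfl | rfl | rfl | rfl | rfl
  · exact key _ (by simp) E1
  · exact key _ (by simp) E3
  · exact key _ (by simp) E5
  · exact key _ (by simp) E7
  · exact key _ (by simp) E9
  · exact key _ (by simp) E11
  · exact key _ (by simp) E13

end Pool.Agent.Helper78.Schub
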