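import Pool.Agent.Helper78.SchubChk

/-! Soundness of the verification of one middle pattern. -/

namespace Pool.Agent.Helper78.Schub

theorem shiftRight_def (x k : ℕ) : Nat.shiftRight x k = x / 2 ^ k := Nat.shiftRight_eq_div_pow x k

theorem land_def (x y : ℕ) : Nat.land x y = x &&& y := rfl

set_option exponentiation.threshold 500 in
theorem lt396 {x : ℕ} (h : x < 2 ^ 44) : x < 2 ^ 396 :=
  lt_of_lt_of_le h (Nat.pow_le_pow_right (by norm_num) (by norm_num))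

theorem kap_pos (c : ℕ) : 1 ≤ kap c := Nat.succ_le_succ (Nat.zero_le _)

theorem kap_le (c : ℕ) : kap c ≤ 2 ^ 20 := by
  have : kap c = (Nat.shiftRight (blk (c / 72)) (44 * (c % 72))) % 1048576 + 1 := rfl
  rw [this]
  have := Nat.mod_lt (Nat.shiftRight (blk (c / 72)) (44 * (c % 72))) (show 1048576 > 0 by norm_num)
  norm_num
  omega

theorem psi_pos (c : ℕ) : 1 ≤ psi c := Nat.succ_le_succ (Nat.zero_le _)

theorem psi_le (c : ℕ) : psi c ≤ 2 ^ 14 := by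
  have : psi c = (Nat.shiftRight tq (14 * c)) % 16384 + 1 := rfl
  rw [this]
  have := Nat.mod_lt (Nat.shiftRight tq (14 * c)) (show 16384 > 0 by norm_num)
  norm_num
  omega

theorem kap_eq (c g i : ℕ) (hg : g < 8) (hi : i < 9) :
    kap (i + 9 * (g + 8 * c)) = blk c / 2 ^ (396 * g) / 2 ^ (44 * i) % 2 ^ 20 + 1 := by
  have e : kap (i + 9 * (g + 8 * c)) = (Nat.shiftRight (blk ((i + 9 * (g + 8 * c)) / 72))
    (44 * ((i + 9 * (g + 8 * c)) % 72))) % 1048576 + 1 := rfl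
  have e1 : (i + 9 * (g + 8 * c)) / 72 = c := by omega
  have e2 : (i + 9 * (g + 8 * c)) % 72 = i + 9 * g := by omega
  rw [e, e1, e2, shiftRight_def, Nat.div_div_eq_div_mul, ← pow_add]
  have e3 : 44 * (i + 9 * g) = 396 * g + 44 * i := by ring
  rw [e3, show (1048576 : ℕ) = 2 ^ 20 by norm_num]

theorem m9_eq : m9 = pk (2 ^ 44) 9 (fun _ => 2 ^ 20 - 1) := by
  unfold m9; rw [pkr_eq, B1_eq]; norm_num

theorem o9_eq : o9 = pk (2 ^ 44) 9 (fun _ => 1) := by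
  unfold o9; rw [pkr_eq, B1_eq]

theorem m8_eq : m8 = pk (2 ^ 396) 8 (fun _ => 2 ^ 20 - 1) := by
  unfold m8; rw [pkr_eq, B2_eq]; norm_num

theorem o8_eq : o8 = pk (2 ^ 396) 8 (fun _ => 1) := by
  unfold o8; rw [pkr_eq, B2_eq]

theorem land_m9 (x : ℕ) : Nat.land x m9 = pk (2 ^ 44) 9 (fun i => x / 2 ^ (44 * i) % 2 ^ 20) := by
  rw [land_def, m9_eq, pk_mask 44 20 (by norm_num)]
  apply pk_congr
  intro k _
  rw [← pow_mul]

theorem land_m8 (x : ℕ) : Nat.land x m8 = pk (2 ^ 396) 8 (fun i => x / 2 ^ (396 * i) % 2 ^ 20) := by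
  rw [land_def, m8_eq, pk_mask 396 20 (by norm_num)]
  apply pk_congr
  intro k _
  rw [← pow_mul]

theorem vvec_eq (c g : ℕ) (hg : g < 8) :
    Nat.add (Nat.land (Nat.shiftRight (blk c) (Nat.mul 396 g)) m9) o9
      = pk (2 ^ 44) 9 (fun i => kap (i + 9 * (g + 8 * c))) := by
  have e : Nat.add (Nat.land (Nat.shiftRight (blk c) (Nat.mul 396 g)) m9) o9
    = Nat.land (Nat.shiftRight (blk c) (396 * g)) m9 + o9 := rfl
  rw [e, land_m9, o9_eq, pk_add, shiftRight_def]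
  apply pk_congr
  intro i hi
  rw [kap_eq c g i hg hi]

theorem am_eq (c : ℕ) : am c = pk (2 ^ 44) 9 (fun i => kap (i + 9 * c) - 1) := by
  unfold am
  rw [fc_eq, fc_eq]
  have e : Nat.land (Nat.shiftRight (blk (Nat.div c 8)) (Nat.mul 396 (Nat.mod c 8))) m9
    = Nat.land (Nat.shiftRight (blk (c / 8)) (396 * (c % 8))) m9 := rfl
  rw [e, land_m9, shiftRight_def]
  apply pk_congr
  intro i hi
  have e2 : c = c % 8 + 8 * (c / 8) := (Nat.mod_add_div c 8).symm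
  have e3 := kap_eq (c / 8) (c % 8) i (Nat.mod_lt _ (by norm_num)) hi
  rw [← e2] at e3
  rw [e3, Nat.add_sub_cancel]

theorem pk_field (F c n : ℕ) (hc : c ≤ F) (a : ℕ → ℕ) (h : ∀ k < n, a k < 2 ^ F) (j : ℕ)
    (hj : j < n) : pk (2 ^ F) n a / (2 ^ F) ^ j % 2 ^ c = a j % 2 ^ c := by
  rw [pk_shift _ j n a hj.le h]
  obtain ⟨m, hm⟩ : ∃ m, n - j = m + 1 := ⟨n - j - 1, by omega⟩
  rw [hm, pk_succ, zero_add, Nat.add_mod]
  have : 2 ^ F * pk (2 ^ F) m (fun k => a (k + 1 + j)) % 2 ^ c = 0 :=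
    Nat.mod_eq_zero_of_dvd (Dvd.dvd.mul_right (pow_dvd_pow 2 hc) _)
  rw [this, add_zero, Nat.mod_mod]

theorem tvec_eq (A : ℕ → ℕ) (f : ℕ → ℕ → ℕ) (hA : ∀ j < 8, A j = pk (2 ^ 44) 9 (f j))
    (hf : ∀ j < 8, ∀ i < 9, f j i < 2 ^ 20) (g : ℕ) (hg : g < 9) :
    tvec (pk (2 ^ 396) 8 A) g = pk (2 ^ 396) 8 (fun j => f j g + 1) := by
  have hA' : ∀ j < 8, A j < 2 ^ 396 := by
    intro j hj
    rw [hA j hj, B12]
    apply pk_lt
    intro i hi
    exact lt_of_lt_of_le (hf j hj i hi) (by norm_num)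
  have e : tvec (pk (2 ^ 396) 8 A) g
    = Nat.land (Nat.shiftRight (pk (2 ^ 396) 8 A) (44 * g)) m8 + o8 := rfl
  rw [e, land_m8, o8_eq, pk_add, shiftRight_def]
  apply pk_congr
  intro j hj
  congr 1
  rw [Nat.div_div_eq_div_mul, mul_comm, ← Nat.div_div_eq_div_mul, pow_mul,
    pk_shift _ j 8 A hj.le hA']
  obtain ⟨m, hm⟩ : ∃ m, 8 - j = m + 1 := ⟨8 - j - 1, by omega⟩
  rw [hm, pk_succ, zero_add]
  have e1 : (2 : ℕ) ^ 396 = 2 ^ (44 * g) * 2 ^ (396 - 44 * g) := by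
    rw [← pow_add]; congr 1; omega
  rw [e1, mul_assoc, Nat.add_mul_div_left _ _ (by positivity), Nat.add_mod]
  have e2 : 2 ^ (396 - 44 * g) * pk (2 ^ (44 * g) * 2 ^ (396 - 44 * g)) m
      (fun k => A (k + 1 + j)) % 2 ^ 20 = 0 :=
    Nat.mod_eq_zero_of_dvd (Dvd.dvd.mul_right (pow_dvd_pow 2 (by omega)) _)
  rw [e2, add_zero, Nat.mod_mod, hA j hj, pow_mul, pk_field 44 20 9 (by norm_num) (f j) _ g hg,
    Nat.mod_eq_of_lt (hf j hj g hg)]
  intro k hk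
  exact lt_of_lt_of_le (hf j hj k hk) (by norm_num)

theorem chk2_sound (v v' w q1 q2 τ τ' : ℕ → ℕ)
    (hv : ∀ i < 9, v i ≤ 2 ^ 20) (hv' : ∀ i < 9, v' i ≤ 2 ^ 20) (hw : ∀ i < 9, w i ≤ 2 ^ 14)
    (hq1 : ∀ j < 8, q1 j ≤ 168 * 2 ^ 14) (hq2 : ∀ j < 8, q2 j ≤ 168 * 2 ^ 14)
    (hτ : ∀ j < 8, τ j ≤ 2 ^ 20) (hτ' : ∀ j < 8, τ' j ≤ 2 ^ 20) (g : ℕ) (hg : g < 8)
    (H : chk2 (pk (2 ^ 44) 9 v) (pk (2 ^ 44) 9 v') (pk (2 ^ 44) 9 w) (pk (2 ^ 396) 8 q1)
      (pk (2 ^ 396) 8 q2) (pk (2 ^ 396) 8 τ) (pk (2 ^ 396) 8 τ') g = true) :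
    (∀ j, g ≤ j → j < 8 → ∀ i < 9, v i * q1 j + v' i * q2 j ≤ w i * (275 * τ j)) ∧
    (∀ j, j ≤ g → ∀ i < 9, v i * q1 j + v' i * q2 j ≤ w i * (275 * τ' j)) := by
  have b1 : ∀ j < 8, q1 j < 2 ^ 396 := fun j hj =>
    lt396 (lt_of_le_of_lt (hq1 j hj) (by norm_num))
  have b2 : ∀ j < 8, q2 j < 2 ^ 396 := fun j hj =>
    lt396 (lt_of_le_of_lt (hq2 j hj) (by norm_num))
  have b3 : ∀ j < 8, τ j < 2 ^ 396 := fun j hj =>
    lt396 (lt_of_le_of_lt (hτ j hj) (by norm_num))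
  have b4 : ∀ j < 8, τ' j < 2 ^ 396 := fun j hj =>
    lt396 (lt_of_le_of_lt (hτ' j hj) (by norm_num))
  have b5 : ∀ j < 8, (fun _ : ℕ => h9) j < 2 ^ 396 := fun j _ => h9_lt
  unfold chk2 at H
  rw [fc_eq, ifb_eq, fc_eq] at H
  split_ifs at H with H1
  have sh : ∀ a : ℕ → ℕ, (∀ j < 8, a j < 2 ^ 396) →
      Nat.shiftRight (pk (2 ^ 396) 8 a) (Nat.mul 396 g)
        = pk (2 ^ 396) (8 - g) (fun k => a (k + g)) := by
    intro a ha
    rw [shiftRight_def]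
    show pk (2 ^ 396) 8 a / 2 ^ (396 * g) = _
    rw [pow_mul, pk_shift _ g 8 a hg.le ha]
  have md : ∀ a : ℕ → ℕ, (∀ j < 8, a j < 2 ^ 396) →
      Nat.mod (pk (2 ^ 396) 8 a) (Nat.pow 2 (Nat.add (Nat.mul 396 g) 396))
        = pk (2 ^ 396) (g + 1) a := by
    intro a ha
    show pk (2 ^ 396) 8 a % 2 ^ (396 * g + 396) = _
    have : 396 * g + 396 = 396 * (g + 1) := by ring
    rw [this, pow_mul, pk_mod _ (g + 1) 8 a (by omega) ha]
  rw [sh q1 b1, sh q2 b2, sh τ b3, h8_eq, sh _ b5] at H1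
  rw [md q1 b1, md q2 b2, md τ' b4, h8_eq, md _ b5] at H
  have s1 := vchk_sound (8 - g) v v' w _ _ _ hv hv' hw
    (fun j hj => hq1 (j + g) (by omega)) (fun j hj => hq2 (j + g) (by omega))
    (fun j hj => hτ (j + g) (by omega)) H1
  have s2 := vchk_sound (g + 1) v v' w _ _ _ hv hv' hw
    (fun j hj => hq1 j (by omega)) (fun j hj => hq2 j (by omega))
    (fun j hj => hτ' j (by omega)) H
  constructor
  · intro j hj1 hj2 i hi
    have := s1 (j - g) (by omega) i hi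
    rw [Nat.sub_add_cancel hj1] at this
    exact this
  · intro j hj i hi
    exact s2 j (by omega) i hi

theorem wvec_eq (r1 r2 r3 r4 : ℕ) :
    wvec r1 r2 r3 r4 = pk (2 ^ 44) 9
      (fun i => psi (cnt i [r1, r2, r3, r4] + 5 * code [r1, r2, r3, r4] 4)) := by
  unfold wvec
  rw [fc_eq, pkr_eq, B1_eq]
  apply pk_congr
  intro i _
  rw [fc_eq, zero_add]
  rfl

theorem qvec_eq (f : ℕ) (u : List ℕ) :
    pkr B2 (fun j => Nat.mul 168 (psi (Nat.add f (ins (Nat.mul 2 j) u 5)))) 8 0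
      = pk (2 ^ 396) 8 (fun j => 168 * psi (f + ins (2 * j) u 5)) := by
  rw [pkr_eq, B2_eq]
  apply pk_congr
  intro i _
  rw [zero_add]
  rfl

theorem avec_eq (c : ℕ) (t : List ℕ) :
    pkr B2 (fun j => am (Nat.add c (ins (Nat.mul 2 j) t 8))) 8 0
      = pk (2 ^ 396) 8 (fun j => am (c + ins (2 * j) t 8)) := by
  rw [pkr_eq, B2_eq]
  apply pk_congr
  intro i _
  rw [zero_add]
  rfl

theorem leaf_aux (a b a' b' c d : ℕ) (p : Prop) [Decidable p]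
    (h : a * (168 * b) + (if p then a' else 0) * (168 * b') ≤ d * (275 * c)) :
    168 * (a * b + (if p then a' * b' else 0)) ≤ 275 * (c * d) := by
  have e1 : 168 * (a * b + (if p then a' * b' else 0))
      = a * (168 * b) + (if p then a' else 0) * (168 * b') := by
    split_ifs <;> ring
  have e2 : 275 * (c * d) = d * (275 * c) := by ring
  rw [e1, e2]
  exact h

theorem leaf_sound (t0 t1 t2 t3 t4 t5 t6 : ℕ) (h : leaf t0 t1 t2 t3 t4 t5 t6 = true)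
    (g : ℕ) (hg : g < 8) (j : ℕ) (hj : j < 8) (i : ℕ) (hi : i < 9) (δ : ℕ)
    (hδ : (δ = 0 ∧ g ≤ j) ∨ (δ = 1 ∧ j ≤ g)) :
    168 * (kap (i + 9 * (g + 8 * code [t0, t1, t2, t3, t4, t5, t6] 7))
        * psi (code [t3, t4, t5, t6] 5 + ins (2 * j) [t3, t4, t5, t6] 5)
      + (if t2 < t3 then kap (i + 9 * (g + 8 * code [t0, t1, t3, t2, t4, t5, t6] 7))
        * psi (code [t2, t4, t5, t6] 5 + ins (2 * j) [t2, t4, t5, t6] 5) else 0))
    ≤ 275 * (kap (g + δ + 9 * (code [t0, t1, t2, t3, t4, t5, t6] 8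
          + ins (2 * j) [t0, t1, t2, t3, t4, t5, t6] 8))
        * psi (cnt i [g, rk g t0, rk g t1, rk g t2]
          + 5 * code [g, rk g t0, rk g t1, rk g t2] 4)) := by
  unfold leaf at h
  simp only [fc_eq] at h
  have hg' : g ∈ [0, 1, 2, 3, 4, 5, 6, 7] := by
    simp only [List.mem_cons, List.not_mem_nil, or_false]; omega
  have h1 := allR_true _ _ h g hg'
  unfold chkg at h1
  simp only [fc_eq] at h1
  rw [avec_eq, qvec_eq, qvec_eq, vvec_eq _ g hg, vvec_eq _ g hg, ifb_eq, wvec_eq] at h1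
  have hf : ∀ j < 8, ∀ i < 9, (fun j i => kap (i + 9 * (code [t0, t1, t2, t3, t4, t5, t6] 8
      + ins (2 * j) [t0, t1, t2, t3, t4, t5, t6] 8)) - 1) j i < 2 ^ 20 := by
    intro j _ i _
    show kap _ - 1 < 2 ^ 20
    have := kap_le (i + 9 * (code [t0, t1, t2, t3, t4, t5, t6] 8
      + ins (2 * j) [t0, t1, t2, t3, t4, t5, t6] 8))
    have := kap_pos (i + 9 * (code [t0, t1, t2, t3, t4, t5, t6] 8
      + ins (2 * j) [t0, t1, t2, t3, t4, t5, t6] 8))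
    omega
  rw [tvec_eq _ _ (fun j _ => am_eq _) hf g (by omega),
    tvec_eq _ _ (fun j _ => am_eq _) hf (Nat.succ g) (by
      have : Nat.succ g = g + 1 := rfl
      omega)] at h1
  set asc : Bool := Nat.blt t2 t3 with hasc
  have e0 : (if asc = true then pk (2 ^ 44) 9
      (fun i => kap (i + 9 * (g + 8 * code [t0, t1, t3, t2, t4, t5, t6] 7))) else 0)
      = pk (2 ^ 44) 9 (fun i => if asc = true then
        kap (i + 9 * (g + 8 * code [t0, t1, t3, t2, t4, t5, t6] 7)) else 0) := by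
    by_cases ha : asc = true
    · simp only [if_pos ha]
    · simp only [if_neg ha]
      simp [pk]
  rw [e0] at h1
  have hbd : ∀ c : ℕ, 168 * psi c ≤ 168 * 2 ^ 14 := fun c => Nat.mul_le_mul_left _ (psi_le c)
  have h2 := chk2_sound _ _ _ _ _ _ _ (fun i _ => kap_le _) (fun i _ => by
      show (if asc = true then _ else 0) ≤ _
      split_ifs
      · exact kap_le _
      · exact Nat.zero_le _) (fun i _ => psi_le _) (fun j _ => hbd _) (fun j _ => hbd _)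
      (fun j _ => by
        show kap _ - 1 + 1 ≤ _
        rw [Nat.sub_add_cancel (kap_pos _)]
        exact kap_le _) (fun j _ => by
        show kap _ - 1 + 1 ≤ _
        rw [Nat.sub_add_cancel (kap_pos _)]
        exact kap_le _) g hg h1
  have hasc' : asc = true ↔ t2 < t3 := by rw [hasc, Nat.blt_eq]
  simp only [Nat.sub_add_cancel (kap_pos _), hasc'] at h2
  rcases hδ with ⟨rfl, hgj⟩ | ⟨rfl, hjg⟩
  · have h3 := h2.1 j hgj hj i hi
    exact leaf_aux _ _ _ _ _ _ _ h3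
  · have h3 := h2.2 j hjg i hi
    exact leaf_aux _ _ _ _ _ _ _ h3

end Pool.Agent.Helper78.Schub
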