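import Pool.Agent.Helper78.SchubEnum
import Pool.Agent.Helper78.SchubPot

/-! The local potential of `S_n` given by the verified tables. -/

namespace Pool.Agent.Helper78.Schub

/-- rank-doubling standardization with respect to `T` -/
noncomputable def st (T : List ℕ) (x : ℕ) : ℕ := cnt x T + cnt (x + 1) T

theorem cnt_mono (T : List ℕ) {x y : ℕ} (h : x ≤ y) : cnt x T ≤ cnt y T := by
  induction T with
  | nil => exact le_rfl
  | cons a t ih =>
    rw [cnt_cons, cnt_cons]
    split_ifs <;> omega

theorem cnt_lt (T : List ℕ) {x y : ℕ} (h : x < y) (hx : x ∈ T) : cnt x T < cnt y T := by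
  induction T with
  | nil => simp at hx
  | cons a t ih =>
    rw [cnt_cons, cnt_cons]
    have hm := cnt_mono t h.le
    rcases List.mem_cons.1 hx with rfl | hx
    · rw [if_neg (lt_irrefl _), if_pos h]; omega
    · have := ih hx
      split_ifs <;> omega

theorem cnt_le_length (T : List ℕ) (x : ℕ) : cnt x T ≤ T.length := by
  induction T with
  | nil => exact le_rfl
  | cons a t ih =>
    rw [cnt_cons, List.length_cons]
    split_ifs <;> omega

theorem cnt_succ_not_mem (T : List ℕ) (x : ℕ) (hx : x ∉ T) : cnt (x + 1) T = cnt x T := by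
  induction T with
  | nil => rfl
  | cons a t ih =>
    simp only [List.mem_cons, not_or] at hx
    rw [cnt_cons, cnt_cons, ih hx.2]
    have : a ≠ x := Ne.symm hx.1
    split_ifs <;> omega

theorem cnt_succ_mem (T : List ℕ) (x : ℕ) (hx : x ∈ T) (hd : T.Nodup) :
    cnt (x + 1) T = cnt x T + 1 := by
  induction T with
  | nil => simp at hx
  | cons a t ih =>
    rw [List.nodup_cons] at hd
    rw [cnt_cons, cnt_cons]
    rcases List.mem_cons.1 hx with rfl | hx
    · rw [cnt_succ_not_mem t x hd.1, if_pos (by omega), if_neg (lt_irrefl _)]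
      omega
    · rw [ih hx hd.2]
      have : a ≠ x := fun e => hd.1 (e ▸ hx)
      split_ifs <;> omega

theorem st_lt_left (T : List ℕ) {x y : ℕ} (hx : x ∈ T) : x < y ↔ st T x < st T y := by
  unfold st
  constructor
  · intro h
    have h1 := cnt_lt T h hx
    have h2 := cnt_mono T (show x + 1 ≤ y by omega)
    have h3 := cnt_mono T (show y ≤ y + 1 by omega)
    omega
  · intro h
    by_contra hn
    push Not at hn
    have h1 := cnt_mono T hn
    have h2 := cnt_mono T (Nat.succ_le_succ hn)
    simp only [Nat.succ_eq_add_one] at h2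
    omega

theorem st_lt_right (T : List ℕ) {x y : ℕ} (hy : y ∈ T) : x < y ↔ st T x < st T y := by
  unfold st
  constructor
  · intro h
    have h1 := cnt_mono T (show x + 1 ≤ y by omega)
    have h2 := cnt_lt T (show y < y + 1 by omega) hy
    have h3 := cnt_mono T (show x ≤ x + 1 by omega)
    omega
  · intro h
    by_contra hn
    push Not at hn
    have h1 := cnt_mono T hn
    have h2 := cnt_mono T (Nat.succ_le_succ hn)
    simp only [Nat.succ_eq_add_one] at h2
    omega

attribute [local irreducible] kap psi code cnt ins blk st leaf rk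

/-- The inequality for one window of ten distinct numbers. -/
theorem window_ineq (y0 y1 y2 y3 y4 y5 y6 y7 y8 y9 : ℕ)
    (hd : [y0, y1, y2, y3, y4, y5, y6, y7, y8, y9].Nodup) :
    168 * (kap (code [y0, y1, y2, y3, y4, y5, y6, y7, y8] 9) * psi (code [y5, y6, y7, y8, y9] 5)
      + (if y4 < y5 then kap (code [y0, y1, y2, y3, y5, y4, y6, y7, y8] 9)
          * psi (code [y4, y6, y7, y8, y9] 5) else 0))
    ≤ 275 * (kap (code [y1, y2, y3, y4, y5, y6, y7, y8, y9] 9)
        * psi (code [y0, y1, y2, y3, y4] 5)) := by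
  set T := [y2, y3, y4, y5, y6, y7, y8] with hT
  have hdT : T.Nodup := by
    simp only [List.nodup_cons, List.mem_cons, List.not_mem_nil, or_false, not_or,
      not_false_eq_true, List.nodup_nil, and_true, hT] at hd ⊢
    tauto
  have h9T : y9 ∉ T := by
    simp only [List.nodup_cons, List.mem_cons, List.not_mem_nil, or_false, not_or,
      not_false_eq_true, List.nodup_nil, and_true, hT] at hd ⊢
    obtain ⟨-, -, ⟨_, _, _, _, _, _, h⟩, ⟨_, _, _, _, _, h3⟩, ⟨_, _, _, _, h4⟩, ⟨_, _, _, h5⟩,
      ⟨_, _, h6⟩, ⟨_, h7⟩, h8⟩ := hd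
    exact ⟨Ne.symm h, Ne.symm h3, Ne.symm h4, Ne.symm h5, Ne.symm h6, Ne.symm h7, Ne.symm h8⟩
  have h1T : y1 ∉ T := by
    simp only [List.nodup_cons, List.mem_cons, List.not_mem_nil, or_false, not_or,
      not_false_eq_true, List.nodup_nil, and_true, hT] at hd ⊢
    tauto
  have h0S : y0 ∉ y1 :: T := by
    simp only [List.nodup_cons, List.mem_cons, List.not_mem_nil, or_false, not_or,
      not_false_eq_true, List.nodup_nil, and_true, hT] at hd ⊢
    tauto
  have h19 : y1 ≠ y9 := by
    simp only [List.nodup_cons, List.mem_cons, List.not_mem_nil, or_false, not_or,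
      not_false_eq_true, List.nodup_nil, and_true] at hd
    tauto
  have m2 : y2 ∈ T := by simp [hT]
  have m3 : y3 ∈ T := by simp [hT]
  have m4 : y4 ∈ T := by simp [hT]
  have m5 : y5 ∈ T := by simp [hT]
  have m6 : y6 ∈ T := by simp [hT]
  have m7 : y7 ∈ T := by simp [hT]
  have m8 : y8 ∈ T := by simp [hT]
  -- positions
  set g := cnt y1 T with hg
  set j := cnt y9 T with hj
  set i := cnt y0 (y1 :: T) with hi
  have hlen : T.length = 7 := by simp [hT]
  have hg8 : g < 8 := by have := cnt_le_length T y1; omega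
  have hj8 : j < 8 := by have := cnt_le_length T y9; omega
  have hi9 : i < 9 := by
    have := cnt_le_length (y1 :: T) y0
    rw [List.length_cons] at this; omega
  -- standardized pattern
  set f : ℕ → ℕ := st T with hf
  have hfodd : ∀ x ∈ T, f x = 2 * cnt x T + 1 := by
    intro x hx
    have e : f x = cnt x T + cnt (x + 1) T := by rw [hf]; unfold st; rfl
    rw [e, cnt_succ_mem T x hx hdT]; ring
  have hfl : ∀ x ∈ T, ∀ z, (x < z ↔ f x < f z) := fun x hx z => st_lt_left T hx
  have hfr : ∀ z ∈ T, ∀ x, (x < z ↔ f x < f z) := fun z hz x => st_lt_right T hz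
  have hfinj : ∀ x ∈ T, ∀ z ∈ T, f x = f z → x = z := by
    intro x hx z hz h
    rcases lt_trichotomy x z with h1 | h1 | h1
    · have := (hfl x hx z).1 h1; omega
    · exact h1
    · have := (hfl z hz x).1 h1; omega
  have hf9 : f y9 = 2 * j := by
    have e : f y9 = cnt y9 T + cnt (y9 + 1) T := by rw [hf]; unfold st; rfl
    rw [e, cnt_succ_not_mem T y9 h9T]; omega
  have hleaf : leaf (f y2) (f y3) (f y4) (f y5) (f y6) (f y7) (f y8) = true := by
    apply all_leaf
    · intro x hx
      have hx' : x ∈ T.map f := by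
        rw [hT]; simpa using hx
      obtain ⟨z, hz, rfl⟩ := List.mem_map.1 hx'
      rw [hfodd z hz]
      have h1 := cnt_lt T (show z < z + 1 by omega) hz
      have h2 := cnt_le_length T (z + 1)
      simp only [List.mem_cons, List.not_mem_nil, or_false]
      omega
    · have h1 : (T.map f).Nodup := by
        apply List.Nodup.map_on _ hdT
        exact hfinj
      rw [hT] at h1
      simpa using h1
  -- codes
  have c7 : code [f y2, f y3, f y4, f y5, f y6, f y7, f y8] 7 = code T 7 := by
    have := code_map f T (fun x hx z _ => hfl x hx z) 7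
    rw [← this, hT]; simp only [List.map_cons, List.map_nil]
  have c8 : code [f y2, f y3, f y4, f y5, f y6, f y7, f y8] 8 = code T 8 := by
    have := code_map f T (fun x hx z _ => hfl x hx z) 8
    rw [← this, hT]; simp only [List.map_cons, List.map_nil]
  have hsub : ∀ x ∈ [y2, y3, y5, y4, y6, y7, y8], x ∈ T := by
    intro x hx
    simp only [List.mem_cons, List.not_mem_nil, or_false, hT] at hx ⊢
    tauto
  have d7 : code [f y2, f y3, f y5, f y4, f y6, f y7, f y8] 7
      = code [y2, y3, y5, y4, y6, y7, y8] 7 := by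
    have := code_map f [y2, y3, y5, y4, y6, y7, y8] (fun x hx z _ => hfl x (hsub x hx) z) 7
    rw [← this]; simp only [List.map_cons, List.map_nil]
  have hsub1 : ∀ x ∈ [y5, y6, y7, y8], x ∈ T := by
    intro x hx
    simp only [List.mem_cons, List.not_mem_nil, or_false, hT] at hx ⊢
    tauto
  have hsub2 : ∀ x ∈ [y4, y6, y7, y8], x ∈ T := by
    intro x hx
    simp only [List.mem_cons, List.not_mem_nil, or_false, hT] at hx ⊢
    tauto
  have e1 : code [f y5, f y6, f y7, f y8] 5 = code [y5, y6, y7, y8] 5 := by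
    have := code_map f [y5, y6, y7, y8] (fun x hx z _ => hfl x (hsub1 x hx) z) 5
    rw [← this]; simp only [List.map_cons, List.map_nil]
  have e2 : code [f y4, f y6, f y7, f y8] 5 = code [y4, y6, y7, y8] 5 := by
    have := code_map f [y4, y6, y7, y8] (fun x hx z _ => hfl x (hsub2 x hx) z) 5
    rw [← this]; simp only [List.map_cons, List.map_nil]
  have i1 : ins (2 * j) [f y5, f y6, f y7, f y8] 5 = ins y9 [y5, y6, y7, y8] 5 := by
    have := ins_map f y9 [y5, y6, y7, y8] (fun x hx => hfr x (hsub1 x hx) y9) 5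
    rw [← this, ← hf9]; simp only [List.map_cons, List.map_nil]
  have i2 : ins (2 * j) [f y4, f y6, f y7, f y8] 5 = ins y9 [y4, y6, y7, y8] 5 := by
    have := ins_map f y9 [y4, y6, y7, y8] (fun x hx => hfr x (hsub2 x hx) y9) 5
    rw [← this, ← hf9]; simp only [List.map_cons, List.map_nil]
  have i3 : ins (2 * j) [f y2, f y3, f y4, f y5, f y6, f y7, f y8] 8 = ins y9 T 8 := by
    have := ins_map f y9 T (fun x hx => hfr x hx y9) 8
    rw [← this, ← hf9, hT]; simp only [List.map_cons, List.map_nil]
  -- ranks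
  set S := y1 :: T with hS
  set r : ℕ → ℕ := fun x => cnt x S with hr
  have hrl : ∀ x ∈ S, ∀ z, (x < z ↔ r x < r z) := by
    intro x hx z
    constructor
    · intro h; exact cnt_lt S h hx
    · intro h
      by_contra hn
      push Not at hn
      have := cnt_mono S hn
      simp only [hr] at h
      omega
  have hr1 : r y1 = g := by
    simp only [hr, hS]
    rw [cnt_cons, if_neg (lt_irrefl _), zero_add]
  have hrT : ∀ x ∈ T, rk g (f x) = r x := by
    intro x hx
    have h1 : rk g (f x) = (ifb (Nat.blt (2 * g) (f x)) (f x + 1) (f x)) / 2 := by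
      unfold rk; rfl
    have hxy : x ≠ y1 := fun e => h1T (e ▸ hx)
    have hc : r x = (if y1 < x then 1 else 0) + cnt x T := by
      simp only [hr]
      rw [hS]
      exact cnt_cons x y1 T
    rw [h1, ifb_eq, hfodd x hx, hc]
    by_cases hlt : y1 < x
    · have h2 : g ≤ cnt x T := cnt_mono T hlt.le
      have h3 : Nat.blt (2 * g) (2 * cnt x T + 1) = true := by
        rw [Nat.blt_eq]; omega
      rw [if_pos h3, if_pos hlt]
      omega
    · have hlt' : x < y1 := by omega
      have h2 : cnt x T < g := cnt_lt T hlt' hx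
      have h3 : ¬ Nat.blt (2 * g) (2 * cnt x T + 1) = true := by
        rw [Nat.blt_eq]; omega
      rw [if_neg h3, if_neg hlt]
      omega
  have hsub3 : ∀ x ∈ [y1, y2, y3, y4], x ∈ S := by
    intro x hx
    simp only [List.mem_cons, List.not_mem_nil, or_false, hT, hS] at hx ⊢
    tauto
  have c4 : code [g, rk g (f y2), rk g (f y3), rk g (f y4)] 4 = code [y1, y2, y3, y4] 4 := by
    have := code_map r [y1, y2, y3, y4] (fun x hx z _ => hrl x (hsub3 x hx) z) 4
    rw [← this, hrT y2 m2, hrT y3 m3, hrT y4 m4, ← hr1]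
    simp only [List.map_cons, List.map_nil]
  have n4 : cnt i [g, rk g (f y2), rk g (f y3), rk g (f y4)] = cnt y0 [y1, y2, y3, y4] := by
    have := cnt_map r y0 [y1, y2, y3, y4] (fun x hx => hrl x (hsub3 x hx) y0)
    have hir : r y0 = i := by simp only [hr]; exact hi.symm
    rw [← this, hrT y2 m2, hrT y3 m3, hrT y4 m4, ← hr1, hir]
    simp only [List.map_cons, List.map_nil]
  -- assemble
  have k1 : code [y0, y1, y2, y3, y4, y5, y6, y7, y8] 9 = i + 9 * (g + 8 * code T 7) := by
    rw [hi, hg, hS, hT, code_cons, code_cons]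
  have k2 : code [y0, y1, y2, y3, y5, y4, y6, y7, y8] 9
      = i + 9 * (g + 8 * code [y2, y3, y5, y4, y6, y7, y8] 7) := by
    have a1 : cnt y0 [y1, y2, y3, y5, y4, y6, y7, y8] = i := by
      rw [hi, hS, hT]; simp only [cnt_cons, cnt_nil]; ring
    have a2 : cnt y1 [y2, y3, y5, y4, y6, y7, y8] = g := by
      rw [hg, hT]; simp only [cnt_cons, cnt_nil]; ring
    rw [code_cons, code_cons, a1, a2]
  have k3 : code [y5, y6, y7, y8, y9] 5 = code [y5, y6, y7, y8] 5 + ins y9 [y5, y6, y7, y8] 5 :=
    code_append [y5, y6, y7, y8] y9 5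
  have k4 : code [y4, y6, y7, y8, y9] 5 = code [y4, y6, y7, y8] 5 + ins y9 [y4, y6, y7, y8] 5 :=
    code_append [y4, y6, y7, y8] y9 5
  have k5 : code [y1, y2, y3, y4, y5, y6, y7, y8, y9] 9
      = g + (if y9 < y1 then 1 else 0) + 9 * (code T 8 + ins y9 T 8) := by
    rw [code_cons]
    have a1 : cnt y1 [y2, y3, y4, y5, y6, y7, y8, y9] = g + (if y9 < y1 then 1 else 0) :=
      cnt_append y1 y9 T
    have a2 : code [y2, y3, y4, y5, y6, y7, y8, y9] 8 = code T 8 + ins y9 T 8 :=
      code_append T y9 8
    rw [a1, a2]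
  have k6 : code [y0, y1, y2, y3, y4] 5 = cnt y0 [y1, y2, y3, y4] + 5 * code [y1, y2, y3, y4] 4 :=
    code_cons _ _ _
  have key := leaf_sound _ _ _ _ _ _ _ hleaf g hg8 j hj8 i hi9 (if y9 < y1 then 1 else 0) (by
    by_cases h : y9 < y1
    · right
      rw [if_pos h]
      exact ⟨rfl, cnt_mono T h.le⟩
    · left
      rw [if_neg h]
      have : y1 ≤ y9 := by omega
      exact ⟨rfl, cnt_mono T this⟩)
  rw [c7, c8, d7, e1, e2, i1, i2, i3, c4, n4] at key
  have h45 : (f y4 < f y5) = (y4 < y5) := propext (hfl y4 m4 y5).symm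
  simp only [h45] at key
  rw [k1, k2, k3, k4, k5, k6]
  exact key

end Pool.Agent.Helper78.Schub
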