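import Pool.Agent.Helper78.SchubDefs
import Pool.Agent.Helper78.SchubAlg

/-! The nilCoxeter operators on functions on `S_n`, and the Fomin–Stanley product. -/

namespace Pool.Agent.Helper78.Schub

open Equiv

variable {n : ℕ}

/-- total version of the adjacent transposition -/
def sw (n i : ℕ) : Perm (Fin n) := if h : i + 1 < n then adj i h else 1

/-- `v` has a descent at `i` -/
def Desc (v : Perm (Fin n)) (i : ℕ) : Prop :=
  ∃ h : i + 1 < n, v ⟨i + 1, h⟩ < v ⟨i, Nat.lt_of_succ_lt h⟩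

instance (v : Perm (Fin n)) (i : ℕ) : Decidable (Desc v i) := by
  unfold Desc; infer_instance

theorem sw_of (i : ℕ) (h : i + 1 < n) : sw n i = adj i h := by simp [sw, h]

theorem adj_left (i : ℕ) (h : i + 1 < n) : adj i h ⟨i, Nat.lt_of_succ_lt h⟩ = ⟨i + 1, h⟩ :=
  swap_apply_left _ _

theorem adj_right (i : ℕ) (h : i + 1 < n) : adj i h ⟨i + 1, h⟩ = ⟨i, Nat.lt_of_succ_lt h⟩ :=
  swap_apply_right _ _

theorem adj_ne (i : ℕ) (h : i + 1 < n) (k : Fin n) (h1 : (k : ℕ) ≠ i) (h2 : (k : ℕ) ≠ i + 1) :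
    adj i h k = k := by
  apply swap_apply_of_ne_of_ne
  · intro e; apply h1; rw [e]
  · intro e; apply h2; rw [e]

theorem adj_mul_self (i : ℕ) (h : i + 1 < n) : adj i h * adj i h = 1 := by
  simp [adj]

theorem desc_of (v : Perm (Fin n)) (i : ℕ) (h : i + 1 < n) :
    Desc v i ↔ v ⟨i + 1, h⟩ < v ⟨i, Nat.lt_of_succ_lt h⟩ := by
  constructor
  · rintro ⟨_, h'⟩; exact h'
  · intro h'; exact ⟨h, h'⟩

theorem not_desc_of (v : Perm (Fin n)) (i : ℕ) (h : i + 1 < n) :
    ¬ Desc v i ↔ v ⟨i, Nat.lt_of_succ_lt h⟩ < v ⟨i + 1, h⟩ := by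
  rw [desc_of v i h, not_lt]
  constructor
  · intro h'
    refine lt_of_le_of_ne h' ?_
    intro e
    have := v.injective e
    simp at this
  · exact le_of_lt

theorem desc_mul_adj (v : Perm (Fin n)) (i : ℕ) (h : i + 1 < n) :
    Desc (v * adj i h) i ↔ ¬ Desc v i := by
  rw [desc_of _ i h, not_desc_of v i h, Perm.mul_apply, Perm.mul_apply, adj_left, adj_right]

theorem desc_lt {v : Perm (Fin n)} {i : ℕ} (hd : Desc v i) : i + 1 < n := hd.1

/-- Right multiplication by the nilCoxeter generator `u_i`. -/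
noncomputable def U (R : Type*) [CommRing R] (n i : ℕ) : Module.End R (Perm (Fin n) → R) where
  toFun f v := if Desc v i then f (v * sw n i) else 0
  map_add' f g := by
    funext v; by_cases h : Desc v i <;> simp [h]
  map_smul' c f := by
    funext v; by_cases h : Desc v i <;> simp [h]

variable {R : Type*} [CommRing R]

theorem U_apply (i : ℕ) (f : Perm (Fin n) → R) (v : Perm (Fin n)) :
    U R n i f v = if Desc v i then f (v * sw n i) else 0 := rfl

theorem desc_far (v : Perm (Fin n)) {i j : ℕ} (hi : i + 1 < n) (hij : i + 2 ≤ j ∨ j + 2 ≤ i) :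
    Desc (v * adj i hi) j ↔ Desc v j := by
  constructor
  · rintro ⟨hj, h⟩
    rw [Perm.mul_apply, Perm.mul_apply, adj_ne, adj_ne] at h
    · exact ⟨hj, h⟩
    all_goals simp only; omega
  · rintro ⟨hj, h⟩
    refine ⟨hj, ?_⟩
    rw [Perm.mul_apply, Perm.mul_apply, adj_ne, adj_ne]
    · exact h
    all_goals simp only; omega

theorem adj_comm {i j : ℕ} (hi : i + 1 < n) (hj : j + 1 < n) (hij : i + 2 ≤ j) :
    adj i hi * adj j hj = adj j hj * adj i hi := by
  apply Equiv.ext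
  intro k
  rw [Perm.mul_apply, Perm.mul_apply]
  by_cases h1 : (k : ℕ) = i
  · have : k = ⟨i, by omega⟩ := Fin.ext h1
    rw [this, adj_ne j hj _ (by simp only; omega) (by simp only; omega), adj_left,
      adj_ne j hj _ (by simp only; omega) (by simp only; omega)]
  by_cases h2 : (k : ℕ) = i + 1
  · have : k = ⟨i + 1, by omega⟩ := Fin.ext h2
    rw [this, adj_ne j hj _ (by simp only; omega) (by simp only; omega), adj_right,
      adj_ne j hj _ (by simp only; omega) (by simp only; omega)]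
  rw [adj_ne i hi k h1 h2]
  by_cases h3 : (k : ℕ) = j
  · have : k = ⟨j, by omega⟩ := Fin.ext h3
    rw [this, adj_left, adj_ne i hi _ (by simp only; omega) (by simp only; omega)]
  by_cases h4 : (k : ℕ) = j + 1
  · have : k = ⟨j + 1, by omega⟩ := Fin.ext h4
    rw [this, adj_right, adj_ne i hi _ (by simp only; omega) (by simp only; omega)]
  rw [adj_ne j hj k h3 h4, adj_ne i hi k h1 h2]

theorem adj_braid {i : ℕ} (hi : i + 1 < n) (hj : i + 1 + 1 < n) :
    adj i hi * adj (i + 1) hj * adj i hi = adj (i + 1) hj * adj i hi * adj (i + 1) hj := by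
  have a : (⟨i, by omega⟩ : Fin n) ≠ ⟨i + 1, hi⟩ := by simp
  have b : (⟨i, by omega⟩ : Fin n) ≠ ⟨i + 1 + 1, hj⟩ := by simp; omega
  have c : (⟨i + 1, by omega⟩ : Fin n) ≠ ⟨i + 1 + 1, hj⟩ := by simp
  have k1 := swap_mul_swap_mul_swap a b
  have k2 := swap_mul_swap_mul_swap c.symm b.symm
  unfold adj
  rw [swap_comm (⟨i + 1 + 1, hj⟩ : Fin n) ⟨i, by omega⟩] at k1
  rw [← k1] at k2
  rw [swap_comm (⟨i + 1, _⟩ : Fin n) ⟨i, _⟩, swap_comm (⟨i + 1 + 1, _⟩ : Fin n) ⟨i + 1, _⟩] at k2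
  exact k2

theorem U_sq (i : ℕ) : U R n i * U R n i = 0 := by
  apply LinearMap.ext
  intro f
  funext v
  rw [Module.End.mul_apply, U_apply, LinearMap.zero_apply, Pi.zero_apply]
  split_ifs with h
  · rw [U_apply, if_neg]
    have hi := desc_lt h
    rw [sw_of i hi, desc_mul_adj v i hi]
    simpa using h
  · rfl

theorem U_comm (i j : ℕ) (hij : i + 2 ≤ j) : U R n i * U R n j = U R n j * U R n i := by
  apply LinearMap.ext
  intro f
  funext v
  rw [Module.End.mul_apply, Module.End.mul_apply, U_apply, U_apply]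
  by_cases hi : Desc v i
  · have hi' := desc_lt hi
    rw [if_pos hi, U_apply, sw_of i hi']
    by_cases hj : Desc v j
    · have hj' := desc_lt hj
      rw [if_pos hj, U_apply, sw_of j hj', sw_of i hi', if_pos ((desc_far v hi' (Or.inl hij)).2 hj),
        if_pos ((desc_far v hj' (Or.inr hij)).2 hi), mul_assoc, mul_assoc,
        adj_comm hi' hj' hij]
    · rw [if_neg hj, if_neg]
      rwa [desc_far v hi' (Or.inl hij)]
  · rw [if_neg hi, U_apply]
    by_cases hj : Desc v j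
    · have hj' := desc_lt hj
      rw [if_pos hj, U_apply, sw_of j hj', if_neg]
      rwa [desc_far v hj' (Or.inr hij)]
    · rw [if_neg hj]

theorem U_braid (i : ℕ) :
    U R n i * U R n (i + 1) * U R n i = U R n (i + 1) * U R n i * U R n (i + 1) := by
  apply LinearMap.ext
  intro f
  funext v
  simp only [Module.End.mul_apply, U_apply]
  by_cases hj : i + 1 + 1 < n
  swap
  · have h1 : ∀ v : Perm (Fin n), ¬ Desc v (i + 1) := fun v h => hj (desc_lt h)
    simp [h1]
  have hi : i + 1 < n := by omega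
  simp only [sw_of i hi, sw_of (i + 1) hj, desc_of _ i hi, desc_of _ (i + 1) hj, Perm.mul_apply,
    adj_left, adj_right]
  have e1 : adj i hi ⟨i + 1 + 1, hj⟩ = ⟨i + 1 + 1, hj⟩ :=
    adj_ne i hi _ (by simp only; omega) (by simp only; omega)
  have e2 : adj (i + 1) hj ⟨i, Nat.lt_of_succ_lt hi⟩ = ⟨i, Nat.lt_of_succ_lt hi⟩ :=
    adj_ne (i + 1) hj _ (by simp) (by simp only; omega)
  have e3 : adj (i + 1) hj ⟨i + 1, hi⟩ = ⟨i + 1 + 1, hj⟩ := adj_left (i + 1) hj
  have e4 : adj i hi ⟨i + 1, Nat.lt_of_succ_lt hj⟩ = ⟨i, Nat.lt_of_succ_lt hi⟩ := adj_right i hi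
  simp only [e1, e2, e3, e4, adj_left, adj_right]
  have hb := adj_braid (n := n) hi hj
  have hm : ∀ a b c : Perm (Fin n), v * a * b * c = v * (a * b * c) := by
    intro a b c; simp [mul_assoc]
  simp only [hm, hb]
  by_cases h1 : v ⟨i + 1, hi⟩ < v ⟨i, Nat.lt_of_succ_lt hi⟩ <;>
  by_cases h2 : v ⟨i + 1 + 1, hj⟩ < v ⟨i, Nat.lt_of_succ_lt hi⟩ <;>
  by_cases h3 : v ⟨i + 1 + 1, hj⟩ < v ⟨i + 1, hi⟩ <;>
  simp [h1, h2, h3]

theorem nilCox_U (R : Type*) [CommRing R] (n : ℕ) : NilCox (U R n) where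
  sq := U_sq
  comm := U_comm
  braid := U_braid

end Pool.Agent.Helper78.Schub
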