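import Mathlib

/-!
# Universal disposition and homogeneity (definitions of `MP_f735f2_an`)
-/

set_option autoImplicit false

universe u

open Cardinal

namespace Pool.Agent.Helper78.UD

/-- The class `𝔇_{<κ}` of Banach spaces of density `< κ`; for `κ = ℵ₀` it is read as the class of
finite-dimensional spaces. -/
def InD (κ : Cardinal.{u}) (A : Type u) [NormedAddCommGroup A] [NormedSpace ℝ A] : Prop :=
  (κ = ℵ₀ → FiniteDimensional ℝ A) ∧ (κ ≠ ℵ₀ → ∃ s : Set A, Dense s ∧ #s < κ)

/-- `X` is of universal disposition for `𝔇_{<κ}`: for all Banach spaces `A, B` in `𝔇_{<κ}` and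
isometric embeddings `v : A → X` and `i : A → B` there is an isometric embedding `w : B → X` with
`w ∘ i = v`. -/
def UniversalDisposition (κ : Cardinal.{u}) (X : Type u) [NormedAddCommGroup X]
    [NormedSpace ℝ X] : Prop :=
  ∀ (A B : Type u) [NormedAddCommGroup A] [NormedSpace ℝ A] [CompleteSpace A]
    [NormedAddCommGroup B] [NormedSpace ℝ B] [CompleteSpace B], InD κ A → InD κ B →
    ∀ (v : A →ₗᵢ[ℝ] X) (i : A →ₗᵢ[ℝ] B), ∃ w : B →ₗᵢ[ℝ] X, ∀ a : A, w (i a) = v a

/-- `X` is homogeneous with respect to `𝔇_{<κ}`: every surjective isometry between two closed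
subspaces of `X` that belong to `𝔇_{<κ}` extends to an isometry of `X` onto `X`. -/
def Homogeneous (κ : Cardinal.{u}) (X : Type u) [NormedAddCommGroup X] [NormedSpace ℝ X] : Prop :=
  ∀ E F : Submodule ℝ X, IsClosed (E : Set X) → IsClosed (F : Set X) → InD κ E → InD κ F →
    ∀ φ : E ≃ₗᵢ[ℝ] F, ∃ Φ : X ≃ₗᵢ[ℝ] X, ∀ x : E, Φ x = φ x

end Pool.Agent.Helper78.UD
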