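import Mathlib
import Pool.Agent.Helper78.UDDefs

/-!
# Codes for a large Banach space of universal disposition
-/

set_option autoImplicit false

universe u

open Cardinal

namespace Pool.Agent.Helper78.UD

variable {I Γ : Type u}

/-- The type of finitely supported combinations of old and new vectors. -/
abbrev Comb (I : Type u) : Type u := (I →₀ ℝ) × (I →₀ ℝ)

/-- Codes: base vectors, and vectors added by an extension of the closed span of earlier ones. -/
inductive Code (I Γ : Type u) : Type u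
  | base : Γ → Code I Γ
  | ext : (I → Code I Γ) → (Comb I → ℝ) → I → Code I Γ

/-- value of a functional with values `v` on old and `w` on new vectors -/
noncomputable def lin (v w : I → ℝ) (x : Comb I) : ℝ :=
  Finsupp.linearCombination ℝ v x.1 + Finsupp.linearCombination ℝ w x.2

lemma lin_add (v w : I → ℝ) (x y : Comb I) : lin v w (x + y) = lin v w x + lin v w y := by
  simp only [lin, Prod.fst_add, Prod.snd_add, map_add]
  ring

lemma lin_smul (v w : I → ℝ) (c : ℝ) (x : Comb I) : lin v w (c • x) = c * lin v w x := by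
  simp only [lin, Prod.smul_fst, Prod.smul_snd, map_smul, smul_eq_mul]
  ring

/-- `P` is a seminorm on the space of combinations. -/
def IsSemi (P : Comb I → ℝ) : Prop :=
  (∀ x y, P (x + y) ≤ P x + P y) ∧ (∀ (c : ℝ) x, P (c • x) = |c| * P x)

lemma IsSemi.nonneg {P : Comb I → ℝ} (h : IsSemi P) (x : Comb I) : 0 ≤ P x := by
  have h1 := h.1 x ((-1 : ℝ) • x)
  have h0 : P (0 : Comb I) = 0 := by
    have := h.2 0 (0 : Comb I)
    simpa using this
  rw [h.2 (-1) x] at h1
  have : x + (-1 : ℝ) • x = 0 := by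
    ext i <;> simp
  rw [this, h0] at h1
  simp at h1
  linarith

/-- The base constraint. -/
def K0 (Γ : Type u) : Set (Γ → ℝ) :=
  {f | (∀ γ, |f γ| ≤ 1) ∧ ∀ γ γ', γ ≠ γ' → |f γ + f γ'| ≤ 2 / 3}

/-- hereditary constraints -/
def OK : Code I Γ → (Code I Γ → ℝ) → Prop
  | .base _, _ => True
  | .ext sub P _, k => (∀ i, OK (sub i) k) ∧
      ((IsSemi P ∧ ∀ k' : Code I Γ → ℝ, (fun γ => k' (.base γ)) ∈ K0 Γ → (∀ i, OK (sub i) k') →
          ∀ a : I →₀ ℝ, |Finsupp.linearCombination ℝ (fun i => k' (sub i)) a| ≤ P (a, 0)) →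
        ∀ x : Comb I, |lin (fun i => k (sub i)) (fun j => k (.ext sub P j)) x| ≤ P x) ∧
      (¬ (IsSemi P ∧ ∀ k' : Code I Γ → ℝ, (fun γ => k' (.base γ)) ∈ K0 Γ →
          (∀ i, OK (sub i) k') →
          ∀ a : I →₀ ℝ, |Finsupp.linearCombination ℝ (fun i => k' (sub i)) a| ≤ P (a, 0)) →
        ∀ j, k (.ext sub P j) = 0)

/-- validity of extension data -/
def Valid (sub : I → Code I Γ) (P : Comb I → ℝ) : Prop :=
  IsSemi P ∧ ∀ k' : Code I Γ → ℝ, (fun γ => k' (.base γ)) ∈ K0 Γ → (∀ i, OK (sub i) k') →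
    ∀ a : I →₀ ℝ, |Finsupp.linearCombination ℝ (fun i => k' (sub i)) a| ≤ P (a, 0)

lemma ok_base (γ : Γ) (k : Code I Γ → ℝ) : OK (.base γ) k := by
  unfold OK
  trivial

lemma ok_ext (sub : I → Code I Γ) (P : Comb I → ℝ) (j : I) (k : Code I Γ → ℝ) :
    OK (.ext sub P j) k ↔ (∀ i, OK (sub i) k) ∧
      (Valid sub P → ∀ x : Comb I,
        |lin (fun i => k (sub i)) (fun j => k (.ext sub P j)) x| ≤ P x) ∧
      (¬ Valid sub P → ∀ j, k (.ext sub P j) = 0) := by
  rw [OK]
  rfl

/-- the dual ball -/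
def IsK (k : Code I Γ → ℝ) : Prop := (fun γ => k (.base γ)) ∈ K0 Γ ∧ ∀ c, OK c k

/-- sets of codes closed under passing to sub-codes and siblings -/
def HClosed (H : Set (Code I Γ)) : Prop :=
  ∀ sub P j, Code.ext sub P j ∈ H → (∀ i, sub i ∈ H) ∧ ∀ j', Code.ext sub P j' ∈ H

lemma ok_congr {H : Set (Code I Γ)} (hH : HClosed H) {k k' : Code I Γ → ℝ}
    (hk : ∀ c ∈ H, k c = k' c) : ∀ c ∈ H, OK c k → OK c k' := by
  intro c
  induction c with
  | base γ => intro _ _; exact ok_base _ _
  | ext sub P j ih =>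
    intro hc h
    obtain ⟨h1, h2⟩ := hH sub P j hc
    rw [ok_ext] at h ⊢
    refine ⟨fun i => ih i (h1 i) (h.1 i), ?_, ?_⟩
    · intro hv x
      have := h.2.1 hv x
      have e1 : (fun i => k (sub i)) = fun i => k' (sub i) := funext fun i => hk _ (h1 i)
      have e2 : (fun j => k (.ext sub P j)) = fun j => k' (.ext sub P j) :=
        funext fun j => hk _ (h2 j)
      rwa [e1, e2] at this
    · intro hv j'
      rw [← hk _ (h2 j')]
      exact h.2.2 hv j'

/-- Hahn-Banach: extension of a functional to the new vectors. -/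
lemma exists_ext {P : Comb I → ℝ} (hP : IsSemi P) (v : I → ℝ)
    (hv : ∀ a : I →₀ ℝ, |Finsupp.linearCombination ℝ v a| ≤ P (a, 0)) :
    ∃ w : I → ℝ, ∀ x, |lin v w x| ≤ P x := by
  classical
  let f : Comb I →ₗ.[ℝ] ℝ :=
    { domain := LinearMap.ker (LinearMap.snd ℝ (I →₀ ℝ) (I →₀ ℝ))
      toFun := (Finsupp.linearCombination ℝ v).comp
        ((LinearMap.fst ℝ (I →₀ ℝ) (I →₀ ℝ)).comp (Submodule.subtype _)) }
  obtain ⟨g, hg1, hg2⟩ := exists_extension_of_le_sublinear f P
    (fun c hc x => by rw [hP.2, abs_of_pos hc]) hP.1 (by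
      rintro ⟨⟨a, d⟩, hx⟩
      have hd : d = 0 := LinearMap.mem_ker.1 hx
      subst hd
      exact (le_abs_self _).trans (hv a))
  refine ⟨fun j => g (0, Finsupp.single j 1), fun x => ?_⟩
  have key : ∀ x : Comb I, lin v (fun j => g (0, Finsupp.single j 1)) x = g x := by
    rintro ⟨a, d⟩
    have h1 : g (a, 0) = Finsupp.linearCombination ℝ v a := hg1 ⟨(a, 0), LinearMap.mem_ker.2 rfl⟩
    have h2 : g (0, d) = Finsupp.linearCombination ℝ (fun j => g (0, Finsupp.single j 1)) d := by
      have e : (g.comp (LinearMap.inr ℝ (I →₀ ℝ) (I →₀ ℝ))) =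
          Finsupp.linearCombination ℝ (fun j => g (0, Finsupp.single j 1)) := by
        ext j
        simp
      exact congrArg (fun L => L d) e
    have h3 : ((a, d) : Comb I) = (a, 0) + (0, d) := by simp
    rw [h3, map_add, h1, h2]
    simp [lin]
  rw [key, abs_le]
  constructor
  · have := hg2 ((-1 : ℝ) • x)
    rw [hP.2, map_smul] at this
    simp at this
    linarith
  · exact hg2 x

open Classical in
/-- chosen values on the new vectors -/
noncomputable def W (v : I → ℝ) (P : Comb I → ℝ) : I → ℝ :=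
  if h : ∃ w : I → ℝ, ∀ x, |lin v w x| ≤ P x then h.choose else 0

lemma W_spec {v : I → ℝ} {P : Comb I → ℝ} (h : ∃ w : I → ℝ, ∀ x, |lin v w x| ≤ P x) :
    ∀ x, |lin v (W v P) x| ≤ P x := by
  unfold W
  rw [dif_pos h]
  exact h.choose_spec

open Classical in
/-- extension of `k` from a set `H` to all codes -/
noncomputable def extK (H : Set (Code I Γ)) (k : Code I Γ → ℝ) : Code I Γ → ℝ
  | .base γ => k (.base γ)
  | .ext sub P j => if Code.ext sub P j ∈ H then k (.ext sub P j) else
      if Valid sub P then W (fun i => extK H k (sub i)) P j else 0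

lemma extK_base (H : Set (Code I Γ)) (k : Code I Γ → ℝ) (γ : Γ) :
    extK H k (.base γ) = k (.base γ) := by
  rw [extK]

lemma extK_mem {H : Set (Code I Γ)} {k : Code I Γ → ℝ} {c : Code I Γ} (hc : c ∈ H) :
    extK H k c = k c := by
  cases c with
  | base γ => rw [extK]
  | ext sub P j => rw [extK, if_pos hc]

lemma extK_not_mem {H : Set (Code I Γ)} {k : Code I Γ → ℝ} {sub : I → Code I Γ}
    {P : Comb I → ℝ} {j : I} (hc : Code.ext sub P j ∉ H) (hv : Valid sub P) :
    extK H k (.ext sub P j) = W (fun i => extK H k (sub i)) P j := by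
  rw [extK, if_neg hc, if_pos hv]

lemma extK_not_valid {H : Set (Code I Γ)} {k : Code I Γ → ℝ} {sub : I → Code I Γ}
    {P : Comb I → ℝ} {j : I} (hc : Code.ext sub P j ∉ H) (hv : ¬ Valid sub P) :
    extK H k (.ext sub P j) = 0 := by
  rw [extK, if_neg hc, if_neg hv]

/-- Extension lemma. -/
lemma isK_extK {H : Set (Code I Γ)} (hH : HClosed H) {k : Code I Γ → ℝ}
    (hb : (fun γ => k (.base γ)) ∈ K0 Γ) (hk : ∀ c ∈ H, OK c k) : IsK (extK H k) := by
  have hb' : (fun γ => extK H k (.base γ)) ∈ K0 Γ := by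
    simpa only [extK_base] using hb
  refine ⟨hb', fun c => ?_⟩
  induction c with
  | base γ => exact ok_base _ _
  | ext sub P j ih =>
    rw [ok_ext]
    refine ⟨ih, ?_, ?_⟩
    · intro hv x
      by_cases hc : Code.ext sub P j ∈ H
      · obtain ⟨h1, h2⟩ := hH sub P j hc
        have e1 : (fun i => extK H k (sub i)) = fun i => k (sub i) :=
          funext fun i => extK_mem (h1 i)
        have e2 : (fun j => extK H k (.ext sub P j)) = fun j => k (.ext sub P j) :=
          funext fun j => extK_mem (h2 j)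
        rw [e1, e2]
        exact ((ok_ext _ _ _ _).1 (hk _ hc)).2.1 hv x
      · have h2 : ∀ j', Code.ext sub P j' ∉ H := fun j' hj' => hc ((hH sub P j' hj').2 j)
        have e2 : (fun j => extK H k (.ext sub P j)) = W (fun i => extK H k (sub i)) P :=
          funext fun j => extK_not_mem (h2 j) hv
        rw [e2]
        exact W_spec (exists_ext hv.1 _ (hv.2 _ hb' ih)) x
    · intro hv j'
      by_cases hc : Code.ext sub P j' ∈ H
      · rw [extK_mem hc]
        exact ((ok_ext _ _ _ _).1 (hk _ hc)).2.2 hv j'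
      · exact extK_not_valid hc hv

end Pool.Agent.Helper78.UD
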