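import Mathlib

/-!
# A chain condition: two compatible small labelled sets
-/

set_option autoImplicit false

universe u

open Cardinal

namespace Pool.Agent.Helper78.UD

/-- shapes of the closure terms -/
abbrev Shape (I : Type u) : Type u := Option ((I → I) × (I → ℝ))

/-- arities -/
def Ar {I : Type u} : Shape I → Type u
  | none => PEmpty
  | some _ => I

lemma mk_wtype_le {I : Type u} [Infinite I] : #(WType (Ar (I := I))) ≤ 2 ^ #I := by
  have hI : ℵ₀ ≤ #I := Cardinal.aleph0_le_mk I
  have h2 : ℵ₀ ≤ (2 : Cardinal.{u}) ^ #I := hI.trans (Cardinal.cantor _).le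
  apply WType.cardinalMk_le_of_le
  refine (Cardinal.sum_le_mk_mul_iSup _).trans ?_
  refine Cardinal.mul_le_of_le h2 ?_ ?_
  · have h4 : #(I → I) ≤ 2 ^ #I := by
      rw [Cardinal.mk_arrow, Cardinal.lift_id, Cardinal.power_self_eq hI]
    have h5 : #(I → ℝ) ≤ 2 ^ #I := by
      rw [Cardinal.mk_arrow, Cardinal.mk_real, Cardinal.lift_continuum, Cardinal.lift_uzero,
        ← Cardinal.two_power_aleph0,
        ← Cardinal.power_mul, Cardinal.mul_eq_right hI hI Cardinal.aleph0_ne_zero]
    have h3 : #((I → I) × (I → ℝ)) ≤ 2 ^ #I := by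
      rw [Cardinal.mk_prod, Cardinal.lift_id, Cardinal.lift_id]
      exact Cardinal.mul_le_of_le h2 h4 h5
    rw [Cardinal.mk_option]
    exact Cardinal.add_le_of_le h2 h3 (Cardinal.one_le_aleph0.trans h2)
  · apply ciSup_le'
    intro a
    cases a with
    | none =>
      simp only [Ar, Cardinal.mk_pempty, Cardinal.power_zero]
      exact Cardinal.one_le_aleph0.trans h2
    | some a =>
      simp only [Ar]
      rw [← Cardinal.power_mul, Cardinal.mul_eq_self hI]

/-- Among more than `2 ^ #I` labelled sets of size at most `#I` two are compatible. -/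
theorem exists_pair {I Γ C : Type u} [Infinite I] (hΓ : 2 ^ #I < #Γ) (h : Γ → I → C)
    (g : Γ → C → ℝ) :
    ∃ γ γ', γ ≠ γ' ∧ ∀ i i', h γ i = h γ' i' → g γ (h γ i) = g γ' (h γ i) := by
  classical
  have hne : Nonempty Γ := by
    rw [← Cardinal.mk_ne_zero_iff]
    intro h0
    rw [h0] at hΓ
    exact absurd hΓ (not_lt.2 zero_le)
  obtain ⟨γs⟩ := hne
  obtain ⟨i0⟩ : Nonempty I := inferInstance
  let T := WType (Ar (I := I))
  let e : T → Γ := WType.elim Γ (fun x : Σ a : Shape I, Ar a → Γ =>
    match x with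
    | ⟨none, _⟩ => γs
    | ⟨some (idx, gg), f⟩ =>
      if hx : ∃ γ, ∀ i : I, g γ (h (f i) (idx i)) = gg i then hx.choose else γs)
  have he : ∀ (idx : I → I) (gg : I → ℝ) (f : I → T),
      e (WType.mk (some (idx, gg)) f) =
        if hx : ∃ γ, ∀ i : I, g γ (h (e (f i)) (idx i)) = gg i then hx.choose else γs :=
    fun idx gg f => rfl
  have hG : #(Set.range e) < #Γ := (Cardinal.mk_range_le.trans mk_wtype_le).trans_lt hΓ
  obtain ⟨p, hp⟩ : ∃ p, p ∉ Set.range e := by
    by_contra hcon
    push Not at hcon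
    have : Set.range e = Set.univ := Set.eq_univ_of_forall hcon
    rw [this, Cardinal.mk_univ] at hG
    exact absurd hG (lt_irrefl _)
  let t0 : T := WType.mk none (fun x => PEmpty.elim x)
  let Q : I → T × I → Prop := fun i x => h (e x.1) x.2 = h p i
  let c : I → T × I := fun i => if hx : ∃ x, Q i x then hx.choose else (t0, i0)
  have hc : ∀ i, (∃ x, Q i x) → h (e (c i).1) (c i).2 = h p i := by
    intro i hx
    simp only [c]
    rw [dif_pos hx]
    exact hx.choose_spec
  let gg : I → ℝ := fun i => g p (h (e (c i).1) (c i).2)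
  let q : Γ := e (WType.mk (some (fun i => (c i).2, gg)) (fun i => (c i).1))
  have hq : ∀ i, g q (h (e (c i).1) (c i).2) = gg i := by
    have hx : ∃ γ, ∀ i : I, g γ (h (e (c i).1) (c i).2) = gg i := ⟨p, fun i => rfl⟩
    have : q = hx.choose := (he _ _ _).trans (dif_pos hx)
    rw [this]
    exact hx.choose_spec
  refine ⟨p, q, fun hpq => hp ⟨_, hpq.symm⟩, ?_⟩
  intro i i' hii
  have hx : ∃ x, Q i x :=
    ⟨(WType.mk (some (fun i => (c i).2, gg)) (fun i => (c i).1), i'), hii.symm⟩
  have h1 := hq i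
  rw [hc i hx] at h1
  rw [h1]
  simp only [gg]
  rw [hc i hx]

end Pool.Agent.Helper78.UD
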