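import Mathlib
import Pool.Agent.Helper78.UDCode

/-!
# The space attached to the codes
-/

set_option autoImplicit false

universe u

open Cardinal

namespace Pool.Agent.Helper78.UD

variable {I Γ : Type u}

/-- The dual ball as a type. -/
def KT (I Γ : Type u) : Type u := {k : Code I Γ → ℝ // IsK k}

instance : TopologicalSpace (KT I Γ) := ⊥

instance : DiscreteTopology (KT I Γ) := ⟨rfl⟩

lemma exists_bound (c : Code I Γ) : ∃ C : ℝ, ∀ k : KT I Γ, |k.1 c| ≤ C := by
  cases c with
  | base γ => exact ⟨1, fun k => k.2.1.1 γ⟩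
  | ext sub P j =>
    by_cases hv : Valid sub P
    · refine ⟨P (0, Finsupp.single j 1), fun k => ?_⟩
      have := ((ok_ext _ _ _ _).1 (k.2.2 (.ext sub P j))).2.1 hv (0, Finsupp.single j 1)
      simpa [lin] using this
    · refine ⟨0, fun k => ?_⟩
      have := ((ok_ext _ _ _ _).1 (k.2.2 (.ext sub P j))).2.2 hv j
      rw [this]
      simp

/-- Evaluation at a code. -/
noncomputable def ev (c : Code I Γ) : BoundedContinuousFunction (KT I Γ) ℝ :=
  BoundedContinuousFunction.ofNormedAddCommGroupDiscrete (fun k => k.1 c)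
    (exists_bound c).choose (fun k => (exists_bound c).choose_spec k)

lemma ev_apply (c : Code I Γ) (k : KT I Γ) : ev c k = k.1 c := rfl

/-- The closed span of the evaluations. -/
noncomputable def XS (I Γ : Type u) : Submodule ℝ (BoundedContinuousFunction (KT I Γ) ℝ) :=
  (Submodule.span ℝ (Set.range ev)).topologicalClosure

/-- The Banach space of the construction. -/
def XT (I Γ : Type u) : Type u := ↥(XS I Γ)

noncomputable instance : NormedAddCommGroup (XT I Γ) :=
  inferInstanceAs (NormedAddCommGroup ↥(XS I Γ))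

noncomputable instance : NormedSpace ℝ (XT I Γ) :=
  inferInstanceAs (NormedSpace ℝ ↥(XS I Γ))

instance : CompleteSpace (XT I Γ) :=
  (Submodule.isClosed_topologicalClosure (Submodule.span ℝ (Set.range ev))).completeSpace_coe

/-- The inclusion in the bounded functions. -/
noncomputable def toB : XT I Γ →ₗᵢ[ℝ] BoundedContinuousFunction (KT I Γ) ℝ :=
  (XS I Γ).subtypeₗᵢ

/-- The vector of a code. -/
noncomputable def evX (c : Code I Γ) : XT I Γ :=
  ⟨ev c, Submodule.le_topologicalClosure _ (Submodule.subset_span ⟨c, rfl⟩)⟩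

lemma toB_evX (c : Code I Γ) : toB (evX c) = ev c := rfl

/-- Evaluation at a point of the dual ball. -/
noncomputable def evalK (k : KT I Γ) : XT I Γ →ₗ[ℝ] ℝ where
  toFun x := toB x k
  map_add' _ _ := rfl
  map_smul' _ _ := rfl

lemma evalK_apply (k : KT I Γ) (x : XT I Γ) : evalK k x = toB x k := rfl

lemma evalK_evX (k : KT I Γ) (c : Code I Γ) : evalK k (evX c) = k.1 c := rfl

lemma abs_evalK_le (k : KT I Γ) (x : XT I Γ) : |evalK k x| ≤ ‖x‖ := by
  rw [← (toB (I := I) (Γ := Γ)).norm_map x]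
  exact (toB x).norm_coe_le_norm k

lemma norm_le_of {x : XT I Γ} {M : ℝ} (hM : 0 ≤ M) (h : ∀ k, |evalK k x| ≤ M) : ‖x‖ ≤ M := by
  rw [← (toB (I := I) (Γ := Γ)).norm_map x]
  exact (BoundedContinuousFunction.norm_le hM).2 h

lemma zero_mem_K0 : (fun _ => 0 : Γ → ℝ) ∈ K0 Γ := by
  refine ⟨fun _ => by simp, fun _ _ _ => by norm_num⟩

lemma hclosed_empty : HClosed (∅ : Set (Code I Γ)) := fun _ _ _ h => absurd h (Set.notMem_empty _)

/-- every base functional extends -/
lemma exists_K_base (f : Γ → ℝ) (hf : f ∈ K0 Γ) : ∃ k : KT I Γ, ∀ γ, k.1 (.base γ) = f γ := by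
  classical
  let k0 : Code I Γ → ℝ := fun c => match c with
    | .base γ => f γ
    | .ext _ _ _ => 0
  refine ⟨⟨extK ∅ k0, isK_extK hclosed_empty hf (fun c hc => absurd hc (Set.notMem_empty _))⟩, ?_⟩
  intro γ
  show extK ∅ k0 (.base γ) = f γ
  rw [extK_base]

/-- functionals of norm at most one are points of the dual ball -/
lemma isK_of_functional (φ : XT I Γ →ₗ[ℝ] ℝ) (hφ : ∀ x, |φ x| ≤ ‖x‖) :
    IsK (fun c => φ (evX c)) := by
  refine ⟨⟨?_, ?_⟩, ?_⟩
  · intro γ
    refine (hφ _).trans (norm_le_of zero_le_one fun k => ?_)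
    exact k.2.1.1 γ
  · intro γ γ' hne
    rw [← map_add]
    refine (hφ _).trans (norm_le_of (by norm_num) fun k => ?_)
    rw [map_add]
    exact k.2.1.2 γ γ' hne
  · intro c
    induction c with
    | base γ => exact ok_base _ _
    | ext sub P j ih =>
      rw [ok_ext]
      refine ⟨ih, ?_, ?_⟩
      · intro hv x
        have e : lin (fun i => φ (evX (sub i))) (fun j => φ (evX (.ext sub P j))) x =
            φ (Finsupp.linearCombination ℝ (fun i => evX (sub i)) x.1 +
              Finsupp.linearCombination ℝ (fun j => evX (.ext sub P j)) x.2) := by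
          rw [map_add, lin, Finsupp.apply_linearCombination, Finsupp.apply_linearCombination]
          rfl
        rw [e]
        refine (hφ _).trans (norm_le_of (hv.1.nonneg x) fun k => ?_)
        rw [map_add, Finsupp.apply_linearCombination, Finsupp.apply_linearCombination]
        exact ((ok_ext _ _ _ _).1 (k.2.2 (.ext sub P j))).2.1 hv x
      · intro hv j'
        have e : ‖evX (.ext sub P j' : Code I Γ)‖ ≤ 0 := by
          refine norm_le_of le_rfl fun k => ?_
          rw [evalK_evX, ((ok_ext _ _ _ _).1 (k.2.2 (.ext sub P j))).2.2 hv j']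
          simp
        have e' := (hφ (evX (.ext sub P j'))).trans e
        exact abs_eq_zero.1 (le_antisymm e' (abs_nonneg _))

/-! ### Hulls and ranks -/

/-- the closed hull of a code -/
def hull : Code I Γ → Set (Code I Γ)
  | .base γ => {.base γ}
  | .ext sub P _ => (⋃ i, hull (sub i)) ∪ Set.range (fun j' => Code.ext sub P j')

lemma hull_base (γ : Γ) : hull (.base γ : Code I Γ) = {.base γ} := by rw [hull]

lemma hull_ext (sub : I → Code I Γ) (P : Comb I → ℝ) (j : I) :
    hull (.ext sub P j) = (⋃ i, hull (sub i)) ∪ Set.range (fun j' => Code.ext sub P j') := by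
  rw [hull]

lemma mem_hull (c : Code I Γ) : c ∈ hull c := by
  cases c with
  | base γ => rw [hull_base]; rfl
  | ext sub P j => rw [hull_ext]; exact Or.inr ⟨j, rfl⟩

lemma hclosed_iUnion {ι : Sort*} {H : ι → Set (Code I Γ)} (h : ∀ i, HClosed (H i)) :
    HClosed (⋃ i, H i) := by
  intro sub P j hc
  obtain ⟨i, hi⟩ := Set.mem_iUnion.1 hc
  obtain ⟨h1, h2⟩ := h i sub P j hi
  exact ⟨fun i' => Set.mem_iUnion.2 ⟨i, h1 i'⟩, fun j' => Set.mem_iUnion.2 ⟨i, h2 j'⟩⟩

lemma hclosed_union {H H' : Set (Code I Γ)} (h : HClosed H) (h' : HClosed H') :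
    HClosed (H ∪ H') := by
  intro sub P j hc
  rcases hc with hc | hc
  · obtain ⟨h1, h2⟩ := h sub P j hc
    exact ⟨fun i' => Or.inl (h1 i'), fun j' => Or.inl (h2 j')⟩
  · obtain ⟨h1, h2⟩ := h' sub P j hc
    exact ⟨fun i' => Or.inr (h1 i'), fun j' => Or.inr (h2 j')⟩

lemma hclosed_hull (c : Code I Γ) : HClosed (hull c) := by
  induction c with
  | base γ =>
    intro sub P j h
    rw [hull_base] at h
    exact absurd h (by simp)
  | ext sub P j ih =>
    intro sub' P' j' h
    rw [hull_ext] at h ⊢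
    rcases h with h | ⟨j'', h⟩
    · obtain ⟨h1, h2⟩ := hclosed_iUnion ih sub' P' j' h
      exact ⟨fun i' => Or.inl (h1 i'), fun j' => Or.inl (h2 j')⟩
    · simp only [Code.ext.injEq] at h
      obtain ⟨rfl, rfl, rfl⟩ := h
      exact ⟨fun i => Or.inl (Set.mem_iUnion.2 ⟨i, mem_hull _⟩), fun j' => Or.inr ⟨j', rfl⟩⟩

/-- the rank of a code -/
noncomputable def rk : Code I Γ → Ordinal.{u}
  | .base _ => 0
  | .ext sub _ _ => ⨆ i, Order.succ (rk (sub i))

lemma rk_ext (sub : I → Code I Γ) (P : Comb I → ℝ) (j : I) :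
    rk (.ext sub P j) = ⨆ i, Order.succ (rk (sub i)) := by rw [rk]

lemma rk_lt (sub : I → Code I Γ) (P : Comb I → ℝ) (j i : I) :
    rk (sub i) < rk (.ext sub P j) := by
  rw [rk_ext]
  exact (Order.lt_succ _).trans_le (Ordinal.le_iSup (fun i => Order.succ (rk (sub i))) i)

lemma rk_le_of_mem_hull (c : Code I Γ) : ∀ c' ∈ hull c, rk c' ≤ rk c := by
  induction c with
  | base γ =>
    intro c' h
    rw [hull_base] at h
    rw [Set.mem_singleton_iff.1 h]
  | ext sub P j ih =>
    intro c' h
    rw [hull_ext] at h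
    rcases h with h | ⟨j', rfl⟩
    · obtain ⟨i, hi⟩ := Set.mem_iUnion.1 h
      exact (ih i c' hi).trans (rk_lt sub P j i).le
    · simp only [rk_ext]
      exact le_rfl

lemma ext_not_mem_hull (sub : I → Code I Γ) (P : Comb I → ℝ) (j i : I) :
    Code.ext sub P j ∉ hull (sub i) := fun h =>
  absurd (rk_le_of_mem_hull _ _ h) (not_le.2 (rk_lt sub P j i))

lemma mk_hull_le [Infinite I] (c : Code I Γ) : #(hull c) ≤ #I := by
  have hI : ℵ₀ ≤ #I := Cardinal.aleph0_le_mk I
  induction c with
  | base γ =>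
    rw [hull_base]
    simp only [Cardinal.mk_fintype, Fintype.card_unique, Nat.cast_one]
    exact Cardinal.one_le_aleph0.trans hI
  | ext sub P j ih =>
    rw [hull_ext]
    refine (Cardinal.mk_union_le _ _).trans ?_
    refine Cardinal.add_le_of_le hI ?_ Cardinal.mk_range_le
    refine (Cardinal.mk_iUnion_le _).trans ?_
    refine Cardinal.mul_le_of_le hI le_rfl ?_
    exact ciSup_le' ih

end Pool.Agent.Helper78.UD
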