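import Mathlib
import Pool.Agent.Helper78.UDSpace
import Pool.Agent.Helper78.UDPair

/-!
# Supports
-/

set_option autoImplicit false

universe u

open Cardinal

namespace Pool.Agent.Helper78.UD

variable {I Γ : Type u}

/-- closed span of a set of codes -/
noncomputable def cspan (H : Set (Code I Γ)) : Submodule ℝ (XT I Γ) :=
  (Submodule.span ℝ (evX '' H)).topologicalClosure

lemma cspan_mono {H H' : Set (Code I Γ)} (h : H ⊆ H') : cspan H ≤ cspan H' :=
  Submodule.topologicalClosure_mono (Submodule.span_mono (Set.image_mono h))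

lemma exists_supp [Infinite I] (x : XT I Γ) :
    ∃ H : Set (Code I Γ), HClosed H ∧ #H ≤ #I ∧ x ∈ cspan H := by
  have hI : ℵ₀ ≤ #I := Cardinal.aleph0_le_mk I
  have hx : toB x ∈ closure (Submodule.span ℝ (Set.range (ev : Code I Γ → _)) : Set _) := x.2
  obtain ⟨y, hy, hlim⟩ := mem_closure_iff_seq_limit.1 hx
  have h1 : ∀ n, ∃ c : Code I Γ →₀ ℝ, (Finsupp.linearCombination ℝ ev c) = y n := by
    intro n
    exact (Finsupp.mem_span_range_iff_exists_finsupp).1 (hy n)
  choose c hc using h1
  let H : Set (Code I Γ) := ⋃ n : ℕ, ⋃ d : (c n).support, hull d.1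
  refine ⟨H, hclosed_iUnion fun n => hclosed_iUnion fun d => hclosed_hull _, ?_, ?_⟩
  · have h2 : ∀ n, #(⋃ d : (c n).support, hull d.1 : Set (Code I Γ)) ≤ #I := by
      intro n
      refine (Cardinal.mk_iUnion_le _).trans ?_
      refine Cardinal.mul_le_of_le hI ?_ (ciSup_le' fun d => mk_hull_le _)
      exact (Cardinal.mk_le_aleph0).trans hI
    have h3 := Cardinal.mk_iUnion_le_lift (fun n : ℕ => ⋃ d : (c n).support, hull d.1)
    rw [Cardinal.lift_uzero] at h3
    refine h3.trans ?_
    refine Cardinal.mul_le_of_le hI ?_ ?_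
    · rw [Cardinal.mk_nat, Cardinal.lift_aleph0]
      exact hI
    · exact ciSup_le' fun n => by simpa using h2 n
  · let z : ℕ → XT I Γ := fun n => Finsupp.linearCombination ℝ evX (c n)
    have hz : ∀ n, toB (z n) = y n := by
      intro n
      rw [← hc n]
      exact Finsupp.apply_linearCombination ℝ (toB (I := I) (Γ := Γ)).toLinearMap evX (c n)
    have hz2 : ∀ n, z n ∈ Submodule.span ℝ (evX '' H) := by
      intro n
      show Finsupp.linearCombination ℝ evX (c n) ∈ _
      rw [Finsupp.linearCombination_apply]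
      refine Submodule.sum_mem _ fun d hd => Submodule.smul_mem _ _ (Submodule.subset_span ?_)
      exact ⟨d, Set.mem_iUnion.2 ⟨n, Set.mem_iUnion.2 ⟨⟨d, hd⟩, mem_hull d⟩⟩, rfl⟩
    have hlim' : Filter.Tendsto z Filter.atTop (nhds x) := by
      rw [(toB (I := I) (Γ := Γ)).isometry.isUniformInducing.isInducing.tendsto_nhds_iff]
      exact hlim.congr fun n => (hz n).symm
    exact mem_closure_of_tendsto hlim' (Filter.Eventually.of_forall hz2)

/-- a common support for a small family -/
lemma exists_supp_family [Infinite I] {J : Type u} (hJ : #J ≤ #I) (f : J → XT I Γ) :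
    ∃ H : Set (Code I Γ), HClosed H ∧ #H ≤ #I ∧ ∀ j, f j ∈ cspan H := by
  have hI : ℵ₀ ≤ #I := Cardinal.aleph0_le_mk I
  choose H h1 h2 h3 using fun j => exists_supp (f j)
  refine ⟨⋃ j, H j, hclosed_iUnion h1, ?_, fun j => cspan_mono (Set.subset_iUnion _ j) (h3 j)⟩
  refine (Cardinal.mk_iUnion_le _).trans ?_
  exact Cardinal.mul_le_of_le hI hJ (ciSup_le' h2)

/-- enumeration of a support -/
lemma exists_enum [Infinite I] {J : Type u} (hJ : #J ≤ #I) (f : J → XT I Γ) (c0 : Code I Γ) :
    ∃ h : I → Code I Γ, HClosed (Set.range h) ∧ ∀ j, f j ∈ cspan (Set.range h) := by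
  have hI : ℵ₀ ≤ #I := Cardinal.aleph0_le_mk I
  obtain ⟨H, h1, h2, h3⟩ := exists_supp_family hJ f
  have h4 : HClosed (H ∪ hull c0) := hclosed_union h1 (hclosed_hull c0)
  have h5 : #(H ∪ hull c0 : Set (Code I Γ)) ≤ #I :=
    (Cardinal.mk_union_le _ _).trans (Cardinal.add_le_of_le hI h2 (mk_hull_le c0))
  obtain ⟨e⟩ := (Cardinal.le_def _ _).1 h5
  have hne : Nonempty (H ∪ hull c0 : Set (Code I Γ)) := ⟨⟨c0, Or.inr (mem_hull c0)⟩⟩
  have hs : Function.Surjective (Function.invFun e) := Function.invFun_surjective e.injective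
  refine ⟨fun i => (Function.invFun e i).1, ?_, ?_⟩
  · have : Set.range (fun i => (Function.invFun e i).1) = H ∪ hull c0 := by
      ext c
      constructor
      · rintro ⟨i, rfl⟩
        exact (Function.invFun e i).2
      · intro hc
        obtain ⟨i, hi⟩ := hs ⟨c, hc⟩
        exact ⟨i, by simp [hi]⟩
    rw [this]
    exact h4
  · intro j
    refine cspan_mono ?_ (h3 j)
    intro c hc
    obtain ⟨i, hi⟩ := hs ⟨c, Or.inl hc⟩
    exact ⟨i, by simp [hi]⟩

/-- the evaluations as continuous functionals -/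
noncomputable def evalC (k : KT I Γ) : XT I Γ →L[ℝ] ℝ :=
  (evalK k).mkContinuous 1 (fun x => by
    rw [one_mul]
    exact abs_evalK_le k x)

lemma eval_eq_of_agree {H : Set (Code I Γ)} {x : XT I Γ} (hx : x ∈ cspan H) {k k' : KT I Γ}
    (h : ∀ c ∈ H, k.1 c = k'.1 c) : evalK k x = evalK k' x := by
  have h1 : cspan H ≤ LinearMap.ker ((evalC k - evalC k' : XT I Γ →L[ℝ] ℝ) : XT I Γ →ₗ[ℝ] ℝ) := by
    refine Submodule.topologicalClosure_minimal _ ?_ ?_
    · rw [Submodule.span_le]
      rintro _ ⟨c, hc, rfl⟩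
      show evalK k (evX c) - evalK k' (evX c) = 0
      rw [evalK_evX, evalK_evX, h c hc, sub_self]
    · exact ContinuousLinearMap.isClosed_ker (evalC k - evalC k')
  have h2 : evalK k x - evalK k' x = 0 := h1 hx
  linarith

end Pool.Agent.Helper78.UD
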