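import Mathlib
import Pool.Agent.Helper78.UDSupp

/-!
# Failure of homogeneity
-/

set_option autoImplicit false

universe u

open Cardinal

namespace Pool.Agent.Helper78.UD

variable {I Γ : Type u}

lemma functional_eq_of_agree {H : Set (Code I Γ)} {x : XT I Γ} (hx : x ∈ cspan H) {k : KT I Γ}
    (φ : XT I Γ →L[ℝ] ℝ) (h : ∀ c ∈ H, φ (evX c) = k.1 c) : φ x = evalK k x := by
  have h1 : cspan H ≤ LinearMap.ker ((φ - evalC k : XT I Γ →L[ℝ] ℝ) : XT I Γ →ₗ[ℝ] ℝ) := by
    refine Submodule.topologicalClosure_minimal _ ?_ ?_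
    · rw [Submodule.span_le]
      rintro _ ⟨c, hc, rfl⟩
      show φ (evX c) - evalK k (evX c) = 0
      rw [evalK_evX, h c hc, sub_self]
    · exact ContinuousLinearMap.isClosed_ker (φ - evalC k)
  have h2 : φ x - evalK k x = 0 := h1 hx
  linarith

/-- combinations of points of the dual ball -/
lemma exists_comb [Infinite I] (k k' : KT I Γ) (a b : ℝ) (hab : |a| + |b| ≤ 1) :
    ∃ k'' : KT I Γ, (∀ c, k''.1 c = a * k.1 c + b * k'.1 c) ∧
      ∀ x, evalK k'' x = a * evalK k x + b * evalK k' x := by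
  let φ : XT I Γ →L[ℝ] ℝ := a • evalC k + b • evalC k'
  have hφ : ∀ x, φ x = a * evalK k x + b * evalK k' x := fun x => rfl
  have hb : ∀ x, |φ.toLinearMap x| ≤ ‖x‖ := by
    intro x
    show |φ x| ≤ ‖x‖
    rw [hφ]
    calc |a * evalK k x + b * evalK k' x| ≤ |a * evalK k x| + |b * evalK k' x| := abs_add_le _ _
      _ = |a| * |evalK k x| + |b| * |evalK k' x| := by rw [abs_mul, abs_mul]
      _ ≤ |a| * ‖x‖ + |b| * ‖x‖ := by
        gcongr
        · exact abs_evalK_le k x
        · exact abs_evalK_le k' x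
      _ = (|a| + |b|) * ‖x‖ := by ring
      _ ≤ 1 * ‖x‖ := by gcongr
      _ = ‖x‖ := one_mul _
  refine ⟨⟨fun c => φ (evX c), isK_of_functional φ.toLinearMap hb⟩, fun c => rfl, fun x => ?_⟩
  obtain ⟨H, _, _, hx⟩ := exists_supp x
  rw [← hφ x]
  exact (functional_eq_of_agree (k := ⟨fun c => φ (evX c), isK_of_functional φ.toLinearMap hb⟩)
    hx φ (fun c _ => rfl)).symm

lemma exists_near_norm [Infinite I] (x : XT I Γ) {r : ℝ} (h0 : 0 ≤ r) (hr : r < ‖x‖) :
    ∃ k : KT I Γ, r < evalK k x := by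
  by_contra hcon
  push Not at hcon
  refine absurd (norm_le_of h0 fun k => ?_) (not_le.2 hr)
  rw [abs_le]
  refine ⟨?_, hcon k⟩
  obtain ⟨k'', _, h2⟩ := exists_comb k k (-1) 0 (by simp)
  have := hcon k''
  rw [h2] at this
  linarith

/-! ### The free vector -/

/-- The norm of the free extension. -/
noncomputable def P1 (x : Comb I) : ℝ :=
  |Finsupp.linearCombination ℝ (fun _ : I => (1 : ℝ)) x.1| +
    |Finsupp.linearCombination ℝ (fun _ : I => (1 : ℝ)) x.2|

lemma linComb_const (v : ℝ) (a : I →₀ ℝ) :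
    Finsupp.linearCombination ℝ (fun _ : I => v) a =
      v * Finsupp.linearCombination ℝ (fun _ : I => (1 : ℝ)) a := by
  rw [Finsupp.linearCombination_apply, Finsupp.linearCombination_apply, Finsupp.mul_sum]
  apply Finsupp.sum_congr
  intro i _
  simp [mul_comm]

lemma isSemi_P1 : IsSemi (P1 (I := I)) := by
  constructor
  · intro x y
    simp only [P1, Prod.fst_add, Prod.snd_add, map_add]
    have h1 := abs_add_le (Finsupp.linearCombination ℝ (fun _ : I => (1 : ℝ)) x.1)
      (Finsupp.linearCombination ℝ (fun _ : I => (1 : ℝ)) y.1)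
    have h2 := abs_add_le (Finsupp.linearCombination ℝ (fun _ : I => (1 : ℝ)) x.2)
      (Finsupp.linearCombination ℝ (fun _ : I => (1 : ℝ)) y.2)
    linarith
  · intro c x
    simp only [P1, Prod.smul_fst, Prod.smul_snd, map_smul, smul_eq_mul, abs_mul]
    ring

lemma valid_P1 (γ : Γ) : Valid (fun _ : I => (Code.base γ : Code I Γ)) P1 := by
  refine ⟨isSemi_P1, fun k' hk' _ a => ?_⟩
  rw [linComb_const, abs_mul]
  have h1 : |k' (.base γ)| ≤ 1 := hk'.1 γ
  have h2 : P1 ((a, 0) : Comb I) = |Finsupp.linearCombination ℝ (fun _ : I => (1 : ℝ)) a| := by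
    simp [P1]
  rw [h2]
  have h3 := abs_nonneg (Finsupp.linearCombination ℝ (fun _ : I => (1 : ℝ)) a)
  nlinarith

/-- the free code -/
noncomputable def cf (γ : Γ) (j : I) : Code I Γ := .ext (fun _ => .base γ) P1 j

lemma norm_cf_le (γ : Γ) (j : I) : ‖evX (cf γ j)‖ ≤ 1 := by
  refine norm_le_of zero_le_one fun k => ?_
  have := ((ok_ext _ _ _ _).1 (k.2.2 (cf γ j))).2.1 (valid_P1 γ) (0, Finsupp.single j 1)
  rw [evalK_evX]
  simpa [lin, P1, cf] using this

lemma exists_switch [Infinite I] (k : KT I Γ) (γ : Γ) (j : I) :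
    ∃ k' : KT I Γ, (∀ γ', k'.1 (.base γ') = k.1 (.base γ')) ∧ k'.1 (cf γ j) = 1 := by
  let k1 : Code I Γ → ℝ := fun c => match c with
    | .base γ' => k.1 (.base γ')
    | .ext _ _ _ => 1
  have hb : (fun γ' => k1 (.base γ')) ∈ K0 Γ := k.2.1
  have hk : ∀ c ∈ hull (cf γ j), OK c k1 := by
    intro c hc
    rw [cf, hull_ext] at hc
    rcases hc with hc | ⟨j', rfl⟩
    · obtain ⟨i, hi⟩ := Set.mem_iUnion.1 hc
      rw [hull_base] at hi
      rw [Set.mem_singleton_iff.1 hi]
      exact ok_base _ _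
    · rw [ok_ext]
      refine ⟨fun i => ok_base _ _, fun _ x => ?_, fun hv => absurd (valid_P1 γ) hv⟩
      show |lin (fun _ : I => k.1 (.base γ)) (fun _ : I => (1 : ℝ)) x| ≤ P1 x
      rw [lin, P1, linComb_const]
      have h1 : |k.1 (.base γ)| ≤ 1 := k.2.1.1 γ
      have h3 := abs_nonneg (Finsupp.linearCombination ℝ (fun _ : I => (1 : ℝ)) x.1)
      calc _ ≤ |k.1 (.base γ) * Finsupp.linearCombination ℝ (fun _ : I => (1 : ℝ)) x.1| +
            |Finsupp.linearCombination ℝ (fun _ : I => (1 : ℝ)) x.2| := abs_add_le _ _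
        _ ≤ _ := by
          rw [abs_mul]
          nlinarith
  refine ⟨⟨extK (hull (cf γ j)) k1, isK_extK (hclosed_hull _) hb hk⟩, ?_, ?_⟩
  · intro γ'
    exact extK_base (hull (cf γ j)) k1 γ'
  · exact (extK_mem (mem_hull (cf γ j))).trans rfl

lemma norm_cf [Infinite I] (γ : Γ) (j : I) : ‖evX (cf γ j)‖ = 1 := by
  refine le_antisymm (norm_cf_le γ j) ?_
  obtain ⟨k0, _⟩ := exists_K_base (I := I) (fun _ => 0 : Γ → ℝ) zero_mem_K0
  obtain ⟨k', _, h2⟩ := exists_switch k0 γ j
  have := abs_evalK_le k' (evX (cf γ j))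
  rw [evalK_evX, h2] at this
  simpa using this

/-! ### The base vectors -/

lemma norm_base (γ : Γ) : ‖(evX (.base γ) : XT I Γ)‖ = 1 := by
  classical
  refine le_antisymm (norm_le_of zero_le_one fun k => k.2.1.1 γ) ?_
  let f : Γ → ℝ := fun γ' => if γ' = γ then 1 else -1 / 3
  have hf : f ∈ K0 Γ := by
    constructor
    · intro γ'
      simp only [f]
      split_ifs
      · simp
      · rw [abs_le]; constructor <;> norm_num
    · intro γ1 γ2 hne
      simp only [f]
      split_ifs with h1 h2 h2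
      · exact absurd (h1.trans h2.symm) hne
      · rw [abs_le]; constructor <;> norm_num
      · rw [abs_le]; constructor <;> norm_num
      · rw [abs_le]; constructor <;> norm_num
  obtain ⟨k, hk⟩ := exists_K_base (I := I) f hf
  have := abs_evalK_le k (evX (.base γ))
  rw [evalK_evX, hk] at this
  simpa [f] using this

lemma norm_base_add (γ γ' : Γ) (h : γ ≠ γ') :
    ‖(evX (.base γ) + evX (.base γ') : XT I Γ)‖ ≤ 2 / 3 := by
  refine norm_le_of (by norm_num) fun k => ?_
  rw [map_add]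
  exact k.2.1.2 γ γ' h

/-! ### Gluing -/

lemma exists_glue {H H' : Set (Code I Γ)} (hH : HClosed H) (hH' : HClosed H') (k k' : KT I Γ)
    (h0 : ∀ γ, k.1 (.base γ) = 0) (h0' : ∀ γ, k'.1 (.base γ) = 0)
    (hag : ∀ c ∈ H, c ∈ H' → k.1 c = k'.1 c) :
    ∃ k'' : KT I Γ, (∀ c ∈ H, k''.1 c = k.1 c) ∧ ∀ c ∈ H', k''.1 c = k'.1 c := by
  classical
  let k1 : Code I Γ → ℝ := fun c => if c ∈ H then k.1 c else k'.1 c
  have e1 : ∀ c ∈ H, k1 c = k.1 c := fun c hc => if_pos hc
  have e2 : ∀ c ∈ H', k1 c = k'.1 c := by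
    intro c hc
    by_cases h : c ∈ H
    · rw [e1 c h]
      exact hag c h hc
    · exact if_neg h
  have hb : (fun γ => k1 (.base γ)) ∈ K0 Γ := by
    have : (fun γ => k1 (.base γ)) = fun _ => 0 := by
      funext γ
      simp only [k1]
      split_ifs
      · exact h0 γ
      · exact h0' γ
    rw [this]
    exact zero_mem_K0
  have hk : ∀ c ∈ H ∪ H', OK c k1 := by
    rintro c (hc | hc)
    · exact ok_congr hH (fun c hc => (e1 c hc).symm) c hc (k.2.2 c)
    · exact ok_congr hH' (fun c hc => (e2 c hc).symm) c hc (k'.2.2 c)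
  refine ⟨⟨extK (H ∪ H') k1, isK_extK (hclosed_union hH hH') hb hk⟩, ?_, ?_⟩
  · intro c hc
    show extK _ k1 c = _
    rw [extK_mem (Or.inl hc), e1 c hc]
  · intro c hc
    show extK _ k1 c = _
    rw [extK_mem (Or.inr hc), e2 c hc]

/-- No isometry maps the base vector to the free vector. -/
theorem no_isometry [Infinite I] (hΓ : 2 ^ #I < #Γ) (j : I)
    (Φ : XT I (Option Γ) →ₗᵢ[ℝ] XT I (Option Γ))
    (hΦ : Φ (evX (.base none)) = evX (cf none j)) : False := by
  have hJ : #PUnit.{u + 1} ≤ #I := by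
    simp only [Cardinal.mk_fintype, Fintype.card_unique, Nat.cast_one]
    exact Cardinal.one_le_aleph0.trans (Cardinal.aleph0_le_mk I)
  have h1 : ∀ γ : Γ, ∃ h : I → Code I (Option Γ), HClosed (Set.range h) ∧
      Φ (evX (.base (some γ))) ∈ cspan (Set.range h) := by
    intro γ
    obtain ⟨h, ha, hb⟩ := exists_enum hJ (fun _ => Φ (evX (.base (some γ)))) (.base none)
    exact ⟨h, ha, hb PUnit.unit⟩
  choose h hcl hsp using h1
  have h2 : ∀ γ : Γ, ∃ k : KT I (Option Γ), (∀ γ', k.1 (.base γ') = 0) ∧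
      7 / 12 ≤ evalK k (Φ (evX (.base (some γ)))) := by
    intro γ
    obtain ⟨k, hk⟩ := exists_near_norm (Φ (evX (.base (some γ)))) (r := 5 / 6) (by norm_num)
      (by rw [Φ.norm_map, norm_base]; norm_num)
    obtain ⟨k', hk1, hk2⟩ := exists_switch k none j
    obtain ⟨k'', hk3, hk4⟩ := exists_comb k k' (1 / 2) (-1 / 2) (by
      rw [abs_of_pos (by norm_num), abs_of_neg (by norm_num)]; norm_num)
    refine ⟨k'', ?_, ?_⟩
    · intro γ'
      rw [hk3, hk1]
      ring
    · rw [hk4]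
      have h3 : evalK k' (Φ (evX (.base none)) + Φ (evX (.base (some γ)))) ≤ 2 / 3 := by
        refine (le_abs_self _).trans ((abs_evalK_le _ _).trans ?_)
        rw [← map_add, Φ.norm_map]
        exact norm_base_add _ _ (by simp)
      rw [map_add, hΦ, evalK_evX, hk2] at h3
      linarith
  choose κ hκ0 hκ using h2
  obtain ⟨γ, γ', hne, hag⟩ := exists_pair hΓ h (fun γ => (κ γ).1)
  obtain ⟨k, hk1, hk2⟩ := exists_glue (hcl γ) (hcl γ') (κ γ) (κ γ') (hκ0 γ) (hκ0 γ') (by
    rintro c ⟨i, rfl⟩ ⟨i', hi'⟩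
    exact hag i i' hi'.symm)
  have e1 : evalK k (Φ (evX (.base (some γ)))) = evalK (κ γ) (Φ (evX (.base (some γ)))) :=
    eval_eq_of_agree (hsp γ) hk1
  have e2 : evalK k (Φ (evX (.base (some γ')))) = evalK (κ γ') (Φ (evX (.base (some γ')))) :=
    eval_eq_of_agree (hsp γ') hk2
  have h3 : evalK k (Φ (evX (.base (some γ))) + Φ (evX (.base (some γ')))) ≤ 2 / 3 := by
    refine (le_abs_self _).trans ((abs_evalK_le _ _).trans ?_)
    rw [← map_add, Φ.norm_map]
    exact norm_base_add _ _ (by simpa using hne)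
  rw [map_add, e1, e2] at h3
  have := hκ γ
  have := hκ γ'
  linarith

end Pool.Agent.Helper78.UD
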