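import Mathlib
import Pool.Agent.Helper78.UDSupp

/-!
# Universal disposition of the space
-/

set_option autoImplicit false

universe u

open Cardinal

namespace Pool.Agent.Helper78.UD

variable {I Γ : Type u}

lemma eq_lin (ψ : Comb I →ₗ[ℝ] ℝ) (x : Comb I) :
    lin (fun i => ψ (Finsupp.single i 1, 0)) (fun j => ψ (0, Finsupp.single j 1)) x = ψ x := by
  obtain ⟨a, d⟩ := x
  have h1 : Finsupp.linearCombination ℝ (fun i => ψ (Finsupp.single i 1, 0)) a = ψ (a, 0) := by
    have e : (ψ.comp (LinearMap.inl ℝ (I →₀ ℝ) (I →₀ ℝ))) =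
        Finsupp.linearCombination ℝ (fun i => ψ (Finsupp.single i 1, 0)) := by
      ext j
      simp
    exact (congrArg (fun L => L a) e).symm
  have h2 : Finsupp.linearCombination ℝ (fun j => ψ (0, Finsupp.single j 1)) d = ψ (0, d) := by
    have e : (ψ.comp (LinearMap.inr ℝ (I →₀ ℝ) (I →₀ ℝ))) =
        Finsupp.linearCombination ℝ (fun j => ψ (0, Finsupp.single j 1)) := by
      ext j
      simp
    exact (congrArg (fun L => L d) e).symm
  have h3 : ((a, d) : Comb I) = (a, 0) + (0, d) := by simp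
  rw [lin, h1, h2, h3, map_add]

/-- a norming functional of a seminorm -/
lemma exists_norming {P : Comb I → ℝ} (hP : IsSemi P) (x : Comb I) :
    ∃ ψ : Comb I →ₗ[ℝ] ℝ, ψ x = P x ∧ ∀ y, |ψ y| ≤ P y := by
  have habs : ∀ g : Comb I →ₗ[ℝ] ℝ, (∀ y, g y ≤ P y) → ∀ y, |g y| ≤ P y := by
    intro g hg y
    rw [abs_le]
    refine ⟨?_, hg y⟩
    have := hg ((-1 : ℝ) • y)
    rw [hP.2, map_smul] at this
    simp at this
    linarith
  by_cases hx : x = 0
  · refine ⟨0, ?_, fun y => ?_⟩
    · have := hP.2 0 (0 : Comb I)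
      rw [hx]
      simp at this ⊢
      exact this.symm
    · simpa using hP.nonneg y
  · let f : Comb I →ₗ.[ℝ] ℝ := LinearPMap.mkSpanSingleton x (P x) hx
    obtain ⟨g, hg1, hg2⟩ := exists_extension_of_le_sublinear f P
      (fun c hc x => by rw [hP.2, abs_of_pos hc]) hP.1 (by
        rintro ⟨y, hy⟩
        obtain ⟨c, rfl⟩ := Submodule.mem_span_singleton.1 hy
        have e : f ⟨c • x, hy⟩ = c • P x := LinearPMap.mkSpanSingleton'_apply x (P x) _ c hy
        rw [e]
        show c • P x ≤ P (c • x)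
        rw [hP.2, smul_eq_mul]
        exact mul_le_mul_of_nonneg_right (le_abs_self c) (hP.nonneg x))
    refine ⟨g, ?_, habs g hg2⟩
    have h1 : x ∈ f.domain := Submodule.mem_span_singleton_self x
    have h2 := hg1 ⟨x, h1⟩
    rw [show g x = g ((⟨x, h1⟩ : f.domain) : Comb I) from rfl, h2]
    exact LinearPMap.mkSpanSingleton_apply ℝ ℝ hx (P x)

/-- Functionals on the old vectors dominated by the norm come from the dual ball. -/
lemma exists_K_of_dominated (s : I → Code I Γ) (ψ : (I →₀ ℝ) →ₗ[ℝ] ℝ)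
    (hψ : ∀ a, |ψ a| ≤ ‖Finsupp.linearCombination ℝ (fun i => (evX (s i) : XT I Γ)) a‖) :
    ∃ k : KT I Γ, ∀ i, k.1 (s i) = ψ (Finsupp.single i 1) := by
  let L1 : (I →₀ ℝ) →ₗ[ℝ] XT I Γ := Finsupp.linearCombination ℝ (fun i => evX (s i))
  have h1 : ψ ∈ LinearMap.range L1.dualMap := by
    rw [LinearMap.range_dualMap_eq_dualAnnihilator_ker, Submodule.mem_dualAnnihilator]
    intro a ha
    have h2 := hψ a
    have h3 : Finsupp.linearCombination ℝ (fun i => (evX (s i) : XT I Γ)) a = 0 := ha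
    rw [h3, norm_zero] at h2
    exact abs_eq_zero.1 (le_antisymm h2 (abs_nonneg _))
  obtain ⟨g, hg⟩ := h1
  have hg' : ∀ a, g (L1 a) = ψ a := fun a => by rw [← hg]; rfl
  let f : XT I Γ →ₗ.[ℝ] ℝ :=
    { domain := LinearMap.range L1
      toFun := g.comp (Submodule.subtype _) }
  obtain ⟨φ, hφ1, hφ2⟩ := exists_extension_of_le_sublinear f (fun y => ‖y‖)
    (fun c hc x => by rw [norm_smul, Real.norm_eq_abs, abs_of_pos hc])
    (fun x y => norm_add_le x y) (by
      rintro ⟨y, a, rfl⟩
      show g (L1 a) ≤ ‖L1 a‖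
      rw [hg']
      exact (le_abs_self _).trans (hψ a))
  have hφ3 : ∀ y, |φ y| ≤ ‖y‖ := by
    intro y
    rw [abs_le]
    refine ⟨?_, hφ2 y⟩
    have := hφ2 (-y)
    rw [map_neg, norm_neg] at this
    linarith
  refine ⟨⟨fun c => φ (evX c), isK_of_functional φ hφ3⟩, fun i => ?_⟩
  show φ (evX (s i)) = _
  have h4 : L1 (Finsupp.single i 1) = evX (s i) := by
    show Finsupp.linearCombination ℝ (fun i => (evX (s i) : XT I Γ)) (Finsupp.single i 1) = _
    rw [Finsupp.linearCombination_single, one_smul]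
  have h5 := hφ1 ⟨L1 (Finsupp.single i 1), ⟨_, rfl⟩⟩
  rw [← hg' (Finsupp.single i 1), ← h4]
  exact h5

/-- The norm of the extension. -/
lemma norm_ext_eq (s : I → Code I Γ) (hs : HClosed (Set.range s)) (P : Comb I → ℝ)
    (hP : IsSemi P)
    (hP1 : ∀ a : I →₀ ℝ,
      P (a, 0) = ‖Finsupp.linearCombination ℝ (fun i => (evX (s i) : XT I Γ)) a‖) (x : Comb I) :
    ‖Finsupp.linearCombination ℝ (fun i => (evX (s i) : XT I Γ)) x.1 +
      Finsupp.linearCombination ℝ (fun j => (evX (.ext s P j) : XT I Γ)) x.2‖ = P x := by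
  classical
  have hval : Valid s P := by
    refine ⟨hP, fun k' hb hk a => ?_⟩
    have hk2 : IsK (extK (Set.range s) k') := isK_extK hs hb (by
      rintro _ ⟨i, rfl⟩
      exact hk i)
    have h1 := abs_evalK_le (⟨_, hk2⟩ : KT I Γ)
      (Finsupp.linearCombination ℝ (fun i => (evX (s i) : XT I Γ)) a)
    rw [Finsupp.apply_linearCombination] at h1
    have e : (evalK (⟨_, hk2⟩ : KT I Γ) ∘ fun i => (evX (s i) : XT I Γ)) = fun i => k' (s i) := by
      funext i
      show extK (Set.range s) k' (s i) = k' (s i)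
      exact extK_mem ⟨i, rfl⟩
    rw [e] at h1
    rw [hP1]
    exact h1
  have heval : ∀ k : KT I Γ, evalK k (Finsupp.linearCombination ℝ (fun i => (evX (s i) : XT I Γ)) x.1 +
      Finsupp.linearCombination ℝ (fun j => (evX (.ext s P j) : XT I Γ)) x.2) =
      lin (fun i => k.1 (s i)) (fun j => k.1 (.ext s P j)) x := by
    intro k
    rw [map_add, Finsupp.apply_linearCombination, Finsupp.apply_linearCombination]
    rfl
  apply le_antisymm
  · refine norm_le_of (hP.nonneg x) fun k => ?_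
    rw [heval]
    cases isEmpty_or_nonempty I with
    | inl hI =>
      have : lin (fun i => k.1 (s i)) (fun j => k.1 (.ext s P j)) x = 0 := by
        have e1 : x = 0 := Subsingleton.elim _ _
        rw [e1]
        simp [lin]
      rw [this, abs_zero]
      exact hP.nonneg x
    | inr hI =>
      obtain ⟨j⟩ := hI
      exact ((ok_ext _ _ _ _).1 (k.2.2 (.ext s P j))).2.1 hval x
  · obtain ⟨ψ, hψ1, hψ2⟩ := exists_norming hP x
    obtain ⟨kφ, hkφ⟩ := exists_K_of_dominated s (ψ.comp (LinearMap.inl ℝ (I →₀ ℝ) (I →₀ ℝ)))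
      (fun a => (hψ2 (a, 0)).trans (hP1 a).le)
    have hnot : ∀ j, Code.ext s P j ∉ Set.range s := by
      rintro j ⟨i, hi⟩
      have := rk_lt s P j i
      rw [hi] at this
      exact absurd this (lt_irrefl _)
    let k1 : Code I Γ → ℝ := fun c => match c with
      | .base γ => kφ.1 (.base γ)
      | .ext s' P' j => if Code.ext s' P' j ∈ Set.range s then kφ.1 (.ext s' P' j) else
          ψ (0, Finsupp.single j 1)
    have e1 : ∀ c ∈ Set.range s, k1 c = kφ.1 c := by
      intro c hc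
      cases c with
      | base γ => rfl
      | ext s' P' j => exact if_pos hc
    have e2 : ∀ j, k1 (.ext s P j) = ψ (0, Finsupp.single j 1) := fun j => if_neg (hnot j)
    have hH : HClosed (Set.range s ∪ Set.range (fun j => Code.ext s P j)) := by
      intro s' P' j' hc
      rcases hc with hc | ⟨j, hj⟩
      · obtain ⟨h1, h2⟩ := hs s' P' j' hc
        exact ⟨fun i => Or.inl (h1 i), fun j => Or.inl (h2 j)⟩
      · simp only [Code.ext.injEq] at hj
        obtain ⟨rfl, rfl, rfl⟩ := hj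
        exact ⟨fun i => Or.inl ⟨i, rfl⟩, fun j' => Or.inr ⟨j', rfl⟩⟩
    have hOKs : ∀ c ∈ Set.range s, OK c k1 := fun c hc =>
      ok_congr hs (fun c hc => (e1 c hc).symm) c hc (kφ.2.2 c)
    have e3 : lin (fun i => k1 (s i)) (fun j => k1 (.ext s P j)) = ψ := by
      funext y
      rw [← eq_lin ψ y]
      congr 1
      · funext i
        rw [e1 _ ⟨i, rfl⟩, hkφ]
        rfl
      · funext j
        rw [e2]
    have hOK : ∀ c ∈ Set.range s ∪ Set.range (fun j => Code.ext s P j), OK c k1 := by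
      rintro c (hc | ⟨j, rfl⟩)
      · exact hOKs c hc
      · rw [ok_ext]
        refine ⟨fun i => hOKs _ ⟨i, rfl⟩, fun _ y => ?_, fun hv => absurd hval hv⟩
        rw [e3]
        exact hψ2 y
    have hb : (fun γ => k1 (.base γ)) ∈ K0 Γ := kφ.2.1
    let H := Set.range s ∪ Set.range (fun j => Code.ext s P j)
    let k2 : KT I Γ := ⟨extK H k1, isK_extK hH hb hOK⟩
    have h4 := abs_evalK_le k2 (Finsupp.linearCombination ℝ (fun i => (evX (s i) : XT I Γ)) x.1 +
      Finsupp.linearCombination ℝ (fun j => (evX (.ext s P j) : XT I Γ)) x.2)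
    rw [heval] at h4
    have e4 : lin (fun i => k2.1 (s i)) (fun j => k2.1 (.ext s P j)) x = ψ x := by
      rw [← e3]
      congr 1
      · funext i
        exact extK_mem (H := H) (Or.inl ⟨i, rfl⟩)
      · funext j
        exact extK_mem (H := H) (Or.inr ⟨j, rfl⟩)
    rw [e4, hψ1] at h4
    exact (le_abs_self _).trans h4

end Pool.Agent.Helper78.UD
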