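import Mathlib
import Pool.Agent.Helper78.UDDefs
import Pool.Agent.Helper78.UDUniv
import Pool.Agent.Helper78.UDNonhom

/-!
# Main theorem: universal disposition does not imply homogeneity
-/

set_option autoImplicit false

universe u

open Cardinal

namespace Pool.Agent.Helper78.UD

variable {I Γ : Type u}

theorem univ_core [Infinite I] [Nonempty Γ] {A B : Type u} [NormedAddCommGroup A]
    [NormedSpace ℝ A] [NormedAddCommGroup B] [NormedSpace ℝ B] (hA : #A ≤ #I) (hB : #B ≤ #I)
    (v : A →ₗᵢ[ℝ] XT I Γ) (i : A →ₗᵢ[ℝ] B) :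
    ∃ w : B →ₗᵢ[ℝ] XT I Γ, ∀ a, w (i a) = v a := by
  classical
  obtain ⟨γ0⟩ : Nonempty Γ := inferInstance
  obtain ⟨s, hs, hsv⟩ := exists_enum hA (fun a => v a) (.base γ0)
  obtain ⟨b, hb⟩ : ∃ b : I → B, Function.Surjective b := by
    obtain ⟨e⟩ := (Cardinal.le_def _ _).1 hB
    exact ⟨Function.invFun e, Function.invFun_surjective e.injective⟩
  let L1 : (I →₀ ℝ) →ₗ[ℝ] XT I Γ := Finsupp.linearCombination ℝ (fun i => evX (s i))
  let L2 : (I →₀ ℝ) →ₗ[ℝ] B := Finsupp.linearCombination ℝ b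
  have hL2 : Function.Surjective L2 := by
    intro y
    obtain ⟨j, rfl⟩ := hb y
    exact ⟨Finsupp.single j 1, by simp [L2]⟩
  let F : Comb I → A → ℝ := fun x a => ‖L1 x.1 + v a‖ + ‖L2 x.2 - i a‖
  have hF0 : ∀ x a, 0 ≤ F x a := fun x a => add_nonneg (norm_nonneg _) (norm_nonneg _)
  let P : Comb I → ℝ := fun x => ⨅ a, F x a
  have hbdd : ∀ x, BddBelow (Set.range (F x)) := fun x => ⟨0, by
    rintro _ ⟨a, rfl⟩
    exact hF0 x a⟩
  have hPle : ∀ x a, P x ≤ F x a := fun x a => ciInf_le (hbdd x) a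
  have hPlt : ∀ x (ε : ℝ), 0 < ε → ∃ a, F x a < P x + ε := fun x ε hε =>
    exists_lt_of_ciInf_lt (by
      show P x < P x + ε
      linarith)
  have hP0 : ∀ x, 0 ≤ P x := fun x => le_ciInf (hF0 x)
  have hadd : ∀ x y, P (x + y) ≤ P x + P y := by
    intro x y
    refine le_of_forall_pos_le_add fun ε hε => ?_
    obtain ⟨a, ha⟩ := hPlt x (ε / 2) (by linarith)
    obtain ⟨a', ha'⟩ := hPlt y (ε / 2) (by linarith)
    have h1 : F (x + y) (a + a') ≤ F x a + F y a' := by
      have e1 : L1 (x + y).1 + v (a + a') = (L1 x.1 + v a) + (L1 y.1 + v a') := by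
        rw [Prod.fst_add, map_add, map_add]
        abel
      have e2 : L2 (x + y).2 - i (a + a') = (L2 x.2 - i a) + (L2 y.2 - i a') := by
        rw [Prod.snd_add, map_add, map_add]
        abel
      simp only [F]
      rw [e1, e2]
      have := norm_add_le (L1 x.1 + v a) (L1 y.1 + v a')
      have := norm_add_le (L2 x.2 - i a) (L2 y.2 - i a')
      linarith
    have := hPle (x + y) (a + a')
    linarith
  have hsm1 : ∀ (c : ℝ) x, P (c • x) ≤ |c| * P x := by
    intro c x
    have h1 : ∀ a, F (c • x) (c • a) = |c| * F x a := by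
      intro a
      simp only [F]
      have e1 : L1 (c • x).1 + v (c • a) = c • (L1 x.1 + v a) := by
        rw [Prod.smul_fst, map_smul, map_smul, smul_add]
      have e2 : L2 (c • x).2 - i (c • a) = c • (L2 x.2 - i a) := by
        rw [Prod.smul_snd, map_smul, map_smul, smul_sub]
      rw [e1, e2, norm_smul, norm_smul, Real.norm_eq_abs]
      ring
    rcases eq_or_ne c 0 with rfl | hc
    · have := hPle ((0 : ℝ) • x) ((0 : ℝ) • (0 : A))
      rw [h1] at this
      simpa using this
    · have hc' : 0 < |c| := abs_pos.2 hc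
      refine le_of_forall_pos_le_add fun ε hε => ?_
      obtain ⟨a, ha⟩ := hPlt x (ε / |c|) (by positivity)
      have h2 := hPle (c • x) (c • a)
      rw [h1] at h2
      have h3 : |c| * F x a ≤ |c| * (P x + ε / |c|) := by
        apply mul_le_mul_of_nonneg_left ha.le hc'.le
      have h4 : |c| * (P x + ε / |c|) = |c| * P x + ε := by
        field_simp
      linarith
  have hsemi : IsSemi P := by
    refine ⟨hadd, fun c x => le_antisymm (hsm1 c x) ?_⟩
    rcases eq_or_ne c 0 with rfl | hc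
    · simpa using hP0 _
    · have hc' : 0 < |c| := abs_pos.2 hc
      have h1 := hsm1 c⁻¹ (c • x)
      rw [smul_smul, inv_mul_cancel₀ hc, one_smul, abs_inv] at h1
      have h2 : |c| * P x ≤ |c| * (|c|⁻¹ * P (c • x)) := mul_le_mul_of_nonneg_left h1 hc'.le
      rwa [← mul_assoc, mul_inv_cancel₀ hc'.ne', one_mul] at h2
  have hPinl : ∀ a0 : I →₀ ℝ, P (a0, 0) = ‖L1 a0‖ := by
    intro a0
    apply le_antisymm
    · have := hPle (a0, 0) 0
      simpa [F] using this
    · refine le_ciInf fun a => ?_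
      simp only [F, map_zero, zero_sub, norm_neg, i.norm_map]
      have h1 := norm_sub_le (L1 a0 + v a) (v a)
      rw [add_sub_cancel_right, v.norm_map] at h1
      exact h1
  have hPinr : ∀ d : I →₀ ℝ, P (0, d) = ‖L2 d‖ := by
    intro d
    apply le_antisymm
    · have := hPle (0, d) 0
      simpa [F] using this
    · refine le_ciInf fun a => ?_
      simp only [F, map_zero, zero_add, v.norm_map]
      have h1 := norm_add_le (L2 d - i a) (i a)
      rw [sub_add_cancel, i.norm_map] at h1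
      linarith
  have hnorm := norm_ext_eq s hs P hsemi hPinl
  let L3 : (I →₀ ℝ) →ₗ[ℝ] XT I Γ := Finsupp.linearCombination ℝ (fun j => evX (.ext s P j))
  have hL3 : ∀ d, ‖L3 d‖ = ‖L2 d‖ := by
    intro d
    have := hnorm (0, d)
    rw [hPinr] at this
    rw [← this]
    simp [L3]
  obtain ⟨g, hg⟩ := L2.exists_rightInverse_of_surjective (LinearMap.range_eq_top.2 hL2)
  have hg' : ∀ y, L2 (g y) = y := fun y => congrArg (fun L => L y) hg
  let w : B →ₗᵢ[ℝ] XT I Γ :=
    { toLinearMap := L3.comp g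
      norm_map' := fun y => by
        show ‖L3 (g y)‖ = ‖y‖
        rw [hL3, hg'] }
  refine ⟨w, fun a => ?_⟩
  have key : ∀ ε : ℝ, 0 < ε → ‖w (i a) - v a‖ ≤ ε := by
    intro ε hε
    have h1 : v a ∈ closure (Submodule.span ℝ (evX '' Set.range s) : Set (XT I Γ)) := hsv a
    obtain ⟨y, hy, hya⟩ := Metric.mem_closure_iff.1 h1 (ε / 2) (by linarith)
    have hy2 : y ∈ Submodule.span ℝ (Set.range fun i => (evX (s i) : XT I Γ)) := by
      have e : (evX '' Set.range s : Set (XT I Γ)) = Set.range fun i => evX (s i) := by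
        rw [← Set.range_comp]
        rfl
      rw [e] at hy
      exact hy
    obtain ⟨c, hc⟩ := (Finsupp.mem_span_range_iff_exists_finsupp).1 hy2
    have hc' : L1 c = y := hc
    have h2 : ‖L1 c + L3 (-(g (i a)))‖ ≤ ‖L1 c - v a‖ := by
      have h3 := hnorm (c, -(g (i a)))
      have h4 := hPle (c, -(g (i a))) (-a)
      simp only [F, map_neg, hg', sub_self, norm_zero, add_zero] at h4
      rw [← sub_eq_add_neg] at h4
      exact h3.le.trans h4
    have h5 : w (i a) = L3 (g (i a)) := rfl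
    have h6 : w (i a) - v a = (L1 c - v a) - (L1 c + L3 (-(g (i a)))) := by
      rw [h5, map_neg]
      abel
    have h7 : ‖L1 c - v a‖ < ε / 2 := by
      rw [hc', ← dist_eq_norm, dist_comm]
      exact hya
    rw [h6]
    refine (norm_sub_le _ _).trans ?_
    linarith
  have h8 : ‖w (i a) - v a‖ ≤ 0 := le_of_forall_pos_le_add fun ε hε => by
    rw [zero_add]
    exact key ε hε
  exact sub_eq_zero.1 (norm_le_zero_iff.1 h8)

/-! ### Cardinalities -/

lemma mk_le_of_dense {A : Type u} [NormedAddCommGroup A] (s : Set A) (hs : Dense s) :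
    #A ≤ #s ^ ℵ₀ := by
  have h1 : ∀ a : A, ∃ y : ℕ → s, Filter.Tendsto (fun n => (y n : A)) Filter.atTop (nhds a) := by
    intro a
    obtain ⟨y, hy, hlim⟩ := mem_closure_iff_seq_limit.1 (hs a)
    exact ⟨fun n => ⟨y n, hy n⟩, hlim⟩
  choose y hy using h1
  have hinj : Function.Injective y := by
    intro a a' h
    have h2 := hy a
    rw [h] at h2
    exact tendsto_nhds_unique h2 (hy a')
  have := Cardinal.mk_le_of_injective hinj
  rw [Cardinal.mk_arrow, Cardinal.mk_nat, Cardinal.lift_aleph0, Cardinal.lift_uzero] at this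
  exact this

lemma exists_dense_of_InD {κ : Cardinal.{u}} (hκ : ℵ₀ ≤ κ) {A : Type u} [NormedAddCommGroup A]
    [NormedSpace ℝ A] (h : InD κ A) : ∃ s : Set A, Dense s ∧ #s ≤ κ := by
  by_cases hk : κ = ℵ₀
  · have := h.1 hk
    have hp : ProperSpace A := FiniteDimensional.proper ℝ A
    obtain ⟨s, hs1, hs2⟩ := TopologicalSpace.exists_countable_dense A
    exact ⟨s, hs2, (Cardinal.le_aleph0_iff_set_countable.2 hs1).trans hκ⟩
  · obtain ⟨s, hs1, hs2⟩ := h.2 hk
    exact ⟨s, hs1, hs2.le⟩

lemma mk_le_of_InD {κ : Cardinal.{u}} (hκ : ℵ₀ ≤ κ) {A : Type u} [NormedAddCommGroup A]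
    [NormedSpace ℝ A] (h : InD κ A) : #A ≤ 2 ^ κ := by
  obtain ⟨s, hs1, hs2⟩ := exists_dense_of_InD hκ h
  refine (mk_le_of_dense s hs1).trans ?_
  calc #s ^ ℵ₀ ≤ κ ^ ℵ₀ := Cardinal.power_le_power_right hs2
    _ ≤ (2 ^ κ) ^ ℵ₀ := Cardinal.power_le_power_right (Cardinal.cantor κ).le
    _ = 2 ^ κ := by
      rw [← Cardinal.power_mul, Cardinal.mul_eq_left hκ hκ Cardinal.aleph0_ne_zero]

lemma InD_of_finite {κ : Cardinal.{u}} (hκ : ℵ₀ ≤ κ) {A : Type u} [NormedAddCommGroup A]
    [NormedSpace ℝ A] [FiniteDimensional ℝ A] : InD κ A := by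
  refine ⟨fun _ => inferInstance, fun hk => ?_⟩
  have hp : ProperSpace A := FiniteDimensional.proper ℝ A
  obtain ⟨s, hs1, hs2⟩ := TopologicalSpace.exists_countable_dense A
  exact ⟨s, hs2, (Cardinal.le_aleph0_iff_set_countable.2 hs1).trans_lt
    (lt_of_le_of_ne hκ (Ne.symm hk))⟩

/-- For every infinite cardinal there is a Banach space of universal disposition that is not
homogeneous. -/
theorem main (κ : Cardinal.{u}) (hκ : ℵ₀ ≤ κ) :
    ∃ (X : Type u) (_ : NormedAddCommGroup X) (_ : NormedSpace ℝ X) (_ : CompleteSpace X),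
      UniversalDisposition κ X ∧ ¬ Homogeneous κ X := by
  let I : Type u := Set κ.out
  have hI : #I = 2 ^ κ := by
    rw [Cardinal.mk_set, Cardinal.mk_out]
  have hIinf : Infinite I := by
    rw [Cardinal.infinite_iff, hI]
    exact hκ.trans (Cardinal.cantor κ).le
  let Γ : Type u := Set (Set I)
  have hΓ1 : #(Set I) = 2 ^ #I := Cardinal.mk_set
  have hΓ2 : #Γ = 2 ^ #(Set I) := Cardinal.mk_set
  have hΓ : 2 ^ #I < #Γ := by
    rw [hΓ2, ← hΓ1]
    exact Cardinal.cantor _
  refine ⟨XT I (Option Γ), inferInstance, inferInstance, inferInstance, ?_, ?_⟩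
  · intro A B _ _ _ _ _ _ hA hB v i
    exact univ_core ((mk_le_of_InD hκ hA).trans hI.ge) ((mk_le_of_InD hκ hB).trans hI.ge) v i
  · intro hhom
    obtain ⟨j⟩ : Nonempty I := inferInstance
    let e : XT I (Option Γ) := evX (.base none)
    let f : XT I (Option Γ) := evX (cf none j)
    have he : ‖e‖ = 1 := norm_base _
    have hf : ‖f‖ = 1 := norm_cf _ _
    let φ : (Submodule.span ℝ {e}) ≃ₗᵢ[ℝ] (Submodule.span ℝ {f}) :=
      (LinearIsometryEquiv.toSpanUnitSingleton e he).symm.trans
        (LinearIsometryEquiv.toSpanUnitSingleton f hf)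
    obtain ⟨Φ, hΦ⟩ := hhom _ _ (Submodule.closed_of_finiteDimensional _)
      (Submodule.closed_of_finiteDimensional _) (InD_of_finite hκ) (InD_of_finite hκ) φ
    refine no_isometry hΓ j Φ.toLinearIsometry ?_
    have h1 := hΦ ⟨e, Submodule.mem_span_singleton_self e⟩
    have h2 : φ ⟨e, Submodule.mem_span_singleton_self e⟩ =
        ⟨f, Submodule.mem_span_singleton_self f⟩ := by
      have h3 : (⟨e, Submodule.mem_span_singleton_self e⟩ : Submodule.span ℝ {e}) =
          LinearIsometryEquiv.toSpanUnitSingleton e he 1 := by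
        ext
        simp
      show (LinearIsometryEquiv.toSpanUnitSingleton f hf)
        ((LinearIsometryEquiv.toSpanUnitSingleton e he).symm _) = _
      rw [h3, LinearIsometryEquiv.symm_apply_apply]
      ext
      simp
    rw [h2] at h1
    exact h1

end Pool.Agent.Helper78.UD
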